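import Mathlib

/-!
The group `Tri R` of upper triangular `3 x 3` matrices with rows
`(1, a, c)`, `(0, A, b)`, `(0, 0, C)` over a commutative ring `R`.
-/

namespace Run7.h607

/-- The matrix with rows `(1, a, c)`, `(0, A, b)`, `(0, 0, C)`. -/
@[ext] structure Tri (R : Type*) [CommRing R] where
  A : Rˣ
  C : Rˣ
  a : R
  b : R
  c : R

namespace Tri

variable {R : Type*} [CommRing R]

instance : Mul (Tri R) := ⟨fun g h =>
  ⟨g.A * h.A, g.C * h.C, h.a + g.a * h.A, g.A * h.b + g.b * h.C, h.c + g.a * h.b + g.c * h.C⟩⟩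
instance : One (Tri R) := ⟨⟨1, 1, 0, 0, 0⟩⟩
instance : Inv (Tri R) := ⟨fun g =>
  ⟨g.A⁻¹, g.C⁻¹, -(g.a * ↑(g.A⁻¹)), -(↑(g.A⁻¹) * g.b * ↑(g.C⁻¹)),
    (g.a * ↑(g.A⁻¹) * g.b - g.c) * ↑(g.C⁻¹)⟩⟩

@[simp] lemma mul_A (g h : Tri R) : (g * h).A = g.A * h.A := rfl
@[simp] lemma mul_C (g h : Tri R) : (g * h).C = g.C * h.C := rfl
@[simp] lemma mul_a (g h : Tri R) : (g * h).a = h.a + g.a * h.A := rfl
@[simp] lemma mul_b (g h : Tri R) : (g * h).b = g.A * h.b + g.b * h.C := rfl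
@[simp] lemma mul_c (g h : Tri R) : (g * h).c = h.c + g.a * h.b + g.c * h.C := rfl
@[simp] lemma one_A : (1 : Tri R).A = 1 := rfl
@[simp] lemma one_C : (1 : Tri R).C = 1 := rfl
@[simp] lemma one_a : (1 : Tri R).a = 0 := rfl
@[simp] lemma one_b : (1 : Tri R).b = 0 := rfl
@[simp] lemma one_c : (1 : Tri R).c = 0 := rfl
@[simp] lemma inv_A (g : Tri R) : (g⁻¹).A = g.A⁻¹ := rfl
@[simp] lemma inv_C (g : Tri R) : (g⁻¹).C = g.C⁻¹ := rfl
@[simp] lemma inv_a (g : Tri R) : (g⁻¹).a = -(g.a * ↑(g.A⁻¹)) := rfl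
@[simp] lemma inv_b (g : Tri R) : (g⁻¹).b = -(↑(g.A⁻¹) * g.b * ↑(g.C⁻¹)) := rfl
@[simp] lemma inv_c (g : Tri R) : (g⁻¹).c = (g.a * ↑(g.A⁻¹) * g.b - g.c) * ↑(g.C⁻¹) := rfl

instance : Group (Tri R) where
  mul_assoc g h k := by
    ext
    · simp [mul_assoc]
    · simp [mul_assoc]
    · simp; ring
    · simp; ring
    · simp; ring
  one_mul g := by ext <;> simp
  mul_one g := by ext <;> simp
  inv_mul_cancel g := by
    have hA : (↑(g.A⁻¹) : R) * g.A = 1 := Units.inv_mul _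
    have hC : (↑(g.C⁻¹) : R) * g.C = 1 := Units.inv_mul _
    ext
    · simp
    · simp
    · simp only [mul_a, inv_a, one_a]; linear_combination (-g.a) * hA
    · simp only [mul_b, inv_b, inv_A, one_b]
      linear_combination (-(↑(g.A⁻¹) : R) * g.b) * hC
    · simp only [mul_c, inv_c, inv_a, one_c]
      linear_combination (g.a * ↑(g.A⁻¹) * g.b - g.c) * hC

/-- The commutator `g⁻¹ h⁻¹ g h` is determined by `h g w = g h`. -/
lemma comm_eq_of {g h w : Tri R} (e : h * g * w = g * h) : g⁻¹ * h⁻¹ * g * h = w := by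
  rw [mul_assoc (g⁻¹ * h⁻¹) g h, ← e]
  group

/-- The diagonal as a homomorphism. -/
def diag : Tri R →* Rˣ × Rˣ where
  toFun g := (g.A, g.C)
  map_one' := rfl
  map_mul' _ _ := rfl

@[simp] lemma diag_apply (g : Tri R) : diag g = (g.A, g.C) := rfl

instance [Finite R] : Finite (Tri R) :=
  Finite.of_injective (fun u : Tri R => (u.A, u.C, u.a, u.b, u.c)) (by
    intro u v h
    simp only [Prod.mk.injEq] at h
    ext1
    · exact h.1
    · exact h.2.1
    · exact h.2.2.1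
    · exact h.2.2.2.1
    · exact h.2.2.2.2)

end Tri

end Run7.h607
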