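import Mathlib
import Pool.Agent.Run7.h607.Tri

/-!
Iterated commutators `[x, g, g, g, g]` in `Tri R` for diagonal `x`.
-/

namespace Run7.h607

/-- `g⁻¹ h⁻¹ g h` -/
def cm {G : Type*} [Group G] (g h : G) : G := g⁻¹ * h⁻¹ * g * h

/-- The polynomial that governs `[x, g, g, g, g]`. -/
def Psi {R : Type*} [CommRing R] (α β A B : R) : R :=
  -(α * (1 - β) * (A * B - 1) ^ 3)
    + (A * B - 1) ^ 2 * (A * (1 - α) - (1 - β) * B - (1 - α) * (1 - β) * (B - 1))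
    + (A * B - 1) * (A * (1 - α) * (A - 1) - (1 - β) * (B - 1) * B
        - (1 - α) * (1 - β) * (A - 1) * (B - 1) ^ 2)
    + (A * (1 - α) * (A - 1) ^ 2 - (1 - β) * (B - 1) ^ 2 * B
        - (1 - α) * (1 - β) * (A - 1) ^ 2 * (B - 1) ^ 3)

namespace Tri

variable {R : Type*} [CommRing R]

lemma cm_eq_of {g h w : Tri R} (e : h * g * w = g * h) : cm g h = w := comm_eq_of e

lemma cm_diag (α β : Rˣ) (A B : Rˣ) (a b c : R) :
    cm (⟨α, α * β, 0, 0, 0⟩ : Tri R) ⟨A, A * B, a, b, c⟩ =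
      ⟨1, 1, a * (1 - α), ↑(A⁻¹) * b * (1 - β),
        c * (1 - α * β) - a * α * ↑(A⁻¹) * b * (1 - β)⟩ := by
  have hA : (↑(A⁻¹) : R) * A = 1 := Units.inv_mul _
  apply cm_eq_of
  ext
  · simp [mul_comm]
  · simp [mul_comm]
  · simp; ring
  · simp only [mul_b, mul_A, Units.val_mul, mul_zero, zero_add]
    simp only [Units.val_one]
    linear_combination (α * b * (1 - β)) * hA
  · simp; ring

lemma cm_uni (A B : Rˣ) (a b c p q r : R) :
    cm (⟨1, 1, p, q, r⟩ : Tri R) ⟨A, A * B, a, b, c⟩ =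
      ⟨1, 1, p * (A - 1), q * (B - 1),
        r * (A * B - 1) + p * b - a * q * B - p * q * (B - 1)⟩ := by
  apply cm_eq_of
  ext
  · simp
  · simp
  · simp; ring
  · simp; ring
  · simp; ring

theorem engel4 (α β A B : Rˣ) (a b c : R)
    (h1 : (1 - α : R) * (A - 1) ^ 3 = 0) (h2 : (1 - β : R) * (B - 1) ^ 3 = 0)
    (h3 : (1 - α * β : R) * (A * B - 1) ^ 3 = 0) (h4 : Psi (α : R) β A B = 0) :
    cm (cm (cm (cm (⟨α, α * β, 0, 0, 0⟩ : Tri R) ⟨A, A * B, a, b, c⟩) ⟨A, A * B, a, b, c⟩)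
      ⟨A, A * B, a, b, c⟩) ⟨A, A * B, a, b, c⟩ = 1 := by
  have hA : (↑(A⁻¹) : R) * A = 1 := Units.inv_mul _
  rw [cm_diag, cm_uni, cm_uni, cm_uni]
  unfold Psi at h4
  ext
  · rfl
  · rfl
  · simp only [one_a]
    linear_combination a * h1
  · simp only [one_b]
    linear_combination (↑(A⁻¹) * b) * h2
  · simp only [one_c]
    linear_combination c * h3 + (a * b * ↑(A⁻¹)) * h4
      - (a * b * (1 - α) * ((A * B - 1) ^ 2 + (A * B - 1) * (A - 1) + (A - 1) ^ 2)) * hA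

end Tri

end Run7.h607
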