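import Mathlib

/-!
The ring `R3 = (Z/625)[s] / (s^3 + 165 s^2 + 350 s + 250)` (in which `s^4 = 0`),
with the filtration `W n` (powers of the maximal ideal `(5, s)`), `W 6 = 0`.
-/

namespace Run7.h607

/-- `x + y s + z s^2` in `(Z/625)[s] / (s^3 + 165 s^2 + 350 s + 250)`. -/
@[ext] structure R3 where
  x : ZMod 625
  y : ZMod 625
  z : ZMod 625
deriving DecidableEq

namespace R3

instance : Zero R3 := ⟨⟨0, 0, 0⟩⟩
instance : One R3 := ⟨⟨1, 0, 0⟩⟩
instance : Add R3 := ⟨fun u v => ⟨u.x + v.x, u.y + v.y, u.z + v.z⟩⟩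
instance : Neg R3 := ⟨fun u => ⟨-u.x, -u.y, -u.z⟩⟩
instance : Mul R3 := ⟨fun u v =>
  ⟨u.x * v.x - 250 * (u.y * v.z + u.z * v.y),
   u.x * v.y + u.y * v.x - 350 * (u.y * v.z + u.z * v.y),
   u.x * v.z + u.y * v.y + u.z * v.x - 165 * (u.y * v.z + u.z * v.y)⟩⟩

@[simp] lemma zero_x : (0 : R3).x = 0 := rfl
@[simp] lemma zero_y : (0 : R3).y = 0 := rfl
@[simp] lemma zero_z : (0 : R3).z = 0 := rfl
@[simp] lemma one_x : (1 : R3).x = 1 := rfl
@[simp] lemma one_y : (1 : R3).y = 0 := rfl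
@[simp] lemma one_z : (1 : R3).z = 0 := rfl
@[simp] lemma add_x (u v : R3) : (u + v).x = u.x + v.x := rfl
@[simp] lemma add_y (u v : R3) : (u + v).y = u.y + v.y := rfl
@[simp] lemma add_z (u v : R3) : (u + v).z = u.z + v.z := rfl
@[simp] lemma neg_x (u : R3) : (-u).x = -u.x := rfl
@[simp] lemma neg_y (u : R3) : (-u).y = -u.y := rfl
@[simp] lemma neg_z (u : R3) : (-u).z = -u.z := rfl
@[simp] lemma mul_x (u v : R3) :
    (u * v).x = u.x * v.x - 250 * (u.y * v.z + u.z * v.y) := rfl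
@[simp] lemma mul_y (u v : R3) :
    (u * v).y = u.x * v.y + u.y * v.x - 350 * (u.y * v.z + u.z * v.y) := rfl
@[simp] lemma mul_z (u v : R3) :
    (u * v).z = u.x * v.z + u.y * v.y + u.z * v.x - 165 * (u.y * v.z + u.z * v.y) := rfl

lemma h625 : (625 : ZMod 625) = 0 := by decide

lemma mul_assoc' (u v w : R3) : u * v * w = u * (v * w) := by
  ext
  · simp only [mul_x, mul_y, mul_z]
    linear_combination (140 * (u.y * v.z * w.z - v.z * u.z * w.y)
      + 66 * (u.z * v.y * w.y - u.y * v.y * w.z)) * h625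
  · simp only [mul_x, mul_y, mul_z]
    linear_combination (196 * (u.y * v.z * w.z - v.z * u.z * w.y)
      + 92 * (u.z * v.y * w.y - u.y * v.y * w.z)) * h625
  · simp only [mul_x, mul_y, mul_z]
    linear_combination (92 * (u.y * v.z * w.z - v.z * u.z * w.y)
      + 43 * (u.z * v.y * w.y - u.y * v.y * w.z)) * h625

instance : CommRing R3 where
  add_assoc u v w := by ext <;> simp <;> ring
  zero_add u := by ext <;> simp
  add_zero u := by ext <;> simp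
  add_comm u v := by ext <;> simp <;> ring
  left_distrib u v w := by ext <;> simp <;> ring
  right_distrib u v w := by ext <;> simp <;> ring
  zero_mul u := by ext <;> simp
  mul_zero u := by ext <;> simp
  mul_assoc := mul_assoc'
  one_mul u := by ext <;> simp
  mul_one u := by ext <;> simp
  mul_comm u v := by ext <;> simp <;> ring
  neg_add_cancel u := by ext <;> simp
  nsmul := nsmulRec
  zsmul := zsmulRec

@[simp] lemma sub_x (u v : R3) : (u - v).x = u.x - v.x := by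
  rw [sub_eq_add_neg, add_x, neg_x, sub_eq_add_neg]
@[simp] lemma sub_y (u v : R3) : (u - v).y = u.y - v.y := by
  rw [sub_eq_add_neg, add_y, neg_y, sub_eq_add_neg]
@[simp] lemma sub_z (u v : R3) : (u - v).z = u.z - v.z := by
  rw [sub_eq_add_neg, add_z, neg_z, sub_eq_add_neg]

instance : Finite R3 :=
  Finite.of_injective (fun u : R3 => (u.x, u.y, u.z)) (by
    intro u v h
    simp only [Prod.mk.injEq] at h
    ext
    · exact h.1
    · exact h.2.1
    · exact h.2.2)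

/-- the generator `s` -/
def s : R3 := ⟨0, 1, 0⟩

/-- The filtration by powers of the maximal ideal. -/
def W (n : ℕ) (u : R3) : Prop :=
  (5 : ZMod 625) ^ n ∣ u.x ∧ (5 : ZMod 625) ^ (n - 1) ∣ u.y ∧ (5 : ZMod 625) ^ (n - 2) ∣ u.z

lemma W_zero (u : R3) : W 0 u := by
  refine ⟨?_, ?_, ?_⟩ <;> simp

lemma W_add {n : ℕ} {u v : R3} (hu : W n u) (hv : W n v) : W n (u + v) :=
  ⟨dvd_add hu.1 hv.1, dvd_add hu.2.1 hv.2.1, dvd_add hu.2.2 hv.2.2⟩

lemma W_zero_mem (n : ℕ) : W n 0 := ⟨dvd_zero _, dvd_zero _, dvd_zero _⟩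

lemma W_neg {n : ℕ} {u : R3} (hu : W n u) : W n (-u) :=
  ⟨(dvd_neg).2 hu.1, (dvd_neg).2 hu.2.1, (dvd_neg).2 hu.2.2⟩

lemma W_sub {n : ℕ} {u v : R3} (hu : W n u) (hv : W n v) : W n (u - v) := by
  rw [sub_eq_add_neg]; exact W_add hu (W_neg hv)

lemma W_anti {m n : ℕ} (h : m ≤ n) {u : R3} (hu : W n u) : W m u :=
  ⟨(pow_dvd_pow _ h).trans hu.1, (pow_dvd_pow _ (by omega)).trans hu.2.1,
    (pow_dvd_pow _ (by omega)).trans hu.2.2⟩

lemma h250 : (250 : ZMod 625) = 5 ^ 3 * 2 := by decide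
lemma h350 : (350 : ZMod 625) = 5 ^ 2 * 14 := by decide
lemma h165 : (165 : ZMod 625) = 5 * 33 := by decide

lemma dvd_aux {k a b : ℕ} {u v : ZMod 625} (hu : (5 : ZMod 625) ^ a ∣ u)
    (hv : (5 : ZMod 625) ^ b ∣ v) (h : k ≤ a + b) : (5 : ZMod 625) ^ k ∣ u * v :=
  (pow_dvd_pow _ h).trans (by rw [pow_add]; exact mul_dvd_mul hu hv)

lemma dvd_aux' {k a b c : ℕ} {t u v : ZMod 625} (ht : (5 : ZMod 625) ^ c ∣ t)
    (hu : (5 : ZMod 625) ^ a ∣ u)
    (hv : (5 : ZMod 625) ^ b ∣ v) (h : k ≤ c + (a + b)) : (5 : ZMod 625) ^ k ∣ t * (u * v) :=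
  dvd_aux ht (dvd_aux hu hv le_rfl) h

lemma W_mul {m n : ℕ} {u v : R3} (hu : W m u) (hv : W n v) : W (m + n) (u * v) := by
  have e1 : (5 : ZMod 625) ^ 3 ∣ 250 := ⟨2, h250⟩
  have e2 : (5 : ZMod 625) ^ 2 ∣ 350 := ⟨14, h350⟩
  have e3 : (5 : ZMod 625) ^ 1 ∣ 165 := ⟨33, by rw [pow_one]; exact h165⟩
  obtain ⟨hu1, hu2, hu3⟩ := hu
  obtain ⟨hv1, hv2, hv3⟩ := hv
  refine ⟨?_, ?_, ?_⟩
  · rw [mul_x, mul_add]
    exact dvd_sub (dvd_aux hu1 hv1 le_rfl)
      (dvd_add (dvd_aux' e1 hu2 hv3 (by omega)) (dvd_aux' e1 hu3 hv2 (by omega)))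
  · rw [mul_y, mul_add]
    exact dvd_sub (dvd_add (dvd_aux hu1 hv2 (by omega)) (dvd_aux hu2 hv1 (by omega)))
      (dvd_add (dvd_aux' e2 hu2 hv3 (by omega)) (dvd_aux' e2 hu3 hv2 (by omega)))
  · rw [mul_z, mul_add]
    exact dvd_sub (dvd_add (dvd_add (dvd_aux hu1 hv3 (by omega)) (dvd_aux hu2 hv2 (by omega)))
      (dvd_aux hu3 hv1 (by omega)))
      (dvd_add (dvd_aux' e3 hu2 hv3 (by omega)) (dvd_aux' e3 hu3 hv2 (by omega)))

lemma W_mul_left {n : ℕ} (u : R3) {v : R3} (hv : W n v) : W n (u * v) := by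
  have := W_mul (W_zero u) hv
  simpa using this

lemma W_mul_right {n : ℕ} {u : R3} (hu : W n u) (v : R3) : W n (u * v) := by
  rw [mul_comm]; exact W_mul_left v hu

lemma W_six {u : R3} (h : W 6 u) : u = 0 := by
  have h4 : (5 : ZMod 625) ^ 4 = 0 := by decide
  have key : ∀ (k : ℕ) (t : ZMod 625), 4 ≤ k → (5 : ZMod 625) ^ k ∣ t → t = 0 := by
    intro k t hk ht
    obtain ⟨j, rfl⟩ := Nat.exists_eq_add_of_le hk
    rw [pow_add, h4, zero_mul] at ht
    exact zero_dvd_iff.1 ht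
  obtain ⟨h1, h2, h3⟩ := h
  ext
  · exact key _ _ (by omega) h1
  · exact key _ _ (by omega) h2
  · exact key _ _ (by omega) h3

end R3

end Run7.h607
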