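import Mathlib
import Pool.Agent.Run7.h607.Ring
import Pool.Agent.Run7.h607.Engel

/-!
The polynomial `Psi α β (α^k) (β^k)` vanishes in `R3` for all `k`.
-/

namespace Run7.h607

open R3

/-- forward difference -/
def dl (f : ℕ → R3) : ℕ → R3 := fun k => f (k + 1) - f k

/-- `S m n f`: for `j ≤ n` the values of the `j`-th difference of `f` lie in `W (m + j)`. -/
def S : ℕ → ℕ → (ℕ → R3) → Prop
  | m, 0, f => ∀ k, W m (f k)
  | m, n + 1, f => (∀ k, W m (f k)) ∧ S (m + 1) n (dl f)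

lemma S_W : ∀ {m n : ℕ} {f : ℕ → R3}, S m n f → ∀ k, W m (f k)
  | _, 0, _, h => h
  | _, _ + 1, _, h => h.1

lemma S_anti : ∀ {m m' n : ℕ} {f : ℕ → R3}, m' ≤ m → S m n f → S m' n f
  | _, _, 0, _, hm, h => fun k => W_anti hm (h k)
  | _, _, _ + 1, _, hm, h => ⟨fun k => W_anti hm (h.1 k), S_anti (by omega) h.2⟩

lemma S_pred : ∀ {m n : ℕ} {f : ℕ → R3}, S m (n + 1) f → S m n f
  | _, 0, _, h => h.1
  | _, _ + 1, _, h => ⟨h.1, S_pred h.2⟩

lemma dl_add (f g : ℕ → R3) : dl (f + g) = dl f + dl g := by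
  funext k; simp only [dl, Pi.add_apply]; ring

lemma dl_neg (f : ℕ → R3) : dl (-f) = -dl f := by
  funext k; simp only [dl, Pi.neg_apply]; ring

lemma dl_mul (f g : ℕ → R3) : dl (f * g) = dl f * g + f * dl g + dl f * dl g := by
  funext k; simp only [dl, Pi.add_apply, Pi.mul_apply]; ring

lemma S_add : ∀ {m n : ℕ} {f g : ℕ → R3}, S m n f → S m n g → S m n (f + g)
  | _, 0, _, _, hf, hg => fun k => W_add (hf k) (hg k)
  | _, _ + 1, f, g, hf, hg => ⟨fun k => W_add (hf.1 k) (hg.1 k), by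
      rw [dl_add]; exact S_add hf.2 hg.2⟩

lemma S_neg : ∀ {m n : ℕ} {f : ℕ → R3}, S m n f → S m n (-f)
  | _, 0, _, hf => fun k => W_neg (hf k)
  | _, _ + 1, f, hf => ⟨fun k => W_neg (hf.1 k), by
      rw [dl_neg]; exact S_neg hf.2⟩

lemma S_mul : ∀ {m m' n : ℕ} {f g : ℕ → R3}, S m n f → S m' n g → S (m + m') n (f * g)
  | _, _, 0, _, _, hf, hg => fun k => W_mul (hf k) (hg k)
  | m, m', n + 1, f, g, hf, hg => by
      refine ⟨fun k => W_mul (hf.1 k) (hg.1 k), ?_⟩
      rw [dl_mul]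
      have e1 : S (m + m' + 1) n (dl f * g) := by
        have := S_mul hf.2 (S_pred hg)
        rwa [show m + 1 + m' = m + m' + 1 by omega] at this
      have e2 : S (m + m' + 1) n (f * dl g) := by
        have := S_mul (S_pred hf) hg.2
        rwa [show m + (m' + 1) = m + m' + 1 by omega] at this
      have e3 : S (m + m' + 1) n (dl f * dl g) :=
        S_anti (by omega) (S_mul hf.2 hg.2)
      exact S_add (S_add e1 e2) e3

lemma S_zero : ∀ (m n : ℕ), S m n 0
  | _, 0 => fun _ => W_zero_mem _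
  | m, n + 1 => ⟨fun _ => W_zero_mem _, by
      have : dl (0 : ℕ → R3) = 0 := by funext k; simp [dl]
      rw [this]; exact S_zero _ _⟩

lemma S_const {m : ℕ} (n : ℕ) {u : R3} (hu : W m u) : S m n (fun _ => u) := by
  cases n with
  | zero => exact fun _ => hu
  | succ n =>
    refine ⟨fun _ => hu, ?_⟩
    have : dl (fun _ => u) = 0 := by funext k; simp [dl]
    rw [this]; exact S_zero _ _

lemma S_pow {u : R3} (hu : W 1 (u - 1)) : ∀ n, S 0 n (fun k => u ^ k)
  | 0 => fun _ => W_zero _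
  | n + 1 => by
      refine ⟨fun _ => W_zero _, ?_⟩
      have : dl (fun k => u ^ k) = (fun _ => u - 1) * (fun k => u ^ k) := by
        funext k; simp only [dl, Pi.mul_apply, pow_succ]; ring
      rw [this]
      exact S_mul (m := 1) (m' := 0) (S_const n hu) (S_pow hu n)

lemma S_vanish : ∀ (n m : ℕ) (f : ℕ → R3), m + n = 6 → S m n f → (∀ j < n, f j = 0) →
    ∀ k, f k = 0
  | 0, m, f, hmn, h, _, k => by
      have : m = 6 := by omega
      subst this
      exact W_six (h k)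
  | n + 1, m, f, hmn, h, hj, k => by
      have hd : ∀ k, dl f k = 0 := S_vanish n (m + 1) (dl f) (by omega) h.2 (fun j hjn => by
        simp only [dl]; rw [hj (j + 1) (by omega), hj j (by omega), sub_zero])
      induction k with
      | zero => exact hj 0 (by omega)
      | succ k ih =>
        have := hd k
        simp only [dl] at this
        rw [ih, sub_zero] at this
        exact this

/-- The subring of functions with `S 0 n`. -/
def SR (n : ℕ) : Subring (ℕ → R3) where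
  carrier := {f | S 0 n f}
  mul_mem' hf hg := by
    have := S_mul hf hg
    simpa using this
  one_mem' := S_const n (W_zero _)
  add_mem' hf hg := S_add hf hg
  zero_mem' := S_zero _ _
  neg_mem' hf := S_neg hf

/-- `α = 1 + s` -/
def al : R3 := ⟨1, 1, 0⟩
/-- `α⁻¹ = 1 - s + s^2 - s^3` -/
def ali : R3 := ⟨251, 349, 166⟩
/-- `β = 16 / α` -/
def be : R3 := ⟨266, 584, 156⟩
/-- `β⁻¹ = α / 16` -/
def bei : R3 := ⟨586, 586, 0⟩

lemma al_mul : al * ali = 1 := by decide
lemma be_mul : be * bei = 1 := by decide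
lemma al_be : al * be = ⟨16, 0, 0⟩ := by decide

/-- `α` as a unit -/
def alu : R3ˣ := ⟨al, ali, al_mul, by rw [mul_comm]; exact al_mul⟩
/-- `β` as a unit -/
def beu : R3ˣ := ⟨be, bei, be_mul, by rw [mul_comm]; exact be_mul⟩

lemma W1_al : W 1 (al - 1) := by
  refine ⟨⟨0, by decide⟩, ⟨1, by decide⟩, ⟨0, by decide⟩⟩

lemma W1_be : W 1 (be - 1) := by
  refine ⟨⟨53, by decide⟩, ⟨583 + 1, by decide⟩, ⟨156, by decide⟩⟩

lemma psi_small : ∀ j < 6, Psi al be (al ^ j) (be ^ j) = 0 := by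
  decide

lemma mem_SR_const (n : ℕ) (u : R3) : (fun _ => u) ∈ SR n := S_const n (W_zero _)

lemma psi_mem {T : Type*} [CommRing T] (Q : Subring T) {α β A B : T} (ha : α ∈ Q) (hb : β ∈ Q)
    (hA : A ∈ Q) (hB : B ∈ Q) : Psi α β A B ∈ Q := by
  unfold Psi
  have h1 := Subring.one_mem Q
  repeat' first
    | assumption
    | apply Subring.add_mem | apply Subring.sub_mem | apply Subring.neg_mem
    | apply Subring.mul_mem | apply Subring.pow_mem

lemma psi_zero (k : ℕ) : Psi al be (al ^ k) (be ^ k) = 0 := by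
  have hA : (fun k => al ^ k) ∈ SR 6 := S_pow W1_al 6
  have hB : (fun k => be ^ k) ∈ SR 6 := S_pow W1_be 6
  have key : Psi (fun _ => al : ℕ → R3) (fun _ => be) (fun k => al ^ k) (fun k => be ^ k)
      ∈ SR 6 := psi_mem (SR 6) (mem_SR_const 6 al) (mem_SR_const 6 be) hA hB
  have e : Psi (fun _ => al : ℕ → R3) (fun _ => be) (fun k => al ^ k) (fun k => be ^ k)
      = fun k => Psi al be (al ^ k) (be ^ k) := by
    funext k
    simp only [Psi, Pi.add_apply, Pi.sub_apply, Pi.mul_apply, Pi.neg_apply, Pi.pow_apply,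
      Pi.one_apply]
  rw [e] at key
  exact S_vanish 6 0 (fun k => Psi al be (al ^ k) (be ^ k)) rfl key psi_small k

lemma pow_vanish {u v : R3} (hu : W 1 (u - 1)) (hv : ∀ j < 6, v * (u ^ j - 1) ^ 3 = 0) (k : ℕ) :
    v * (u ^ k - 1) ^ 3 = 0 := by
  have hA : (fun k => u ^ k) ∈ SR 6 := S_pow hu 6
  have hb : (fun _ => v : ℕ → R3) ∈ SR 6 := mem_SR_const 6 v
  have key : (fun _ => v : ℕ → R3) * ((fun k => u ^ k) - 1) ^ 3 ∈ SR 6 :=
    Subring.mul_mem _ hb (Subring.pow_mem _ (Subring.sub_mem _ hA (Subring.one_mem _)) _)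
  exact S_vanish 6 0 _ rfl key (fun j hj => hv j hj) k

lemma al_vanish (k : ℕ) : (1 - al) * (al ^ k - 1) ^ 3 = 0 :=
  pow_vanish W1_al (by decide) k

lemma be_vanish (k : ℕ) : (1 - be) * (be ^ k - 1) ^ 3 = 0 :=
  pow_vanish W1_be (by decide) k

lemma W1_albe : W 1 (al * be - 1) := by
  rw [al_be]
  refine ⟨⟨3, by decide⟩, ⟨0, by decide⟩, ⟨0, by decide⟩⟩

lemma albe_vanish (k : ℕ) : (1 - al * be) * (al ^ k * be ^ k - 1) ^ 3 = 0 := by
  rw [← mul_pow]
  exact pow_vanish W1_albe (by decide) k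

end Run7.h607
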