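import Mathlib
import Pool.Agent.Run7.h607.Vanish

/-!
Congruence subgroups of `Tri R3`, and the group `GG` generated by the diagonal matrix
`diag (1, α, 16)` and all unitriangular matrices.
-/

namespace Run7.h607

open R3
open scoped commutatorElement

/-- The congruence subgroup of level `W n`. -/
def Gam (n : ℕ) : Subgroup (Tri R3) where
  carrier := {g | W n ((g.A : R3) - 1) ∧ W n ((g.C : R3) - 1) ∧ W n g.a ∧ W n g.b ∧ W n g.c}
  one_mem' := by
    refine ⟨?_, ?_, ?_, ?_, ?_⟩
    · simpa using W_zero_mem n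
    · simpa using W_zero_mem n
    · exact W_zero_mem n
    · exact W_zero_mem n
    · exact W_zero_mem n
  mul_mem' := by
    rintro g h ⟨g1, g2, g3, g4, g5⟩ ⟨h1, h2, h3, h4, h5⟩
    refine ⟨?_, ?_, ?_, ?_, ?_⟩
    · have : ((g * h).A : R3) - 1 = g.A * ((h.A : R3) - 1) + ((g.A : R3) - 1) := by
        simp; ring
      rw [this]; exact W_add (W_mul_left _ h1) g1
    · have : ((g * h).C : R3) - 1 = g.C * ((h.C : R3) - 1) + ((g.C : R3) - 1) := by
        simp; ring
      rw [this]; exact W_add (W_mul_left _ h2) g2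
    · rw [Tri.mul_a]; exact W_add h3 (W_mul_right g3 _)
    · rw [Tri.mul_b]; exact W_add (W_mul_left _ h4) (W_mul_right g4 _)
    · rw [Tri.mul_c]; exact W_add (W_add h5 (W_mul_left _ h4)) (W_mul_right g5 _)
  inv_mem' := by
    rintro g ⟨g1, g2, g3, g4, g5⟩
    have hA : (↑(g.A⁻¹) : R3) * g.A = 1 := Units.inv_mul _
    have hC : (↑(g.C⁻¹) : R3) * g.C = 1 := Units.inv_mul _
    refine ⟨?_, ?_, ?_, ?_, ?_⟩
    · have : ((g⁻¹).A : R3) - 1 = -(↑(g.A⁻¹) * ((g.A : R3) - 1)) := by
        rw [Tri.inv_A]; linear_combination hA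
      rw [this]; exact W_neg (W_mul_left _ g1)
    · have : ((g⁻¹).C : R3) - 1 = -(↑(g.C⁻¹) * ((g.C : R3) - 1)) := by
        rw [Tri.inv_C]; linear_combination hC
      rw [this]; exact W_neg (W_mul_left _ g2)
    · rw [Tri.inv_a]; exact W_neg (W_mul_right g3 _)
    · rw [Tri.inv_b]; exact W_neg (W_mul_right (W_mul_left _ g4) _)
    · rw [Tri.inv_c]; exact W_mul_right (W_sub (W_mul_left _ g4) g5) _

lemma mem_Gam {n : ℕ} {g : Tri R3} : g ∈ Gam n ↔
    W n ((g.A : R3) - 1) ∧ W n ((g.C : R3) - 1) ∧ W n g.a ∧ W n g.b ∧ W n g.c := Iff.rfl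

lemma W_of_unit_mul {n : ℕ} (u : R3ˣ) {v : R3} (h : W n (v * u)) : W n v := by
  have := W_mul_right h (↑(u⁻¹) : R3)
  rwa [mul_assoc, Units.mul_inv, mul_one] at this

instance (n : ℕ) : (Gam n).Normal := by
  constructor
  intro v hv g
  obtain ⟨h1, h2, h3, h4, h5⟩ := hv
  set w := g * v * g⁻¹ with hw
  have e : w * g = g * v := by rw [hw]; group
  have eA : w.A = v.A := by
    have := congrArg Tri.A e
    simp only [Tri.mul_A] at this
    rw [mul_comm] at this
    exact mul_left_cancel this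
  have eC : w.C = v.C := by
    have := congrArg Tri.C e
    simp only [Tri.mul_C] at this
    rw [mul_comm] at this
    exact mul_left_cancel this
  have ea : w.a * g.A = v.a + g.a * ((v.A : R3) - 1) := by
    have := congrArg Tri.a e
    simp only [Tri.mul_a] at this
    linear_combination this
  have eb : w.b * g.C = g.A * v.b + g.b * (((v.C : R3) - 1) - ((v.A : R3) - 1)) := by
    have := congrArg Tri.b e
    simp only [Tri.mul_b, eA] at this
    linear_combination this
  have ec : w.c * g.C = v.c + g.a * v.b + g.c * ((v.C : R3) - 1) - w.a * g.b := by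
    have := congrArg Tri.c e
    simp only [Tri.mul_c] at this
    linear_combination this
  have wa : W n w.a := by
    apply W_of_unit_mul g.A
    rw [ea]; exact W_add h3 (W_mul_left _ h1)
  refine ⟨by rw [eA]; exact h1, by rw [eC]; exact h2, wa, ?_, ?_⟩
  · apply W_of_unit_mul g.C
    rw [eb]; exact W_add (W_mul_left _ h4) (W_mul_left _ (W_sub h2 h1))
  · apply W_of_unit_mul g.C
    rw [ec]
    exact W_sub (W_add (W_add h5 (W_mul_left _ h4)) (W_mul_left _ h2)) (W_mul_right wa _)

lemma comm_Gam {m n : ℕ} {g h : Tri R3} (hg : g ∈ Gam m) (hh : h ∈ Gam n) :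
    ⁅g, h⁆ ∈ Gam (m + n) := by
  obtain ⟨g1, g2, g3, g4, g5⟩ := hg
  obtain ⟨h1, h2, h3, h4, h5⟩ := hh
  set w := ⁅g, h⁆ with hw
  have e : w * (h * g) = g * h := by rw [hw, commutatorElement_def]; group
  have eA : w.A = 1 := by
    have := congrArg Tri.A e
    simp only [Tri.mul_A] at this
    rw [mul_comm h.A g.A] at this
    exact mul_eq_right.1 this
  have eC : w.C = 1 := by
    have := congrArg Tri.C e
    simp only [Tri.mul_C] at this
    rw [mul_comm h.C g.C] at this
    exact mul_eq_right.1 this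
  have ea : w.a * ↑(h.A * g.A) = g.a * ((h.A : R3) - 1) - ((g.A : R3) - 1) * h.a := by
    have := congrArg Tri.a e
    simp only [Tri.mul_a, Tri.mul_A] at this
    linear_combination this
  have eb : w.b * ↑(h.C * g.C) = (((g.A : R3) - 1) - ((g.C : R3) - 1)) * h.b
      - g.b * (((h.A : R3) - 1) - ((h.C : R3) - 1)) := by
    have := congrArg Tri.b e
    simp only [Tri.mul_b, Tri.mul_C, eA, Units.val_one] at this
    linear_combination this
  have ec : w.c * ↑(h.C * g.C) = g.c * ((h.C : R3) - 1) - ((g.C : R3) - 1) * h.c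
      + (g.a * h.b - g.b * h.a) - w.a * (h * g).b := by
    have := congrArg Tri.c e
    simp only [Tri.mul_c, Tri.mul_C] at this
    linear_combination this
  have wa : W (m + n) w.a := by
    apply W_of_unit_mul (h.A * g.A)
    rw [ea]; exact W_sub (W_mul g3 h1) (W_mul g1 h3)
  refine ⟨?_, ?_, wa, ?_, ?_⟩
  · rw [eA]; simpa using W_zero_mem _
  · rw [eC]; simpa using W_zero_mem _
  · apply W_of_unit_mul (h.C * g.C)
    rw [eb]; exact W_sub (W_mul (W_sub g1 g2) h4) (W_mul g4 (W_sub h1 h2))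
  · apply W_of_unit_mul (h.C * g.C)
    rw [ec]
    exact W_sub (W_add (W_sub (W_mul g5 h2) (W_mul g2 h5)) (W_sub (W_mul g3 h4) (W_mul g4 h3)))
      (W_mul_right wa _)

lemma lcs_Gam (n : ℕ) : (Gam 1).lowerCentralSeries n ≤ Gam (n + 1) := by
  induction n with
  | zero => exact le_rfl
  | succ n ih =>
    rw [Subgroup.lowerCentralSeries_succ, Subgroup.commutator_le]
    intro g hg h hh
    exact comm_Gam (ih hg) hh

lemma Gam_six : Gam 6 = ⊥ := by
  rw [eq_bot_iff]
  rintro g ⟨h1, h2, h3, h4, h5⟩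
  rw [Subgroup.mem_bot]
  have hA : (g.A : R3) = 1 := sub_eq_zero.1 (W_six h1)
  have hC : (g.C : R3) = 1 := sub_eq_zero.1 (W_six h2)
  ext1
  · exact Units.val_eq_one.1 hA
  · exact Units.val_eq_one.1 hC
  · exact W_six h3
  · exact W_six h4
  · exact W_six h5

end Run7.h607
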