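import Mathlib
import Pool.Agent.Run7.h607.Cong

/-!
The finite `5`-group `GG` and its right 4-Engel element `xx`, whose normal closure has class `5`.
-/

namespace Run7.h607

open R3
open scoped commutatorElement

@[simp] lemma alu_val : (alu : R3) = al := rfl
@[simp] lemma beu_val : (beu : R3) = be := rfl

/-- The diagonal matrix `diag (1, α, 16)`. -/
def tx : Tri R3 := ⟨alu, alu * beu, 0, 0, 0⟩
/-- `1 + e₁₂` -/
def t1 : Tri R3 := ⟨1, 1, 1, 0, 0⟩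
/-- `1 + e₂₃` -/
def t2 : Tri R3 := ⟨1, 1, 0, 1, 0⟩

lemma br_eq_of {g h w : Tri R3} (e : w * (h * g) = g * h) : ⁅g, h⁆ = w := by
  rw [commutatorElement_def, ← e]; group

lemma ext_dec {g h : Tri R3} (hA : (g.A : R3) = h.A) (hC : (g.C : R3) = h.C) (ha : g.a = h.a)
    (hb : g.b = h.b) (hc : g.c = h.c) : g = h := by
  ext1
  · exact Units.ext hA
  · exact Units.ext hC
  · exact ha
  · exact hb
  · exact hc

lemma br1 : ⁅tx, t1⁆ = ⟨1, 1, ⟨250, 349, 166⟩, 0, 0⟩ := by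
  apply br_eq_of
  apply ext_dec <;> decide

lemma br2 : ⁅(⟨1, 1, ⟨250, 349, 166⟩, 0, 0⟩ : Tri R3), tx⁆ = ⟨1, 1, ⟨125, 550, 294⟩, 0, 0⟩ := by
  apply br_eq_of
  apply ext_dec <;> decide

lemma br3 : ⁅(⟨1, 1, ⟨125, 550, 294⟩, 0, 0⟩ : Tri R3), tx⁆ = ⟨1, 1, ⟨250, 350, 165⟩, 0, 0⟩ := by
  apply br_eq_of
  apply ext_dec <;> decide

lemma br4 : ⁅tx, t2⁆ = ⟨1, 1, 0, ⟨585, 586, 0⟩, 0⟩ := by
  apply br_eq_of
  apply ext_dec <;> decide

lemma br5 : ⁅(⟨1, 1, ⟨250, 350, 165⟩, 0, 0⟩ : Tri R3), (⟨1, 1, 0, ⟨585, 586, 0⟩, 0⟩ : Tri R3)⁆ =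
    ⟨1, 1, 0, 0, ⟨0, 375, 275⟩⟩ := by
  apply br_eq_of
  apply ext_dec <;> decide

lemma br6 : ⁅(⟨1, 1, 0, 0, ⟨0, 375, 275⟩⟩ : Tri R3), tx⁆ = ⟨1, 1, 0, 0, ⟨0, 0, 375⟩⟩ := by
  apply br_eq_of
  apply ext_dec <;> decide

lemma br_all : ⁅⁅⁅⁅⁅tx, t1⁆, tx⁆, tx⁆, ⁅tx, t2⁆⁆, tx⁆ ≠ 1 := by
  rw [br1, br2, br3, br4, br5, br6]
  intro h
  have := congrArg Tri.c h
  revert this
  decide

lemma tx_engel (k : ℕ) (a b c : R3) :
    cm (cm (cm (cm tx ⟨alu ^ k, alu ^ k * beu ^ k, a, b, c⟩) ⟨alu ^ k, alu ^ k * beu ^ k, a, b, c⟩)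
      ⟨alu ^ k, alu ^ k * beu ^ k, a, b, c⟩) ⟨alu ^ k, alu ^ k * beu ^ k, a, b, c⟩ = 1 :=
  Tri.engel4 alu beu (alu ^ k) (beu ^ k) a b c
    (by simpa using al_vanish k) (by simpa using be_vanish k) (by simpa using albe_vanish k)
    (by simpa using psi_zero k)

lemma tx_mem_Gam : tx ∈ Gam 1 :=
  ⟨W1_al, W1_albe, W_zero_mem _, W_zero_mem _, W_zero_mem _⟩

/-- The subgroup of `Tri R3` of matrices with diagonal `(1, α^k, 16^k)`. -/
def GG : Subgroup (Tri R3) := (Subgroup.zpowers (alu, alu * beu)).comap Tri.diag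

lemma tx_mem : tx ∈ GG := Subgroup.mem_zpowers (alu, alu * beu)

lemma t1_mem : t1 ∈ GG := by
  have : Tri.diag t1 ∈ Subgroup.zpowers (alu, alu * beu) := by
    have e : Tri.diag t1 = 1 := rfl
    rw [e]; exact one_mem _
  exact this

lemma t2_mem : t2 ∈ GG := by
  have : Tri.diag t2 ∈ Subgroup.zpowers (alu, alu * beu) := by
    have e : Tri.diag t2 = 1 := rfl
    rw [e]; exact one_mem _
  exact this

lemma GG_form (g : Tri R3) (hg : g ∈ GG) :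
    ∃ k : ℕ, g = ⟨alu ^ k, alu ^ k * beu ^ k, g.a, g.b, g.c⟩ := by
  have h : Tri.diag g ∈ Subgroup.zpowers (alu, alu * beu) := hg
  rw [← mem_powers_iff_mem_zpowers] at h
  obtain ⟨k, hk⟩ := h
  refine ⟨k, ?_⟩
  have h1 : alu ^ k = g.A := congrArg Prod.fst hk
  have h2 : (alu * beu) ^ k = g.C := congrArg Prod.snd hk
  rw [mul_pow] at h2
  ext1
  · exact h1.symm
  · exact h2.symm
  · rfl
  · rfl
  · rfl

/-- The right 4-Engel element. -/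
def xx : GG := ⟨tx, tx_mem⟩

lemma cm_coe (g h : GG) : ((cm g h : GG) : Tri R3) = cm (g : Tri R3) (h : Tri R3) := rfl

lemma xx_engel (g : GG) : cm (cm (cm (cm xx g) g) g) g = 1 := by
  obtain ⟨g, hg⟩ := g
  obtain ⟨k, hk⟩ := GG_form g hg
  apply Subtype.ext
  rw [cm_coe, cm_coe, cm_coe, cm_coe]
  have := tx_engel k g.a g.b g.c
  rw [← hk] at this
  exact this

/-- The normal closure of `xx`. -/
def NN : Subgroup GG := Subgroup.normalClosure {xx}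

instance : NN.Normal := Subgroup.normalClosure_normal

lemma NN_le : NN.map GG.subtype ≤ Gam 1 := by
  rw [Subgroup.map_le_iff_le_comap]
  apply Subgroup.normalClosure_le_normal
  rw [Set.singleton_subset_iff]
  exact tx_mem_Gam

lemma NN_lcs : NN.lowerCentralSeries 5 = ⊥ := by
  have h : (NN.lowerCentralSeries 5).map GG.subtype ≤ ⊥ := by
    rw [Subgroup.map_lowerCentralSeries, ← Gam_six]
    exact (Subgroup.lowerCentralSeries_mono 5 NN_le).trans (lcs_Gam 5)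
  rw [le_bot_iff, Subgroup.map_eq_bot_iff_of_injective _ GG.subtype_injective] at h
  exact h

theorem NN_nil : Group.IsNilpotent NN := Subgroup.isNilpotent_of_lowerCentralSeries_eq_bot NN_lcs

/-- A left-normed commutator of weight `5` in the normal closure of `x`. -/
lemma gen_mem {G : Type*} [Group G] (x a b : G) :
    ⁅⁅⁅⁅⁅x, a⁆, x⁆, x⁆, ⁅x, b⁆⁆, x⁆ ∈
      (Subgroup.normalClosure {x} : Subgroup G).lowerCentralSeries 4 := by
  set N : Subgroup G := Subgroup.normalClosure {x} with hN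
  have hx : x ∈ N := Subgroup.subset_normalClosure (Set.mem_singleton x)
  have hc : ∀ g, ⁅x, g⁆ ∈ N := by
    intro g
    have e : ⁅x, g⁆ = x * (g * x⁻¹ * g⁻¹) := by rw [commutatorElement_def]; group
    rw [e]
    exact mul_mem hx (Subgroup.normalClosure_normal.conj_mem _ (inv_mem hx) g)
  have e0 : ⁅x, a⁆ ∈ N.lowerCentralSeries 0 := hc a
  have e1 : ⁅⁅x, a⁆, x⁆ ∈ N.lowerCentralSeries 1 :=
    Subgroup.commutator_mem_commutator e0 hx
  have e2 : ⁅⁅⁅x, a⁆, x⁆, x⁆ ∈ N.lowerCentralSeries 2 :=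
    Subgroup.commutator_mem_commutator e1 hx
  have e3 : ⁅⁅⁅⁅x, a⁆, x⁆, x⁆, ⁅x, b⁆⁆ ∈ N.lowerCentralSeries 3 :=
    Subgroup.commutator_mem_commutator e2 (hc b)
  exact Subgroup.commutator_mem_commutator e3 hx

/-- `h₁` -/
def h1 : GG := ⟨t1, t1_mem⟩
/-- `h₂` -/
def h2 : GG := ⟨t2, t2_mem⟩

lemma sub_ne {G : Type*} [Group G] (H : Subgroup G) (x a b : H)
    (hne : ⁅⁅⁅⁅⁅(x : G), (a : G)⁆, (x : G)⁆, (x : G)⁆, ⁅(x : G), (b : G)⁆⁆, (x : G)⁆ ≠ 1) :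
    ⁅⁅⁅⁅⁅x, a⁆, x⁆, x⁆, ⁅x, b⁆⁆, x⁆ ≠ 1 := by
  intro h
  have h' := congrArg H.subtype h
  simp only [map_commutatorElement, map_one] at h'
  exact hne h'

lemma zz_ne : ⁅⁅⁅⁅⁅xx, h1⁆, xx⁆, xx⁆, ⁅xx, h2⁆⁆, xx⁆ ≠ 1 := by
  apply sub_ne
  have e1 : (xx : Tri R3) = tx := rfl
  have e2 : (h1 : Tri R3) = t1 := rfl
  have e3 : (h2 : Tri R3) = t2 := rfl
  rw [e1, e2, e3]
  exact br_all

theorem class_NN : Group.nilpotencyClass NN = 5 := by
  have := NN_nil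
  apply le_antisymm
  · rw [← Subgroup.lowerCentralSeries_eq_bot_iff_nilpotencyClass_le,
      ← Subgroup.map_eq_bot_iff_of_injective _ NN.subtype_injective,
      Subgroup.top_subtype_lowerCentralSeries]
    exact NN_lcs
  · by_contra hlt
    have h4 : Group.nilpotencyClass NN ≤ 4 := by omega
    have hb := Subgroup.lowerCentralSeries_eq_bot_of_nilpotencyClass_le h4
    have hz := gen_mem xx h1 h2
    have hz' : ⁅⁅⁅⁅⁅xx, h1⁆, xx⁆, xx⁆, ⁅xx, h2⁆⁆, xx⁆ ∈ NN.lowerCentralSeries 4 := hz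
    rw [hb, Subgroup.mem_bot] at hz'
    exact zz_ne hz'

end Run7.h607
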