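import Mathlib
import Pool.Agent.Run7.h607.Final5

/-!
`GG` is a finite `5`-group.
-/

namespace Run7.h607

open R3

lemma W1_five : W 1 (5 : R3) := by
  have e : (5 : R3) = ⟨5, 0, 0⟩ := by decide
  rw [e]
  exact ⟨⟨1, by decide⟩, ⟨0, by decide⟩, ⟨0, by decide⟩⟩

lemma W_pow5 {m : ℕ} (hm : 1 ≤ m) {u : R3} (h : W m (u - 1)) : W (m + 1) (u ^ 5 - 1) := by
  set v := u - 1 with hv
  have e : u ^ 5 - 1 = 5 * (v * (1 + 2 * v + 2 * v ^ 2 + v ^ 3)) + v * (v * (v * v ^ 2)) := by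
    rw [hv]; ring
  rw [e]
  apply W_add
  · have := W_mul W1_five (W_mul_right h (1 + 2 * v + 2 * v ^ 2 + v ^ 3))
    rwa [add_comm 1 m] at this
  · exact W_anti (by omega) (W_mul h (W_mul_right h (v * v ^ 2)))

lemma unit_pow {u : R3ˣ} (h : W 1 ((u : R3) - 1)) : u ^ 3125 = 1 := by
  have h2 := W_pow5 (m := 1) (by norm_num) h
  have h3 := W_pow5 (m := 2) (by norm_num) h2
  have h4 := W_pow5 (m := 3) (by norm_num) h3
  have h5 := W_pow5 (m := 4) (by norm_num) h4
  have h6 := W_pow5 (m := 5) (by norm_num) h5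
  have e : ((u : R3) ^ 5 ^ 5 - 1) = 0 := by
    have := W_six h6
    rw [← pow_mul, ← pow_mul, ← pow_mul, ← pow_mul] at this
    exact this
  apply Units.ext
  rw [Units.val_pow_eq_pow_val, Units.val_one]
  exact sub_eq_zero.1 e

lemma uni_pow (p q r : R3) (n : ℕ) :
    (⟨1, 1, p, q, r⟩ : Tri R3) ^ n = ⟨1, 1, n * p, n * q, n * r + (n.choose 2 : ℕ) * (p * q)⟩ := by
  induction n with
  | zero =>
    rw [pow_zero]
    ext1
    · rfl
    · rfl
    · simp
    · simp
    · simp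
  | succ n ih =>
    rw [pow_succ, ih]
    ext1
    · simp
    · simp
    · simp; ring
    · simp; ring
    · have : ((n + 1).choose 2 : ℕ) = n.choose 2 + n := by
        rw [Nat.choose_succ_succ' n 1, Nat.choose_one_right]; ring
      simp [this]; ring

lemma cast_eq (n : ℕ) : (n : R3) = ⟨(n : ZMod 625), 0, 0⟩ := by
  induction n with
  | zero => ext <;> simp
  | succ n ih => rw [Nat.cast_succ, ih]; ext <;> simp

lemma cast625 (m : ℕ) : ((625 * m : ℕ) : R3) = 0 := by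
  rw [cast_eq]
  have : ((625 * m : ℕ) : ZMod 625) = 0 := by
    have h : ((625 : ℕ) : ZMod 625) = 0 := by decide
    rw [Nat.cast_mul, h, zero_mul]
  rw [this]; rfl

lemma uni_pow625 (p q r : R3) : (⟨1, 1, p, q, r⟩ : Tri R3) ^ 625 = 1 := by
  rw [uni_pow]
  have h1 : ((625 : ℕ) : R3) = 0 := by simpa using cast625 1
  have h2 : ((Nat.choose 625 2 : ℕ) : R3) = 0 := by
    have : Nat.choose 625 2 = 625 * 312 := by rw [Nat.choose_two_right]
    rw [this]; exact cast625 312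
  rw [h1, h2]
  ext1
  · rfl
  · rfl
  · simp
  · simp
  · simp

lemma GG_pow (g : Tri R3) (hg : g ∈ GG) : g ^ (3125 * 625) = 1 := by
  obtain ⟨k, hk⟩ := GG_form g hg
  have hA : g.A = alu ^ k := congrArg Tri.A hk
  have hC : g.C = alu ^ k * beu ^ k := congrArg Tri.C hk
  have ha : alu ^ 3125 = 1 := unit_pow W1_al
  have hb : beu ^ 3125 = 1 := unit_pow W1_be
  have d : Tri.diag (g ^ 3125) = 1 := by
    rw [map_pow, Tri.diag_apply, hA, hC]
    ext1
    · show (alu ^ k) ^ 3125 = 1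
      rw [← pow_mul, mul_comm, pow_mul, ha, one_pow]
    · show (alu ^ k * beu ^ k) ^ 3125 = 1
      rw [mul_pow, ← pow_mul, ← pow_mul, mul_comm k, pow_mul, pow_mul, ha, hb, one_pow, one_mul]
  have d1 : (g ^ 3125).A = 1 := congrArg Prod.fst d
  have d2 : (g ^ 3125).C = 1 := congrArg Prod.snd d
  have e : g ^ 3125 = ⟨1, 1, (g ^ 3125).a, (g ^ 3125).b, (g ^ 3125).c⟩ := by
    ext1
    · exact d1
    · exact d2
    · rfl
    · rfl
    · rfl
  rw [pow_mul, e]
  exact uni_pow625 _ _ _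

theorem GG_pgroup : IsPGroup 5 GG := by
  intro g
  refine ⟨9, ?_⟩
  apply Subtype.ext
  have h := GG_pow g.1 g.2
  have e : (5 : ℕ) ^ 9 = 3125 * 625 := by norm_num
  rw [e]
  rw [SubmonoidClass.coe_pow]
  exact h

theorem GG_finite : Finite GG := inferInstance

end Run7.h607
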