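import Mathlib

/-!
Filtered groups, the doubling construction and the polarised right 4-Engel relations.
-/

namespace Run7.h607

universe u v

open scoped commutatorElement

/-- A filtration `N 0 ≥ N 1 ≥ …` by normal subgroups with `⁅N i, N j⁆ ≤ N (i+j+1)`. -/
structure Filt (G : Type u) [Group G] where
  N : ℕ → Subgroup G
  nrm : ∀ k g a, a ∈ N k → g * a * g⁻¹ ∈ N k
  anti : ∀ k a, a ∈ N (k+1) → a ∈ N k
  com : ∀ i j a b, a ∈ N i → b ∈ N j → ⁅a, b⁆ ∈ N (i+j+1)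

section
variable {G : Type u} [Group G] (F : Filt G)

lemma Filt.nrm' (k : ℕ) (g a : G) (h : a ∈ F.N k) : g⁻¹ * a * g ∈ F.N k := by
  have := F.nrm k g⁻¹ a h
  simpa using this

lemma Filt.anti' {i j : ℕ} (hij : i ≤ j) {a : G} (h : a ∈ F.N j) : a ∈ F.N i := by
  induction hij with
  | refl => exact h
  | step _ ih => exact ih (F.anti _ _ h)

lemma Filt.mem_comm (k : ℕ) {a b : G} (h : a * b ∈ F.N k) : b * a ∈ F.N k := by
  have := F.nrm k b _ h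
  have e : b * (a * b) * b⁻¹ = b * a := by group
  rwa [e] at this

lemma Filt.com1 {k : ℕ} {a b : G} (ha : a ∈ F.N 0) (hb : b ∈ F.N k) : ⁅a, b⁆ ∈ F.N (k+1) := by
  have := F.com 0 k a b ha hb
  simpa using this

lemma Filt.com2 {k : ℕ} {a b : G} (ha : a ∈ F.N k) (hb : b ∈ F.N 0) : ⁅a, b⁆ ∈ F.N (k+1) := by
  have := F.com k 0 a b ha hb
  simpa using this

/-- conjugation -/
def cj (g a : G) : G := g * a * g⁻¹

lemma Filt.cj_mem {k : ℕ} (g : G) {a : G} (h : a ∈ F.N k) : cj g a ∈ F.N k := F.nrm k g a h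

lemma cj_mul_right (g a b : G) : cj g (a * b) = cj g a * cj g b := by unfold cj; group
lemma cj_inv (g a : G) : cj g a⁻¹ = (cj g a)⁻¹ := by unfold cj; group
lemma cj_mul_left (g h a : G) : cj (g * h) a = cj g (cj h a) := by unfold cj; group
lemma cj_comm (g a b : G) : cj g ⁅a, b⁆ = ⁅cj g a, cj g b⁆ := by
  unfold cj; simp only [commutatorElement_def]; group
lemma cj_eq (g a : G) : cj g a = ⁅g, a⁆ * a := by unfold cj; simp only [commutatorElement_def]; group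
lemma cj_one_left (a : G) : cj 1 a = a := by unfold cj; group
@[simp] lemma cj_one_right (g : G) : cj g 1 = 1 := by unfold cj; group

lemma comm_mul_left (a a' b : G) : ⁅a * a', b⁆ = cj a ⁅a', b⁆ * ⁅a, b⁆ := by
  unfold cj; simp only [commutatorElement_def]; group
lemma comm_mul_right (a b b' : G) : ⁅a, b * b'⁆ = ⁅a, b⁆ * cj b ⁅a, b'⁆ := by
  unfold cj; simp only [commutatorElement_def]; group

/-- The doubled group. -/
def Filt.dbl (F : Filt G) : Subgroup (G × G) where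
  carrier := {p | p.2 * p.1⁻¹ ∈ F.N 0}
  one_mem' := by simp [one_mem]
  mul_mem' := by
    rintro ⟨a, a'⟩ ⟨b, b'⟩ ha hb
    simp only [Set.mem_ofPred_eq, Prod.fst_mul, Prod.snd_mul] at *
    have e : a' * b' * (a * b)⁻¹ = (a' * (b' * b⁻¹) * a'⁻¹) * (a' * a⁻¹) := by group
    rw [e]
    exact mul_mem (F.nrm _ _ _ hb) ha
  inv_mem' := by
    rintro ⟨a, a'⟩ ha
    simp only [Set.mem_ofPred_eq, Prod.fst_inv, Prod.snd_inv] at *
    have e : a'⁻¹ * a⁻¹⁻¹ = (a'⁻¹ * (a' * a⁻¹)⁻¹ * a') := by group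
    rw [e]
    exact F.nrm' _ _ _ (inv_mem ha)

/-- The ratio of an element of the doubled group. -/
def rt (F : Filt G) (p : F.dbl) : G := p.1.2 * (p.1.1)⁻¹

@[simp] lemma dbl_mul_fst (p q : F.dbl) : (p * q).1.1 = p.1.1 * q.1.1 := rfl
@[simp] lemma dbl_mul_snd (p q : F.dbl) : (p * q).1.2 = p.1.2 * q.1.2 := rfl
@[simp] lemma dbl_inv_fst (p : F.dbl) : (p⁻¹).1.1 = (p.1.1)⁻¹ := rfl
@[simp] lemma dbl_inv_snd (p : F.dbl) : (p⁻¹).1.2 = (p.1.2)⁻¹ := rfl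
@[simp] lemma dbl_one_fst : (1 : F.dbl).1.1 = 1 := rfl
@[simp] lemma dbl_one_snd : (1 : F.dbl).1.2 = 1 := rfl

lemma dbl_cj_fst (p q : F.dbl) : (cj p q).1.1 = cj p.1.1 q.1.1 := rfl
lemma dbl_cj_snd (p q : F.dbl) : (cj p q).1.2 = cj p.1.2 q.1.2 := rfl
lemma dbl_comm_fst (p q : F.dbl) : (⁅p, q⁆).1.1 = ⁅p.1.1, q.1.1⁆ := rfl
lemma dbl_comm_snd (p q : F.dbl) : (⁅p, q⁆).1.2 = ⁅p.1.2, q.1.2⁆ := rfl
lemma dbl_pow_fst (p : F.dbl) (n : ℕ) : (p ^ n).1.1 = p.1.1 ^ n := by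
  induction n with
  | zero => rfl
  | succ n ih => rw [pow_succ, pow_succ, dbl_mul_fst, ih]
lemma dbl_pow_snd (p : F.dbl) (n : ℕ) : (p ^ n).1.2 = p.1.2 ^ n := by
  induction n with
  | zero => rfl
  | succ n ih => rw [pow_succ, pow_succ, dbl_mul_snd, ih]

lemma snd_eq (p : F.dbl) : p.1.2 = rt F p * p.1.1 := by unfold rt; group

/-- Membership of the ratio of a product. -/
lemma rt_mul (p q : F.dbl) : rt F (p * q) = cj p.1.2 (rt F q) * rt F p := by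
  unfold rt cj; simp only [dbl_mul_fst, dbl_mul_snd]; group

/-- Key congruence: for `a' ∈ N (i+1)`, `a ∈ N i`, `b' ∈ N (j+1)`, `b ∈ N j`,
the ratio of commutators is in `N (i+j+2)`. -/
lemma Filt.ratio_mem (i j : ℕ) {a a' b b' : G} (ha : a ∈ F.N i) (ha' : a' ∈ F.N (i+1))
    (hb : b ∈ F.N j) (hb' : b' ∈ F.N (j+1)) :
    ⁅a' * a, b' * b⁆ * ⁅a, b⁆⁻¹ ∈ F.N (i+j+2) := by
  have h1 : ⁅a' * a, b' * b⁆ * ⁅a, b⁆⁻¹
      = cj a' (⁅a, b'⁆ * cj b' ⁅a, b⁆) * (⁅a', b'⁆ * cj b' ⁅a', b⁆) * ⁅a, b⁆⁻¹ := by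
    rw [comm_mul_left, comm_mul_right, comm_mul_right]
  have hab : ⁅a, b⁆ ∈ F.N (i+j+1) := F.com i j a b ha hb
  have e : cj a' (⁅a, b'⁆ * cj b' ⁅a, b⁆) * (⁅a', b'⁆ * cj b' ⁅a', b⁆) * ⁅a, b⁆⁻¹
      = cj a' (⁅a, b'⁆) * cj a' (cj b' ⁅a, b⁆) * ⁅a', b'⁆ * cj b' ⁅a', b⁆ * ⁅a, b⁆⁻¹ := by
    rw [cj_mul_right]; group
  rw [h1, e]
  have m1 : cj a' ⁅a, b'⁆ ∈ F.N (i+j+2) :=
    F.cj_mem _ (by have := F.com i (j+1) a b' ha hb'; rwa [show i + (j+1) + 1 = i+j+2 by ring] at this)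
  have m2 : ⁅a', b'⁆ ∈ F.N (i+j+2) :=
    F.anti _ _ (by have := F.com (i+1) (j+1) a' b' ha' hb'
                   rwa [show i + 1 + (j+1) + 1 = i+j+2+1 by ring] at this)
  have m3 : cj b' ⁅a', b⁆ ∈ F.N (i+j+2) :=
    F.cj_mem _ (by have := F.com (i+1) j a' b ha' hb; rwa [show i + 1 + j + 1 = i+j+2 by ring] at this)
  have m4 : cj a' (cj b' ⁅a, b⁆) * ⁅a, b⁆⁻¹ ∈ F.N (i+j+2) := by
    rw [← cj_mul_left, cj_eq]
    have : ⁅a' * b', ⁅a, b⁆⁆ ∈ F.N (i+j+2) :=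
      F.com1 (F.anti' (Nat.zero_le _) (mul_mem (F.anti' (Nat.le_add_left 1 i) ha') (F.anti' (Nat.le_add_left 1 j) hb') : a' * b' ∈ F.N 1)) hab
    have e2 : ⁅a' * b', ⁅a, b⁆⁆ * ⁅a, b⁆ * ⁅a, b⁆⁻¹ = ⁅a' * b', ⁅a, b⁆⁆ := by group
    rw [e2]; exact this
  have e3 : cj a' (⁅a, b'⁆) * cj a' (cj b' ⁅a, b⁆) * ⁅a', b'⁆ * cj b' ⁅a', b⁆ * ⁅a, b⁆⁻¹
      = cj a' (⁅a, b'⁆) * (cj a' (cj b' ⁅a, b⁆) * ⁅a, b⁆⁻¹) *
        (⁅a, b⁆ * (⁅a', b'⁆ * cj b' ⁅a', b⁆) * ⁅a, b⁆⁻¹) := by group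
  rw [e3]
  exact mul_mem (mul_mem m1 m4) (F.nrm _ _ _ (mul_mem m2 m3))

/-- The doubled filtration. -/
def Filt.D (F : Filt G) : Filt F.dbl where
  N k :=
    { carrier := {p | p.1.1 ∈ F.N k ∧ rt F p ∈ F.N (k+1)}
      one_mem' := by
        refine ⟨one_mem _, ?_⟩
        have : rt F 1 = 1 := by unfold rt; simp
        rw [this]; exact one_mem _
      mul_mem' := by
        rintro p q ⟨hp1, hp2⟩ ⟨hq1, hq2⟩
        refine ⟨mul_mem hp1 hq1, ?_⟩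
        rw [rt_mul]
        exact mul_mem (F.cj_mem _ hq2) hp2
      inv_mem' := by
        rintro p ⟨hp1, hp2⟩
        refine ⟨inv_mem hp1, ?_⟩
        have e : rt F p⁻¹ = cj (p.1.2)⁻¹ (rt F p)⁻¹ := by
          unfold rt cj; simp only [dbl_inv_fst, dbl_inv_snd]; group
        rw [e]
        exact F.cj_mem _ (inv_mem hp2) }
  nrm := by
    rintro k g a ⟨h1, h2⟩
    refine ⟨F.nrm _ _ _ h1, ?_⟩
    have e : rt F (g * a * g⁻¹) = cj g.1.2 (rt F a) *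
        (cj (g.1.2) (a.1.1) * (cj (g.1.1) a.1.1)⁻¹) := by
      unfold rt cj; simp only [dbl_mul_fst, dbl_mul_snd, dbl_inv_fst, dbl_inv_snd]; group
    rw [e]
    refine mul_mem (F.cj_mem _ h2) ?_
    have e2 : cj (g.1.2) (a.1.1) * (cj (g.1.1) a.1.1)⁻¹ = ⁅rt F g, cj g.1.1 a.1.1⁆ := by
      unfold rt cj; simp only [commutatorElement_def]; group
    rw [e2]
    exact F.com1 g.2 (F.cj_mem _ h1)
  anti := by
    rintro k a ⟨h1, h2⟩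
    exact ⟨F.anti _ _ h1, F.anti _ _ h2⟩
  com := by
    rintro i j a b ⟨ha1, ha2⟩ ⟨hb1, hb2⟩
    refine ⟨F.com _ _ _ _ ha1 hb1, ?_⟩
    have e : rt F ⁅a, b⁆ = ⁅rt F a * a.1.1, rt F b * b.1.1⁆ * ⁅a.1.1, b.1.1⁆⁻¹ := by
      rw [← snd_eq, ← snd_eq]; rfl
    rw [e]
    exact F.ratio_mem i j ha1 ha2 hb1 hb2

lemma mem_D (k : ℕ) (p : F.dbl) : p ∈ F.D.N k ↔ p.1.1 ∈ F.N k ∧ rt F p ∈ F.N (k+1) := Iff.rfl

end

end Run7.h607
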