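import Mathlib
import Pool.Agent.Run7.h607.Filt

/-! A torsion-free group in which the normal closure of a right 4-Engel element has class `3`. -/

namespace Run7.h607

open scoped commutatorElement

/-- The group `ℚ ⋉ ℚ⁴`, with `ℚ` acting by `exp (s D)`, `D` a nilpotent Jordan block. -/
@[ext] structure E5 where
  s : ℚ
  a : ℚ
  b : ℚ
  c : ℚ
  d : ℚ

namespace E5

instance : Mul E5 := ⟨fun x y => ⟨x.s + y.s, x.a + y.a, x.b + (y.b + x.s * y.a),
  x.c + (y.c + x.s * y.b + x.s ^ 2 / 2 * y.a),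
  x.d + (y.d + x.s * y.c + x.s ^ 2 / 2 * y.b + x.s ^ 3 / 6 * y.a)⟩⟩

instance : One E5 := ⟨⟨0, 0, 0, 0, 0⟩⟩

instance : Inv E5 := ⟨fun x => ⟨-x.s, -x.a, -(x.b - x.s * x.a),
  -(x.c - x.s * x.b + x.s ^ 2 / 2 * x.a),
  -(x.d - x.s * x.c + x.s ^ 2 / 2 * x.b - x.s ^ 3 / 6 * x.a)⟩⟩

@[simp] lemma mul_s (x y : E5) : (x * y).s = x.s + y.s := rfl
@[simp] lemma mul_a (x y : E5) : (x * y).a = x.a + y.a := rfl
@[simp] lemma mul_b (x y : E5) : (x * y).b = x.b + (y.b + x.s * y.a) := rfl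
@[simp] lemma mul_c (x y : E5) : (x * y).c = x.c + (y.c + x.s * y.b + x.s ^ 2 / 2 * y.a) := rfl
@[simp] lemma mul_d (x y : E5) : (x * y).d =
    x.d + (y.d + x.s * y.c + x.s ^ 2 / 2 * y.b + x.s ^ 3 / 6 * y.a) := rfl
@[simp] lemma one_s : (1 : E5).s = 0 := rfl
@[simp] lemma one_a : (1 : E5).a = 0 := rfl
@[simp] lemma one_b : (1 : E5).b = 0 := rfl
@[simp] lemma one_c : (1 : E5).c = 0 := rfl
@[simp] lemma one_d : (1 : E5).d = 0 := rfl
@[simp] lemma inv_s (x : E5) : (x⁻¹).s = -x.s := rfl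
@[simp] lemma inv_a (x : E5) : (x⁻¹).a = -x.a := rfl
@[simp] lemma inv_b (x : E5) : (x⁻¹).b = -(x.b - x.s * x.a) := rfl
@[simp] lemma inv_c (x : E5) : (x⁻¹).c = -(x.c - x.s * x.b + x.s ^ 2 / 2 * x.a) := rfl
@[simp] lemma inv_d (x : E5) : (x⁻¹).d =
    -(x.d - x.s * x.c + x.s ^ 2 / 2 * x.b - x.s ^ 3 / 6 * x.a) := rfl

instance : Group E5 := Group.ofLeftAxioms
  (by intro x y z; ext <;> simp <;> ring)
  (by intro x; ext <;> simp)
  (by intro x; ext <;> simp <;> ring)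

/-- the element `x` -/
def x : E5 := ⟨1, 0, 0, 0, 0⟩

/-- the element outside the normal closure -/
def w : E5 := ⟨0, 1, 0, 0, 0⟩

lemma comm_s (x y : E5) : (⁅x, y⁆).s = 0 := by
  rw [commutatorElement_def]; simp

lemma comm_a (x y : E5) : (⁅x, y⁆).a = 0 := by
  rw [commutatorElement_def]; simp

lemma comm_b (x y : E5) : (⁅x, y⁆).b = x.s * y.a - y.s * x.a := by
  rw [commutatorElement_def]; simp; ring

lemma comm_c {x y : E5} (hs : y.s = 0) (ha : y.a = 0) : (⁅x, y⁆).c = x.s * y.b := by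
  rw [commutatorElement_def]; simp [hs, ha]; ring

lemma comm_d {x y : E5} (hs : y.s = 0) (ha : y.a = 0) (hb : y.b = 0) :
    (⁅x, y⁆).d = x.s * y.c := by
  rw [commutatorElement_def]; simp [hs, ha, hb]; ring

lemma engel (g y : E5) : ⁅g, ⁅g, ⁅g, ⁅g, y⁆⁆⁆⁆ = 1 := by
  have h1s := comm_s g y
  have h1a := comm_a g y
  have h2b : (⁅g, ⁅g, y⁆⁆).b = 0 := by rw [comm_b, h1a, h1s]; ring
  have h2s := comm_s g ⁅g, y⁆
  have h2a := comm_a g ⁅g, y⁆
  have h3s := comm_s g ⁅g, ⁅g, y⁆⁆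
  have h3a := comm_a g ⁅g, ⁅g, y⁆⁆
  have h3b : (⁅g, ⁅g, ⁅g, y⁆⁆⁆).b = 0 := by rw [comm_b, h2a, h2s]; ring
  have h3c : (⁅g, ⁅g, ⁅g, y⁆⁆⁆).c = 0 := by rw [comm_c h2s h2a, h2b]; ring
  ext
  · exact comm_s _ _
  · exact comm_a _ _
  · rw [comm_b, h3a, h3s]; simp
  · rw [comm_c h3s h3a, h3b]; simp
  · rw [comm_d h3s h3a h3b, h3c]; simp

lemma pow_s (g : E5) (n : ℕ) : (g ^ n).s = n * g.s := by
  induction n with
  | zero => simp
  | succ n ih => rw [pow_succ, mul_s, ih]; push_cast; ring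

lemma pow_all {g : E5} (hg : g.s = 0) (n : ℕ) : (g ^ n).a = n * g.a ∧ (g ^ n).b = n * g.b ∧
    (g ^ n).c = n * g.c ∧ (g ^ n).d = n * g.d := by
  induction n with
  | zero => simp
  | succ n ih =>
    obtain ⟨h1, h2, h3, h4⟩ := ih
    have hs : (g ^ n).s = 0 := by rw [pow_s, hg, mul_zero]
    rw [pow_succ]
    simp only [mul_a, mul_b, mul_c, mul_d, h1, h2, h3, h4, hs]
    push_cast
    refine ⟨by ring, by ring, by ring, by ring⟩

lemma torsion_free (g : E5) (n : ℕ) (hn : 0 < n) (h : g ^ n = 1) : g = 1 := by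
  have hn' : (n : ℚ) ≠ 0 := by exact_mod_cast hn.ne'
  have hs : g.s = 0 := by
    have := pow_s g n
    rw [h] at this
    have h0 : (n : ℚ) * g.s = 0 := this.symm
    exact (mul_eq_zero.mp h0).resolve_left hn'
  obtain ⟨h1, h2, h3, h4⟩ := pow_all hs n
  rw [h] at h1 h2 h3 h4
  have e1 : g.a = 0 := (mul_eq_zero.mp (show (n : ℚ) * g.a = 0 from h1.symm)).resolve_left hn'
  have e2 : g.b = 0 := (mul_eq_zero.mp (show (n : ℚ) * g.b = 0 from h2.symm)).resolve_left hn'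
  have e3 : g.c = 0 := (mul_eq_zero.mp (show (n : ℚ) * g.c = 0 from h3.symm)).resolve_left hn'
  have e4 : g.d = 0 := (mul_eq_zero.mp (show (n : ℚ) * g.d = 0 from h4.symm)).resolve_left hn'
  ext <;> assumption

/-- the normal subgroup `a = 0` -/
def HA : Subgroup E5 where
  carrier := {g | g.a = 0}
  one_mem' := rfl
  mul_mem' := by
    intro g h hg hh
    show g.a + h.a = 0
    rw [show g.a = 0 from hg, show h.a = 0 from hh, add_zero]
  inv_mem' := by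
    intro g hg
    show -g.a = 0
    rw [show g.a = 0 from hg, neg_zero]

/-- the subgroup `s = a = b = 0` -/
def HB : Subgroup E5 where
  carrier := {g | g.s = 0 ∧ g.a = 0 ∧ g.b = 0}
  one_mem' := ⟨rfl, rfl, rfl⟩
  mul_mem' := by
    rintro g h ⟨g1, g2, g3⟩ ⟨h1, h2, h3⟩
    exact ⟨by simp [g1, h1], by simp [g2, h2], by simp [g1, g3, h3]⟩
  inv_mem' := by
    rintro g ⟨g1, g2, g3⟩
    exact ⟨by simp [g1], by simp [g2], by simp [g1, g3]⟩

/-- the subgroup `s = a = b = c = 0` -/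
def HC : Subgroup E5 where
  carrier := {g | g.s = 0 ∧ g.a = 0 ∧ g.b = 0 ∧ g.c = 0}
  one_mem' := ⟨rfl, rfl, rfl, rfl⟩
  mul_mem' := by
    rintro g h ⟨g1, g2, g3, g4⟩ ⟨h1, h2, h3, h4⟩
    exact ⟨by simp [g1, h1], by simp [g2, h2], by simp [g1, g3, h3], by simp [g1, g4, h4]⟩
  inv_mem' := by
    rintro g ⟨g1, g2, g3, g4⟩
    exact ⟨by simp [g1], by simp [g2], by simp [g1, g3], by simp [g1, g4]⟩

instance : HA.Normal where
  conj_mem := by
    intro n hn g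
    show (g * n * g⁻¹).a = 0
    have : n.a = 0 := hn
    simp [this]

/-- the normal closure of `x` -/
abbrev NN : Subgroup E5 := Subgroup.normalClosure {x}

lemma NN_le : NN ≤ HA := by
  apply Subgroup.normalClosure_le_normal
  intro y hy
  rw [Set.mem_singleton_iff] at hy
  subst hy
  exact (rfl : (x).a = 0)

lemma lcs1_le : NN.lowerCentralSeries 1 ≤ HB := by
  rw [Subgroup.lowerCentralSeries_succ, Subgroup.lowerCentralSeries_zero,
    Subgroup.commutator_le]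
  intro g hg h hh
  have h1 : g.a = 0 := NN_le hg
  have h2 : h.a = 0 := NN_le hh
  refine ⟨comm_s _ _, comm_a _ _, ?_⟩
  rw [comm_b, h1, h2]; ring

lemma comm_c' {x y : E5} (hs : y.s = 0) (ha : y.a = 0) : (⁅y, x⁆).c = - (x.s * y.b) := by
  rw [commutatorElement_def]; simp [hs, ha]; ring

lemma comm_d' {x y : E5} (hs : y.s = 0) (ha : y.a = 0) (hb : y.b = 0) :
    (⁅y, x⁆).d = - (x.s * y.c) := by
  rw [commutatorElement_def]; simp [hs, ha, hb]; ring

lemma lcs2_le : NN.lowerCentralSeries 2 ≤ HC := by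
  rw [Subgroup.lowerCentralSeries_succ, Subgroup.commutator_le]
  intro g hg h hh
  obtain ⟨g1, g2, g3⟩ := lcs1_le hg
  have h2 : h.a = 0 := NN_le hh
  refine ⟨comm_s _ _, comm_a _ _, ?_, ?_⟩
  · rw [comm_b, g1, g2]; ring
  · rw [comm_c' g1 g2, g3]; ring

lemma lcs3_eq : NN.lowerCentralSeries 3 = ⊥ := by
  rw [eq_bot_iff, Subgroup.lowerCentralSeries_succ, Subgroup.commutator_le]
  intro g hg h hh
  obtain ⟨g1, g2, g3, g4⟩ := lcs2_le hg
  rw [Subgroup.mem_bot]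
  ext
  · exact comm_s _ _
  · exact comm_a _ _
  · rw [comm_b, g1, g2]; simp
  · rw [comm_c' g1 g2, g3]; simp
  · rw [comm_d' g1 g2 g3, g4]; simp

lemma lcs2_ne : NN.lowerCentralSeries 2 ≠ ⊥ := by
  have hx : x ∈ NN := Subgroup.subset_normalClosure (Set.mem_singleton x)
  have hy : ⁅w, x⁆ ∈ NN := by
    rw [commutatorElement_def]
    exact mul_mem (Subgroup.normalClosure_normal.conj_mem _ hx w) (inv_mem hx)
  have h1 : ⁅⁅w, x⁆, x⁆ ∈ NN.lowerCentralSeries 1 :=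
    Subgroup.commutator_mem_commutator hy hx
  have h2 : ⁅⁅⁅w, x⁆, x⁆, x⁆ ∈ NN.lowerCentralSeries 2 :=
    Subgroup.commutator_mem_commutator h1 hx
  intro h
  rw [h, Subgroup.mem_bot] at h2
  have h3 := congrArg E5.d h2
  have s1 := comm_s w x
  have a1 := comm_a w x
  have b1 : (⁅w, x⁆).b = -1 := by rw [comm_b]; simp [w, x]
  have s2 := comm_s ⁅w, x⁆ x
  have a2 := comm_a ⁅w, x⁆ x
  have b2 : (⁅⁅w, x⁆, x⁆).b = 0 := by rw [comm_b, s1, a1]; ring
  have c2 : (⁅⁅w, x⁆, x⁆).c = 1 := by rw [comm_c' s1 a1, b1]; simp [x]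
  rw [comm_d' s2 a2 b2, c2] at h3
  simp [x] at h3

end E5

end Run7.h607
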