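import Mathlib
import Pool.Agent.Run7.h607.DataI
import Pool.Agent.Run7.h607.DataG
import Pool.Agent.Run7.h607.DataK43
import Pool.Agent.Run7.h607.DataK42
import Pool.Agent.Run7.h607.DataK41
import Pool.Agent.Run7.h607.DataK33
import Pool.Agent.Run7.h607.DataK32
import Pool.Agent.Run7.h607.DataK31
import Pool.Agent.Run7.h607.DataK23
import Pool.Agent.Run7.h607.DataK22
import Pool.Agent.Run7.h607.DataK21

/-! The core theorem. -/

namespace Run7.h607

universe u v

section
variable {V : Type u} {Q : Type v} [AddCommGroup Q] (C : Core V Q)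

lemma zero_of_iter3 {e : ℕ} (he : 4 ≤ e) (a b n z : V) : C.P a b (C.d^[e] n) z = 0 := by
  obtain ⟨y, hy⟩ := iter_big C he n
  rw [hy, C.n3]

lemma zero_of_iter4 {e : ℕ} (he : 4 ≤ e) (a b n z : V) : C.P a b n (C.d^[e] z) = 0 := by
  obtain ⟨y, hy⟩ := iter_big C he z
  rw [hy, C.n4]

lemma zero_of_iter2 {e : ℕ} (he : 4 ≤ e) (a b n z : V) : C.P a (C.d^[e] b) n z = 0 := by
  obtain ⟨y, hy⟩ := iter_big C he b
  rw [hy, C.n2]

lemma zero_of_iter1 {e : ℕ} (he : 4 ≤ e) (a b n z : V) : C.P (C.d^[e] a) b n z = 0 := by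
  obtain ⟨y, hy⟩ := iter_big C he a
  rw [hy, C.n1]

/-- splitting exponents -/
lemma iter_split {e f : ℕ} (h : f ≤ e) (x : V) : C.d^[e] x = C.d^[f] (C.d^[e - f] x) := by
  rw [← Function.iterate_add_apply]
  congr 1
  omega

theorem V2_all (hT : Tor Q) : V2 C := by
  -- descending induction
  have step : ∀ r, 4 ≤ r →
      (∀ a b n z e1 e2, r + 1 ≤ e1 + e2 → C.P a b (C.d^[e1] n) (C.d^[e2] z) = 0) →
      (∀ a b n z e1 e2, r ≤ e1 + e2 → C.P a b (C.d^[e1] n) (C.d^[e2] z) = 0) := by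
    intro r hr H a b n0 z0 e1 e2 he
    by_cases he' : r + 1 ≤ e1 + e2
    · exact H a b n0 z0 e1 e2 he'
    have hre : e1 + e2 = r := by omega
    by_cases h1 : 4 ≤ e1
    · exact zero_of_iter3 C h1 _ _ _ _
    by_cases h2 : 4 ≤ e2
    · exact zero_of_iter4 C h2 _ _ _ _
    -- choose f1 + f2 = 4 with f1 ≤ e1, f2 ≤ e2, f1, f2 ≥ 1
    obtain ⟨f1, f2, hf1, hf2, hf, hp1, hp2⟩ : ∃ f1 f2, f1 ≤ e1 ∧ f2 ≤ e2 ∧ f1 + f2 = 4 ∧
        1 ≤ f1 ∧ 1 ≤ f2 := by
      refine ⟨min e1 3, 4 - min e1 3, by omega, by omega, by omega, by omega, by omega⟩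
    rw [iter_split C hf1, iter_split C hf2]
    set n := C.d^[e1 - f1] n0 with hn
    set z := C.d^[e2 - f2] z0 with hz
    have H' : ∀ g1 g2, 5 ≤ g1 + g2 → C.P a b (C.d^[g1] n) (C.d^[g2] z) = 0 := by
      intro g1 g2 hg
      rw [hn, hz, ← Function.iterate_add_apply, ← Function.iterate_add_apply]
      exact H _ _ _ _ _ _ (by omega)
    have H'' : ∀ g1 g2, 5 ≤ g1 + g2 → C.P a b (C.d^[g1] z) (C.d^[g2] n) = 0 := by
      intro g1 g2 hg
      rw [C.as, H' g2 g1 (by omega), neg_zero]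
    have A := C.L1 a b (C.d n) z (fun g1 g2 hg => H' (g1+1) g2 (by omega))
    have B := C.L1 a b n (C.d z) (fun g1 g2 hg => H' g1 (g2+1) (by omega))
    have B' := C.L1 a b z (C.d n) (fun g1 g2 hg => H'' g1 (g2+1) (by omega))
    rw [C.n3] at A
    rw [C.n4] at B B'
    rw [C.as a b (C.d n) (C.d (C.d (C.d z))), C.as a b (C.d (C.d n)) (C.d (C.d z)),
      C.as a b (C.d (C.d (C.d n))) (C.d z)] at B'
    set X := C.P a b (C.d (C.d (C.d n))) (C.d z)
    set Y := C.P a b (C.d (C.d n)) (C.d (C.d z))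
    set W := C.P a b (C.d n) (C.d (C.d (C.d z)))
    have hX : X = 0 := by
      apply hT
      linear_combination (norm := module) (-12:ℤ) • A + (6:ℤ) • B - (12:ℤ) • B'
    have hW : W = 0 := by
      apply hT
      linear_combination (norm := module) (6:ℤ) • B + (6:ℤ) • B' + (30:ℤ) • hX
    have hY : Y = 0 := by
      apply hT
      linear_combination (norm := module) (5:ℤ) • A - (20:ℤ) • hX - (20:ℤ) • hW
    have hc : f1 = 1 ∨ f1 = 2 ∨ f1 = 3 := by omega
    rcases hc with rfl | rfl | rfl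
    · have : f2 = 3 := by omega
      subst this
      exact hW
    · have : f2 = 2 := by omega
      subst this
      exact hY
    · have : f2 = 1 := by omega
      subst this
      exact hX
  have h7 : ∀ a b n z e1 e2, 7 ≤ e1 + e2 → C.P a b (C.d^[e1] n) (C.d^[e2] z) = 0 := by
    intro a b n z e1 e2 he
    by_cases h1 : 4 ≤ e1
    · exact zero_of_iter3 C h1 _ _ _ _
    · exact zero_of_iter4 C (by omega) _ _ _ _
  have h6 := step 6 (by norm_num) h7
  have h5 := step 5 (by norm_num) h6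
  exact step 4 (by norm_num) h5

/-- a letter assignment -/
def lets (a b c d : V) : ℕ → V
  | 0 => a
  | 1 => b
  | 2 => c
  | _ => d

theorem V3_all (hT : Tor Q) (hV2 : V2 C) : V3 C := by
  have step : ∀ r, 4 ≤ r →
      (∀ a n m z e1 e2 e3, r + 1 ≤ e1 + e2 + e3 →
        C.P a (C.d^[e1] n) (C.d^[e2] m) (C.d^[e3] z) = 0) →
      (∀ a n m z e1 e2 e3, r ≤ e1 + e2 + e3 →
        C.P a (C.d^[e1] n) (C.d^[e2] m) (C.d^[e3] z) = 0) := by
    intro r hr H a n0 m0 z0 e1 e2 e3 he
    by_cases he' : r + 1 ≤ e1 + e2 + e3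
    · exact H a n0 m0 z0 e1 e2 e3 he'
    by_cases h1 : 4 ≤ e1
    · exact zero_of_iter2 C h1 _ _ _ _
    by_cases h2 : 4 ≤ e2
    · exact zero_of_iter3 C h2 _ _ _ _
    by_cases h3 : 4 ≤ e3
    · exact zero_of_iter4 C h3 _ _ _ _
    obtain ⟨f1, f2, f3, hf1, hf2, hf3, hf⟩ : ∃ f1 f2 f3, f1 ≤ e1 ∧ f2 ≤ e2 ∧ f3 ≤ e3 ∧
        f1 + f2 + f3 = 4 := by
      refine ⟨min e1 4, min e2 (4 - min e1 4), 4 - min e1 4 - min e2 (4 - min e1 4), ?_⟩
      omega
    rw [iter_split C hf1, iter_split C hf2, iter_split C hf3]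
    set n := C.d^[e1 - f1] n0 with hn
    set m := C.d^[e2 - f2] m0 with hm
    set z := C.d^[e3 - f3] z0 with hz
    have hR : ∀ w1 w2 w3, Perm4 0 w1 w2 w3 → ∀ g1 g2 g3, 5 ≤ g1 + g2 + g3 →
        C.P (lets a n m z 0) (C.d^[g1] (lets a n m z w1)) (C.d^[g2] (lets a n m z w2))
          (C.d^[g3] (lets a n m z w3)) = 0 := by
      rintro w1 w2 w3 ⟨⟨h0, h1, h2, h3⟩, n01, n02, n03, n12, n13, n23⟩ g1 g2 g3 hg
      interval_cases w1 <;> interval_cases w2 <;> first | omega | skip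
      all_goals interval_cases w3 <;> first | omega | skip
      all_goals
        simp only [lets, hn, hm, hz, ← Function.iterate_add_apply]
        exact H _ _ _ _ _ _ _ (by omega)
    have hb := checkN_sound hT (Bk C (lets a n m z) 4) (row := rowN 0) (ok := okI)
      (fun i hi => soundI C hV2 (lets a n m z) hR _ _ _ _ _ _ hi) checkI
    have hbig : big (0, f1, f2, f3) = false := by
      simp only [big, Bool.or_eq_false_iff]
      have : ∀ x, x < 4 → Nat.ble 4 x = false := by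
        intro x hx
        interval_cases x <;> rfl
      exact ⟨⟨⟨this _ (by norm_num), this _ (by omega)⟩, this _ (by omega)⟩, this _ (by omega)⟩
    have ht : tot (0, f1, f2, f3) = 4 := by simp only [tot]; omega
    have h1 := hb (key 0 1 (0, f1, f2, f3)) (by
      unfold tgI
      apply List.mem_map_of_mem
      rw [List.mem_filter]
      exact ⟨mem_exs hbig ht, rfl⟩)
    rw [← ht, Bk_key C (lets a n m z) (w0 := 0) (w1 := 1) (w2 := 2) (by unfold Perm4; omega)
      hbig] at h1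
    exact h1
  have h10 : ∀ a n m z e1 e2 e3, 10 ≤ e1 + e2 + e3 →
      C.P a (C.d^[e1] n) (C.d^[e2] m) (C.d^[e3] z) = 0 := by
    intro a n m z e1 e2 e3 he
    by_cases h1 : 4 ≤ e1
    · exact zero_of_iter2 C h1 _ _ _ _
    by_cases h2 : 4 ≤ e2
    · exact zero_of_iter3 C h2 _ _ _ _
    · exact zero_of_iter4 C (by omega) _ _ _ _
  exact step 4 (by norm_num) (step 5 (by norm_num) (step 6 (by norm_num) (step 7 (by norm_num)
    (step 8 (by norm_num) (step 9 (by norm_num) h10)))))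

theorem V4_all (hT : Tor Q) (hV2 : V2 C) (hV3 : V3 C) : ∀ a n m z e0 e1 e2 e3,
    4 ≤ e0 + e1 + e2 + e3 →
    C.P (C.d^[e0] a) (C.d^[e1] n) (C.d^[e2] m) (C.d^[e3] z) = 0 := by
  have step : ∀ r, 4 ≤ r →
      (∀ a n m z e0 e1 e2 e3, r + 1 ≤ e0 + e1 + e2 + e3 →
        C.P (C.d^[e0] a) (C.d^[e1] n) (C.d^[e2] m) (C.d^[e3] z) = 0) →
      (∀ a n m z e0 e1 e2 e3, r ≤ e0 + e1 + e2 + e3 →
        C.P (C.d^[e0] a) (C.d^[e1] n) (C.d^[e2] m) (C.d^[e3] z) = 0) := by
    intro r hr H a0 n0 m0 z0 e0 e1 e2 e3 he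
    by_cases he' : r + 1 ≤ e0 + e1 + e2 + e3
    · exact H a0 n0 m0 z0 e0 e1 e2 e3 he'
    by_cases h0 : 4 ≤ e0
    · exact zero_of_iter1 C h0 _ _ _ _
    by_cases h1 : 4 ≤ e1
    · exact zero_of_iter2 C h1 _ _ _ _
    by_cases h2 : 4 ≤ e2
    · exact zero_of_iter3 C h2 _ _ _ _
    by_cases h3 : 4 ≤ e3
    · exact zero_of_iter4 C h3 _ _ _ _
    obtain ⟨f0, f1, f2, f3, hf0, hf1, hf2, hf3, hf⟩ : ∃ f0 f1 f2 f3, f0 ≤ e0 ∧ f1 ≤ e1 ∧
        f2 ≤ e2 ∧ f3 ≤ e3 ∧ f0 + f1 + f2 + f3 = 4 := by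
      refine ⟨min e0 4, min e1 (4 - min e0 4), min e2 (4 - min e0 4 - min e1 (4 - min e0 4)),
        4 - min e0 4 - min e1 (4 - min e0 4) - min e2 (4 - min e0 4 - min e1 (4 - min e0 4)), ?_⟩
      omega
    rw [iter_split C hf0, iter_split C hf1, iter_split C hf2, iter_split C hf3]
    set a := C.d^[e0 - f0] a0 with ha
    set n := C.d^[e1 - f1] n0 with hn
    set m := C.d^[e2 - f2] m0 with hm
    set z := C.d^[e3 - f3] z0 with hz
    have hR : Van C (lets a n m z) 5 := by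
      intro w0 w1 w2 w3 hw e he5
      have ht := tot_eq hw e
      obtain ⟨⟨h0, h1, h2, h3⟩, n01, n02, n03, n12, n13, n23⟩ := hw
      unfold val
      interval_cases w0 <;> interval_cases w1 <;> first | omega | skip
      all_goals interval_cases w2 <;> first | omega | skip
      all_goals interval_cases w3 <;> first | omega | skip
      all_goals
        simp only [lets, ha, hn, hm, hz, ← Function.iterate_add_apply]
        exact H _ _ _ _ _ _ _ _ (by omega)
    have hb := checkN_sound hT (Bk C (lets a n m z) 4) (row := rowN 0) (ok := okG)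
      (fun i hi => soundG C hV2 hV3 (lets a n m z) hR _ _ _ _ _ _ hi) checkG
    have hbig : big (f0, f1, f2, f3) = false := by
      simp only [big, Bool.or_eq_false_iff]
      have : ∀ x, x < 4 → Nat.ble 4 x = false := by
        intro x hx
        interval_cases x <;> rfl
      exact ⟨⟨⟨this _ (by omega), this _ (by omega)⟩, this _ (by omega)⟩, this _ (by omega)⟩
    have ht : tot (f0, f1, f2, f3) = 4 := by simp only [tot]; omega
    have h1 := hb (key 0 1 (f0, f1, f2, f3)) (by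
      unfold tgG
      apply List.mem_map_of_mem
      exact mem_exs hbig ht)
    rw [← ht, Bk_key C (lets a n m z) (w0 := 0) (w1 := 1) (w2 := 2) (by unfold Perm4; omega)
      hbig] at h1
    exact h1
  have h13 : ∀ a n m z e0 e1 e2 e3, 13 ≤ e0 + e1 + e2 + e3 →
      C.P (C.d^[e0] a) (C.d^[e1] n) (C.d^[e2] m) (C.d^[e3] z) = 0 := by
    intro a n m z e0 e1 e2 e3 he
    by_cases h0 : 4 ≤ e0
    · exact zero_of_iter1 C h0 _ _ _ _
    by_cases h1 : 4 ≤ e1
    · exact zero_of_iter2 C h1 _ _ _ _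
    by_cases h2 : 4 ≤ e2
    · exact zero_of_iter3 C h2 _ _ _ _
    · exact zero_of_iter4 C (by omega) _ _ _ _
  exact step 4 (by norm_num) (step 5 (by norm_num) (step 6 (by norm_num) (step 7 (by norm_num)
    (step 8 (by norm_num) (step 9 (by norm_num) (step 10 (by norm_num) (step 11 (by norm_num)
      (step 12 (by norm_num) h13))))))))

/-- from the basis targets to all the symbols -/
lemma van_of_targets {v : ℕ → V} {r : ℕ} (hb : ∀ k ∈ tgK r, Bk C v r k = 0)
    (hR : Van C v (r+1)) : Van C v r := by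
  intro w0 w1 w2 w3 hw e he
  by_cases he' : r + 1 ≤ tot e
  · exact hR _ _ _ _ hw e he'
  have ht : tot e = r := by omega
  by_cases hbig : big e = true
  · exact val_big C v hw hbig
  have hbig' : big e = false := by simpa using hbig
  have hk : ∀ a b, (a, b) ∈ [(0, 1), (0, 2), (1, 0), (1, 2), (2, 0), (2, 1)] →
      Bk C v r (key a b e) = 0 := by
    intro a b hab
    apply hb
    unfold tgK
    rw [List.mem_flatMap]
    refine ⟨(a, b), hab, ?_⟩
    apply List.mem_map_of_mem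
    exact mem_exs hbig' ht
  rw [← ev_expd C v hw e, ht]
  unfold expd
  rw [if_neg hbig]
  obtain ⟨⟨h0, h1, h2, h3⟩, n01, n02, n03, n12, n13, n23⟩ := hw
  have hk' : ∀ a b, a < 3 → b < 3 → a ≠ b → Bk C v r (key a b e) = 0 := by
    intro a b ha hb' hab
    apply hk
    interval_cases a <;> interval_cases b <;> first | omega | simp
  by_cases c3 : w3 = 3
  · rw [if_pos c3]
    simp only [ev, hk' w0 w1 (by omega) (by omega) n01, smul_zero, add_zero]
  rw [if_neg c3]
  by_cases c2 : w2 = 3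
  · rw [if_pos c2]
    simp only [ev, hk' w0 w1 (by omega) (by omega) n01, smul_zero, add_zero]
  rw [if_neg c2]
  by_cases c1 : w1 = 3
  · rw [if_pos c1]
    simp only [ev, hk' w0 w2 (by omega) (by omega) n02, hk' w0 w3 (by omega) (by omega) n03,
      smul_zero, add_zero]
  rw [if_neg c1]
  simp only [ev, hk' w1 w2 (by omega) (by omega) n12, hk' w1 w3 (by omega) (by omega) n13,
    hk' w2 w3 (by omega) (by omega) n23, hk' w3 w2 (by omega) (by omega) n23.symm,
      smul_zero, add_zero]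

lemma chain_level {q r nt ns dat : ℕ} (hT : Tor Q) (hV2 : V2 C) (hq : q ≤ 4) {x : V}
    (hZ : ZQ C q x) (u : ℕ → V) (hR : Van C (lt q x u) (r+1))
    (hc : checkN (rowN q) (okK q r) nt ns dat (tgK r) = true) : Van C (lt q x u) r := by
  apply van_of_targets C _ hR
  exact checkN_sound hT (Bk C (lt q x u) r) (row := rowN q) (ok := okK q r)
    (fun i hi => soundK C hq hV2 hZ u hR _ _ _ _ _ _ hi) hc

theorem chain_all (hT : Tor Q) {q : ℕ} (hq : q = 2 ∨ q = 3 ∨ q = 4) {x : V}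
    (hZ : ZQ C q x) (u : ℕ → V) : Van C (lt q x u) 1 := by
  have hV2 := V2_all C hT
  have hV3 := V3_all C hT hV2
  have hV4 := V4_all C hT hV2 hV3
  have h4 : Van C (lt q x u) 4 := by
    intro w0 w1 w2 w3 hw e he
    have ht := tot_eq hw e
    exact hV4 _ _ _ _ _ _ _ _ (by omega)
  rcases hq with rfl | rfl | rfl
  · exact chain_level C hT hV2 (by norm_num) hZ u (chain_level C hT hV2 (by norm_num) hZ u
      (chain_level C hT hV2 (by norm_num) hZ u h4 checkK23) checkK22) checkK21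
  · exact chain_level C hT hV2 (by norm_num) hZ u (chain_level C hT hV2 (by norm_num) hZ u
      (chain_level C hT hV2 (by norm_num) hZ u h4 checkK33) checkK32) checkK31
  · exact chain_level C hT hV2 (by norm_num) hZ u (chain_level C hT hV2 (by norm_num) hZ u
      (chain_level C hT hV2 (by norm_num) hZ u h4 checkK43) checkK42) checkK41

end

end Run7.h607
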