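import Mathlib
import Pool.Agent.Run7.h607.CoreThm

/-! From groups to the abstract core. -/

namespace Run7.h607

universe u v

open scoped commutatorElement
open Finset

section
variable {G : Type u} [Group G] {F : Filt G} {Q : Type v} [AddCommGroup Q]

lemma Filt.Sym.zero (k : ℕ) : F.Sym k (fun _ => (0:Q)) where
  mul _ _ _ _ := by simp
  ker _ _ := rfl

lemma Filt.Sym.add {k : ℕ} {φ ψ : G → Q} (h : F.Sym k φ) (h' : F.Sym k ψ) :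
    F.Sym k (fun a => φ a + ψ a) where
  mul a b ha hb := by
    show _ = _
    rw [h.mul a b ha hb, h'.mul a b ha hb]; abel
  ker a ha := by
    show _ = _
    rw [h.ker a ha, h'.ker a ha, add_zero]

lemma Filt.Sym.neg {k : ℕ} {φ : G → Q} (h : F.Sym k φ) : F.Sym k (fun a => - φ a) where
  mul a b ha hb := by
    show _ = _
    rw [h.mul a b ha hb]; abel
  ker a ha := by
    show _ = _
    rw [h.ker a ha, neg_zero]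

lemma Filt.Sym.sub {k : ℕ} {φ ψ : G → Q} (h : F.Sym k φ) (h' : F.Sym k ψ) :
    F.Sym k (fun a => φ a - ψ a) := by
  have := h.add h'.neg
  simpa only [sub_eq_add_neg] using this

lemma Filt.Sym.smul {k : ℕ} {φ : G → Q} (c : ℤ) (h : F.Sym k φ) :
    F.Sym k (fun a => c • φ a) where
  mul a b ha hb := by
    show _ = _
    rw [h.mul a b ha hb, smul_add]
  ker a ha := by
    show _ = _
    rw [h.ker a ha, smul_zero]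

lemma Filt.Sym.sum {k : ℕ} {ι : Type*} (s : Finset ι) {φ : ι → G → Q}
    (h : ∀ i, F.Sym k (φ i)) : F.Sym k (fun a => ∑ i ∈ s, φ i a) where
  mul a b ha hb := by
    show _ = _
    rw [← Finset.sum_add_distrib]
    exact Finset.sum_congr rfl (fun i _ => (h i).mul a b ha hb)
  ker a ha := by
    show _ = _
    exact Finset.sum_eq_zero (fun i _ => (h i).ker a ha)

lemma Filt.Sym.E4 {k : ℕ} {φ : ℕ → G → Q} (h : ∀ i, F.Sym k (φ i)) :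
    F.Sym k (fun a => Run7.h607.E4 (fun i => φ i a)) := by
  unfold Run7.h607.E4
  exact ((((h 0).sub ((h 1).smul 4)).add ((h 2).smul 6)).sub ((h 3).smul 4)).add (h 4)

/-- generation by the conjugates of `x` -/
def Gen (F : Filt G) (x : G) : Prop :=
  x ∈ F.N 0 ∧ ∀ y ∈ F.N 0, y ∈ Subgroup.closure {y | ∃ g, y = cj g x}

lemma Gen.ind {x : G} (hx : Gen F x) {φ : G → Q} (hφ : F.Sym 0 φ) (h : ∀ g, φ (cj g x) = 0) :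
    ∀ y ∈ F.N 0, φ y = 0 := by
  intro y hy
  have hsub : ∀ z ∈ Subgroup.closure {y | ∃ g, y = cj g x}, z ∈ F.N 0 := by
    intro z hz
    refine (Subgroup.closure_le (F.N 0)).mpr ?_ hz
    rintro _ ⟨g, rfl⟩
    exact F.cj_mem _ hx.1
  refine Subgroup.closure_induction (p := fun z _ => φ z = 0) ?_ ?_ ?_ ?_ (hx.2 y hy)
  · rintro _ ⟨g, rfl⟩
    exact h g
  · exact hφ.one
  · intro a b ha hb h1 h2
    rw [hφ.mul _ _ (hsub a ha) (hsub b hb), h1, h2, add_zero]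
  · intro a ha h1
    rw [hφ.inv (hsub a ha), h1, neg_zero]

lemma Eng.conj {x : G} (h : Eng x) (g : G) : Eng (cj g x) := by
  intro k
  have := h (cj g⁻¹ k)
  have e : ∀ a, ⁅k, cj g a⁆ = cj g ⁅cj g⁻¹ k, a⁆ := by
    intro a
    rw [cj_comm]
    congr 1
    unfold cj; group
  rw [e, e, e, e, this, cj_one_right]

/-- iterated commutator in terms of conjugates -/
lemma d4_eq {φ : G → Q} (hφ : F.Sym 0 φ) {z : G} (hz : z ∈ F.N 0) (h : G) :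
    φ ⁅h, ⁅h, ⁅h, ⁅h, z⁆⁆⁆⁆ = Run7.h607.E4 (fun i => φ (cj (h ^ i) z)) := by
  have h1 : ⁅h, z⁆ ∈ F.N 0 := F.com_any h hz
  have h2 : ⁅h, ⁅h, z⁆⁆ ∈ F.N 0 := F.com_any h h1
  have h3 : ⁅h, ⁅h, ⁅h, z⁆⁆⁆ ∈ F.N 0 := F.com_any h h2
  have k0 : φ (cj (h ^ 0) ⁅h, ⁅h, ⁅h, ⁅h, z⁆⁆⁆⁆) = φ ⁅h, ⁅h, ⁅h, ⁅h, z⁆⁆⁆⁆ := by
    rw [pow_zero, cj_one_left]
  rw [← k0]
  rw [sym_step hφ h 0 h3, sym_step hφ h (0+1) h2, sym_step hφ h 0 h2, sym_step hφ h (0+1+1) h1,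
    sym_step hφ h (0+1) h1, sym_step hφ h 0 h1, sym_step hφ h (0+1+1+1) hz,
    sym_step hφ h (0+1+1) hz, sym_step hφ h (0+1) hz, sym_step hφ h 0 hz]
  unfold Run7.h607.E4
  simp only [zero_add, Nat.reduceAdd]
  module

lemma d4_zero {x : G} (hx : Gen F x) (he : Eng x) {φ : G → Q} (hφ : F.Sym 0 φ) (h : G) {z : G}
    (hz : z ∈ F.N 0) : φ ⁅h, ⁅h, ⁅h, ⁅h, z⁆⁆⁆⁆ = 0 := by
  rw [d4_eq hφ hz]
  refine hx.ind (φ := fun z => Run7.h607.E4 (fun i => φ (cj (h ^ i) z)))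
    (Filt.Sym.E4 (fun i => hφ.compcj (h ^ i))) ?_ z hz
  intro g
  exact P0 hφ (F.cj_mem _ hx.1) (he.conj g) h

/-- the quadrilinear map -/
def PP (F : Filt G) (ω : G → Q) (a b c e : F.N 0) : Q := ω ⁅(a:G), ⁅(b:G), ⁅(c:G), (e:G)⁆⁆⁆

variable {ω : G → Q}

lemma sl1 (hω : F.Sym 3 ω) {b c e : G} (hb : b ∈ F.N 0) (hc : c ∈ F.N 0) (he : e ∈ F.N 0) :
    F.Sym 0 (fun a => ω ⁅a, ⁅b, ⁅c, e⁆⁆⁆) :=
  hω.right (i := 0) (j := 2) rfl (F.com1 hb (F.com1 hc he))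

lemma sl2 (hω : F.Sym 3 ω) {a c e : G} (ha : a ∈ F.N 0) (hc : c ∈ F.N 0) (he : e ∈ F.N 0) :
    F.Sym 0 (fun b => ω ⁅a, ⁅b, ⁅c, e⁆⁆⁆) :=
  (hω.left (i := 0) (j := 2) rfl ha).right (i := 0) (j := 1) rfl (F.com1 hc he)

lemma sl3 (hω : F.Sym 3 ω) {a b e : G} (ha : a ∈ F.N 0) (hb : b ∈ F.N 0) (he : e ∈ F.N 0) :
    F.Sym 0 (fun c => ω ⁅a, ⁅b, ⁅c, e⁆⁆⁆) :=
  ((hω.left (i := 0) (j := 2) rfl ha).left (i := 0) (j := 1) rfl hb).right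
    (i := 0) (j := 0) rfl he

lemma sl4 (hω : F.Sym 3 ω) {a b c : G} (ha : a ∈ F.N 0) (hb : b ∈ F.N 0) (hc : c ∈ F.N 0) :
    F.Sym 0 (fun e => ω ⁅a, ⁅b, ⁅c, e⁆⁆⁆) :=
  ((hω.left (i := 0) (j := 2) rfl ha).left (i := 0) (j := 1) rfl hb).left
    (i := 0) (j := 0) rfl hc

/-- conjugation on the subgroup -/
def hh (F : Filt G) (g : G) (a : F.N 0) : F.N 0 := ⟨cj g a, F.cj_mem g a.2⟩

/-- commutation on the subgroup -/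
def dd (F : Filt G) (g : G) (a : F.N 0) : F.N 0 := ⟨⁅g, (a:G)⁆, F.com_any g a.2⟩

lemma hh_iter (g : G) (j : ℕ) (a : F.N 0) : (((hh F g)^[j] a : F.N 0) : G) = cj (g ^ j) a := by
  induction j with
  | zero => simp [cj_one_left]
  | succ j ih =>
    rw [Function.iterate_succ_apply']
    show cj g _ = _
    rw [ih, ← cj_mul_left, pow_succ']

lemma s_gen {φ : G → Q} (hφ : F.Sym 0 φ) (g : G) (a : F.N 0) :
    φ (hh F g a : F.N 0) = φ a + φ (dd F g a : F.N 0) := by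
  show φ (cj g a) = φ a + φ ⁅g, (a:G)⁆
  rw [cj_eq, hφ.mul _ _ (F.com_any g a.2) a.2, add_comm]

lemma PP_as (hω : F.Sym 3 ω) (a b c e : F.N 0) : PP F ω a b e c = - PP F ω a b c e := by
  unfold PP
  have s : F.Sym 1 (fun w => ω ⁅(a:G), ⁅(b:G), w⁆⁆) :=
    (hω.left (i := 0) (j := 2) rfl a.2).left (i := 0) (j := 1) rfl b.2
  exact s.antisymm (i := 0) (j := 0) rfl e.2 c.2

lemma PP_j3 (hω : F.Sym 3 ω) (a b c e : F.N 0) :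
    PP F ω a b c e + PP F ω a c e b + PP F ω a e b c = 0 := by
  have s : F.Sym 2 (fun w => ω ⁅(a:G), w⁆) := hω.left (i := 0) (j := 2) rfl a.2
  have h1 := s.jacobi (i := 0) (j := 0) (l := 0) rfl b.2 c.2 e.2
  have h2 := s.antisymm (i := 1) (j := 0) rfl (F.com1 b.2 c.2) e.2
  have h3 := PP_as hω a c e b
  unfold PP at *
  rw [h2] at h1
  have h4 : ω ⁅(a:G), ⁅(e:G), ⁅(b:G), (c:G)⁆⁆⁆ = - (ω ⁅(a:G), ⁅(b:G), ⁅(c:G), (e:G)⁆⁆⁆ -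
    ω ⁅(a:G), ⁅(c:G), ⁅(b:G), (e:G)⁆⁆⁆) := by rw [← h1, neg_neg]
  rw [h4, ← neg_eq_iff_eq_neg.mpr h3]
  abel

lemma PP_j4 (hω : F.Sym 3 ω) (a b c e : F.N 0) :
    PP F ω a b c e - PP F ω b a c e + PP F ω c e a b - PP F ω e c a b = 0 := by
  have h1 := hω.jacobi (i := 0) (j := 0) (l := 1) rfl a.2 b.2 (F.com1 c.2 e.2)
  have h2 := hω.jacobi (i := 0) (j := 0) (l := 1) rfl c.2 e.2 (F.com1 a.2 b.2)
  have h3 := hω.antisymm (i := 1) (j := 1) rfl (F.com1 a.2 b.2) (F.com1 c.2 e.2)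
  rw [h1, h2] at h3
  unfold PP
  rw [add_sub_assoc, h3]
  abel

lemma PP_r1 (hω : F.Sym 3 ω) {x : G} (hx : Gen F x) (he : Eng x) (g : G) (a b n z : F.N 0) :
    E4 (fun i => ∑ j ∈ range i, PP F ω a b ((hh F g)^[j] n) ((hh F g)^[i] z)) = 0 := by
  unfold PP
  simp only [hh_iter]
  have hnj : ∀ j, cj (g ^ j) (n:G) ∈ F.N 0 := fun j => F.cj_mem _ n.2
  refine hx.ind (φ := fun z => E4 (fun i => ∑ j ∈ range i,
    ω ⁅(a:G), ⁅(b:G), ⁅cj (g ^ j) (n:G), cj (g ^ i) z⁆⁆⁆))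
    (Filt.Sym.E4 (fun i => Filt.Sym.sum _ (fun j => (sl4 hω a.2 b.2 (hnj j)).compcj (g ^ i))))
    ?_ z z.2
  intro k
  have s : F.Sym 1 (fun w => ω ⁅(a:G), ⁅(b:G), w⁆⁆) :=
    (hω.left (i := 0) (j := 2) rfl a.2).left (i := 0) (j := 1) rfl b.2
  exact P1 s (F.cj_mem k hx.1) (he.conj k) n.2 g

lemma PP_r2 (hω : F.Sym 3 ω) {x : G} (hx : Gen F x) (he : Eng x) (g : G) (a n m z : F.N 0) :
    E4 (fun i => ∑ j ∈ range i,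
      (∑ k ∈ range j,
        (PP F ω a ((hh F g)^[k] m) ((hh F g)^[j] n) ((hh F g)^[i] z) -
          PP F ω a ((hh F g)^[j] n) ((hh F g)^[k] m) ((hh F g)^[i] z)) +
       ∑ k ∈ range i, PP F ω a ((hh F g)^[j] n) ((hh F g)^[k] m) ((hh F g)^[i] z))) = 0 := by
  unfold PP
  simp only [hh_iter]
  have hnj : ∀ j, cj (g ^ j) (n:G) ∈ F.N 0 := fun j => F.cj_mem _ n.2
  have hmj : ∀ j, cj (g ^ j) (m:G) ∈ F.N 0 := fun j => F.cj_mem _ m.2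
  refine hx.ind (φ := fun z => E4 (fun i => ∑ j ∈ range i,
      (∑ k ∈ range j,
        (ω ⁅(a:G), ⁅cj (g ^ k) (m:G), ⁅cj (g ^ j) (n:G), cj (g ^ i) z⁆⁆⁆ -
          ω ⁅(a:G), ⁅cj (g ^ j) (n:G), ⁅cj (g ^ k) (m:G), cj (g ^ i) z⁆⁆⁆) +
       ∑ k ∈ range i, ω ⁅(a:G), ⁅cj (g ^ j) (n:G), ⁅cj (g ^ k) (m:G), cj (g ^ i) z⁆⁆⁆)))
    (Filt.Sym.E4 (fun i => Filt.Sym.sum _ (fun j => (Filt.Sym.sum _ (fun k =>
      ((sl4 hω a.2 (hmj k) (hnj j)).compcj (g ^ i)).sub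
        ((sl4 hω a.2 (hnj j) (hmj k)).compcj (g ^ i)))).add
      (Filt.Sym.sum _ (fun k => (sl4 hω a.2 (hnj j) (hmj k)).compcj (g ^ i))))))
    ?_ z z.2
  intro y
  have s : F.Sym 2 (fun w => ω ⁅(a:G), w⁆) := hω.left (i := 0) (j := 2) rfl a.2
  have := P2 s (F.cj_mem y hx.1) (he.conj y) n.2 m.2 g
  rw [← this]
  apply E4_congr
  intro i
  apply Finset.sum_congr rfl
  intro j _
  congr 1
  apply Finset.sum_congr rfl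
  intro k _
  exact (s.jacobi (i := 0) (j := 0) (l := 0) rfl (hmj k) (hnj j)
    (F.cj_mem _ (F.cj_mem y hx.1))).symm

lemma PP_r3 (hω : F.Sym 3 ω) {x : G} (hx : Gen F x) (he : Eng x) (g : G) (l m n z : F.N 0) :
    E4 (fun i => ∑ j ∈ range i,
    (∑ k ∈ range j,
      (∑ t ∈ range k,
        (PP F ω ((hh F g)^[t] l) ((hh F g)^[k] m) ((hh F g)^[j] n) ((hh F g)^[i] z)
          - PP F ω ((hh F g)^[k] m) ((hh F g)^[t] l) ((hh F g)^[j] n) ((hh F g)^[i] z)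
          - PP F ω ((hh F g)^[j] n) ((hh F g)^[t] l) ((hh F g)^[k] m) ((hh F g)^[i] z)
          + PP F ω ((hh F g)^[j] n) ((hh F g)^[k] m) ((hh F g)^[t] l) ((hh F g)^[i] z)) +
       ∑ t ∈ range j,
        (PP F ω ((hh F g)^[k] m) ((hh F g)^[t] l) ((hh F g)^[j] n) ((hh F g)^[i] z)
          - PP F ω ((hh F g)^[k] m) ((hh F g)^[j] n) ((hh F g)^[t] l) ((hh F g)^[i] z)
          - PP F ω ((hh F g)^[t] l) ((hh F g)^[j] n) ((hh F g)^[k] m) ((hh F g)^[i] z)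
          + PP F ω ((hh F g)^[j] n) ((hh F g)^[t] l) ((hh F g)^[k] m) ((hh F g)^[i] z)) +
       ∑ t ∈ range i,
        (PP F ω ((hh F g)^[k] m) ((hh F g)^[j] n) ((hh F g)^[t] l) ((hh F g)^[i] z)
          - PP F ω ((hh F g)^[j] n) ((hh F g)^[k] m) ((hh F g)^[t] l) ((hh F g)^[i] z))) +
     ∑ k ∈ range i,
      (∑ t ∈ range j,
        (PP F ω ((hh F g)^[t] l) ((hh F g)^[j] n) ((hh F g)^[k] m) ((hh F g)^[i] z)
          - PP F ω ((hh F g)^[j] n) ((hh F g)^[t] l) ((hh F g)^[k] m) ((hh F g)^[i] z)) +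
       ∑ t ∈ range k,
        (PP F ω ((hh F g)^[j] n) ((hh F g)^[t] l) ((hh F g)^[k] m) ((hh F g)^[i] z)
          - PP F ω ((hh F g)^[j] n) ((hh F g)^[k] m) ((hh F g)^[t] l) ((hh F g)^[i] z)) +
       ∑ t ∈ range i,
        PP F ω ((hh F g)^[j] n) ((hh F g)^[k] m) ((hh F g)^[t] l) ((hh F g)^[i] z)))) = 0 := by
  unfold PP
  simp only [hh_iter]
  have hnj : ∀ j, cj (g ^ j) (n:G) ∈ F.N 0 := fun j => F.cj_mem _ n.2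
  have hmj : ∀ j, cj (g ^ j) (m:G) ∈ F.N 0 := fun j => F.cj_mem _ m.2
  have hlj : ∀ j, cj (g ^ j) (l:G) ∈ F.N 0 := fun j => F.cj_mem _ l.2
  have S : ∀ i {a b c : G}, a ∈ F.N 0 → b ∈ F.N 0 → c ∈ F.N 0 →
      F.Sym 0 (fun z => ω ⁅a, ⁅b, ⁅c, cj (g ^ i) z⁆⁆⁆) :=
    fun i _ _ _ ha hb hc => (sl4 hω ha hb hc).compcj (g ^ i)
  refine hx.ind (φ := fun z => E4 (fun i => ∑ j ∈ range i,
    (∑ k ∈ range j,
      (∑ t ∈ range k,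
        (ω ⁅cj (g ^ t) (l:G), ⁅cj (g ^ k) (m:G), ⁅cj (g ^ j) (n:G), cj (g ^ i) z⁆⁆⁆
          - ω ⁅cj (g ^ k) (m:G), ⁅cj (g ^ t) (l:G), ⁅cj (g ^ j) (n:G), cj (g ^ i) z⁆⁆⁆
          - ω ⁅cj (g ^ j) (n:G), ⁅cj (g ^ t) (l:G), ⁅cj (g ^ k) (m:G), cj (g ^ i) z⁆⁆⁆
          + ω ⁅cj (g ^ j) (n:G), ⁅cj (g ^ k) (m:G), ⁅cj (g ^ t) (l:G), cj (g ^ i) z⁆⁆⁆) +
       ∑ t ∈ range j,
        (ω ⁅cj (g ^ k) (m:G), ⁅cj (g ^ t) (l:G), ⁅cj (g ^ j) (n:G), cj (g ^ i) z⁆⁆⁆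
          - ω ⁅cj (g ^ k) (m:G), ⁅cj (g ^ j) (n:G), ⁅cj (g ^ t) (l:G), cj (g ^ i) z⁆⁆⁆
          - ω ⁅cj (g ^ t) (l:G), ⁅cj (g ^ j) (n:G), ⁅cj (g ^ k) (m:G), cj (g ^ i) z⁆⁆⁆
          + ω ⁅cj (g ^ j) (n:G), ⁅cj (g ^ t) (l:G), ⁅cj (g ^ k) (m:G), cj (g ^ i) z⁆⁆⁆) +
       ∑ t ∈ range i,
        (ω ⁅cj (g ^ k) (m:G), ⁅cj (g ^ j) (n:G), ⁅cj (g ^ t) (l:G), cj (g ^ i) z⁆⁆⁆
          - ω ⁅cj (g ^ j) (n:G), ⁅cj (g ^ k) (m:G), ⁅cj (g ^ t) (l:G), cj (g ^ i) z⁆⁆⁆)) +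
     ∑ k ∈ range i,
      (∑ t ∈ range j,
        (ω ⁅cj (g ^ t) (l:G), ⁅cj (g ^ j) (n:G), ⁅cj (g ^ k) (m:G), cj (g ^ i) z⁆⁆⁆
          - ω ⁅cj (g ^ j) (n:G), ⁅cj (g ^ t) (l:G), ⁅cj (g ^ k) (m:G), cj (g ^ i) z⁆⁆⁆) +
       ∑ t ∈ range k,
        (ω ⁅cj (g ^ j) (n:G), ⁅cj (g ^ t) (l:G), ⁅cj (g ^ k) (m:G), cj (g ^ i) z⁆⁆⁆
          - ω ⁅cj (g ^ j) (n:G), ⁅cj (g ^ k) (m:G), ⁅cj (g ^ t) (l:G), cj (g ^ i) z⁆⁆⁆) +
       ∑ t ∈ range i,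
        ω ⁅cj (g ^ j) (n:G), ⁅cj (g ^ k) (m:G), ⁅cj (g ^ t) (l:G), cj (g ^ i) z⁆⁆⁆))))
    ?_ ?_ z z.2
  · refine Filt.Sym.E4 (fun i => Filt.Sym.sum _ (fun j => ?_))
    refine Filt.Sym.add (Filt.Sym.sum _ (fun k => ?_)) (Filt.Sym.sum _ (fun k => ?_))
    · refine Filt.Sym.add (Filt.Sym.add (Filt.Sym.sum _ (fun t => ?_))
        (Filt.Sym.sum _ (fun t => ?_))) (Filt.Sym.sum _ (fun t => ?_))
      · exact (((S i (hlj t) (hmj k) (hnj j)).sub (S i (hmj k) (hlj t) (hnj j))).sub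
          (S i (hnj j) (hlj t) (hmj k))).add (S i (hnj j) (hmj k) (hlj t))
      · exact (((S i (hmj k) (hlj t) (hnj j)).sub (S i (hmj k) (hnj j) (hlj t))).sub
          (S i (hlj t) (hnj j) (hmj k))).add (S i (hnj j) (hlj t) (hmj k))
      · exact (S i (hmj k) (hnj j) (hlj t)).sub (S i (hnj j) (hmj k) (hlj t))
    · refine Filt.Sym.add (Filt.Sym.add (Filt.Sym.sum _ (fun t => ?_))
        (Filt.Sym.sum _ (fun t => ?_))) (Filt.Sym.sum _ (fun t => ?_))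
      · exact (S i (hlj t) (hnj j) (hmj k)).sub (S i (hnj j) (hlj t) (hmj k))
      · exact (S i (hnj j) (hlj t) (hmj k)).sub (S i (hnj j) (hmj k) (hlj t))
      · exact S i (hnj j) (hmj k) (hlj t)
  intro y
  have := P3 hω (F.cj_mem y hx.1) (he.conj y) n.2 m.2 l.2 g
  rw [← this]
  apply E4_congr
  intro i
  have hzi : cj (g ^ i) (cj y x) ∈ F.N 0 := F.cj_mem _ (F.cj_mem y hx.1)
  have L2 : ∀ {a : G}, a ∈ F.N 0 → F.Sym 2 (fun w => ω ⁅a, w⁆) :=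
    fun ha => hω.left (i := 0) (j := 2) rfl ha
  -- Jacobi in the outer position
  have J0 : ∀ {a b c : G}, a ∈ F.N 0 → b ∈ F.N 0 → c ∈ F.N 0 →
      ω ⁅⁅a, b⁆, ⁅c, cj (g ^ i) (cj y x)⁆⁆ = ω ⁅a, ⁅b, ⁅c, cj (g ^ i) (cj y x)⁆⁆⁆ -
        ω ⁅b, ⁅a, ⁅c, cj (g ^ i) (cj y x)⁆⁆⁆ := fun ha hb hc =>
    hω.jacobi (i := 0) (j := 0) (l := 1) rfl ha hb (F.com1 hc hzi)
  have J1 : ∀ {a b c : G}, a ∈ F.N 0 → b ∈ F.N 0 → c ∈ F.N 0 →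
      ω ⁅a, ⁅⁅b, c⁆, cj (g ^ i) (cj y x)⁆⁆ = ω ⁅a, ⁅b, ⁅c, cj (g ^ i) (cj y x)⁆⁆⁆ -
        ω ⁅a, ⁅c, ⁅b, cj (g ^ i) (cj y x)⁆⁆⁆ := fun ha hb hc =>
    (L2 ha).jacobi (i := 0) (j := 0) (l := 0) rfl hb hc hzi
  have J2 : ∀ {a b c : G}, a ∈ F.N 0 → b ∈ F.N 0 → c ∈ F.N 0 →
      ω ⁅⁅⁅a, b⁆, c⁆, cj (g ^ i) (cj y x)⁆ =
        (ω ⁅a, ⁅b, ⁅c, cj (g ^ i) (cj y x)⁆⁆⁆ - ω ⁅b, ⁅a, ⁅c, cj (g ^ i) (cj y x)⁆⁆⁆) -
        (ω ⁅c, ⁅a, ⁅b, cj (g ^ i) (cj y x)⁆⁆⁆ - ω ⁅c, ⁅b, ⁅a, cj (g ^ i) (cj y x)⁆⁆⁆) := by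
    intro a b c ha hb hc
    rw [hω.jacobi (i := 1) (j := 0) (l := 0) rfl (F.com1 ha hb) hc hzi, J0 ha hb hc, J1 hc ha hb]
  have J3 : ∀ {a b c : G}, a ∈ F.N 0 → b ∈ F.N 0 → c ∈ F.N 0 →
      ω ⁅⁅a, ⁅b, c⁆⁆, cj (g ^ i) (cj y x)⁆ =
        (ω ⁅a, ⁅b, ⁅c, cj (g ^ i) (cj y x)⁆⁆⁆ - ω ⁅a, ⁅c, ⁅b, cj (g ^ i) (cj y x)⁆⁆⁆) -
        (ω ⁅b, ⁅c, ⁅a, cj (g ^ i) (cj y x)⁆⁆⁆ - ω ⁅c, ⁅b, ⁅a, cj (g ^ i) (cj y x)⁆⁆⁆) := by
    intro a b c ha hb hc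
    rw [hω.jacobi (i := 0) (j := 1) (l := 0) rfl ha (F.com1 hb hc) hzi, J1 ha hb hc, J0 hb hc ha]
  apply Finset.sum_congr rfl
  intro j _
  congr 1
  · apply Finset.sum_congr rfl
    intro k _
    congr 1
    · congr 1
      · apply Finset.sum_congr rfl
        intro t _
        rw [J2 (hlj t) (hmj k) (hnj j)]
        abel
      · apply Finset.sum_congr rfl
        intro t _
        rw [J3 (hmj k) (hlj t) (hnj j)]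
        abel
    · apply Finset.sum_congr rfl
      intro t _
      rw [J0 (hmj k) (hnj j) (hlj t)]
  · apply Finset.sum_congr rfl
    intro k _
    congr 1
    congr 1
    · apply Finset.sum_congr rfl
      intro t _
      rw [J0 (hlj t) (hnj j) (hmj k)]
    · apply Finset.sum_congr rfl
      intro t _
      rw [J1 (hnj j) (hlj t) (hmj k)]

/-- the core attached to a group element -/
def mkCore (hω : F.Sym 3 ω) {x : G} (hx : Gen F x) (he : Eng x) (g : G) : Core (F.N 0) Q where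
  h := hh F g
  d := dd F g
  P := PP F ω
  dh a := by
    apply Subtype.ext
    show ⁅g, cj g (a:G)⁆ = cj g ⁅g, (a:G)⁆
    rw [cj_comm]
    congr 1
    unfold cj; group
  s1 b c e a := s_gen (sl1 hω b.2 c.2 e.2) g a
  s2 a c e b := s_gen (sl2 hω a.2 c.2 e.2) g b
  s3 a b e c := s_gen (sl3 hω a.2 b.2 e.2) g c
  s4 a b c e := s_gen (sl4 hω a.2 b.2 c.2) g e
  n1 a b c e := d4_zero hx he (sl1 hω b.2 c.2 e.2) g a.2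
  n2 a b c e := d4_zero hx he (sl2 hω a.2 c.2 e.2) g b.2
  n3 a b c e := d4_zero hx he (sl3 hω a.2 b.2 e.2) g c.2
  n4 a b c e := d4_zero hx he (sl4 hω a.2 b.2 c.2) g e.2
  as a b c e := PP_as hω a b c e
  j3 a b c e := PP_j3 hω a b c e
  j4 a b c e := PP_j4 hω a b c e
  r1 a b n z := PP_r1 hω hx he g a b n z
  r2 a n m z := PP_r2 hω hx he g a n m z
  r3 l m n z := PP_r3 hω hx he g l m n z

end

end Run7.h607
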