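import Mathlib
import Pool.Agent.Run7.h607.GCore

/-! The chain argument for groups. -/

namespace Run7.h607

universe u v

open scoped commutatorElement

section
variable {G : Type u} [Group G] {F : Filt G} {Q : Type v} [AddCommGroup Q]

/-- commutators of weight four with the letters `0,…,q-1` equal to `x` vanish -/
def ZZ (F : Filt G) (Q : Type v) [AddCommGroup Q] (x : G) (q : ℕ) : Prop :=
  ∀ (ω : G → Q), F.Sym 3 ω → ∀ (v : ℕ → F.N 0), (∀ l < q, (v l : G) = x) →
    ∀ w0 w1 w2 w3, Perm4 w0 w1 w2 w3 → PP F ω (v w0) (v w1) (v w2) (v w3) = 0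

omit [AddCommGroup Q] in
lemma PP_equiv (ω : G → Q) (g : G) (a b c e : F.N 0) :
    PP F ω (hh F g a) (hh F g b) (hh F g c) (hh F g e) =
      PP F (fun y => ω (cj g y)) a b c e := by
  unfold PP hh
  simp only [cj_comm]

lemma ZQ_of_ZZ {x : G} (hx : Gen F x) (he : Eng x) {q : ℕ} (hZ : ZZ F Q x q) {ω : G → Q}
    (hω : F.Sym 3 ω) (g : G) : ZQ (mkCore hω hx he g) q ⟨x, hx.1⟩ := by
  intro u k w0 w1 w2 w3 hw
  show PP F ω _ _ _ _ = 0
  have key : ∀ w, lt q ((hh F g)^[k] ⟨x, hx.1⟩) u w =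
      hh F (g ^ k) (lt q ⟨x, hx.1⟩ (fun l => hh F (g ^ k)⁻¹ (u l)) w) := by
    intro w
    apply Subtype.ext
    unfold lt
    by_cases h : w < q
    · rw [if_pos h, if_pos h, hh_iter]; rfl
    · rw [if_neg h, if_neg h]
      show (u w : G) = cj (g ^ k) (cj (g ^ k)⁻¹ (u w))
      rw [← cj_mul_left, mul_inv_cancel, cj_one_left]
  have h2 : ∀ w, lt q ((mkCore hω hx he g).h^[k] ⟨x, hx.1⟩) u w =
    lt q ((hh F g)^[k] ⟨x, hx.1⟩) u w := fun w => rfl
  rw [h2, h2, h2, h2, key, key, key, key, PP_equiv]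
  refine hZ _ (hω.compcj _) (lt q ⟨x, hx.1⟩ (fun l => hh F (g ^ k)⁻¹ (u l))) ?_ _ _ _ _ hw
  intro l hl
  unfold lt
  rw [if_pos hl]

/-- one entry of a commutator of weight four -/
lemma sym_one {ω : G → Q} (hω : F.Sym 3 ω) (v : ℕ → F.N 0) {p w0 w1 w2 w3 : ℕ} (hp : p < 4)
    (hw : Perm4 w0 w1 w2 w3) :
    F.Sym 0 (fun y => ω ⁅(if w0 = p then y else (v w0 : G)), ⁅(if w1 = p then y else (v w1 : G)),
      ⁅(if w2 = p then y else (v w2 : G)), (if w3 = p then y else (v w3 : G))⁆⁆⁆) := by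
  obtain ⟨⟨h0, h1, h2, h3⟩, n01, n02, n03, n12, n13, n23⟩ := hw
  have hc : w0 = p ∨ w1 = p ∨ w2 = p ∨ w3 = p := by omega
  rcases hc with rfl | rfl | rfl | rfl
  · simp only [if_pos, if_neg n01.symm, if_neg n02.symm, if_neg n03.symm]
    exact sl1 hω (v w1).2 (v w2).2 (v w3).2
  · simp only [if_pos, if_neg n01, if_neg n12.symm, if_neg n13.symm]
    exact sl2 hω (v w0).2 (v w2).2 (v w3).2
  · simp only [if_pos, if_neg n02, if_neg n12, if_neg n23.symm]
    exact sl3 hω (v w0).2 (v w1).2 (v w3).2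
  · simp only [if_pos, if_neg n03, if_neg n13, if_neg n23]
    exact sl4 hω (v w0).2 (v w1).2 (v w2).2

lemma ZZ_four {x : G} : ZZ F Q x 4 := by
  intro ω hω v hv w0 w1 w2 w3 hw
  obtain ⟨⟨h0, h1, h2, h3⟩, _⟩ := hw
  unfold PP
  rw [hv w0 h0, hv w1 h1, hv w2 h2, hv w3 h3]
  simp only [commutatorElement_self, commutatorElement_one_right]
  exact hω.one

lemma ZZ_step {x : G} (hx : Gen F x) (he : Eng x) (hT : Tor Q) {q : ℕ} (hq : q + 1 ≤ 4)
    (hq1 : 1 ≤ q) (hZ : ZZ F Q x (q+1)) : ZZ F Q x q := by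
  intro ω hω v hv w0 w1 w2 w3 hw
  have hqlt : q < 4 := by omega
  have key := hx.ind (sym_one hω v hqlt hw) ?_ (v q) (v q).2
  · unfold PP
    have e : ∀ w, (if w = q then (v q : G) else (v w : G)) = v w := by
      intro w; split_ifs with h
      · rw [h]
      · rfl
    simp only [e] at key
    exact key
  · intro g
    have hs := sym_one hω v hqlt hw
    have e1 : cj g x = ⁅g, x⁆ * x := cj_eq g x
    rw [e1, hs.mul _ _ (F.com_any g hx.1) hx.1]
    -- the second term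
    have t2 := hZ ω hω (fun l => if l = q then ⟨x, hx.1⟩ else v l) (by
      intro l hl
      by_cases h : l = q
      · simp only [if_pos h]
      · simp only [if_neg h]
        exact hv l (by omega)) _ _ _ _ hw
    have c2 : ∀ w, ((if w = q then (⟨x, hx.1⟩ : F.N 0) else v w : F.N 0) : G) =
        if w = q then x else (v w : G) := by
      intro w; split_ifs <;> rfl
    unfold PP at t2
    simp only [c2] at t2
    -- the first term
    have hV := chain_all (mkCore hω hx he g) hT (q := q + 1) (by omega)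
      (ZQ_of_ZZ hx he hZ hω g) v
    have t1 := hV w0 w1 w2 w3 hw (inc (0, 0, 0, 0) q 1) (by rw [tot_inc]; rfl)
    obtain ⟨⟨h0, h1, h2, h3⟩, n01, n02, n03, n12, n13, n23⟩ := hw
    have c1 : ∀ w, w < 4 → (((mkCore hω hx he g).d^[gt (inc (0, 0, 0, 0) q 1) w]
        (lt (q+1) ⟨x, hx.1⟩ v w) : F.N 0) : G) = if w = q then ⁅g, x⁆ else (v w : G) := by
      intro w hw4
      have g0 : gt (0, 0, 0, 0) w = 0 := by interval_cases w <;> rfl
      rw [gt_inc hqlt hw4, g0]
      by_cases h : w = q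
      · subst h
        rw [if_pos rfl, if_pos rfl]
        unfold lt
        rw [if_pos (by omega)]
        rfl
      · rw [if_neg (fun h' => h h'.symm), if_neg h]
        unfold lt
        by_cases h' : w < q + 1
        · rw [if_pos h']
          exact (hv w (by omega)).symm
        · rw [if_neg h']; rfl
    unfold val at t1
    have t1' : ω ⁅(((mkCore hω hx he g).d^[gt (inc (0, 0, 0, 0) q 1) w0]
        (lt (q+1) ⟨x, hx.1⟩ v w0) : F.N 0) : G), ⁅(((mkCore hω hx he g).d^[gt (inc (0, 0, 0, 0) q 1) w1]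
        (lt (q+1) ⟨x, hx.1⟩ v w1) : F.N 0) : G), ⁅(((mkCore hω hx he g).d^[gt (inc (0, 0, 0, 0) q 1) w2]
        (lt (q+1) ⟨x, hx.1⟩ v w2) : F.N 0) : G), (((mkCore hω hx he g).d^[gt (inc (0, 0, 0, 0) q 1) w3]
        (lt (q+1) ⟨x, hx.1⟩ v w3) : F.N 0) : G)⁆⁆⁆ = 0 := t1
    rw [c1 w0 h0, c1 w1 h1, c1 w2 h2, c1 w3 h3] at t1'
    rw [t1', t2, add_zero]

lemma ZZ_last {x : G} (hx : Gen F x) (hZ : ZZ F Q x 1) : ZZ F Q x 0 := by
  intro ω hω v _ w0 w1 w2 w3 hw
  have key := hx.ind (sym_one hω v (p := 0) (by norm_num) hw) ?_ (v 0) (v 0).2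
  · unfold PP
    have e : ∀ w, (if w = 0 then (v 0 : G) else (v w : G)) = v w := by
      intro w; split_ifs with h
      · rw [h]
      · rfl
    simp only [e] at key
    exact key
  · intro g
    have t := hZ (fun y => ω (cj g y)) (hω.compcj g)
      (fun l => if l = 0 then ⟨x, hx.1⟩ else hh F g⁻¹ (v l)) (by
        intro l hl
        have : l = 0 := by omega
        simp only [if_pos this]) _ _ _ _ hw
    rw [← PP_equiv] at t
    have c : ∀ w, ((hh F g (if w = 0 then ⟨x, hx.1⟩ else hh F g⁻¹ (v w)) : F.N 0) : G) =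
        if w = 0 then cj g x else (v w : G) := by
      intro w
      split_ifs with h
      · rfl
      · show cj g (cj g⁻¹ (v w)) = v w
        rw [← cj_mul_left, mul_inv_cancel, cj_one_left]
    unfold PP at t
    simp only [c] at t
    exact t

/-- All the commutators of weight four vanish under `ω`. -/
theorem weight_four {x : G} (hx : Gen F x) (he : Eng x) (hT : Tor Q) {ω : G → Q}
    (hω : F.Sym 3 ω) {a b c e : G} (ha : a ∈ F.N 0) (hb : b ∈ F.N 0) (hc : c ∈ F.N 0)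
    (he' : e ∈ F.N 0) : ω ⁅a, ⁅b, ⁅c, e⁆⁆⁆ = 0 := by
  have h3 : ZZ F Q x 3 := ZZ_step hx he hT (by norm_num) (by norm_num) ZZ_four
  have h2 : ZZ F Q x 2 := ZZ_step hx he hT (by norm_num) (by norm_num) h3
  have h1 : ZZ F Q x 1 := ZZ_step hx he hT (by norm_num) (by norm_num) h2
  have h0 : ZZ F Q x 0 := ZZ_last hx h1
  exact h0 ω hω (lets ⟨a, ha⟩ ⟨b, hb⟩ ⟨c, hc⟩ ⟨e, he'⟩) (by simp) 0 1 2 3 (by unfold Perm4; omega)

end

end Run7.h607
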