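import Mathlib
import Pool.Agent.Run7.h607.GChain

/-! The lower central filtration of a normal subgroup and torsion of its pieces. -/

namespace Run7.h607

universe u v

open scoped commutatorElement

section
variable {G : Type u} [Group G]

instance lcs_normal (N : Subgroup G) [N.Normal] (k : ℕ) : (N.lowerCentralSeries k).Normal := by
  induction k with
  | zero => simpa
  | succ k ih => rw [Subgroup.lowerCentralSeries_succ]; infer_instance

lemma comm_le_of_rotate {A B C K : Subgroup G} [K.Normal] (h1 : ⁅⁅B, C⁆, A⁆ ≤ K)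
    (h2 : ⁅⁅C, A⁆, B⁆ ≤ K) : ⁅⁅A, B⁆, C⁆ ≤ K := by
  have key : ∀ X : Subgroup G, X ≤ K ↔ X.map (QuotientGroup.mk' K) = ⊥ := by
    intro X
    rw [Subgroup.map_eq_bot_iff, QuotientGroup.ker_mk']
  rw [key, Subgroup.map_commutator, Subgroup.map_commutator] at h1 h2 ⊢
  exact Subgroup.commutator_commutator_eq_bot_of_rotate h1 h2

lemma lcs_comm (N : Subgroup G) [N.Normal] (j : ℕ) : ∀ i,
    ⁅N.lowerCentralSeries i, N.lowerCentralSeries j⁆ ≤ N.lowerCentralSeries (i + j + 1) := by
  induction j with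
  | zero => intro i; rfl
  | succ j ih =>
    intro i
    rw [Subgroup.commutator_comm, Subgroup.lowerCentralSeries_succ (n := j)]
    apply comm_le_of_rotate
    · -- ⁅⁅N, lcs i⁆, lcs j⁆
      rw [Subgroup.commutator_comm N]
      have := ih (i+1)
      rw [Subgroup.lowerCentralSeries_succ (n := i), show i + 1 + j + 1 = i + (j + 1) + 1 by ring]
        at this
      exact this
    · -- ⁅⁅lcs i, lcs j⁆, N⁆
      have := ih i
      have h2 : ⁅⁅N.lowerCentralSeries i, N.lowerCentralSeries j⁆, N⁆ ≤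
          ⁅N.lowerCentralSeries (i + j + 1), N⁆ := Subgroup.commutator_mono this le_rfl
      exact h2

/-- the lower central filtration -/
def lcsF (N : Subgroup G) [N.Normal] : Filt G where
  N k := N.lowerCentralSeries k
  nrm k g _ ha := (lcs_normal N k).conj_mem _ ha g
  anti k _ ha := N.lowerCentralSeries_antitone (Nat.le_succ k) ha
  com i j _ _ ha hb := lcs_comm N j i (Subgroup.commutator_mem_commutator ha hb)

lemma lcs_ind {N : Subgroup G} [N.Normal] {Q : Type v} [AddCommGroup Q] {k : ℕ} {φ : G → Q}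
    (hφ : (lcsF N).Sym (k+1) φ)
    (h : ∀ a ∈ N.lowerCentralSeries k, ∀ b ∈ N, φ ⁅a, b⁆ = 0) :
    ∀ y ∈ N.lowerCentralSeries (k+1), φ y = 0 := by
  intro y hy
  have hy' : y ∈ Subgroup.closure {x | ∃ p ∈ N.lowerCentralSeries k, ∃ q ∈ N, ⁅p, q⁆ = x} :=
    (N.mem_lowerCentralSeries_succ_iff k y).mp hy
  have hsub : ∀ z ∈ Subgroup.closure
      {x | ∃ p ∈ N.lowerCentralSeries k, ∃ q ∈ N, ⁅p, q⁆ = x}, z ∈ (lcsF N).N (k+1) :=
    fun z hz => (N.mem_lowerCentralSeries_succ_iff k z).mpr hz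
  refine Subgroup.closure_induction (p := fun z _ => φ z = 0) ?_ ?_ ?_ ?_ hy'
  · rintro _ ⟨a, ha, b, hb, rfl⟩
    exact h a ha b hb
  · exact hφ.one
  · intro a b ha hb h1 h2
    rw [hφ.mul _ _ (hsub a ha) (hsub b hb), h1, h2, add_zero]
  · intro a ha h1
    rw [hφ.inv (hsub a ha), h1, neg_zero]

lemma gen_normalClosure (x : G) : Gen (lcsF (Subgroup.normalClosure {x})) x := by
  refine ⟨Subgroup.subset_normalClosure (Set.mem_singleton x), ?_⟩
  intro y hy
  have hy' : y ∈ Subgroup.normalClosure {x} := hy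
  refine (Subgroup.closure_mono ?_) (show y ∈ Subgroup.closure (Group.conjugatesOfSet {x}) from hy')
  intro z hz
  rw [Group.mem_conjugatesOfSet_iff] at hz
  obtain ⟨a, ha, hc⟩ := hz
  rw [Set.mem_singleton_iff] at ha
  subst ha
  rw [isConj_iff] at hc
  obtain ⟨g, hg⟩ := hc
  exact ⟨g, hg.symm⟩

/-- Class at most three for class at most four without `{2,3,5}`-torsion. -/
theorem class_three_aux {x : G} (he : Eng x)
    (h4 : (Subgroup.normalClosure {x}).lowerCentralSeries 4 = ⊥)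
    (ht : ∀ y ∈ (Subgroup.normalClosure {x}).lowerCentralSeries 3, y ^ 30 = 1 → y = 1) :
    (Subgroup.normalClosure {x}).lowerCentralSeries 3 = ⊥ := by
  classical
  set N := Subgroup.normalClosure {x} with hN
  set F := lcsF N with hF
  have hcomm : ∀ a b : N.lowerCentralSeries 3, a * b = b * a := by
    intro a b
    have h1 : ⁅(a:G), (b:G)⁆ ∈ F.N (3+3+1) := F.com 3 3 _ _ a.2 b.2
    have h2 : ⁅(a:G), (b:G)⁆ ∈ F.N 4 := F.anti' (by norm_num) h1
    have h3 : ⁅(a:G), (b:G)⁆ = 1 := by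
      have : ⁅(a:G), (b:G)⁆ ∈ N.lowerCentralSeries 4 := h2
      rw [h4] at this
      exact Subgroup.mem_bot.mp this
    apply Subtype.ext
    exact commutatorElement_eq_one_iff_mul_comm.mp h3
  let _ : CommGroup (N.lowerCentralSeries 3) :=
    { (inferInstance : Group (N.lowerCentralSeries 3)) with mul_comm := hcomm }
  let ω : G → Additive (N.lowerCentralSeries 3) := fun g =>
    if h : g ∈ N.lowerCentralSeries 3 then Additive.ofMul ⟨g, h⟩ else 0
  have hω : F.Sym 3 ω := by
    constructor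
    · intro a b ha hb
      have ha' : a ∈ N.lowerCentralSeries 3 := ha
      have hb' : b ∈ N.lowerCentralSeries 3 := hb
      simp only [ω, dif_pos ha', dif_pos hb', dif_pos (mul_mem ha' hb')]
      rfl
    · intro a ha
      have ha' : a ∈ N.lowerCentralSeries 4 := ha
      rw [h4] at ha'
      have : a = 1 := Subgroup.mem_bot.mp ha'
      subst this
      simp only [ω, dif_pos (one_mem (N.lowerCentralSeries 3))]
      rfl
  have hω0 : ∀ y ∈ N.lowerCentralSeries 3, ω y = 0 → y = 1 := by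
    intro y hy h
    simp only [ω, dif_pos hy] at h
    have h2 : (⟨y, hy⟩ : N.lowerCentralSeries 3) = 1 := h
    exact congrArg Subtype.val h2
  have hT : Tor (Additive (N.lowerCentralSeries 3)) := by
    intro q hq
    have h1 : (Additive.toMul q) ^ (30:ℤ) = 1 := hq
    have h1' : (Additive.toMul q) ^ 30 = 1 := by exact_mod_cast h1
    have h2 : ((Additive.toMul q : N.lowerCentralSeries 3) : G) ^ 30 = 1 :=
      congrArg Subtype.val h1'
    have h3 := ht _ (Additive.toMul q).2 h2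
    have h4 : Additive.toMul q = 1 := Subtype.ext h3
    exact h4
  have hgen : Gen F x := gen_normalClosure x
  have main : ∀ a ∈ N, ∀ b ∈ N, ∀ c ∈ N, ∀ e ∈ N, ω ⁅a, ⁅b, ⁅c, e⁆⁆⁆ = 0 :=
    fun a ha b hb c hc e he' => weight_four hgen he hT hω ha hb hc he'
  rw [eq_bot_iff]
  intro y hy
  rw [Subgroup.mem_bot]
  apply hω0 y hy
  refine lcs_ind (k := 2) hω ?_ y hy
  intro p hp q hq
  refine lcs_ind (k := 1) (φ := fun p => ω ⁅p, q⁆) (hω.right (i := 2) (j := 0) rfl hq) ?_ p hp
  intro r hr s hs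
  have s2 : F.Sym 2 (fun p => ω ⁅p, q⁆) := hω.right (i := 2) (j := 0) rfl hq
  refine lcs_ind (k := 0) (φ := fun r => ω ⁅⁅r, s⁆, q⁆) (s2.right (i := 1) (j := 0) rfl hs) ?_ r hr
  intro a ha b hb
  have ha0 : a ∈ F.N 0 := ha
  have hb0 : b ∈ F.N 0 := hb
  have e1 := hω.antisymm (i := 2) (j := 0) rfl (F.com2 (F.com1 ha0 hb0) hs) hq
  have e2 := (hω.left (i := 0) (j := 2) rfl hq).antisymm (i := 1) (j := 0) rfl
    (F.com1 ha0 hb0) hs
  show ω ⁅⁅⁅a, b⁆, s⁆, q⁆ = 0
  rw [e1, e2, main q hq s hs a ha b hb]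
  exact neg_neg _

end

end Run7.h607
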