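import Mathlib
import Pool.Agent.Run7.h607.LCS

/-! Torsion of the lower central series of the normal closure. -/

namespace Run7.h607

universe u v

open scoped commutatorElement

section
variable {G : Type u} [Group G]

lemma mul_pow_mem {K : Subgroup G} [K.Normal] {a b : G} (hab : ⁅a, b⁆ ∈ K) {m : ℕ}
    (ha : a ^ m ∈ K) (hb : b ^ m ∈ K) : (a * b) ^ m ∈ K := by
  have h1 : (QuotientGroup.mk' K) ((a * b) ^ m) = 1 := by
    have hc : Commute (QuotientGroup.mk' K a) (QuotientGroup.mk' K b) := by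
      rw [← commutatorElement_eq_one_iff_commute, ← map_commutatorElement]
      exact (QuotientGroup.eq_one_iff _).mpr hab
    rw [map_pow, map_mul, hc.mul_pow, ← map_pow, ← map_pow]
    have e1 : (QuotientGroup.mk' K) (a ^ m) = 1 := (QuotientGroup.eq_one_iff _).mpr ha
    have e2 : (QuotientGroup.mk' K) (b ^ m) = 1 := (QuotientGroup.eq_one_iff _).mpr hb
    rw [e1, e2, one_mul]
  exact (QuotientGroup.eq_one_iff _).mp h1

lemma comm_pow_of_commute {H : Type*} [Group H] {a n : H} (h : Commute a ⁅a, n⁆) (m : ℕ) :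
    ⁅a ^ m, n⁆ = ⁅a, n⁆ ^ m := by
  induction m with
  | zero => simp
  | succ m ih =>
    rw [pow_succ, comm_mul_left, ih, pow_succ']
    congr 1
    unfold cj
    rw [(h.pow_left m).eq, mul_inv_cancel_right]

variable (N : Subgroup G) [N.Normal]

/-- elements of `γ` whose `30`-power lies in the next term -/
def iso (k : ℕ) : Subgroup G where
  carrier := {y | y ∈ N.lowerCentralSeries k ∧ ∃ j, y ^ (30 ^ j) ∈ N.lowerCentralSeries (k+1)}
  one_mem' := ⟨one_mem _, 0, by simp [one_mem]⟩
  mul_mem' := by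
    rintro a b ⟨ha, i, hi⟩ ⟨hb, j, hj⟩
    refine ⟨mul_mem ha hb, i + j, ?_⟩
    apply mul_pow_mem
    · have h1 : ⁅a, b⁆ ∈ (lcsF N).N (k+k+1) := (lcsF N).com k k _ _ ha hb
      have h2 : ⁅a, b⁆ ∈ (lcsF N).N (k+1) := (lcsF N).anti' (by omega) h1
      exact h2
    · rw [pow_add, pow_mul]; exact pow_mem hi _
    · rw [pow_add, mul_comm, pow_mul]; exact pow_mem hj _
  inv_mem' := by
    rintro a ⟨ha, i, hi⟩
    refine ⟨inv_mem ha, i, ?_⟩
    rw [inv_pow]; exact inv_mem hi

instance iso_normal (k : ℕ) : (iso N k).Normal where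
  conj_mem := by
    rintro a ⟨ha, i, hi⟩ g
    refine ⟨(lcs_normal N k).conj_mem _ ha g, i, ?_⟩
    rw [conj_pow]
    exact (lcs_normal N (k+1)).conj_mem _ hi g

lemma iso_step {k : ℕ} (h : N.lowerCentralSeries k ≤ iso N k) :
    N.lowerCentralSeries (k+1) ≤ iso N (k+1) := by
  rw [Subgroup.lowerCentralSeries_succ]
  rw [Subgroup.commutator_le]
  intro a ha n hn
  obtain ⟨_, j, hj⟩ := h ha
  refine ⟨Subgroup.commutator_mem_commutator ha hn, j, ?_⟩
  set K := N.lowerCentralSeries (k+1+1) with hK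
  have hc : Commute (QuotientGroup.mk' K a) ⁅QuotientGroup.mk' K a, QuotientGroup.mk' K n⁆ := by
    rw [← commutatorElement_eq_one_iff_commute, ← map_commutatorElement, ← map_commutatorElement]
    refine (QuotientGroup.eq_one_iff _).mpr ?_
    have h1 : ⁅a, n⁆ ∈ (lcsF N).N (k+1) := Subgroup.commutator_mem_commutator ha hn
    have h2 : a ∈ (lcsF N).N 0 := (lcsF N).anti' (Nat.zero_le _) (show a ∈ (lcsF N).N k from ha)
    exact (lcsF N).com1 h2 h1
  have h1 := comm_pow_of_commute hc (30 ^ j)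
  rw [← map_pow, ← map_commutatorElement, ← map_commutatorElement, ← map_pow] at h1
  have h2 : (QuotientGroup.mk' K) ⁅a ^ (30 ^ j), n⁆ = 1 :=
    (QuotientGroup.eq_one_iff _).mpr (Subgroup.commutator_mem_commutator hj hn)
  rw [h2] at h1
  exact (QuotientGroup.eq_one_iff _).mp h1.symm

lemma iso_all {k : ℕ} (h : N.lowerCentralSeries k ≤ iso N k) (t : ℕ) :
    N.lowerCentralSeries (k+t) ≤ iso N (k+t) := by
  induction t with
  | zero => exact h
  | succ t ih => exact iso_step N ih

lemma tors_all {k : ℕ} (h : N.lowerCentralSeries k ≤ iso N k) (t : ℕ) :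
    ∀ y ∈ N.lowerCentralSeries k, ∃ j, y ^ (30 ^ j) ∈ N.lowerCentralSeries (k+t) := by
  induction t with
  | zero => intro y hy; exact ⟨0, by simpa using hy⟩
  | succ t ih =>
    intro y hy
    obtain ⟨j, hj⟩ := ih y hy
    obtain ⟨_, i, hi⟩ := iso_all N h t hj
    refine ⟨j + i, ?_⟩
    rw [pow_add, pow_mul]
    exact hi

lemma tors_nil {k : ℕ} (h : N.lowerCentralSeries k ≤ iso N k) (hn : Group.IsNilpotent N) :
    ∀ y ∈ N.lowerCentralSeries k, ∃ j, y ^ (30 ^ j) = 1 := by
  intro y hy
  obtain ⟨c, hc⟩ := (Subgroup.isNilpotent_iff_lowerCentralSeries N).mp hn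
  obtain ⟨j, hj⟩ := tors_all N h c y hy
  refine ⟨j, ?_⟩
  have h1 : y ^ (30 ^ j) ∈ N.lowerCentralSeries c :=
    N.lowerCentralSeries_antitone (Nat.le_add_left c k) hj
  rw [hc] at h1
  exact Subgroup.mem_bot.mp h1

end

/-- The fourth term of the lower central series is, modulo the fifth, a `{2,3,5}`-group. -/
theorem lcs3_le_iso {G : Type u} [Group G] {x : G} (he : Eng x) :
    (Subgroup.normalClosure {x}).lowerCentralSeries 3 ≤ iso (Subgroup.normalClosure {x}) 3 := by
  set N := Subgroup.normalClosure {x} with hN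
  set K := iso N 3 with hK
  let π := QuotientGroup.mk' K
  have hπ : Function.Surjective π := QuotientGroup.mk'_surjective K
  have hmap : N.map π = Subgroup.normalClosure {π x} := by
    have h0 := Subgroup.map_normalClosure ({x} : Set G) π hπ
    rw [Set.image_singleton] at h0
    exact h0
  have hE : Eng (π x) := by
    intro h'
    obtain ⟨h, rfl⟩ := hπ h'
    rw [← map_commutatorElement, ← map_commutatorElement, ← map_commutatorElement,
      ← map_commutatorElement, he h, map_one]
  have h4 : (Subgroup.normalClosure {π x}).lowerCentralSeries 4 = ⊥ := by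
    rw [← hmap, ← Subgroup.map_lowerCentralSeries, Subgroup.map_eq_bot_iff,
      QuotientGroup.ker_mk']
    intro y hy
    refine ⟨N.lowerCentralSeries_antitone (by norm_num) hy, 0, ?_⟩
    simpa using hy
  have h3 := class_three_aux hE h4 (by
    intro y hy hy30
    rw [← hmap, ← Subgroup.map_lowerCentralSeries] at hy
    obtain ⟨z, hz, rfl⟩ := hy
    rw [← map_pow] at hy30
    have h1 : z ^ 30 ∈ K := (QuotientGroup.eq_one_iff _).mp hy30
    obtain ⟨_, j, hj⟩ := h1
    refine (QuotientGroup.eq_one_iff _).mpr ?_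
    refine ⟨hz, j + 1, ?_⟩
    rw [pow_succ', pow_mul]
    exact hj)
  rw [← hmap, ← Subgroup.map_lowerCentralSeries, Subgroup.map_eq_bot_iff,
    QuotientGroup.ker_mk'] at h3
  exact h3

/-- For a nilpotent normal closure, `γ_4` is a `{2,3,5}`-group. -/
theorem gamma_four {G : Type u} [Group G] {x : G} (he : Eng x)
    (hn : Group.IsNilpotent (Subgroup.normalClosure {x} : Subgroup G)) :
    ∀ y ∈ (Subgroup.normalClosure {x}).lowerCentralSeries 3, ∃ j, y ^ (30 ^ j) = 1 :=
  tors_nil _ (lcs3_le_iso he) hn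

end Run7.h607
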