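import Mathlib
import Pool.Agent.Run7.h607.GCore

/-! The polarised right 4-Engel relations of all orders. -/

namespace Run7.h607

universe u v

open scoped commutatorElement

/-- right-normed commutator -/
def rb {G : Type u} [Group G] : List G → G → G
  | [], z => z
  | a :: w, z => ⁅a, rb w z⁆

/-- insertion of a new letter at the ordered place -/
def oins (r s : ℕ) : List (ℕ × ℕ) → List (ℕ × ℕ)
  | [] => [(r, s)]
  | p :: w => if s < p.2 then (r, s) :: p :: w else p :: oins r s w

/-- the formal relations -/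
def Rl : ℕ → List (ℤ × List (ℕ × ℕ) × ℕ)
  | 0 => [(1, [], 0), (-4, [], 1), (6, [], 2), (-4, [], 3), (1, [], 4)]
  | r + 1 => (Rl r).flatMap fun t => (List.range t.2.2).map fun s => (t.1, oins r s t.2.1, t.2.2)

/-- the letters of a formal word -/
def lw {G : Type u} [Group G] (n : ℕ → G) (h : G) (w : List (ℕ × ℕ)) : List G :=
  w.map fun p => cj (h ^ p.2) (n p.1)

/-- evaluation of a formal relation -/
def evR {G : Type u} [Group G] {A : Type v} [AddCommGroup A] (φ : G → A) (n : ℕ → G) (h z : G)
    (L : List (ℤ × List (ℕ × ℕ) × ℕ)) : A :=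
  (L.map fun t => t.1 • φ (rb (lw n h t.2.1) (cj (h ^ t.2.2) z))).sum

lemma sum_range_list {A : Type v} [AddCommGroup A] (f : ℕ → A) (i : ℕ) :
    ((List.range i).map f).sum = ∑ s ∈ Finset.range i, f s := by
  induction i with
  | zero => simp
  | succ i ih => rw [List.range_succ, List.map_append, List.sum_append, ih,
      Finset.sum_range_succ]; simp

section
variable {G : Type u} [Group G] {F : Filt G} {A : Type v} [AddCommGroup A] {φ : G → A}

lemma rb_mem {w : List G} (hw : ∀ a ∈ w, a ∈ F.N 0) {z : G} {m : ℕ} (hz : z ∈ F.N m) :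
    rb w z ∈ F.N (m + w.length) := by
  induction w with
  | nil => exact hz
  | cons a w ih =>
    have h1 := ih (fun b hb => hw b (List.mem_cons_of_mem _ hb))
    have h2 := F.com1 (hw a List.mem_cons_self) h1
    exact h2

lemma lw_mem {n : ℕ → G} (hn : ∀ l, n l ∈ F.N 0) (h : G) (w : List (ℕ × ℕ)) :
    ∀ a ∈ lw n h w, a ∈ F.N 0 := by
  intro a ha
  simp only [lw, List.mem_map] at ha
  obtain ⟨p, _, rfl⟩ := ha
  exact F.cj_mem _ (hn _)

lemma rb_fst (w : List F.dbl) (z : F.dbl) :
    (rb w z).1.1 = rb (w.map fun p => p.1.1) z.1.1 := by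
  induction w with
  | nil => rfl
  | cons a w ih =>
    show (⁅a, rb w z⁆).1.1 = ⁅a.1.1, rb (w.map fun p => p.1.1) z.1.1⁆
    rw [dbl_comm_fst, ih]

lemma lw_fst (n : ℕ → G) (m h : G) (hm : m ∈ F.N 0) (w : List (ℕ × ℕ)) :
    (lw (fun l => cst F (n l)) (shf F m h hm) w).map (fun p => p.1.1) = lw n h w := by
  unfold lw
  rw [List.map_map]
  apply List.map_congr_left
  intro p _
  show (cj (shf F m h hm ^ p.2) (cst F (n p.1))).1.1 = _
  rw [cjp_fst]

lemma oins_low {r s j : ℕ} (hs : s < j) {w : List (ℕ × ℕ)} (hw : ∀ p ∈ w, j ≤ p.2) :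
    oins r s w = (r, s) :: w := by
  cases w with
  | nil => rfl
  | cons p w =>
    unfold oins
    rw [if_pos]
    have := hw p List.mem_cons_self
    omega

lemma rb_dbl (n : ℕ → G) (hn : ∀ l, n l ∈ F.N 0) (r : ℕ) (h : G) {z : G} (hz : z ∈ F.N 0)
    (i : ℕ) (w : List (ℕ × ℕ)) : ∀ {φ : G → A}, F.Sym (w.length + 1) φ →
    w.Pairwise (fun p q => p.2 ≤ q.2) → (∀ p ∈ w, p.2 ≤ i) →
    φ (rt F (rb (lw (fun l => cst F (n l)) (shf F (n r) h (hn r)) w)
      (cj (shf F (n r) h (hn r) ^ i) (cst F z)))) =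
    ∑ s ∈ Finset.range i, φ (rb (lw n h (oins r s w)) (cj (h ^ i) z)) := by
  induction w with
  | nil =>
    intro φ hφ _ _
    exact rt_sum hφ (hn r) hz i
  | cons p w ih =>
    intro φ hφ hs hi
    rw [List.pairwise_cons] at hs
    have hlen : (p :: w).length + 1 = w.length + 2 := rfl
    rw [hlen] at hφ
    set a := cj (h ^ p.2) (n p.1) with ha
    set y := rb (lw n h w) (cj (h ^ i) z) with hy
    have ha0 : a ∈ F.N 0 := F.cj_mem _ (hn _)
    have hyw : y ∈ F.N w.length := by
      have := rb_mem (lw_mem hn h w) (F.cj_mem (h ^ i) hz)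
      have hl : (lw n h w).length = w.length := by unfold lw; rw [List.length_map]
      rw [hl, zero_add] at this
      exact this
    -- unfold the bracket in the doubled group
    have e1 : rb (lw (fun l => cst F (n l)) (shf F (n r) h (hn r)) (p :: w))
        (cj (shf F (n r) h (hn r) ^ i) (cst F z)) =
        ⁅cj (shf F (n r) h (hn r) ^ p.2) (cst F (n p.1)),
          rb (lw (fun l => cst F (n l)) (shf F (n r) h (hn r)) w)
            (cj (shf F (n r) h (hn r) ^ i) (cst F z))⁆ := rfl
    have hY : rb (lw (fun l => cst F (n l)) (shf F (n r) h (hn r)) w)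
            (cj (shf F (n r) h (hn r) ^ i) (cst F z)) ∈ F.D.N w.length := by
      have h1 := rb_mem (F := F.D) (lw_mem (F := F.D) (fun l => cst_mem (hn l))
        (shf F (n r) h (hn r)) w) (F.D.cj_mem (shf F (n r) h (hn r) ^ i) (cst_mem hz))
      have hl : (lw (fun l => cst F (n l)) (shf F (n r) h (hn r)) w).length = w.length := by
        unfold lw; rw [List.length_map]
      rw [hl, zero_add] at h1
      exact h1
    have hYf : (rb (lw (fun l => cst F (n l)) (shf F (n r) h (hn r)) w)
            (cj (shf F (n r) h (hn r) ^ i) (cst F z))).1.1 = y := by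
      rw [rb_fst, lw_fst, cjp_fst]
    rw [e1, hφ.dbl_comm (i := 0) (j := w.length) (by omega) (cjp_mem _ (hn _)) hY, hYf, cjp_fst]
    have s1 : F.Sym 1 (fun x => φ ⁅x, y⁆) := hφ.right (i := 1) (j := w.length) (by omega) hyw
    have s2 : F.Sym (w.length + 1) (fun x => φ ⁅a, x⁆) :=
      hφ.left (i := 0) (j := w.length + 1) (by omega) ha0
    rw [rt_sum s1 (hn r) (hn p.1) p.2]
    have t2 := ih s2 hs.2 (fun q hq => hi q (List.mem_cons_of_mem _ hq))
    rw [t2]
    have hpi : p.2 ≤ i := hi p List.mem_cons_self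
    have e2 : ∑ j ∈ Finset.range p.2, φ ⁅⁅cj (h ^ j) (n r), cj (h ^ p.2) (n p.1)⁆, y⁆ =
        ∑ s ∈ Finset.range i, if s < p.2 then
          φ ⁅cj (h ^ s) (n r), ⁅a, y⁆⁆ - φ ⁅a, ⁅cj (h ^ s) (n r), y⁆⁆ else 0 := by
      rw [← Finset.sum_subset (Finset.range_subset_range.mpr hpi)]
      · apply Finset.sum_congr rfl
        intro s hs'
        rw [if_pos (Finset.mem_range.mp hs')]
        exact hφ.jacobi (i := 0) (j := 0) (l := w.length) (by omega) (F.cj_mem _ (hn r)) ha0 hyw
      · intro s _ hs'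
        rw [if_neg]
        intro hc
        exact hs' (Finset.mem_range.mpr hc)
    rw [e2, ← Finset.sum_add_distrib]
    apply Finset.sum_congr rfl
    intro s _
    by_cases hsp : s < p.2
    · rw [if_pos hsp, oins_low hsp hs.1]
      have e3 : oins r s (p :: w) = (r, s) :: p :: w := by
        unfold oins; rw [if_pos hsp]
      rw [e3]
      show φ ⁅cj (h ^ s) (n r), ⁅a, y⁆⁆ - φ ⁅a, ⁅cj (h ^ s) (n r), y⁆⁆ +
        φ ⁅a, ⁅cj (h ^ s) (n r), y⁆⁆ = φ ⁅cj (h ^ s) (n r), ⁅a, y⁆⁆
      abel
    · rw [if_neg hsp, zero_add]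
      have e3 : oins r s (p :: w) = p :: oins r s w := by
        conv_lhs => unfold oins
        rw [if_neg hsp]
      rw [e3]
      rfl

/-- well-formed entries -/
def wf (r : ℕ) (t : ℤ × List (ℕ × ℕ) × ℕ) : Prop :=
  t.2.1.length = r ∧ t.2.1.Pairwise (fun p q => p.2 ≤ q.2) ∧ ∀ p ∈ t.2.1, p.2 ≤ t.2.2

lemma oins_length (r s : ℕ) (w : List (ℕ × ℕ)) : (oins r s w).length = w.length + 1 := by
  induction w with
  | nil => rfl
  | cons p w ih =>
    unfold oins
    split_ifs
    · rfl
    · simp [ih]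

lemma oins_mem (r s : ℕ) (w : List (ℕ × ℕ)) : ∀ p ∈ oins r s w, p = (r, s) ∨ p ∈ w := by
  induction w with
  | nil => intro p hp; left; simpa [oins] using hp
  | cons q w ih =>
    intro p hp
    unfold oins at hp
    split_ifs at hp
    · rcases List.mem_cons.mp hp with h | h
      · left; exact h
      · right; exact h
    · rcases List.mem_cons.mp hp with h | h
      · right; rw [h]; exact List.mem_cons_self
      · rcases ih p h with h' | h'
        · left; exact h'
        · right; exact List.mem_cons_of_mem _ h'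

lemma oins_sorted (r s : ℕ) (w : List (ℕ × ℕ)) (hw : w.Pairwise (fun p q => p.2 ≤ q.2)) :
    (oins r s w).Pairwise (fun p q => p.2 ≤ q.2) := by
  induction w with
  | nil => simp [oins]
  | cons q w ih =>
    rw [List.pairwise_cons] at hw
    unfold oins
    split_ifs with h
    · rw [List.pairwise_cons, List.pairwise_cons]
      refine ⟨?_, hw⟩
      intro p hp
      rcases List.mem_cons.mp hp with h' | h'
      · rw [h']; exact h.le
      · exact h.le.trans (hw.1 p h')
    · rw [List.pairwise_cons]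
      refine ⟨?_, ih hw.2⟩
      intro p hp
      rcases oins_mem r s w p hp with h' | h'
      · rw [h']; exact not_lt.mp h
      · exact hw.1 p h'

lemma Rl_wf (r : ℕ) : ∀ t ∈ Rl r, wf r t := by
  induction r with
  | zero =>
    intro t ht
    simp only [Rl, List.mem_cons, List.not_mem_nil, or_false] at ht
    rcases ht with h | h | h | h | h <;> subst h <;> exact ⟨rfl, List.Pairwise.nil, by simp⟩
  | succ r ih =>
    intro t ht
    simp only [Rl, List.mem_flatMap, List.mem_map, List.mem_range] at ht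
    obtain ⟨t', ht', s, hs, rfl⟩ := ht
    obtain ⟨h1, h2, h3⟩ := ih t' ht'
    refine ⟨by rw [oins_length, h1], oins_sorted r s _ h2, ?_⟩
    intro p hp
    rcases oins_mem r s _ p hp with h | h
    · rw [h]; exact hs.le
    · exact h3 p h

lemma evR_append (n : ℕ → G) (h z : G) (L M : List (ℤ × List (ℕ × ℕ) × ℕ)) :
    evR φ n h z (L ++ M) = evR φ n h z L + evR φ n h z M := by
  simp [evR]

end

/-- All the polarised relations. -/
theorem REL {A : Type v} [AddCommGroup A] (r : ℕ) : ∀ {G : Type u} [Group G] {F : Filt G}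
    {φ : G → A}, F.Sym r φ → ∀ (n : ℕ → G), (∀ l, n l ∈ F.N 0) → ∀ {z : G}, z ∈ F.N 0 →
    Eng z → ∀ h : G, evR φ n h z (Rl r) = 0 := by
  induction r with
  | zero =>
    intro G _ F φ hφ n hn z hz he h
    have := P0 hφ hz he h
    rw [← this]
    simp only [evR, Rl, lw, rb, E4, List.map_cons, List.map_nil, List.sum_cons, List.sum_nil]
    module
  | succ r ih =>
    intro G _ F φ hφ n hn z hz he h
    have h1 := ih (F := F.D) hφ.dbl (fun l => cst F (n l)) (fun l => cst_mem (hn l))
      (cst_mem hz) (cst_eng he) (shf F (n r) h (hn r))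
    rw [← h1]
    have key : ∀ L : List (ℤ × List (ℕ × ℕ) × ℕ), (∀ t ∈ L, wf r t) →
        evR φ n h z (L.flatMap fun t => (List.range t.2.2).map fun s =>
          (t.1, oins r s t.2.1, t.2.2)) =
        evR (fun p => φ (rt F p)) (fun l => cst F (n l)) (shf F (n r) h (hn r)) (cst F z) L := by
      intro L
      induction L with
      | nil => intro _; rfl
      | cons t L ihL =>
        intro hL
        rw [List.flatMap_cons, evR_append, ihL (fun t' ht' => hL t' (List.mem_cons_of_mem _ ht'))]
        obtain ⟨w1, w2, w3⟩ := hL t List.mem_cons_self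
        have hs : F.Sym (t.2.1.length + 1) φ := by rw [w1]; exact hφ
        have := rb_dbl n hn r h hz t.2.2 t.2.1 hs w2 w3
        simp only [evR, List.map_cons, List.sum_cons]
        rw [this]
        congr 1
        rw [List.map_map, Finset.smul_sum, ← sum_range_list]
        rfl
    exact key _ (Rl_wf r)

end Run7.h607
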