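import Mathlib
import Pool.Agent.Run7.h607.Words

/-! Expansion of conjugates into iterated commutators. -/

namespace Run7.h607

universe u v

open scoped commutatorElement

/-- expansion of a word, extra degree below `T` -/
def xq : ℕ → ℕ → List (ℕ × ℕ) → List (ℤ × List (ℕ × ℕ) × ℕ)
  | T, i, [] => (List.range (i + 1)).flatMap fun e =>
      if T ≤ e then [] else [((i.choose e : ℤ), [], e)]
  | T, i, p :: w => (List.range (p.2 + 1)).flatMap fun e =>
      (xq (T - e) i w).map fun t => ((p.2.choose e : ℤ) * t.1, (p.1, e) :: t.2.1, t.2.2)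

/-- expansion of a formal relation -/
def XL (T : ℕ) (L : List (ℤ × List (ℕ × ℕ) × ℕ)) : List (ℤ × List (ℕ × ℕ) × ℕ) :=
  L.flatMap fun t => (xq T t.2.2 t.2.1).map fun s => (t.1 * s.1, s.2)

/-- forget the exponents -/
def strip (L : List (ℤ × List (ℕ × ℕ) × ℕ)) : List (ℤ × List (ℕ × ℕ) × ℕ) :=
  L.map fun t => (t.1, t.2.1.map (fun p => (p.1, 0)), 0)

/-- negate a list -/
def ngL (L : List (ℤ × List (ℕ × ℕ) × ℕ)) : List (ℤ × List (ℕ × ℕ) × ℕ) :=
  L.map fun t => (-t.1, t.2)

section
variable {G : Type u} [Group G] {F : Filt G} {A : Type v} [AddCommGroup A] {φ : G → A}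

/-- the entries of a word -/
def dw (g : G) (n : ℕ → F.N 0) (w : List (ℕ × ℕ)) : List G :=
  w.map fun p => (((dd F g)^[p.2] (n p.1) : F.N 0) : G)

/-- evaluation with iterated commutators -/
def evD (φ : G → A) (g : G) (n : ℕ → F.N 0) (z : F.N 0) (L : List (ℤ × List (ℕ × ℕ) × ℕ)) : A :=
  (L.map fun t => t.1 • φ (rb (dw g n t.2.1) ((dd F g)^[t.2.2] z : F.N 0))).sum

lemma dw_mem (g : G) (n : ℕ → F.N 0) (w : List (ℕ × ℕ)) : ∀ a ∈ dw g n w, a ∈ F.N 0 := by
  intro a ha
  simp only [dw, List.mem_map] at ha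
  obtain ⟨p, _, rfl⟩ := ha
  exact ((dd F g)^[p.2] (n p.1)).2

lemma slot (hφ : F.Sym 0 φ) (g : G) (j : ℕ) (a : F.N 0) :
    φ (cj (g ^ j) a) = ∑ e ∈ Finset.range (j+1), (j.choose e : ℤ) • φ ((dd F g)^[e] a : F.N 0) := by
  have hd : ∀ e i : ℕ, (fwdDiff 1)^[e] (fun i : ℕ => φ (cj (g ^ i) a)) i =
      φ (cj (g ^ i) ((dd F g)^[e] a : F.N 0)) := by
    intro e
    induction e with
    | zero => intro i; rfl
    | succ e ih =>
      intro i
      rw [Function.iterate_succ_apply', fwdDiff, ih, ih, Function.iterate_succ_apply']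
      have := sym_step hφ g i ((dd F g)^[e] a).2
      exact this.symm
  have h := shift_eq_sum_fwdDiff_iter (1 : ℕ) (fun i : ℕ => φ (cj (g ^ i) a)) j 0
  simp only [hd, smul_eq_mul, mul_one, zero_add, pow_zero, cj_one_left] at h
  rw [h]
  apply Finset.sum_congr rfl
  intro e _
  exact (natCast_zsmul _ _).symm

lemma evD_append (g : G) (n : ℕ → F.N 0) (z : F.N 0) (L M : List (ℤ × List (ℕ × ℕ) × ℕ)) :
    evD φ g n z (L ++ M) = evD φ g n z L + evD φ g n z M := by
  simp [evD]

lemma evD_flatMap_range (g : G) (n : ℕ → F.N 0) (z : F.N 0)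
    (f : ℕ → List (ℤ × List (ℕ × ℕ) × ℕ)) (j : ℕ) :
    evD φ g n z ((List.range j).flatMap f) = ∑ e ∈ Finset.range j, evD φ g n z (f e) := by
  induction j with
  | zero => simp [evD]
  | succ j ih =>
    rw [List.range_succ, List.flatMap_append, evD_append, ih, Finset.sum_range_succ]
    simp [List.flatMap_cons]

lemma evD_scale (g : G) (n : ℕ → F.N 0) (z : F.N 0) (c : ℤ) (L : List (ℤ × List (ℕ × ℕ) × ℕ)) :
    evD φ g n z (L.map fun s => (c * s.1, s.2)) = c • evD φ g n z L := by
  induction L with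
  | nil => simp [evD]
  | cons t L ih =>
    simp only [evD, List.map_cons, List.sum_cons, smul_add, mul_smul] at ih ⊢
    rw [ih]

lemma evD_cons (g : G) (n : ℕ → F.N 0) (z : F.N 0) (c : ℤ) (q : ℕ × ℕ)
    (L : List (ℤ × List (ℕ × ℕ) × ℕ)) :
    evD φ g n z (L.map fun t => (c * t.1, q :: t.2.1, t.2.2)) =
      c • evD (fun y => φ ⁅(((dd F g)^[q.2] (n q.1) : F.N 0) : G), y⁆) g n z L := by
  induction L with
  | nil => simp [evD]
  | cons t L ih =>
    simp only [evD, List.map_cons, List.sum_cons, smul_add] at ih ⊢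
    rw [ih, mul_smul]
    rfl

/-- Soundness of the expansion. -/
theorem xq_sound (g : G) (n : ℕ → F.N 0) (z : F.N 0) (i : ℕ) (w : List (ℕ × ℕ)) :
    ∀ (T : ℕ) {φ : G → A}, F.Sym w.length φ →
    (∀ (u : List (ℕ × ℕ)) (e : ℕ), u.map Prod.fst = w.map Prod.fst →
      T ≤ (u.map Prod.snd).sum + e → φ (rb (dw g n u) ((dd F g)^[e] z : F.N 0)) = 0) →
    φ (rb (lw (fun l => (n l : G)) g w) (cj (g ^ i) z)) = evD φ g n z (xq T i w) := by
  induction w with
  | nil =>
    intro T φ hφ hT
    show φ (cj (g ^ i) z) = _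
    rw [slot hφ, xq, evD_flatMap_range]
    apply Finset.sum_congr rfl
    intro e _
    by_cases he : T ≤ e
    · rw [if_pos he]
      have := hT [] e rfl (by simpa using he)
      have h2 : φ ((dd F g)^[e] z : F.N 0) = 0 := this
      rw [h2, smul_zero]
      simp [evD]
    · rw [if_neg he]
      simp [evD, dw, rb]
  | cons p w ih =>
    intro T φ hφ hT
    have hlen : (p :: w).length = w.length + 1 := rfl
    rw [hlen] at hφ
    set y := rb (lw (fun l => (n l : G)) g w) (cj (g ^ i) z) with hy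
    have hyw : y ∈ F.N w.length := by
      have := rb_mem (lw_mem (fun l => (n l).2) g w) (F.cj_mem (g ^ i) z.2)
      have hl : (lw (fun l => (n l : G)) g w).length = w.length := by
        unfold lw; rw [List.length_map]
      rw [hl, zero_add] at this
      exact this
    have e1 : rb (lw (fun l => (n l : G)) g (p :: w)) (cj (g ^ i) z) =
        ⁅cj (g ^ p.2) (n p.1 : G), y⁆ := rfl
    rw [e1]
    have s1 : F.Sym 0 (fun x => φ ⁅x, y⁆) := hφ.right (i := 0) (j := w.length) (by omega) hyw
    rw [slot s1 g p.2 (n p.1), xq, evD_flatMap_range]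
    apply Finset.sum_congr rfl
    intro e _
    rw [evD_cons g n z _ (p.1, e)]
    congr 1
    refine ih (T - e) (φ := fun y => φ ⁅(((dd F g)^[e] (n p.1) : F.N 0) : G), y⁆) ?_ ?_
    · exact hφ.left (i := 0) (j := w.length) (by omega) ((dd F g)^[e] (n p.1)).2
    · intro u e' hu hs
      have := hT ((p.1, e) :: u) e' (by rw [List.map_cons, List.map_cons, hu])
        (by rw [List.map_cons, List.sum_cons]; simp only; omega)
      exact this

/-- Expansion of a formal relation. -/
theorem XL_sound (g : G) (n : ℕ → F.N 0) (z : F.N 0) {k : ℕ} (hφ : F.Sym k φ) (T : ℕ)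
    (L : List (ℤ × List (ℕ × ℕ) × ℕ)) (hL : ∀ t ∈ L, t.2.1.length = k)
    (hT : ∀ t ∈ L, ∀ (u : List (ℕ × ℕ)) (e : ℕ), u.map Prod.fst = t.2.1.map Prod.fst →
      T ≤ (u.map Prod.snd).sum + e → φ (rb (dw g n u) ((dd F g)^[e] z : F.N 0)) = 0) :
    evR φ (fun l => (n l : G)) g z L = evD φ g n z (XL T L) := by
  induction L with
  | nil => rfl
  | cons t L ih =>
    have h1 := ih (fun t' ht' => hL t' (List.mem_cons_of_mem _ ht'))
      (fun t' ht' => hT t' (List.mem_cons_of_mem _ ht'))
    rw [XL, List.flatMap_cons, evD_append, evD_scale]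
    have h2 : evR φ (fun l => (n l : G)) g z (t :: L) =
      t.1 • φ (rb (lw (fun l => (n l : G)) g t.2.1) (cj (g ^ t.2.2) z)) +
        evR φ (fun l => (n l : G)) g z L := by
      simp [evR]
    rw [h2, h1]
    congr 2
    apply xq_sound
    · rw [hL t List.mem_cons_self]; exact hφ
    · exact hT t List.mem_cons_self

lemma strip_sound (g : G) (n : ℕ → F.N 0) (z : F.N 0) (L : List (ℤ × List (ℕ × ℕ) × ℕ)) :
    evR φ (fun l => (n l : G)) 1 z L = evD φ g n z (strip L) := by
  unfold evR evD strip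
  rw [List.map_map]
  congr 1
  apply List.map_congr_left
  intro t _
  show t.1 • φ _ = t.1 • φ _
  congr 2
  simp only [lw, dw, List.map_map, one_pow, cj_one_left]
  rfl

lemma evD_ng (g : G) (n : ℕ → F.N 0) (z : F.N 0) (L : List (ℤ × List (ℕ × ℕ) × ℕ)) :
    evD φ g n z (ngL L) = - evD φ g n z L := by
  induction L with
  | nil => simp [evD, ngL]
  | cons t L ih =>
    simp only [evD, ngL, List.map_cons, List.sum_cons, neg_add, neg_smul] at ih ⊢
    rw [ih]

/-- letters of the formal relations -/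
lemma Rl_letters (r : ℕ) : ∀ t ∈ Rl r, (t.2.1.map Prod.fst).Perm (List.range r) := by
  induction r with
  | zero =>
    intro t ht
    simp only [Rl, List.mem_cons, List.not_mem_nil, or_false] at ht
    rcases ht with h | h | h | h | h <;> subst h <;> exact List.Perm.refl _
  | succ r ih =>
    intro t ht
    simp only [Rl, List.mem_flatMap, List.mem_map, List.mem_range] at ht
    obtain ⟨t', ht', s, hs, rfl⟩ := ht
    have h1 := ih t' ht'
    have key : ∀ w : List (ℕ × ℕ), ((oins r s w).map Prod.fst).Perm (r :: w.map Prod.fst) := by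
      intro w
      induction w with
      | nil => exact List.Perm.refl _
      | cons p w ihw =>
        unfold oins
        split_ifs
        · exact List.Perm.refl _
        · rw [List.map_cons, List.map_cons]
          exact (List.Perm.cons _ ihw).trans (List.Perm.swap _ _ _)
    refine (key _).trans ?_
    rw [List.range_succ]
    exact (List.Perm.cons _ h1).trans (List.perm_append_singleton _ _).symm

/-- the map in the last entry -/
lemma sym_last {k : ℕ} (w : List G) : ∀ {φ : G → A}, F.Sym (k + w.length) φ →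
    (∀ a ∈ w, a ∈ F.N 0) → F.Sym k (fun z => φ (rb w z)) := by
  induction w with
  | nil => intro φ hφ _; exact hφ
  | cons a w ih =>
    intro φ hφ hw
    have hφ' : F.Sym (k + w.length + 1) φ := hφ
    exact ih (φ := fun y => φ ⁅a, y⁆)
      (hφ'.left (i := 0) (j := k + w.length) (by omega) (hw a List.mem_cons_self))
      (fun b hb => hw b (List.mem_cons_of_mem _ hb))

lemma sym_evR {r : ℕ} (hφ : F.Sym r φ) {n : ℕ → G} (hn : ∀ l, n l ∈ F.N 0) (h : G)
    (L : List (ℤ × List (ℕ × ℕ) × ℕ)) (hL : ∀ t ∈ L, t.2.1.length = r) :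
    F.Sym 0 (fun z => evR φ n h z L) := by
  induction L with
  | nil =>
    constructor
    · intro a b _ _; simp [evR]
    · intro a _; simp [evR]
  | cons t L ih =>
    have h1 := ih (fun t' ht' => hL t' (List.mem_cons_of_mem _ ht'))
    have h2 : F.Sym 0 (fun z => φ (rb (lw n h t.2.1) (cj (h ^ t.2.2) z))) := by
      have hl : (lw n h t.2.1).length = r := by
        unfold lw; rw [List.length_map]; exact hL t List.mem_cons_self
      have h3 : F.Sym (0 + (lw n h t.2.1).length) φ := by rw [hl, zero_add]; exact hφ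
      exact (sym_last (lw n h t.2.1) h3 (lw_mem hn h _)).compcj (h ^ t.2.2)
    have h3 := (h2.smul t.1).add h1
    have e : (fun z => evR φ n h z (t :: L)) = fun z =>
        t.1 • φ (rb (lw n h t.2.1) (cj (h ^ t.2.2) z)) + evR φ n h z L := by
      funext z; simp [evR]
    rw [e]
    exact h3

/-- The relations hold for all last entries. -/
theorem REL' {x : G} (hx : Gen F x) (he : Eng x) {r : ℕ} (hφ : F.Sym r φ) (n : ℕ → F.N 0)
    (z : F.N 0) (h : G) : evR φ (fun l => (n l : G)) h z (Rl r) = 0 := by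
  refine hx.ind (φ := fun z => evR φ (fun l => (n l : G)) h z (Rl r))
    (sym_evR hφ (fun l => (n l).2) h _ (fun t ht => (Rl_wf r t ht).1)) ?_ z z.2
  intro k
  exact REL r hφ _ (fun l => (n l).2) (F.cj_mem _ hx.1) (he.conj k) h

end

end Run7.h607
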