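import Mathlib
import Pool.Agent.Run7.h607.Filt

/-! Maps on the graded pieces of a filtered group. -/

namespace Run7.h607

universe u v

open scoped commutatorElement

/-- `φ` is additive on `N k` and kills `N (k+1)`. -/
structure Filt.Sym {G : Type u} [Group G] (F : Filt G) (k : ℕ) {A : Type v} [AddCommGroup A]
    (φ : G → A) : Prop where
  mul : ∀ a b, a ∈ F.N k → b ∈ F.N k → φ (a * b) = φ a + φ b
  ker : ∀ a, a ∈ F.N (k+1) → φ a = 0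

section
variable {G : Type u} [Group G] {F : Filt G} {A : Type v} [AddCommGroup A] {φ : G → A}

lemma Filt.Sym.one {k : ℕ} (h : F.Sym k φ) : φ 1 = 0 := h.ker 1 (one_mem _)

lemma Filt.Sym.inv {k : ℕ} (h : F.Sym k φ) {a : G} (ha : a ∈ F.N k) : φ a⁻¹ = - φ a := by
  have := h.mul a a⁻¹ ha (inv_mem ha)
  rw [mul_inv_cancel, h.one] at this
  exact (neg_eq_of_add_eq_zero_right this.symm).symm

lemma Filt.Sym.div {k : ℕ} (h : F.Sym k φ) {a b : G} (ha : a ∈ F.N k) (hb : b ∈ F.N k) :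
    φ (a * b⁻¹) = φ a - φ b := by
  rw [h.mul _ _ ha (inv_mem hb), h.inv hb, sub_eq_add_neg]

lemma Filt.Sym.cj {k : ℕ} (h : F.Sym k φ) {n a : G} (hn : n ∈ F.N 0) (ha : a ∈ F.N k) :
    φ (cj n a) = φ a := by
  rw [cj_eq, h.mul _ _ (F.anti _ _ (F.com1 hn ha)) ha, h.ker _ (F.com1 hn ha), zero_add]

lemma Filt.Sym.compcj {k : ℕ} (h : F.Sym k φ) (g : G) :
    F.Sym k (fun a => φ (Run7.h607.cj g a)) where
  mul a b ha hb := by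
    show φ _ = φ _ + φ _
    rw [cj_mul_right]
    exact h.mul _ _ (F.cj_mem _ ha) (F.cj_mem _ hb)
  ker a ha := h.ker _ (F.cj_mem _ ha)

lemma Filt.Sym.left {i j k : ℕ} (h : F.Sym k φ) (hk : i + j + 1 = k) {a : G} (ha : a ∈ F.N i) :
    F.Sym j (fun b => φ ⁅a, b⁆) where
  mul b b' hb hb' := by
    show φ _ = φ _ + φ _
    have h1 : ⁅a, b⁆ ∈ F.N k := by rw [← hk]; exact F.com _ _ _ _ ha hb
    have h2 : ⁅a, b'⁆ ∈ F.N k := by rw [← hk]; exact F.com _ _ _ _ ha hb'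
    rw [comm_mul_right, h.mul _ _ h1 (F.cj_mem _ h2), h.cj (F.anti' (Nat.zero_le _) hb) h2]
  ker b hb := by
    apply h.ker
    have := F.com _ _ _ _ ha hb
    rwa [show i + (j + 1) + 1 = k + 1 by omega] at this

lemma Filt.Sym.right {i j k : ℕ} (h : F.Sym k φ) (hk : i + j + 1 = k) {b : G} (hb : b ∈ F.N j) :
    F.Sym i (fun a => φ ⁅a, b⁆) where
  mul a a' ha ha' := by
    show φ _ = φ _ + φ _
    have h1 : ⁅a, b⁆ ∈ F.N k := by rw [← hk]; exact F.com _ _ _ _ ha hb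
    have h2 : ⁅a', b⁆ ∈ F.N k := by rw [← hk]; exact F.com _ _ _ _ ha' hb
    rw [comm_mul_left, h.mul _ _ (F.cj_mem _ h2) h1, h.cj (F.anti' (Nat.zero_le _) ha) h2,
      add_comm]
  ker a ha := by
    apply h.ker
    have := F.com _ _ _ _ ha hb
    rwa [show i + 1 + j + 1 = k + 1 by omega] at this

/-- Jacobi identity. -/
lemma Filt.Sym.jacobi {i j l k : ℕ} (h : F.Sym k φ) (hk : i + j + l + 2 = k) {a b c : G}
    (ha : a ∈ F.N i) (hb : b ∈ F.N j) (hc : c ∈ F.N l) :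
    φ ⁅⁅a, b⁆, c⁆ = φ ⁅a, ⁅b, c⁆⁆ - φ ⁅b, ⁅a, c⁆⁆ := by
  have a0 : a ∈ F.N 0 := F.anti' (Nat.zero_le _) ha
  have b0 : b ∈ F.N 0 := F.anti' (Nat.zero_le _) hb
  have hX : ⁅a, c⁆ ∈ F.N (i+l+1) := F.com _ _ _ _ ha hc
  have hY : ⁅b, c⁆ ∈ F.N (j+l+1) := F.com _ _ _ _ hb hc
  have hab : ⁅a, b⁆ ∈ F.N (i+j+1) := F.com _ _ _ _ ha hb
  have hr : ⁅⁅a, b⁆, c⁆ ∈ F.N k := by
    have := F.com _ _ _ _ hab hc
    rwa [show i + j + 1 + l + 1 = k by omega] at this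
  have hq : ⁅b, ⁅a, c⁆⁆ ∈ F.N k := by
    have := F.com _ _ _ _ hb hX
    rwa [show j + (i + l + 1) + 1 = k by omega] at this
  have hW : ⁅⁅a, b⁆, ⁅b * a, c⁆⁆ ∈ F.N (k+1) := by
    have h1 : ⁅b * a, c⁆ ∈ F.N (l+1) := F.com1 (mul_mem b0 a0) hc
    have := F.com _ _ _ _ hab h1
    rwa [show i + j + 1 + (l + 1) + 1 = k + 1 by omega] at this
  have hXY : ⁅⁅a, c⁆, ⁅b, c⁆⁆ ∈ F.N (k+1) := by
    have := F.com _ _ _ _ hX hY
    exact F.anti' (by omega) this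
  have key : ⁅a, ⁅b, c⁆⁆ = ⁅⁅a, b⁆, ⁅b * a, c⁆⁆ * (⁅b, ⁅a, c⁆⁆ *
      (Run7.h607.cj (⁅a, c⁆ * ⁅b, c⁆) ⁅⁅a, b⁆, c⁆ * ⁅⁅a, c⁆, ⁅b, c⁆⁆)) := by
    unfold Run7.h607.cj
    simp only [commutatorElement_def]
    group
  have hX0 : ⁅a, c⁆ * ⁅b, c⁆ ∈ F.N 0 :=
    mul_mem (F.anti' (Nat.zero_le _) hX) (F.anti' (Nat.zero_le _) hY)
  have m1 : Run7.h607.cj (⁅a, c⁆ * ⁅b, c⁆) ⁅⁅a, b⁆, c⁆ ∈ F.N k := F.cj_mem _ hr
  rw [key, h.mul _ _ (F.anti _ _ hW) (mul_mem hq (mul_mem m1 (F.anti _ _ hXY))),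
    h.mul _ _ hq (mul_mem m1 (F.anti _ _ hXY)), h.mul _ _ m1 (F.anti _ _ hXY), h.ker _ hW,
    h.ker _ hXY, h.cj hX0 hr]
  abel

lemma Filt.Sym.antisymm {i j k : ℕ} (h : F.Sym k φ) (hk : i + j + 1 = k) {a b : G}
    (ha : a ∈ F.N i) (hb : b ∈ F.N j) : φ ⁅a, b⁆ = - φ ⁅b, a⁆ := by
  rw [← commutatorElement_inv, h.inv]
  have := F.com _ _ _ _ hb ha
  rwa [show j + i + 1 = k by omega] at this

/-- doubled map -/
lemma Filt.Sym.dbl {k : ℕ} (h : F.Sym (k+1) φ) : F.D.Sym k (fun p => φ (rt F p)) where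
  mul p q hp hq := by
    show φ _ = φ _ + φ _
    have h2 : p.1.2 ∈ F.N 0 := by
      rw [snd_eq]
      exact mul_mem (F.anti' (Nat.zero_le _) hp.2) (F.anti' (Nat.zero_le _) hp.1)
    rw [rt_mul, h.mul _ _ (F.cj_mem _ hq.2) hp.2, h.cj h2 hq.2, add_comm]
  ker p hp := h.ker _ hp.2

lemma Filt.Sym.dbl_comm {i j k : ℕ} (h : F.Sym k φ) (hk : i + j + 2 = k) {p q : F.dbl}
    (hp : p ∈ F.D.N i) (hq : q ∈ F.D.N j) :
    φ (rt F ⁅p, q⁆) = φ ⁅rt F p, q.1.1⁆ + φ ⁅p.1.1, rt F q⁆ := by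
  have e : rt F ⁅p, q⁆ = ⁅rt F p * p.1.1, rt F q * q.1.1⁆ * ⁅p.1.1, q.1.1⁆⁻¹ := by
    rw [← snd_eq, ← snd_eq]; rfl
  obtain ⟨ha, ha'⟩ := hp
  obtain ⟨hb, hb'⟩ := hq
  set a := p.1.1
  set b := q.1.1
  set a' := rt F p
  set b' := rt F q
  have h1 : ⁅a' * a, b' * b⁆ * ⁅a, b⁆⁻¹
      = Run7.h607.cj a' ⁅a, b'⁆ * (⁅a' * b', ⁅a, b⁆⁆ *
        Run7.h607.cj ⁅a, b⁆ (⁅a', b'⁆ * Run7.h607.cj b' ⁅a', b⁆)) := by
    unfold Run7.h607.cj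
    simp only [commutatorElement_def]
    group
  have hab : ⁅a, b⁆ ∈ F.N (i+j+1) := F.com i j a b ha hb
  have a0 : a ∈ F.N 0 := F.anti' (Nat.zero_le _) ha
  have b0 : b ∈ F.N 0 := F.anti' (Nat.zero_le _) hb
  have a'0 : a' ∈ F.N 0 := F.anti' (Nat.zero_le _) ha'
  have b'0 : b' ∈ F.N 0 := F.anti' (Nat.zero_le _) hb'
  have m1 : ⁅a, b'⁆ ∈ F.N k := by
    have := F.com _ _ _ _ ha hb'
    rwa [show i + (j + 1) + 1 = k by omega] at this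
  have m2 : ⁅a', b⁆ ∈ F.N k := by
    have := F.com _ _ _ _ ha' hb
    rwa [show i + 1 + j + 1 = k by omega] at this
  have m3 : ⁅a', b'⁆ ∈ F.N (k+1) := by
    have := F.com _ _ _ _ ha' hb'
    rwa [show i + 1 + (j + 1) + 1 = k + 1 by omega] at this
  have m4 : ⁅a' * b', ⁅a, b⁆⁆ ∈ F.N (k+1) := by
    have h5 : a' * b' ∈ F.N 1 := mul_mem (F.anti' (by omega) ha') (F.anti' (by omega) hb')
    have := F.com _ _ _ _ h5 hab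
    rwa [show 1 + (i + j + 1) + 1 = k + 1 by omega] at this
  have m5 : ⁅a', b'⁆ * Run7.h607.cj b' ⁅a', b⁆ ∈ F.N k :=
    mul_mem (F.anti _ _ m3) (F.cj_mem _ m2)
  rw [e, h1, h.mul _ _ (F.cj_mem _ m1) (mul_mem (F.anti _ _ m4) (F.cj_mem _ m5)),
    h.mul _ _ (F.anti _ _ m4) (F.cj_mem _ m5), h.cj a'0 m1, h.ker _ m4,
    h.cj (F.anti' (Nat.zero_le _) hab) m5, h.mul _ _ (F.anti _ _ m3) (F.cj_mem _ m2), h.ker _ m3,
    h.cj b'0 m2]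
  abel

end

end Run7.h607
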