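import Mathlib
import Pool.Agent.Run7.h607.SymMap

/-! The polarised right 4-Engel relations in a filtered group. -/

namespace Run7.h607

universe u v

open scoped commutatorElement

/-- Alternating sum with binomial coefficients `C(4,i)`. -/
def E4 {A : Type v} [AddCommGroup A] (f : ℕ → A) : A :=
  f 0 - (4:ℤ) • f 1 + (6:ℤ) • f 2 - (4:ℤ) • f 3 + f 4

/-- The right 4-Engel condition (in the convention `⁅a,b⁆ = a b a⁻¹ b⁻¹`, for `z = x⁻¹`). -/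
def Eng {G : Type u} [Group G] (z : G) : Prop := ∀ h : G, ⁅h, ⁅h, ⁅h, ⁅h, z⁆⁆⁆⁆ = 1

section
variable {G : Type u} [Group G] {F : Filt G} {A : Type v} [AddCommGroup A] {φ : G → A}

lemma Filt.com_any {k : ℕ} (F : Filt G) (h : G) {y : G} (hy : y ∈ F.N k) : ⁅h, y⁆ ∈ F.N k := by
  rw [commutatorElement_def]
  exact mul_mem (F.nrm _ _ _ hy) (inv_mem hy)

lemma sym_step (hφ : F.Sym 0 φ) (h : G) (j : ℕ) {y : G} (hy : y ∈ F.N 0) :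
    φ (cj (h ^ j) ⁅h, y⁆) = φ (cj (h ^ (j+1)) y) - φ (cj (h ^ j) y) := by
  have e : cj (h ^ j) ⁅h, y⁆ = cj (h ^ (j+1)) y * (cj (h ^ j) y)⁻¹ := by
    unfold cj
    rw [commutatorElement_def, pow_succ]
    group
  rw [e, hφ.div (F.cj_mem _ hy) (F.cj_mem _ hy)]

lemma P0 (hφ : F.Sym 0 φ) {z : G} (hz : z ∈ F.N 0) (he : Eng z) (h : G) :
    E4 (fun i => φ (cj (h ^ i) z)) = 0 := by
  have h1 : ⁅h, z⁆ ∈ F.N 0 := F.com_any h hz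
  have h2 : ⁅h, ⁅h, z⁆⁆ ∈ F.N 0 := F.com_any h h1
  have h3 : ⁅h, ⁅h, ⁅h, z⁆⁆⁆ ∈ F.N 0 := F.com_any h h2
  have k0 : φ (cj (h ^ 0) ⁅h, ⁅h, ⁅h, ⁅h, z⁆⁆⁆⁆) = 0 := by
    rw [he h]; simp only [cj_one_right]; exact hφ.one
  rw [sym_step hφ h 0 h3, sym_step hφ h (0+1) h2, sym_step hφ h 0 h2, sym_step hφ h (0+1+1) h1,
    sym_step hφ h (0+1) h1, sym_step hφ h 0 h1, sym_step hφ h (0+1+1+1) hz, sym_step hφ h (0+1+1) hz,
    sym_step hφ h (0+1) hz, sym_step hφ h 0 hz] at k0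
  unfold E4
  simp only [zero_add, Nat.reduceAdd] at k0
  rw [← k0]
  module

/-- constant element of the doubled group -/
def cst (F : Filt G) (a : G) : F.dbl := ⟨(a, a), by
  show a * a⁻¹ ∈ F.N 0
  rw [mul_inv_cancel]; exact one_mem _⟩

/-- the element `(h, n h)` of the doubled group -/
def shf (F : Filt G) (n h : G) (hn : n ∈ F.N 0) : F.dbl := ⟨(h, n * h), by
  show n * h * h⁻¹ ∈ F.N 0
  rw [mul_inv_cancel_right]; exact hn⟩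

@[simp] lemma cst_fst (a : G) : (cst F a).1.1 = a := rfl
@[simp] lemma cst_snd (a : G) : (cst F a).1.2 = a := rfl
@[simp] lemma shf_fst (n h : G) (hn : n ∈ F.N 0) : (shf F n h hn).1.1 = h := rfl
@[simp] lemma shf_snd (n h : G) (hn : n ∈ F.N 0) : (shf F n h hn).1.2 = n * h := rfl

lemma cst_mem {k : ℕ} {a : G} (ha : a ∈ F.N k) : cst F a ∈ F.D.N k := by
  refine ⟨ha, ?_⟩
  unfold rt
  rw [cst_fst, cst_snd, mul_inv_cancel]; exact one_mem _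

lemma cst_eng {z : G} (he : Eng z) : Eng (cst F z) := by
  intro h
  apply Subtype.ext
  apply Prod.ext
  · show ⁅h.1.1, ⁅h.1.1, ⁅h.1.1, ⁅h.1.1, z⁆⁆⁆⁆ = 1
    exact he _
  · show ⁅h.1.2, ⁅h.1.2, ⁅h.1.2, ⁅h.1.2, z⁆⁆⁆⁆ = 1
    exact he _

lemma Mpow_mem {n : G} (h : G) (hn : n ∈ F.N 0) (i : ℕ) : (n * h) ^ i * (h ^ i)⁻¹ ∈ F.N 0 := by
  induction i with
  | zero => simp [one_mem]
  | succ i ih =>
    have e : (n * h) ^ (i+1) * (h ^ (i+1))⁻¹ = ((n * h) ^ i * (h ^ i)⁻¹) * cj (h ^ i) n := by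
      unfold cj; rw [pow_succ, pow_succ]; group
    rw [e]
    exact mul_mem ih (F.cj_mem _ hn)

lemma Mpow (hφ : F.Sym 0 φ) {n : G} (h : G) (hn : n ∈ F.N 0) (i : ℕ) :
    φ ((n * h) ^ i * (h ^ i)⁻¹) = ∑ j ∈ Finset.range i, φ (cj (h ^ j) n) := by
  induction i with
  | zero => simp [hφ.one]
  | succ i ih =>
    have e : (n * h) ^ (i+1) * (h ^ (i+1))⁻¹ = ((n * h) ^ i * (h ^ i)⁻¹) * cj (h ^ i) n := by
      unfold cj; rw [pow_succ, pow_succ]; group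
    rw [e, hφ.mul _ _ (Mpow_mem h hn i) (F.cj_mem _ hn), Finset.sum_range_succ, ih]

lemma rt_cj_cst {n h z : G} (hn : n ∈ F.N 0) (i : ℕ) :
    rt F (cj (shf F n h hn ^ i) (cst F z)) = ⁅(n * h) ^ i * (h ^ i)⁻¹, cj (h ^ i) z⁆ := by
  unfold rt
  rw [dbl_cj_fst, dbl_cj_snd, dbl_pow_fst, dbl_pow_snd, shf_fst, shf_snd, cst_fst, cst_snd]
  unfold cj
  rw [commutatorElement_def]
  group

/-- expansion of a map of the ratio of a conjugated constant -/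
lemma rt_sum (hφ : F.Sym 1 φ) {n h z : G} (hn : n ∈ F.N 0) (hz : z ∈ F.N 0) (i : ℕ) :
    φ (rt F (cj (shf F n h hn ^ i) (cst F z)))
      = ∑ j ∈ Finset.range i, φ ⁅cj (h ^ j) n, cj (h ^ i) z⁆ := by
  rw [rt_cj_cst]
  exact Mpow (hφ.right (i := 0) (j := 0) rfl (F.cj_mem _ hz)) h hn i

lemma E4_congr {f g : ℕ → A} (h : ∀ i, f i = g i) : E4 f = E4 g := by
  have : f = g := funext h
  rw [this]

theorem P1 (hφ : F.Sym 1 φ) {z n : G} (hz : z ∈ F.N 0) (he : Eng z) (hn : n ∈ F.N 0) (h : G) :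
    E4 (fun i => ∑ j ∈ Finset.range i, φ ⁅cj (h ^ j) n, cj (h ^ i) z⁆) = 0 := by
  have := P0 (F := F.D) hφ.dbl (cst_mem hz) (cst_eng he) (shf F n h hn)
  rw [← this]
  apply E4_congr
  intro i
  rw [rt_sum hφ hn hz]

lemma cjp_mem {k : ℕ} {a : G} (p : F.dbl) (ha : a ∈ F.N k) : cj p (cst F a) ∈ F.D.N k :=
  F.D.cj_mem _ (cst_mem ha)

lemma cjp_fst {m h a : G} (hm : m ∈ F.N 0) (i : ℕ) :
    (cj (shf F m h hm ^ i) (cst F a)).1.1 = cj (h ^ i) a := by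
  rw [dbl_cj_fst, dbl_pow_fst, shf_fst, cst_fst]

theorem P2 (hφ : F.Sym 2 φ) {z n m : G} (hz : z ∈ F.N 0) (he : Eng z) (hn : n ∈ F.N 0)
    (hm : m ∈ F.N 0) (h : G) :
    E4 (fun i => ∑ j ∈ Finset.range i,
      (∑ k ∈ Finset.range j, φ ⁅⁅cj (h ^ k) m, cj (h ^ j) n⁆, cj (h ^ i) z⁆ +
       ∑ k ∈ Finset.range i, φ ⁅cj (h ^ j) n, ⁅cj (h ^ k) m, cj (h ^ i) z⁆⁆)) = 0 := by
  have := P1 (F := F.D) hφ.dbl (cst_mem hz) (cst_eng he) (cst_mem hn) (shf F m h hm)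
  rw [← this]
  apply E4_congr
  intro i
  apply Finset.sum_congr rfl
  intro j _
  rw [hφ.dbl_comm (i := 0) (j := 0) rfl (cjp_mem _ hn) (cjp_mem _ hz), cjp_fst, cjp_fst]
  rw [rt_sum (hφ.right (i := 1) (j := 0) rfl (F.cj_mem _ hz)) hm hn,
    rt_sum (hφ.left (i := 0) (j := 1) rfl (F.cj_mem _ hn)) hm hz]

theorem P3 (hφ : F.Sym 3 φ) {z n m l : G} (hz : z ∈ F.N 0) (he : Eng z) (hn : n ∈ F.N 0)
    (hm : m ∈ F.N 0) (hl : l ∈ F.N 0) (h : G) :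
    E4 (fun i => ∑ j ∈ Finset.range i,
      (∑ k ∈ Finset.range j,
        (∑ t ∈ Finset.range k,
            φ ⁅⁅⁅cj (h ^ t) l, cj (h ^ k) m⁆, cj (h ^ j) n⁆, cj (h ^ i) z⁆ +
         ∑ t ∈ Finset.range j,
            φ ⁅⁅cj (h ^ k) m, ⁅cj (h ^ t) l, cj (h ^ j) n⁆⁆, cj (h ^ i) z⁆ +
         ∑ t ∈ Finset.range i,
            φ ⁅⁅cj (h ^ k) m, cj (h ^ j) n⁆, ⁅cj (h ^ t) l, cj (h ^ i) z⁆⁆) +
       ∑ k ∈ Finset.range i,
        (∑ t ∈ Finset.range j,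
            φ ⁅⁅cj (h ^ t) l, cj (h ^ j) n⁆, ⁅cj (h ^ k) m, cj (h ^ i) z⁆⁆ +
         ∑ t ∈ Finset.range k,
            φ ⁅cj (h ^ j) n, ⁅⁅cj (h ^ t) l, cj (h ^ k) m⁆, cj (h ^ i) z⁆⁆ +
         ∑ t ∈ Finset.range i,
            φ ⁅cj (h ^ j) n, ⁅cj (h ^ k) m, ⁅cj (h ^ t) l, cj (h ^ i) z⁆⁆⁆))) = 0 := by
  have := P2 (F := F.D) hφ.dbl (cst_mem hz) (cst_eng he) (cst_mem hn) (cst_mem hm) (shf F l h hl)
  rw [← this]
  apply E4_congr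
  intro i
  apply Finset.sum_congr rfl
  intro j _
  have hzi : cj (h ^ i) z ∈ F.N 0 := F.cj_mem _ hz
  have hnj : cj (h ^ j) n ∈ F.N 0 := F.cj_mem _ hn
  congr 1
  · apply Finset.sum_congr rfl
    intro k _
    have hmk : cj (h ^ k) m ∈ F.N 0 := F.cj_mem _ hm
    have hmn : ⁅cj (h ^ k) m, cj (h ^ j) n⁆ ∈ F.N 1 := F.com 0 0 _ _ hmk hnj
    have hmn' : ⁅cj (shf F l h hl ^ k) (cst F m), cj (shf F l h hl ^ j) (cst F n)⁆ ∈ F.D.N 1 :=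
      F.D.com 0 0 _ _ (cjp_mem _ hm) (cjp_mem _ hn)
    rw [hφ.dbl_comm (i := 1) (j := 0) rfl hmn' (cjp_mem _ hz), cjp_fst, dbl_comm_fst, cjp_fst,
      cjp_fst]
    have s1 : F.Sym 2 (fun a => φ ⁅a, cj (h ^ i) z⁆) := hφ.right (i := 2) (j := 0) rfl hzi
    rw [s1.dbl_comm (i := 0) (j := 0) rfl (cjp_mem _ hm) (cjp_mem _ hn), cjp_fst, cjp_fst]
    rw [rt_sum (s1.right (i := 1) (j := 0) rfl hnj) hl hm,
      rt_sum (s1.left (i := 0) (j := 1) rfl hmk) hl hn,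
      rt_sum (hφ.left (i := 1) (j := 1) rfl hmn) hl hz]
  · apply Finset.sum_congr rfl
    intro k _
    have hmk : cj (h ^ k) m ∈ F.N 0 := F.cj_mem _ hm
    have hmz : ⁅cj (h ^ k) m, cj (h ^ i) z⁆ ∈ F.N 1 := F.com 0 0 _ _ hmk hzi
    have hmz' : ⁅cj (shf F l h hl ^ k) (cst F m), cj (shf F l h hl ^ i) (cst F z)⁆ ∈ F.D.N 1 :=
      F.D.com 0 0 _ _ (cjp_mem _ hm) (cjp_mem _ hz)
    rw [hφ.dbl_comm (i := 0) (j := 1) rfl (cjp_mem _ hn) hmz', cjp_fst, dbl_comm_fst, cjp_fst,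
      cjp_fst]
    have s1 : F.Sym 2 (fun a => φ ⁅cj (h ^ j) n, a⁆) := hφ.left (i := 0) (j := 2) rfl hnj
    rw [s1.dbl_comm (i := 0) (j := 0) rfl (cjp_mem _ hm) (cjp_mem _ hz), cjp_fst, cjp_fst]
    rw [rt_sum (s1.right (i := 1) (j := 0) rfl hzi) hl hm,
      rt_sum (s1.left (i := 0) (j := 1) rfl hmk) hl hz,
      rt_sum (hφ.right (i := 1) (j := 1) rfl hmz) hl hn]
    abel

end

end Run7.h607
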