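import Mathlib
import Pool.Agent.Run7.h607.Polar

/-! The abstract core: a quadrilinear map with an operator. -/

namespace Run7.h607

universe u v

open Finset

section slot
variable {V : Type u} {Q : Type v} [AddCommGroup Q] {h d : V → V}
  (dh : ∀ a, d (h a) = h (d a)) {f : V → Q} (hf : ∀ a, f (h a) = f a + f (d a))

include dh in
lemma d_iter (k : ℕ) (a : V) : d (h^[k] a) = h^[k] (d a) := by
  induction k with
  | zero => rfl
  | succ k ih => rw [Function.iterate_succ_apply', dh, ih, Function.iterate_succ_apply']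

include dh hf in
lemma tr0 (k : ℕ) : ∀ (a : V) (_ : ∀ e, f (d^[e] a) = 0), f (h^[k] a) = 0 := by
  induction k with
  | zero => intro a H; exact H 0
  | succ k ih =>
    intro a H
    rw [Function.iterate_succ_apply', hf, d_iter dh, ih a H, ih (d a) (fun e => H (e+1)), add_zero]

include dh hf in
lemma tr1 (k : ℕ) : ∀ (a : V) (_ : ∀ e, 1 ≤ e → f (d^[e] a) = 0), f (h^[k] a) = f a := by
  induction k with
  | zero => intro a H; rfl
  | succ k ih =>
    intro a H
    rw [Function.iterate_succ_apply', hf, d_iter dh, ih a H,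
      tr0 dh hf k (d a) (fun e => H (e+1) (by omega)), add_zero]

include dh hf in
lemma tr2 (k : ℕ) : ∀ (a : V) (_ : ∀ e, 2 ≤ e → f (d^[e] a) = 0),
    f (h^[k] a) = f a + (k : ℤ) • f (d a) := by
  induction k with
  | zero => intro a H; simp
  | succ k ih =>
    intro a H
    rw [Function.iterate_succ_apply', hf, d_iter dh, ih a H,
      tr1 dh hf k (d a) (fun e he => H (e+1) (by omega))]
    push_cast
    module

include dh hf in
lemma tr3 (k : ℕ) : ∀ (a : V) (_ : ∀ e, 3 ≤ e → f (d^[e] a) = 0),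
    f (h^[k] a) = f a + (k : ℤ) • f (d a) + (k.choose 2 : ℤ) • f (d (d a)) := by
  induction k with
  | zero => intro a H; simp
  | succ k ih =>
    intro a H
    rw [Function.iterate_succ_apply', hf, d_iter dh, ih a H,
      tr2 dh hf k (d a) (fun e he => H (e+1) (by omega))]
    have e : ((k+1).choose 2 : ℤ) = (k : ℤ) + (k.choose 2 : ℤ) := by
      rw [Nat.choose_succ_succ' k 1, Nat.choose_one_right]; push_cast; ring
    rw [e]
    push_cast
    module

include dh hf in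
lemma tr4 (k : ℕ) : ∀ (a : V) (_ : ∀ e, 4 ≤ e → f (d^[e] a) = 0),
    f (h^[k] a) = f a + (k : ℤ) • f (d a) + (k.choose 2 : ℤ) • f (d (d a)) +
      (k.choose 3 : ℤ) • f (d (d (d a))) := by
  induction k with
  | zero => intro a H; simp
  | succ k ih =>
    intro a H
    rw [Function.iterate_succ_apply', hf, d_iter dh, ih a H,
      tr3 dh hf k (d a) (fun e he => H (e+1) (by omega))]
    have e : ((k+1).choose 2 : ℤ) = (k : ℤ) + (k.choose 2 : ℤ) := by
      rw [Nat.choose_succ_succ' k 1, Nat.choose_one_right]; push_cast; ring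
    have e' : ((k+1).choose 3 : ℤ) = (k.choose 2 : ℤ) + (k.choose 3 : ℤ) := by
      rw [Nat.choose_succ_succ' k 2]; push_cast; ring
    rw [e, e']
    push_cast
    module

end slot

/-- A quadrilinear map `P` on `V` with an operator `h = 1 + d`. -/
structure Core (V : Type u) (Q : Type v) [AddCommGroup Q] where
  h : V → V
  d : V → V
  P : V → V → V → V → Q
  dh : ∀ a, d (h a) = h (d a)
  s1 : ∀ b c e a, P (h a) b c e = P a b c e + P (d a) b c e
  s2 : ∀ a c e b, P a (h b) c e = P a b c e + P a (d b) c e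
  s3 : ∀ a b e c, P a b (h c) e = P a b c e + P a b (d c) e
  s4 : ∀ a b c e, P a b c (h e) = P a b c e + P a b c (d e)
  n1 : ∀ a b c e, P (d (d (d (d a)))) b c e = 0
  n2 : ∀ a b c e, P a (d (d (d (d b)))) c e = 0
  n3 : ∀ a b c e, P a b (d (d (d (d c)))) e = 0
  n4 : ∀ a b c e, P a b c (d (d (d (d e)))) = 0
  as : ∀ a b c e, P a b e c = - P a b c e
  j3 : ∀ a b c e, P a b c e + P a c e b + P a e b c = 0
  j4 : ∀ a b c e, P a b c e - P b a c e + P c e a b - P e c a b = 0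
  r1 : ∀ a b n z, E4 (fun i => ∑ j ∈ range i, P a b (h^[j] n) (h^[i] z)) = 0
  r2 : ∀ a n m z, E4 (fun i => ∑ j ∈ range i,
    (∑ k ∈ range j, (P a (h^[k] m) (h^[j] n) (h^[i] z) - P a (h^[j] n) (h^[k] m) (h^[i] z)) +
     ∑ k ∈ range i, P a (h^[j] n) (h^[k] m) (h^[i] z))) = 0
  r3 : ∀ l m n z, E4 (fun i => ∑ j ∈ range i,
    (∑ k ∈ range j,
      (∑ t ∈ range k,
        (P (h^[t] l) (h^[k] m) (h^[j] n) (h^[i] z) - P (h^[k] m) (h^[t] l) (h^[j] n) (h^[i] z)
          - P (h^[j] n) (h^[t] l) (h^[k] m) (h^[i] z) + P (h^[j] n) (h^[k] m) (h^[t] l) (h^[i] z)) +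
       ∑ t ∈ range j,
        (P (h^[k] m) (h^[t] l) (h^[j] n) (h^[i] z) - P (h^[k] m) (h^[j] n) (h^[t] l) (h^[i] z)
          - P (h^[t] l) (h^[j] n) (h^[k] m) (h^[i] z) + P (h^[j] n) (h^[t] l) (h^[k] m) (h^[i] z)) +
       ∑ t ∈ range i,
        (P (h^[k] m) (h^[j] n) (h^[t] l) (h^[i] z)
          - P (h^[j] n) (h^[k] m) (h^[t] l) (h^[i] z))) +
     ∑ k ∈ range i,
      (∑ t ∈ range j,
        (P (h^[t] l) (h^[j] n) (h^[k] m) (h^[i] z)
          - P (h^[j] n) (h^[t] l) (h^[k] m) (h^[i] z)) +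
       ∑ t ∈ range k,
        (P (h^[j] n) (h^[t] l) (h^[k] m) (h^[i] z)
          - P (h^[j] n) (h^[k] m) (h^[t] l) (h^[i] z)) +
       ∑ t ∈ range i, P (h^[j] n) (h^[k] m) (h^[t] l) (h^[i] z)))) = 0

variable {V : Type u} {Q : Type v} [AddCommGroup Q] (C : Core V Q)

namespace Core

lemma X1 (a b c z : V) : C.P a b z c = - C.P a b c z := C.as a b c z

lemma X2 (a b c z : V) : C.P a z b c = - C.P a b c z + C.P a c b z := by
  have h1 := C.j3 a z b c
  have h2 := C.as a c b z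
  rw [h2] at h1
  linear_combination (norm := module) h1

lemma X3 (a b c z : V) :
    C.P z a b c = - C.P a b c z + C.P a c b z + C.P b c a z - C.P c b a z := by
  have h1 := C.j4 z a b c
  have h2 := C.X2 a b c z
  have h3 := C.as b c a z
  have h4 := C.as c b a z
  rw [h2, h3, h4] at h1
  linear_combination (norm := module) h1

/-- leading form of `r1` -/
theorem L1 (a b n z : V)
    (H : ∀ e1 e2, 4 ≤ e1 + e2 → C.P a b (C.d^[e1] n) (C.d^[e2] z) = 0) :
    C.P a b (C.d (C.d (C.d n))) z + (4:ℤ) • C.P a b (C.d (C.d n)) (C.d z) +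
    (6:ℤ) • C.P a b (C.d n) (C.d (C.d z)) + (4:ℤ) • C.P a b n (C.d (C.d (C.d z))) = 0 := by
  have key : ∀ j i : ℕ, C.P a b (C.h^[j] n) (C.h^[i] z) =
      (C.P a b n z + (i:ℤ) • C.P a b n (C.d z) + (i.choose 2:ℤ) • C.P a b n (C.d (C.d z)) +
        (i.choose 3:ℤ) • C.P a b n (C.d (C.d (C.d z)))) +
      (j:ℤ) • (C.P a b (C.d n) z + (i:ℤ) • C.P a b (C.d n) (C.d z) +
        (i.choose 2:ℤ) • C.P a b (C.d n) (C.d (C.d z))) +
      (j.choose 2:ℤ) • (C.P a b (C.d (C.d n)) z + (i:ℤ) • C.P a b (C.d (C.d n)) (C.d z)) +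
      (j.choose 3:ℤ) • C.P a b (C.d (C.d (C.d n))) z := by
    intro j i
    have t0 : ∀ e1, ∀ e2, 4 ≤ e1 + e2 → (fun y => C.P a b (C.d^[e1] n) y) (C.d^[e2] z) = 0 :=
      fun e1 e2 he => H e1 e2 he
    have S4 : ∀ x : V, ∀ y, (fun y => C.P a b x y) (C.h y) = (fun y => C.P a b x y) y +
        (fun y => C.P a b x y) (C.d y) := fun x y => C.s4 a b x y
    rw [tr4 (f := fun x => C.P a b x (C.h^[i] z)) C.dh (C.s3 a b _) j n ?_]
    · have e0 := tr4 (f := fun y => C.P a b n y) C.dh (S4 n) i z (fun e he => t0 0 e (by omega))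
      have e1 := tr3 (f := fun y => C.P a b (C.d n) y) C.dh (S4 _) i z
        (fun e he => t0 1 e (by omega))
      have e2 := tr2 (f := fun y => C.P a b (C.d (C.d n)) y) C.dh (S4 _) i z
        (fun e he => t0 2 e (by omega))
      have e3 := tr1 (f := fun y => C.P a b (C.d (C.d (C.d n))) y) C.dh (S4 _) i z
        (fun e he => t0 3 e (by omega))
      rw [e0, e1, e2, e3]
    · intro e he
      exact tr0 (f := fun y => C.P a b (C.d^[e] n) y) C.dh (S4 _) i z
        (fun e' => t0 e e' (by omega))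
  have := C.r1 a b n z
  simp only [key, E4, sum_range_succ, range_zero, sum_empty, Nat.choose] at this
  push_cast at this
  linear_combination (norm := module) this

/-- expansion of a trilinear map modulo degree `3` -/
lemma tri {h d : V → V} (dh : ∀ a, d (h a) = h (d a)) (f : V → V → V → Q)
    (f1 : ∀ y z x, f (h x) y z = f x y z + f (d x) y z)
    (f2 : ∀ x z y, f x (h y) z = f x y z + f x (d y) z)
    (f3 : ∀ x y z, f x y (h z) = f x y z + f x y (d z)) (x y z : V)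
    (H : ∀ e1 e2 e3, 3 ≤ e1 + e2 + e3 → f (d^[e1] x) (d^[e2] y) (d^[e3] z) = 0) (p q r : ℕ) :
    f (h^[p] x) (h^[q] y) (h^[r] z) =
      f x y z + (p:ℤ) • f (d x) y z + (q:ℤ) • f x (d y) z + (r:ℤ) • f x y (d z) +
      (p.choose 2:ℤ) • f (d (d x)) y z + (q.choose 2:ℤ) • f x (d (d y)) z +
      (r.choose 2:ℤ) • f x y (d (d z)) + ((p:ℤ)*q) • f (d x) (d y) z +
      ((p:ℤ)*r) • f (d x) y (d z) + ((q:ℤ)*r) • f x (d y) (d z) := by
  have b0 : ∀ e1, ∀ e2, 3 ≤ e1 + e2 → f (d^[e1] x) (d^[e2] y) (h^[r] z) = 0 := by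
    intro e1 e2 he
    exact tr0 (f := fun w => f (d^[e1] x) (d^[e2] y) w) dh (f3 _ _) r z
      (fun e => H e1 e2 e (by omega))
  rw [tr3 (f := fun w => f w (h^[q] y) (h^[r] z)) dh (f1 _ _) p x
    (fun e he => tr0 (f := fun w => f (d^[e] x) w (h^[r] z)) dh (f2 _ _) q y
      (fun e' => b0 e e' (by omega)))]
  have a0 := tr3 (f := fun w => f x w (h^[r] z)) dh (f2 _ _) q y (fun e he => b0 0 e (by omega))
  have a1 := tr2 (f := fun w => f (d x) w (h^[r] z)) dh (f2 _ _) q y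
    (fun e he => b0 1 e (by omega))
  have a2 := tr1 (f := fun w => f (d (d x)) w (h^[r] z)) dh (f2 _ _) q y
    (fun e he => b0 2 e (by omega))
  have c00 := tr3 (f := fun w => f x y w) dh (f3 _ _) r z (fun e he => H 0 0 e (by omega))
  have c01 := tr2 (f := fun w => f x (d y) w) dh (f3 _ _) r z (fun e he => H 0 1 e (by omega))
  have c02 := tr1 (f := fun w => f x (d (d y)) w) dh (f3 _ _) r z
    (fun e he => H 0 2 e (by omega))
  have c10 := tr2 (f := fun w => f (d x) y w) dh (f3 _ _) r z (fun e he => H 1 0 e (by omega))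
  have c11 := tr1 (f := fun w => f (d x) (d y) w) dh (f3 _ _) r z
    (fun e he => H 1 1 e (by omega))
  have c20 := tr1 (f := fun w => f (d (d x)) y w) dh (f3 _ _) r z
    (fun e he => H 2 0 e (by omega))
  rw [a0, a1, a2, c00, c01, c02, c10, c11, c20]
  module

/-- expansion of a quadrilinear map modulo degree `2` -/
lemma quad {h d : V → V} (dh : ∀ a, d (h a) = h (d a)) (f : V → V → V → V → Q)
    (f1 : ∀ y z w x, f (h x) y z w = f x y z w + f (d x) y z w)
    (f2 : ∀ x z w y, f x (h y) z w = f x y z w + f x (d y) z w)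
    (f3 : ∀ x y w z, f x y (h z) w = f x y z w + f x y (d z) w)
    (f4 : ∀ x y z w, f x y z (h w) = f x y z w + f x y z (d w)) (x y z w : V)
    (H : ∀ e1 e2 e3 e4, 2 ≤ e1 + e2 + e3 + e4 →
      f (d^[e1] x) (d^[e2] y) (d^[e3] z) (d^[e4] w) = 0) (p q r s : ℕ) :
    f (h^[p] x) (h^[q] y) (h^[r] z) (h^[s] w) =
      f x y z w + (p:ℤ) • f (d x) y z w + (q:ℤ) • f x (d y) z w + (r:ℤ) • f x y (d z) w +
      (s:ℤ) • f x y z (d w) := by
  have b4 : ∀ e1 e2 e3, 2 ≤ e1 + e2 + e3 →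
      f (d^[e1] x) (d^[e2] y) (d^[e3] z) (h^[s] w) = 0 := by
    intro e1 e2 e3 he
    exact tr0 (f := fun u => f (d^[e1] x) (d^[e2] y) (d^[e3] z) u) dh (f4 _ _ _) s w
      (fun e => H e1 e2 e3 e (by omega))
  have b3 : ∀ e1 e2, 2 ≤ e1 + e2 →
      f (d^[e1] x) (d^[e2] y) (h^[r] z) (h^[s] w) = 0 := by
    intro e1 e2 he
    exact tr0 (f := fun u => f (d^[e1] x) (d^[e2] y) u (h^[s] w)) dh (f3 _ _ _) r z
      (fun e => b4 e1 e2 e (by omega))
  have b2 : ∀ e1, 2 ≤ e1 → f (d^[e1] x) (h^[q] y) (h^[r] z) (h^[s] w) = 0 := by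
    intro e1 he
    exact tr0 (f := fun u => f (d^[e1] x) u (h^[r] z) (h^[s] w)) dh (f2 _ _ _) q y
      (fun e => b3 e1 e (by omega))
  rw [tr2 (f := fun u => f u (h^[q] y) (h^[r] z) (h^[s] w)) dh (f1 _ _ _) p x
    (fun e he => b2 e he)]
  have a0 := tr2 (f := fun u => f x u (h^[r] z) (h^[s] w)) dh (f2 _ _ _) q y
    (fun e he => b3 0 e (by omega))
  have a1 := tr1 (f := fun u => f (d x) u (h^[r] z) (h^[s] w)) dh (f2 _ _ _) q y
    (fun e he => b3 1 e (by omega))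
  have c0 := tr2 (f := fun u => f x y u (h^[s] w)) dh (f3 _ _ _) r z
    (fun e he => b4 0 0 e (by omega))
  have c1 := tr1 (f := fun u => f x (d y) u (h^[s] w)) dh (f3 _ _ _) r z
    (fun e he => b4 0 1 e (by omega))
  have c2 := tr1 (f := fun u => f (d x) y u (h^[s] w)) dh (f3 _ _ _) r z
    (fun e he => b4 1 0 e (by omega))
  have g0 := tr2 (f := fun u => f x y z u) dh (f4 _ _ _) s w (fun e he => H 0 0 0 e (by omega))
  have g1 := tr1 (f := fun u => f x y (d z) u) dh (f4 _ _ _) s w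
    (fun e he => H 0 0 1 e (by omega))
  have g2 := tr1 (f := fun u => f x (d y) z u) dh (f4 _ _ _) s w
    (fun e he => H 0 1 0 e (by omega))
  have g3 := tr1 (f := fun u => f (d x) y z u) dh (f4 _ _ _) s w
    (fun e he => H 1 0 0 e (by omega))
  rw [a0, a1, c0, c1, c2, g0, g1, g2, g3]
  module

/-- leading form of `r2` -/
theorem L2 (a n m z : V)
    (H1 : ∀ e1 e2 e3, 3 ≤ e1 + e2 + e3 → C.P a (C.d^[e1] n) (C.d^[e2] m) (C.d^[e3] z) = 0)
    (H2 : ∀ e1 e2 e3, 3 ≤ e1 + e2 + e3 → C.P a (C.d^[e1] m) (C.d^[e2] n) (C.d^[e3] z) = 0) :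
    (C.P a (C.d (C.d n)) m z + (3:ℤ) • C.P a (C.d n) (C.d m) z +
      (4:ℤ) • C.P a (C.d n) m (C.d z) + (3:ℤ) • C.P a n (C.d (C.d m)) z +
      (8:ℤ) • C.P a n (C.d m) (C.d z) + (6:ℤ) • C.P a n m (C.d (C.d z))) +
    (C.P a (C.d (C.d m)) n z + (3:ℤ) • C.P a (C.d m) (C.d n) z +
      (4:ℤ) • C.P a (C.d m) n (C.d z) + (3:ℤ) • C.P a m (C.d (C.d n)) z +
      (8:ℤ) • C.P a m (C.d n) (C.d z) + (6:ℤ) • C.P a m n (C.d (C.d z))) = 0 := by
  have k1 := fun p q r => tri C.dh (fun x y z => C.P a x y z) (fun y z x => C.s2 a y z x)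
    (fun x z y => C.s3 a x z y) (fun x y z => C.s4 a x y z) n m z H1 p q r
  have k2 := fun p q r => tri C.dh (fun x y z => C.P a x y z) (fun y z x => C.s2 a y z x)
    (fun x z y => C.s3 a x z y) (fun x y z => C.s4 a x y z) m n z H2 p q r
  have := C.r2 a n m z
  simp only [k1, k2, E4, sum_range_succ, range_zero, sum_empty, Nat.choose] at this
  push_cast at this
  linear_combination (norm := module) this

/-- leading form of `r3` -/
theorem L3 (l m n z : V)
    (H1 : ∀ e1 e2 e3 e4, 2 ≤ e1 + e2 + e3 + e4 →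
      C.P (C.d^[e1] l) (C.d^[e2] m) (C.d^[e3] n) (C.d^[e4] z) = 0)
    (H2 : ∀ e1 e2 e3 e4, 2 ≤ e1 + e2 + e3 + e4 →
      C.P (C.d^[e1] l) (C.d^[e2] n) (C.d^[e3] m) (C.d^[e4] z) = 0)
    (H3 : ∀ e1 e2 e3 e4, 2 ≤ e1 + e2 + e3 + e4 →
      C.P (C.d^[e1] m) (C.d^[e2] l) (C.d^[e3] n) (C.d^[e4] z) = 0)
    (H4 : ∀ e1 e2 e3 e4, 2 ≤ e1 + e2 + e3 + e4 →
      C.P (C.d^[e1] m) (C.d^[e2] n) (C.d^[e3] l) (C.d^[e4] z) = 0)
    (H5 : ∀ e1 e2 e3 e4, 2 ≤ e1 + e2 + e3 + e4 →
      C.P (C.d^[e1] n) (C.d^[e2] l) (C.d^[e3] m) (C.d^[e4] z) = 0)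
    (H6 : ∀ e1 e2 e3 e4, 2 ≤ e1 + e2 + e3 + e4 →
      C.P (C.d^[e1] n) (C.d^[e2] m) (C.d^[e3] l) (C.d^[e4] z) = 0) :
    (C.P (C.d l) m n z + (2:ℤ) • C.P l (C.d m) n z + (3:ℤ) • C.P l m (C.d n) z +
      (4:ℤ) • C.P l m n (C.d z)) +
    (C.P (C.d l) n m z + (2:ℤ) • C.P l (C.d n) m z + (3:ℤ) • C.P l n (C.d m) z +
      (4:ℤ) • C.P l n m (C.d z)) +
    (C.P (C.d m) l n z + (2:ℤ) • C.P m (C.d l) n z + (3:ℤ) • C.P m l (C.d n) z +
      (4:ℤ) • C.P m l n (C.d z)) +
    (C.P (C.d m) n l z + (2:ℤ) • C.P m (C.d n) l z + (3:ℤ) • C.P m n (C.d l) z +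
      (4:ℤ) • C.P m n l (C.d z)) +
    (C.P (C.d n) l m z + (2:ℤ) • C.P n (C.d l) m z + (3:ℤ) • C.P n l (C.d m) z +
      (4:ℤ) • C.P n l m (C.d z)) +
    (C.P (C.d n) m l z + (2:ℤ) • C.P n (C.d m) l z + (3:ℤ) • C.P n m (C.d l) z +
      (4:ℤ) • C.P n m l (C.d z)) = 0 := by
  have k1 := quad C.dh (fun x y z w => C.P x y z w) (fun y z w x => C.s1 y z w x)
    (fun x z w y => C.s2 x z w y) (fun x y w z => C.s3 x y w z) (fun x y z w => C.s4 x y z w)
    l m n z H1
  have k2 := quad C.dh (fun x y z w => C.P x y z w) (fun y z w x => C.s1 y z w x)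
    (fun x z w y => C.s2 x z w y) (fun x y w z => C.s3 x y w z) (fun x y z w => C.s4 x y z w)
    l n m z H2
  have k3 := quad C.dh (fun x y z w => C.P x y z w) (fun y z w x => C.s1 y z w x)
    (fun x z w y => C.s2 x z w y) (fun x y w z => C.s3 x y w z) (fun x y z w => C.s4 x y z w)
    m l n z H3
  have k4 := quad C.dh (fun x y z w => C.P x y z w) (fun y z w x => C.s1 y z w x)
    (fun x z w y => C.s2 x z w y) (fun x y w z => C.s3 x y w z) (fun x y z w => C.s4 x y z w)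
    m n l z H4
  have k5 := quad C.dh (fun x y z w => C.P x y z w) (fun y z w x => C.s1 y z w x)
    (fun x z w y => C.s2 x z w y) (fun x y w z => C.s3 x y w z) (fun x y z w => C.s4 x y z w)
    n l m z H5
  have k6 := quad C.dh (fun x y z w => C.P x y z w) (fun y z w x => C.s1 y z w x)
    (fun x z w y => C.s2 x z w y) (fun x y w z => C.s3 x y w z) (fun x y z w => C.s4 x y z w)
    n m l z H6
  have := C.r3 l m n z
  simp only [k1, k2, k3, k4, k5, k6, E4, sum_range_succ, range_zero, sum_empty] at this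
  push_cast at this
  linear_combination (norm := module) this

end Core

end Run7.h607
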