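import Mathlib
import Pool.Agent.Run7.h607.Core

/-! A small verified checker for linear consequences. -/

namespace Run7.h607

universe u v w

/-- evaluation of a formal combination -/
def ev {Q : Type v} [AddCommGroup Q] (B : ℕ → Q) : List (ℤ × ℕ) → Q
  | [] => 0
  | p :: L => p.1 • B p.2 + ev B L

lemma ev_append {Q : Type v} [AddCommGroup Q] (B : ℕ → Q) (L M : List (ℤ × ℕ)) :
    ev B (L ++ M) = ev B L + ev B M := by
  induction L with
  | nil => simp [ev]
  | cons p L ih => simp only [List.cons_append, ev, ih]; abel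

/-- accumulator tree -/
inductive T : Type
  | n : T
  | b : T → ℤ → T → T

/-- evaluation of the tree -/
def evT {Q : Type v} [AddCommGroup Q] : (ℕ → Q) → T → Q
  | _, .n => 0
  | B, .b l v r => v • B 0 + evT (fun k => B (2 * k + 1)) l + evT (fun k => B (2 * k + 2)) r

/-- insertion -/
def ins : ℕ → ℕ → ℤ → T → T
  | 0, _, _, t => t
  | _+1, 0, c, .n => .b .n c .n
  | _+1, 0, c, .b l v r => .b l (v + c) r
  | f+1, k+1, c, .n =>
    if k % 2 = 0 then .b (ins f (k / 2) c .n) 0 .n else .b .n 0 (ins f (k / 2) c .n)
  | f+1, k+1, c, .b l v r =>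
    if k % 2 = 0 then .b (ins f (k / 2) c l) v r else .b l v (ins f (k / 2) c r)

lemma evT_ins {Q : Type v} [AddCommGroup Q] (f : ℕ) : ∀ (B : ℕ → Q) (k : ℕ) (c : ℤ) (t : T),
    k + 1 < 2 ^ f → evT B (ins f k c t) = c • B k + evT B t := by
  induction f with
  | zero => intro B k c t h; simp at h
  | succ f ih =>
    intro B k c t h
    rcases k with _ | k
    · rcases t with _ | ⟨l, v, r⟩
      · simp [ins, evT]
      · simp only [ins, evT, add_smul]; abel
    · have hk : k / 2 + 1 < 2 ^ f := by
        rw [pow_succ] at h; omega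
      rcases t with _ | ⟨l, v, r⟩
      · by_cases hp : k % 2 = 0
        · have e : 2 * (k / 2) + 1 = k + 1 := by omega
          simp only [ins, if_pos hp, evT, ih _ _ _ _ hk, e]
          simp
        · have e : 2 * (k / 2) + 2 = k + 1 := by omega
          simp only [ins, if_neg hp, evT, ih _ _ _ _ hk, e]
          simp
      · by_cases hp : k % 2 = 0
        · have e : 2 * (k / 2) + 1 = k + 1 := by omega
          simp only [ins, if_pos hp, evT, ih _ _ _ _ hk, e]
          abel
        · have e : 2 * (k / 2) + 2 = k + 1 := by omega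
          simp only [ins, if_neg hp, evT, ih _ _ _ _ hk, e]
          abel

/-- the keys with nonzero value in the tree are zeros of `B` -/
def FO {Q : Type v} [AddCommGroup Q] : (ℕ → Q) → T → Prop
  | _, .n => True
  | B, .b l v r => (v ≠ 0 → B 0 = 0) ∧ FO (fun k => B (2 * k + 1)) l ∧
      FO (fun k => B (2 * k + 2)) r

lemma FO_ins {Q : Type v} [AddCommGroup Q] (f : ℕ) : ∀ (B : ℕ → Q) (k : ℕ) (c : ℤ) (t : T),
    B k = 0 → FO B t → FO B (ins f k c t) := by
  induction f with
  | zero => intro B k c t _ h; exact h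
  | succ f ih =>
    intro B k c t hk h
    rcases k with _ | k
    · rcases t with _ | ⟨l, v, r⟩
      · exact ⟨fun _ => hk, trivial, trivial⟩
      · exact ⟨fun _ => hk, h.2.1, h.2.2⟩
    · rcases t with _ | ⟨l, v, r⟩
      · by_cases hp : k % 2 = 0
        · have e : 2 * (k / 2) + 1 = k + 1 := by omega
          simp only [ins, if_pos hp]
          refine ⟨fun h => absurd rfl h, ih _ _ _ _ ?_ trivial, trivial⟩
          show B (2 * (k / 2) + 1) = 0
          rw [e]; exact hk
        · have e : 2 * (k / 2) + 2 = k + 1 := by omega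
          simp only [ins, if_neg hp]
          refine ⟨fun h => absurd rfl h, trivial, ih _ _ _ _ ?_ trivial⟩
          show B (2 * (k / 2) + 2) = 0
          rw [e]; exact hk
      · by_cases hp : k % 2 = 0
        · have e : 2 * (k / 2) + 1 = k + 1 := by omega
          simp only [ins, if_pos hp]
          refine ⟨h.1, ih _ _ _ _ ?_ h.2.1, h.2.2⟩
          show B (2 * (k / 2) + 1) = 0
          rw [e]; exact hk
        · have e : 2 * (k / 2) + 2 = k + 1 := by omega
          simp only [ins, if_neg hp]
          refine ⟨h.1, h.2.1, ih _ _ _ _ ?_ h.2.2⟩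
          show B (2 * (k / 2) + 2) = 0
          rw [e]; exact hk

/-- the nonzero values of the first tree sit at flagged keys of the second tree -/
def T.zm : T → T → Bool
  | .n, _ => true
  | .b l v r, .n => decide (v = 0) && T.zm l .n && T.zm r .n
  | .b l v r, .b zl zv zr => (decide (v = 0) || !decide (zv = 0)) && T.zm l zl && T.zm r zr

lemma evT_zm {Q : Type v} [AddCommGroup Q] (t : T) : ∀ (B : ℕ → Q) (z : T), FO B z →
    T.zm t z = true → evT B t = 0 := by
  induction t with
  | n => intro B z _ _; rfl
  | b l v r ihl ihr =>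
    intro B z hz h
    rcases z with _ | ⟨zl, zv, zr⟩
    · simp only [T.zm, Bool.and_eq_true, decide_eq_true_eq] at h
      obtain ⟨⟨h1, h2⟩, h3⟩ := h
      simp only [evT, h1, ihl _ _ (show FO _ T.n from trivial) h2,
        ihr _ _ (show FO _ T.n from trivial) h3]
      simp
    · simp only [T.zm, Bool.and_eq_true, Bool.or_eq_true, decide_eq_true_eq, Bool.not_eq_true',
        decide_eq_false_iff_not] at h
      obtain ⟨⟨h1, h2⟩, h3⟩ := h
      simp only [evT, ihl _ _ hz.2.1 h2, ihr _ _ hz.2.2 h3]
      rcases h1 with h1 | h1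
      · simp [h1]
      · simp [hz.1 h1]

/-- flagged key -/
def T.get : ℕ → ℕ → T → Bool
  | 0, _, _ => false
  | _+1, _, .n => false
  | _+1, 0, .b _ v _ => !decide (v = 0)
  | f+1, k+1, .b l _ r => if k % 2 = 0 then T.get f (k / 2) l else T.get f (k / 2) r

lemma T.get_sound {Q : Type v} [AddCommGroup Q] (f : ℕ) : ∀ (B : ℕ → Q) (k : ℕ) (t : T),
    FO B t → T.get f k t = true → B k = 0 := by
  induction f with
  | zero => intro B k t _ h; simp [T.get] at h
  | succ f ih =>
    intro B k t ht h
    rcases t with _ | ⟨l, v, r⟩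
    · simp [T.get] at h
    · rcases k with _ | k
      · simp only [T.get, Bool.not_eq_true', decide_eq_false_iff_not] at h
        exact ht.1 h
      · by_cases hp : k % 2 = 0
        · have e : 2 * (k / 2) + 1 = k + 1 := by omega
          simp only [T.get, if_pos hp] at h
          have := ih _ _ _ ht.2.1 h
          simp only [e] at this
          exact this
        · have e : 2 * (k / 2) + 2 = k + 1 := by omega
          simp only [T.get, if_neg hp] at h
          have := ih _ _ _ ht.2.2 h
          simp only [e] at this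
          exact this

/-- add `c` times a row -/
def addRow (c : ℤ) : List (ℤ × ℕ) → T → T
  | [], t => t
  | p :: L, t => addRow c L (ins 12 p.2 (c * p.1) t)

/-- keys are small -/
def small : List (ℤ × ℕ) → Bool
  | [] => true
  | p :: L => Nat.blt (p.2 + 1) 4096 && small L

lemma evT_addRow {Q : Type v} [AddCommGroup Q] (B : ℕ → Q) (c : ℤ) (L : List (ℤ × ℕ)) :
    ∀ t, small L = true → evT B (addRow c L t) = c • ev B L + evT B t := by
  induction L with
  | nil => intro t _; simp [addRow, ev]
  | cons p L ih =>
    intro t h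
    simp only [small, Bool.and_eq_true, Nat.blt_eq] at h
    simp only [addRow, ev]
    rw [ih _ h.2, evT_ins 12 B p.2 _ _ (by norm_num; exact h.1), smul_add, smul_smul]
    abel

section check
variable (row : ℕ → List (ℤ × ℕ)) (ok : ℕ → Bool)

/-- accumulate relations -/
def accR : List (ℤ × ℕ) → T → T
  | [], t => t
  | p :: L, t => accR L (addRow p.1 (row p.2) t)

/-- all the used relations are valid -/
def okAll : List (ℤ × ℕ) → Bool
  | [] => true
  | p :: L => ok p.2 && small (row p.2) && okAll L

/-- accumulate facts -/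
def accF (facts : List (List (ℤ × ℕ))) : List (ℤ × ℕ) → T → T
  | [], t => t
  | p :: L, t => accF facts L (addRow p.1 (facts.getD p.2 []) t)

/-- A step: relations, facts, multiplier, new fact. -/
structure Step where
  rels : List (ℤ × ℕ)
  fs : List (ℤ × ℕ)
  M : ℤ
  F : List (ℤ × ℕ)

/-- validity of a step -/
def stepOk (facts : List (List (ℤ × ℕ))) (Z : T) (s : Step) : Bool :=
  okAll row ok s.rels && small s.F && decide ((30:ℤ) ^ 24 % s.M = 0) &&
  (accR row s.rels (accF facts s.fs (addRow (-s.M) s.F .n))).zm Z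

/-- flag a unit fact -/
def flag (F : List (ℤ × ℕ)) (Z : T) : T :=
  match F with
  | [p] => if (30:ℤ) ^ 24 % p.1 = 0 then ins 12 p.2 1 Z else Z
  | _ => Z

/-- run the steps -/
def run : List Step → List (List (ℤ × ℕ)) → T → Option T
  | [], _, Z => some Z
  | s :: L, facts, Z =>
    if stepOk row ok facts Z s then run L (s.F :: facts) (flag s.F Z) else none

end check

/-- cancellation of `{2,3,5}`-numbers -/
def Tor (Q : Type v) [AddCommGroup Q] : Prop := ∀ q : Q, (30:ℤ) • q = 0 → q = 0

section
variable {Q : Type v} [AddCommGroup Q]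

lemma Tor.pow (h : Tor Q) (k : ℕ) : ∀ q : Q, ((30:ℤ) ^ k) • q = 0 → q = 0 := by
  induction k with
  | zero => intro q hq; simpa using hq
  | succ k ih =>
    intro q hq
    rw [pow_succ, mul_smul] at hq
    exact h _ (ih _ hq)

lemma Tor.of_mod (h : Tor Q) {M : ℤ} (k : ℕ) (hM : (30:ℤ) ^ k % M = 0)
    {q : Q} (hq : M • q = 0) : q = 0 := by
  obtain ⟨c, hc⟩ := Int.dvd_of_emod_eq_zero hM
  apply h.pow k
  rw [hc, mul_comm, mul_smul, hq, smul_zero]

variable {row : ℕ → List (ℤ × ℕ)} {ok : ℕ → Bool}

lemma evT_accR (B : ℕ → Q)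
    (hrow : ∀ i, ok i = true → ev B (row i) = 0) (L : List (ℤ × ℕ)) :
    ∀ t, okAll row ok L = true → evT B (accR row L t) = evT B t := by
  induction L with
  | nil => intro t _; rfl
  | cons p L ih =>
    intro t h
    simp only [okAll, Bool.and_eq_true] at h
    simp only [accR]
    rw [ih _ h.2, evT_addRow B p.1 _ _ h.1.2, hrow _ h.1.1, smul_zero, zero_add]

lemma getD_fact (B : ℕ → Q) (facts : List (List (ℤ × ℕ)))
    (hf : ∀ F ∈ facts, ev B F = 0 ∧ small F = true) (i : ℕ) :
    ev B (facts.getD i []) = 0 ∧ small (facts.getD i []) = true := by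
  by_cases h : i < facts.length
  · rw [List.getD_eq_getElem _ _ h]
    exact hf _ (List.getElem_mem h)
  · rw [List.getD_eq_default _ _ (not_lt.mp h)]
    exact ⟨rfl, rfl⟩

lemma evT_accF (B : ℕ → Q) (facts : List (List (ℤ × ℕ)))
    (hf : ∀ F ∈ facts, ev B F = 0 ∧ small F = true) (L : List (ℤ × ℕ)) :
    ∀ t, evT B (accF facts L t) = evT B t := by
  induction L with
  | nil => intro t; rfl
  | cons p L ih =>
    intro t
    simp only [accF]
    have := getD_fact B facts hf p.2
    rw [ih, evT_addRow B p.1 _ _ this.2, this.1, smul_zero, zero_add]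

theorem run_sound (hT : Tor Q) (B : ℕ → Q) (hrow : ∀ i, ok i = true → ev B (row i) = 0)
    (L : List Step) : ∀ (facts : List (List (ℤ × ℕ))) (Z Z' : T),
    (∀ F ∈ facts, ev B F = 0 ∧ small F = true) → FO B Z → run row ok L facts Z = some Z' →
    FO B Z' := by
  induction L with
  | nil =>
    intro facts Z Z' _ hZ h
    simp only [run, Option.some.injEq] at h
    rw [← h]; exact hZ
  | cons s L ih =>
    intro facts Z Z' hf hZ h
    simp only [run] at h
    by_cases hs : stepOk row ok facts Z s = true
    · rw [if_pos hs] at h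
      simp only [stepOk, Bool.and_eq_true, decide_eq_true_eq] at hs
      obtain ⟨⟨⟨h1, h2⟩, h3⟩, h4⟩ := hs
      have e := evT_zm _ B Z hZ h4
      rw [evT_accR B hrow _ _ h1, evT_accF B facts hf, evT_addRow B _ _ _ h2] at e
      simp only [evT, add_zero, neg_smul, neg_eq_zero] at e
      have hF : ev B s.F = 0 := hT.of_mod 24 h3 e
      refine ih _ _ _ ?_ ?_ h
      · intro F hF'
        rcases List.mem_cons.mp hF' with rfl | hF'
        · exact ⟨hF, h2⟩
        · exact hf F hF'
      · unfold flag
        split
        · rename_i p hp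
          by_cases hc : (30:ℤ) ^ 24 % p.1 = 0
          · rw [if_pos hc]
            apply FO_ins _ _ _ _ _ _ hZ
            rw [hp] at hF
            simp only [ev, add_zero] at hF
            exact hT.of_mod 24 hc hF
          · rw [if_neg hc]; exact hZ
        · exact hZ
    · rw [if_neg hs] at h
      exact absurd h (by simp)

end

/-- signed integers coded by naturals -/
def zz (n : ℕ) : ℤ := if n % 2 = 0 then (n / 2 : ℕ) else - ((n / 2 : ℕ) : ℤ)

/-- parse a list of pairs -/
def parsePairs : ℕ → List ℕ → List (ℤ × ℕ) × List ℕ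
  | 0, L => ([], L)
  | k+1, a :: b :: L => let r := parsePairs k L; ((zz a, b) :: r.1, r.2)
  | _+1, _ => ([], [])

/-- parse the steps -/
def parseSteps : ℕ → List ℕ → List Step
  | 0, _ => []
  | k+1, a :: b :: c :: m :: L =>
    let r1 := parsePairs a L
    let r2 := parsePairs b r1.2
    let r3 := parsePairs c r2.2
    ⟨r1.1, r2.1, zz m, r3.1⟩ :: parseSteps k r3.2
  | _+1, _ => []

/-- tokens of a number in base `2^64` -/
def tokens : ℕ → ℕ → List ℕ
  | 0, _ => []
  | k+1, n => (n % 18446744073709551616) :: tokens k (n / 18446744073709551616)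

/-- the whole check: all the target keys get flagged -/
def checkN (row : ℕ → List (ℤ × ℕ)) (ok : ℕ → Bool) (ntok nsteps data : ℕ)
    (targets : List ℕ) : Bool :=
  match run row ok (parseSteps nsteps (tokens ntok data)) [] .n with
  | none => false
  | some Z => targets.all (fun k => T.get 12 k Z)

theorem checkN_sound {Q : Type v} [AddCommGroup Q] (hT : Tor Q) (B : ℕ → Q)
    {row : ℕ → List (ℤ × ℕ)} {ok : ℕ → Bool} (hrow : ∀ i, ok i = true → ev B (row i) = 0)
    {ntok nsteps data : ℕ} {targets : List ℕ}
    (h : checkN row ok ntok nsteps data targets = true) : ∀ k ∈ targets, B k = 0 := by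
  unfold checkN at h
  split at h
  · exact absurd h (by simp)
  · rename_i Z hZ
    intro k hk
    have h1 := List.all_eq_true.mp h k hk
    exact T.get_sound 12 B k Z
      (run_sound hT B hrow _ _ _ _ (by simp) (show FO B T.n from trivial) hZ) h1

end Run7.h607
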