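import Mathlib
import Pool.Agent.Run7.h607.Refl

/-! A verified checker for linear consequences modulo a prime. -/

namespace Run7.h607

universe u v w

/-- add `c` times a row -/
def addR (f : ℕ) (c : ℤ) : List (ℤ × ℕ) → T → T
  | [], t => t
  | p :: L, t => addR f c L (ins f p.2 (c * p.1) t)

/-- keys are small -/
def smallF (f : ℕ) : List (ℤ × ℕ) → Bool
  | [] => true
  | p :: L => Nat.blt (p.2 + 1) (2 ^ f) && smallF f L

lemma evT_addR {Q : Type v} [AddCommGroup Q] (f : ℕ) (B : ℕ → Q) (c : ℤ) (L : List (ℤ × ℕ)) :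
    ∀ t, smallF f L = true → evT B (addR f c L t) = c • ev B L + evT B t := by
  induction L with
  | nil => intro t _; simp [addR, ev]
  | cons p L ih =>
    intro t h
    simp only [smallF, Bool.and_eq_true, Nat.blt_eq] at h
    simp only [addR, ev]
    rw [ih _ h.2, evT_ins f B p.2 _ _ h.1, smul_add, smul_smul]
    abel

/-- the values of the first tree nonzero modulo `p` sit at flagged keys of the second tree -/
def T.zp (p : ℤ) : T → T → Bool
  | .n, _ => true
  | .b l v r, .n => decide (v % p = 0) && T.zp p l .n && T.zp p r .n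
  | .b l v r, .b zl zv zr =>
    (decide (v % p = 0) || !decide (zv = 0)) && T.zp p l zl && T.zp p r zr

lemma smul_of_mod {Q : Type v} [AddCommGroup Q] {p v : ℤ} (h : v % p = 0) {q : Q}
    (hq : p • q = 0) : v • q = 0 := by
  obtain ⟨c, rfl⟩ := Int.dvd_of_emod_eq_zero h
  rw [mul_comm, mul_smul, hq, smul_zero]

lemma evT_zp {Q : Type v} [AddCommGroup Q] (p : ℤ) (t : T) : ∀ (B : ℕ → Q) (z : T),
    (∀ k, p • B k = 0) → FO B z → T.zp p t z = true → evT B t = 0 := by
  induction t with
  | n => intro B z _ _ _; rfl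
  | b l v r ihl ihr =>
    intro B z hp hz h
    rcases z with _ | ⟨zl, zv, zr⟩
    · simp only [T.zp, Bool.and_eq_true, decide_eq_true_eq] at h
      obtain ⟨⟨h1, h2⟩, h3⟩ := h
      simp only [evT, smul_of_mod h1 (hp 0), ihl _ _ (fun k => hp _) (show FO _ T.n from trivial) h2,
        ihr _ _ (fun k => hp _) (show FO _ T.n from trivial) h3, add_zero]
    · simp only [T.zp, Bool.and_eq_true, Bool.or_eq_true, decide_eq_true_eq, Bool.not_eq_true',
        decide_eq_false_iff_not] at h
      obtain ⟨⟨h1, h2⟩, h3⟩ := h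
      simp only [evT, ihl _ _ (fun k => hp _) hz.2.1 h2, ihr _ _ (fun k => hp _) hz.2.2 h3]
      rcases h1 with h1 | h1
      · simp [smul_of_mod h1 (hp 0)]
      · simp [hz.1 h1]

section check
variable (f : ℕ) (row : ℕ → List (ℤ × ℕ)) (ok : ℕ → Bool)

/-- accumulate relations -/
def acR : List (ℤ × ℕ) → T → T
  | [], t => t
  | p :: L, t => acR L (addR f p.1 (row p.2) t)

/-- all the used relations are valid -/
def okA : List (ℤ × ℕ) → Bool
  | [] => true
  | p :: L => ok p.2 && smallF f (row p.2) && okA L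

/-- accumulate facts -/
def acF (facts : List (List (ℤ × ℕ))) : List (ℤ × ℕ) → T → T
  | [], t => t
  | p :: L, t => acF facts L (addR f p.1 (facts.getD p.2 []) t)

/-- A step: relations, facts, new fact. -/
structure Step2 where
  rels : List (ℤ × ℕ)
  fs : List (ℤ × ℕ)
  F : List (ℤ × ℕ)

/-- validity of a step -/
def stOk (p : ℤ) (facts : List (List (ℤ × ℕ))) (Z : T) (s : Step2) : Bool :=
  okA f row ok s.rels && smallF f s.F &&
  (acR f row s.rels (acF f facts s.fs (addR f (-1) s.F .n))).zp p Z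

/-- flag a unit fact -/
def flg (F : List (ℤ × ℕ)) (Z : T) : T :=
  match F with
  | [p] => if p.1 = 1 then ins f p.2 1 Z else Z
  | _ => Z

/-- run the steps -/
def run2 (p : ℤ) : List Step2 → List (List (ℤ × ℕ)) → T → Option T
  | [], _, Z => some Z
  | s :: L, facts, Z =>
    if stOk f row ok p facts Z s then run2 p L (s.F :: facts) (flg f s.F Z) else none

end check

section
variable {Q : Type v} [AddCommGroup Q] {f : ℕ} {row : ℕ → List (ℤ × ℕ)} {ok : ℕ → Bool}

lemma evT_acR (B : ℕ → Q)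
    (hrow : ∀ i, ok i = true → ev B (row i) = 0) (L : List (ℤ × ℕ)) :
    ∀ t, okA f row ok L = true → evT B (acR f row L t) = evT B t := by
  induction L with
  | nil => intro t _; rfl
  | cons p L ih =>
    intro t h
    simp only [okA, Bool.and_eq_true] at h
    simp only [acR]
    rw [ih _ h.2, evT_addR f B p.1 _ _ h.1.2, hrow _ h.1.1, smul_zero, zero_add]

lemma getD_fact2 (B : ℕ → Q) (facts : List (List (ℤ × ℕ)))
    (hf : ∀ F ∈ facts, ev B F = 0 ∧ smallF f F = true) (i : ℕ) :
    ev B (facts.getD i []) = 0 ∧ smallF f (facts.getD i []) = true := by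
  by_cases h : i < facts.length
  · rw [List.getD_eq_getElem _ _ h]
    exact hf _ (List.getElem_mem h)
  · rw [List.getD_eq_default _ _ (not_lt.mp h)]
    exact ⟨rfl, rfl⟩

lemma evT_acF (B : ℕ → Q) (facts : List (List (ℤ × ℕ)))
    (hf : ∀ F ∈ facts, ev B F = 0 ∧ smallF f F = true) (L : List (ℤ × ℕ)) :
    ∀ t, evT B (acF f facts L t) = evT B t := by
  induction L with
  | nil => intro t; rfl
  | cons p L ih =>
    intro t
    simp only [acF]
    have := getD_fact2 B facts hf p.2
    rw [ih, evT_addR f B p.1 _ _ this.2, this.1, smul_zero, zero_add]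

theorem run2_sound {p : ℤ} (B : ℕ → Q) (hp : ∀ k, p • B k = 0)
    (hrow : ∀ i, ok i = true → ev B (row i) = 0)
    (L : List Step2) : ∀ (facts : List (List (ℤ × ℕ))) (Z Z' : T),
    (∀ F ∈ facts, ev B F = 0 ∧ smallF f F = true) → FO B Z →
    run2 f row ok p L facts Z = some Z' → FO B Z' := by
  induction L with
  | nil =>
    intro facts Z Z' _ hZ h
    simp only [run2, Option.some.injEq] at h
    rw [← h]; exact hZ
  | cons s L ih =>
    intro facts Z Z' hf hZ h
    simp only [run2] at h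
    by_cases hs : stOk f row ok p facts Z s = true
    · rw [if_pos hs] at h
      simp only [stOk, Bool.and_eq_true] at hs
      obtain ⟨⟨h1, h2⟩, h4⟩ := hs
      have e := evT_zp p _ B Z hp hZ h4
      rw [evT_acR B hrow _ _ h1, evT_acF B facts hf, evT_addR f B _ _ _ h2] at e
      simp only [evT, add_zero, neg_smul, one_smul, neg_eq_zero] at e
      refine ih _ _ _ ?_ ?_ h
      · intro F hF'
        rcases List.mem_cons.mp hF' with rfl | hF'
        · exact ⟨e, h2⟩
        · exact hf F hF'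
      · unfold flg
        split
        · rename_i q hq
          by_cases hc : q.1 = 1
          · rw [if_pos hc]
            apply FO_ins _ _ _ _ _ _ hZ
            rw [hq] at e
            simp only [ev, add_zero, hc, one_smul] at e
            exact e
          · rw [if_neg hc]; exact hZ
        · exact hZ
    · rw [if_neg hs] at h
      exact absurd h (by simp)

end

/-- parse the steps -/
def parseSteps2 : ℕ → List ℕ → List Step2
  | 0, _ => []
  | k+1, a :: b :: c :: L =>
    let r1 := parsePairs a L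
    let r2 := parsePairs b r1.2
    let r3 := parsePairs c r2.2
    ⟨r1.1, r2.1, r3.1⟩ :: parseSteps2 k r3.2
  | _+1, _ => []

/-- the whole check: all the target keys get flagged -/
def checkM (f : ℕ) (p : ℤ) (row : ℕ → List (ℤ × ℕ)) (ok : ℕ → Bool) (ntok nsteps data : ℕ)
    (targets : List ℕ) : Bool :=
  match run2 f row ok p (parseSteps2 nsteps (tokens ntok data)) [] .n with
  | none => false
  | some Z => targets.all (fun k => T.get f k Z)

theorem checkM_sound {Q : Type v} [AddCommGroup Q] {f : ℕ} {p : ℤ} (B : ℕ → Q)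
    (hp : ∀ k, p • B k = 0)
    {row : ℕ → List (ℤ × ℕ)} {ok : ℕ → Bool} (hrow : ∀ i, ok i = true → ev B (row i) = 0)
    {ntok nsteps data : ℕ} {targets : List ℕ}
    (h : checkM f p row ok ntok nsteps data targets = true) : ∀ k ∈ targets, B k = 0 := by
  unfold checkM at h
  split at h
  · exact absurd h (by simp)
  · rename_i Z hZ
    intro k hk
    have h1 := List.all_eq_true.mp h k hk
    exact T.get_sound f B k Z
      (run2_sound B hp hrow _ _ _ _ (by simp) (show FO B T.n from trivial) hZ) h1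

/-- Nakayama for finitely generated torsion subgroups. -/
theorem nak {Q : Type v} [AddCommGroup Q] (B : ℕ → Q) (n : ℕ)
    (ht : ∀ k < n, ∃ j : ℕ, ((30:ℤ) ^ j) • B k = 0)
    (h2 : ∀ k < n, ∃ s ∈ AddSubgroup.closure (B '' {k | k < n}), B k = (2:ℤ) • s)
    (h3 : ∀ k < n, ∃ s ∈ AddSubgroup.closure (B '' {k | k < n}), B k = (3:ℤ) • s)
    (h5 : ∀ k < n, ∃ s ∈ AddSubgroup.closure (B '' {k | k < n}), B k = (5:ℤ) • s) :
    ∀ k < n, B k = 0 := by
  set S := AddSubgroup.closure (B '' {k | k < n}) with hS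
  have ext : ∀ p : ℤ, (∀ k < n, ∃ s ∈ S, B k = p • s) → ∀ y ∈ S, ∃ s ∈ S, y = p • s := by
    intro p hp y hy
    refine AddSubgroup.closure_induction (p := fun y _ => ∃ s ∈ S, y = p • s) ?_ ?_ ?_ ?_ hy
    · rintro _ ⟨k, hk, rfl⟩; exact hp k hk
    · exact ⟨0, zero_mem _, by simp⟩
    · rintro a b _ _ ⟨s, hs, rfl⟩ ⟨t, ht', rfl⟩
      exact ⟨s + t, add_mem hs ht', by rw [smul_add]⟩
    · rintro a _ ⟨s, hs, rfl⟩
      exact ⟨-s, neg_mem hs, by rw [smul_neg]⟩
  have e30 : ∀ y ∈ S, ∃ s ∈ S, y = (30:ℤ) • s := by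
    intro y hy
    obtain ⟨a, ha, rfl⟩ := ext 2 h2 y hy
    obtain ⟨b, hb, rfl⟩ := ext 3 h3 a ha
    obtain ⟨c, hc, rfl⟩ := ext 5 h5 b hb
    exact ⟨c, hc, by rw [smul_smul, smul_smul]; norm_num⟩
  have e30m : ∀ m : ℕ, ∀ y ∈ S, ∃ s ∈ S, y = ((30:ℤ) ^ m) • s := by
    intro m
    induction m with
    | zero => intro y hy; exact ⟨y, hy, by simp⟩
    | succ m ih =>
      intro y hy
      obtain ⟨s, hs, rfl⟩ := ih y hy
      obtain ⟨t, ht', rfl⟩ := e30 s hs
      exact ⟨t, ht', by rw [smul_smul, pow_succ]⟩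
  obtain ⟨m, hm⟩ : ∃ m : ℕ, ∀ k < n, ((30:ℤ) ^ m) • B k = 0 := by
    choose! j hj using ht
    refine ⟨∑ k ∈ Finset.range n, j k, ?_⟩
    intro k hk
    have h1 : j k ≤ ∑ k ∈ Finset.range n, j k :=
      Finset.single_le_sum (f := j) (fun _ _ => Nat.zero_le _) (Finset.mem_range.mpr hk)
    obtain ⟨c, hc⟩ := Nat.exists_eq_add_of_le h1
    rw [hc, pow_add, mul_comm, mul_smul, hj k hk, smul_zero]
  have hkill : ∀ y ∈ S, ((30:ℤ) ^ m) • y = 0 := by
    intro y hy
    refine AddSubgroup.closure_induction (p := fun y _ => ((30:ℤ) ^ m) • y = 0) ?_ ?_ ?_ ?_ hy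
    · rintro _ ⟨k, hk, rfl⟩; exact hm k hk
    · simp
    · rintro a b _ _ ha hb; rw [smul_add, ha, hb, add_zero]
    · rintro a _ ha; rw [smul_neg, ha, neg_zero]
  intro k hk
  obtain ⟨s, hs, e⟩ := e30m m (B k) (AddSubgroup.subset_closure ⟨k, hk, rfl⟩)
  rw [e]; exact hkill s hs

end Run7.h607
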