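import Mathlib
import Pool.Agent.Run7.h607.Exp
import Pool.Agent.Run7.h607.Refl2

/-! Tables of the leading forms of the polarised relations. -/

namespace Run7.h607

universe u v

open scoped commutatorElement

/-- code of a formal word -/
def cdl : List (ℕ × ℕ) → ℕ → ℕ
  | [], e => e
  | p :: w, e => p.1 + 4 * p.2 + 32 * cdl w e

/-- decoding -/
def dcl : ℕ → ℕ → List (ℕ × ℕ) × ℕ
  | 0, k => ([], k)
  | r + 1, k => ((k % 4, k / 4 % 8) :: (dcl r (k / 32)).1, (dcl r (k / 32)).2)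

/-- good words -/
def gdl : ℕ → List (ℕ × ℕ) → Bool
  | 0, [] => true
  | r + 1, p :: w => Nat.blt p.1 4 && Nat.blt p.2 8 && gdl r w
  | _, _ => false

lemma dcl_cdl (r : ℕ) : ∀ (w : List (ℕ × ℕ)) (e : ℕ), gdl r w = true → dcl r (cdl w e) = (w, e) := by
  induction r with
  | zero =>
    intro w e h
    cases w with
    | nil => rfl
    | cons p w => simp [gdl] at h
  | succ r ih =>
    intro w e h
    cases w with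
    | nil => simp [gdl] at h
    | cons p w =>
      simp only [gdl, Bool.and_eq_true, Nat.blt_eq] at h
      obtain ⟨⟨h1, h2⟩, h3⟩ := h
      have e1 : (p.1 + 4 * p.2 + 32 * cdl w e) % 4 = p.1 := by omega
      have e2 : (p.1 + 4 * p.2 + 32 * cdl w e) / 4 % 8 = p.2 := by omega
      have e3 : (p.1 + 4 * p.2 + 32 * cdl w e) / 32 = cdl w e := by omega
      simp only [dcl, cdl, e1, e2, e3, ih w e h3]

/-- keys of a list -/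
def keyL (L : List (ℤ × List (ℕ × ℕ) × ℕ)) : List (ℤ × ℕ) := L.map fun t => (t.1, cdl t.2.1 t.2.2)

/-- all the entries are good -/
def gdA (r : ℕ) (L : List (ℤ × List (ℕ × ℕ) × ℕ)) : Bool := L.all fun t => gdl r t.2.1

/-- formal equality -/
def eqL (r f : ℕ) (L M : List (ℤ × List (ℕ × ℕ) × ℕ)) : Bool :=
  gdA r L && gdA r M && smallF f (keyL L) && smallF f (keyL M) &&
    (addR f (-1) (keyL M) (addR f 1 (keyL L) .n)).zm .n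

section
variable {G : Type u} [Group G] {F : Filt G} {A : Type v} [AddCommGroup A] {φ : G → A}

/-- value of a coded word -/
def vK (φ : G → A) (g : G) (n : ℕ → F.N 0) (z : F.N 0) (r k : ℕ) : A :=
  φ (rb (dw g n (dcl r k).1) ((dd F g)^[(dcl r k).2] z : F.N 0))

lemma evD_key (g : G) (n : ℕ → F.N 0) (z : F.N 0) (r : ℕ) (L : List (ℤ × List (ℕ × ℕ) × ℕ))
    (h : gdA r L = true) : evD φ g n z L = ev (vK φ g n z r) (keyL L) := by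
  induction L with
  | nil => rfl
  | cons t L ih =>
    simp only [gdA, List.all_cons, Bool.and_eq_true] at h
    have h1 := ih h.2
    simp only [evD, keyL, List.map_cons, List.sum_cons, ev] at h1 ⊢
    rw [h1, vK, dcl_cdl r _ _ h.1]

theorem eqL_sound (g : G) (n : ℕ → F.N 0) (z : F.N 0) {r f : ℕ}
    {L M : List (ℤ × List (ℕ × ℕ) × ℕ)} (h : eqL r f L M = true) :
    evD φ g n z L = evD φ g n z M := by
  simp only [eqL, Bool.and_eq_true] at h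
  obtain ⟨⟨⟨⟨h1, h2⟩, h3⟩, h4⟩, h5⟩ := h
  have e := evT_zm _ (vK φ g n z r) .n trivial h5
  rw [evT_addR f _ _ _ _ h4, evT_addR f _ _ _ _ h3] at e
  rw [evD_key g n z r L h1, evD_key g n z r M h2]
  simp only [evT, add_zero, neg_smul, one_smul] at e
  rw [neg_add_eq_zero] at e
  exact e.symm

end

/-- first table -/
def tb1 : List (ℤ × List (ℕ × ℕ) × ℕ) :=
  [(4, [(0, 0)], 3), (6, [(0, 1)], 2), (4, [(0, 2)], 1), (1, [(0, 3)], 0)]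

/-- second table -/
def tb2 : List (ℤ × List (ℕ × ℕ) × ℕ) :=
  [(6, [(0, 0), (1, 0)], 2), (8, [(0, 0), (1, 1)], 1), (3, [(0, 0), (1, 2)], 0),
   (4, [(0, 1), (1, 0)], 1), (3, [(0, 1), (1, 1)], 0), (1, [(0, 2), (1, 0)], 0),
   (6, [(1, 0), (0, 0)], 2), (8, [(1, 0), (0, 1)], 1), (3, [(1, 0), (0, 2)], 0),
   (4, [(1, 1), (0, 0)], 1), (3, [(1, 1), (0, 1)], 0), (1, [(1, 2), (0, 0)], 0)]

/-- third table -/
def tb3 : List (ℤ × List (ℕ × ℕ) × ℕ) :=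
  [(4, [(0, 0), (1, 0), (2, 0)], 1), (3, [(0, 0), (1, 0), (2, 1)], 0),
   (2, [(0, 0), (1, 1), (2, 0)], 0), (4, [(0, 0), (2, 0), (1, 0)], 1),
   (3, [(0, 0), (2, 0), (1, 1)], 0), (2, [(0, 0), (2, 1), (1, 0)], 0),
   (1, [(0, 1), (1, 0), (2, 0)], 0), (1, [(0, 1), (2, 0), (1, 0)], 0),
   (4, [(1, 0), (0, 0), (2, 0)], 1), (3, [(1, 0), (0, 0), (2, 1)], 0),
   (2, [(1, 0), (0, 1), (2, 0)], 0), (4, [(1, 0), (2, 0), (0, 0)], 1),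
   (3, [(1, 0), (2, 0), (0, 1)], 0), (2, [(1, 0), (2, 1), (0, 0)], 0),
   (1, [(1, 1), (0, 0), (2, 0)], 0), (1, [(1, 1), (2, 0), (0, 0)], 0),
   (4, [(2, 0), (0, 0), (1, 0)], 1), (3, [(2, 0), (0, 0), (1, 1)], 0),
   (2, [(2, 0), (0, 1), (1, 0)], 0), (4, [(2, 0), (1, 0), (0, 0)], 1),
   (3, [(2, 0), (1, 0), (0, 1)], 0), (2, [(2, 0), (1, 1), (0, 0)], 0),
   (1, [(2, 1), (0, 0), (1, 0)], 0), (1, [(2, 1), (1, 0), (0, 0)], 0)]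

/-- fourth table -/
def tb4 : List (ℤ × List (ℕ × ℕ) × ℕ) :=
  [(1, [(0, 0), (1, 0), (2, 0), (3, 0)], 0), (1, [(0, 0), (1, 0), (3, 0), (2, 0)], 0),
   (1, [(0, 0), (2, 0), (1, 0), (3, 0)], 0), (1, [(0, 0), (2, 0), (3, 0), (1, 0)], 0),
   (1, [(0, 0), (3, 0), (1, 0), (2, 0)], 0), (1, [(0, 0), (3, 0), (2, 0), (1, 0)], 0),
   (1, [(1, 0), (0, 0), (2, 0), (3, 0)], 0), (1, [(1, 0), (0, 0), (3, 0), (2, 0)], 0),
   (1, [(1, 0), (2, 0), (0, 0), (3, 0)], 0), (1, [(1, 0), (2, 0), (3, 0), (0, 0)], 0),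
   (1, [(1, 0), (3, 0), (0, 0), (2, 0)], 0), (1, [(1, 0), (3, 0), (2, 0), (0, 0)], 0),
   (1, [(2, 0), (0, 0), (1, 0), (3, 0)], 0), (1, [(2, 0), (0, 0), (3, 0), (1, 0)], 0),
   (1, [(2, 0), (1, 0), (0, 0), (3, 0)], 0), (1, [(2, 0), (1, 0), (3, 0), (0, 0)], 0),
   (1, [(2, 0), (3, 0), (0, 0), (1, 0)], 0), (1, [(2, 0), (3, 0), (1, 0), (0, 0)], 0),
   (1, [(3, 0), (0, 0), (1, 0), (2, 0)], 0), (1, [(3, 0), (0, 0), (2, 0), (1, 0)], 0),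
   (1, [(3, 0), (1, 0), (0, 0), (2, 0)], 0), (1, [(3, 0), (1, 0), (2, 0), (0, 0)], 0),
   (1, [(3, 0), (2, 0), (0, 0), (1, 0)], 0), (1, [(3, 0), (2, 0), (1, 0), (0, 0)], 0)]

/-- fifth table -/
def tb5 : List (ℤ × List (ℕ × ℕ) × ℕ) :=
  [(16, [(0, 0), (1, 0), (2, 0), (3, 0)], 1), (12, [(0, 0), (1, 0), (2, 0), (3, 1)], 0),
   (9, [(0, 0), (1, 0), (2, 1), (3, 0)], 0), (12, [(0, 0), (1, 0), (3, 0), (2, 0)], 1),
   (9, [(0, 0), (1, 0), (3, 0), (2, 1)], 0), (6, [(0, 0), (1, 0), (3, 1), (2, 0)], 0),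
   (6, [(0, 0), (1, 1), (2, 0), (3, 0)], 0), (4, [(0, 0), (1, 1), (3, 0), (2, 0)], 0),
   (12, [(0, 0), (2, 0), (1, 0), (3, 0)], 1), (9, [(0, 0), (2, 0), (1, 0), (3, 1)], 0),
   (7, [(0, 0), (2, 0), (1, 1), (3, 0)], 0), (12, [(0, 0), (2, 0), (3, 0), (1, 0)], 1),
   (9, [(0, 0), (2, 0), (3, 0), (1, 1)], 0), (6, [(0, 0), (2, 0), (3, 1), (1, 0)], 0),
   (4, [(0, 0), (2, 1), (1, 0), (3, 0)], 0), (4, [(0, 0), (2, 1), (3, 0), (1, 0)], 0),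
   (12, [(0, 0), (3, 0), (1, 0), (2, 0)], 1), (9, [(0, 0), (3, 0), (1, 0), (2, 1)], 0),
   (7, [(0, 0), (3, 0), (1, 1), (2, 0)], 0), (8, [(0, 0), (3, 0), (2, 0), (1, 0)], 1),
   (6, [(0, 0), (3, 0), (2, 0), (1, 1)], 0), (4, [(0, 0), (3, 0), (2, 1), (1, 0)], 0),
   (4, [(0, 0), (3, 1), (1, 0), (2, 0)], 0), (2, [(0, 0), (3, 1), (2, 0), (1, 0)], 0),
   (3, [(0, 1), (1, 0), (2, 0), (3, 0)], 0), (2, [(0, 1), (1, 0), (3, 0), (2, 0)], 0),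
   (2, [(0, 1), (2, 0), (1, 0), (3, 0)], 0), (2, [(0, 1), (2, 0), (3, 0), (1, 0)], 0),
   (2, [(0, 1), (3, 0), (1, 0), (2, 0)], 0), (1, [(0, 1), (3, 0), (2, 0), (1, 0)], 0),
   (12, [(1, 0), (0, 0), (2, 0), (3, 0)], 1), (9, [(1, 0), (0, 0), (2, 0), (3, 1)], 0),
   (7, [(1, 0), (0, 0), (2, 1), (3, 0)], 0), (8, [(1, 0), (0, 0), (3, 0), (2, 0)], 1),
   (6, [(1, 0), (0, 0), (3, 0), (2, 1)], 0), (4, [(1, 0), (0, 0), (3, 1), (2, 0)], 0),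
   (5, [(1, 0), (0, 1), (2, 0), (3, 0)], 0), (3, [(1, 0), (0, 1), (3, 0), (2, 0)], 0),
   (12, [(1, 0), (2, 0), (0, 0), (3, 0)], 1), (9, [(1, 0), (2, 0), (0, 0), (3, 1)], 0),
   (7, [(1, 0), (2, 0), (0, 1), (3, 0)], 0), (12, [(1, 0), (2, 0), (3, 0), (0, 0)], 1),
   (9, [(1, 0), (2, 0), (3, 0), (0, 1)], 0), (6, [(1, 0), (2, 0), (3, 1), (0, 0)], 0),
   (4, [(1, 0), (2, 1), (0, 0), (3, 0)], 0), (4, [(1, 0), (2, 1), (3, 0), (0, 0)], 0),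
   (12, [(1, 0), (3, 0), (0, 0), (2, 0)], 1), (9, [(1, 0), (3, 0), (0, 0), (2, 1)], 0),
   (7, [(1, 0), (3, 0), (0, 1), (2, 0)], 0), (8, [(1, 0), (3, 0), (2, 0), (0, 0)], 1),
   (6, [(1, 0), (3, 0), (2, 0), (0, 1)], 0), (4, [(1, 0), (3, 0), (2, 1), (0, 0)], 0),
   (4, [(1, 0), (3, 1), (0, 0), (2, 0)], 0), (2, [(1, 0), (3, 1), (2, 0), (0, 0)], 0),
   (2, [(1, 1), (0, 0), (2, 0), (3, 0)], 0), (1, [(1, 1), (0, 0), (3, 0), (2, 0)], 0),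
   (2, [(1, 1), (2, 0), (0, 0), (3, 0)], 0), (2, [(1, 1), (2, 0), (3, 0), (0, 0)], 0),
   (2, [(1, 1), (3, 0), (0, 0), (2, 0)], 0), (1, [(1, 1), (3, 0), (2, 0), (0, 0)], 0),
   (12, [(2, 0), (0, 0), (1, 0), (3, 0)], 1), (9, [(2, 0), (0, 0), (1, 0), (3, 1)], 0),
   (7, [(2, 0), (0, 0), (1, 1), (3, 0)], 0), (8, [(2, 0), (0, 0), (3, 0), (1, 0)], 1),
   (6, [(2, 0), (0, 0), (3, 0), (1, 1)], 0), (4, [(2, 0), (0, 0), (3, 1), (1, 0)], 0),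
   (5, [(2, 0), (0, 1), (1, 0), (3, 0)], 0), (3, [(2, 0), (0, 1), (3, 0), (1, 0)], 0),
   (8, [(2, 0), (1, 0), (0, 0), (3, 0)], 1), (6, [(2, 0), (1, 0), (0, 0), (3, 1)], 0),
   (5, [(2, 0), (1, 0), (0, 1), (3, 0)], 0), (8, [(2, 0), (1, 0), (3, 0), (0, 0)], 1),
   (6, [(2, 0), (1, 0), (3, 0), (0, 1)], 0), (4, [(2, 0), (1, 0), (3, 1), (0, 0)], 0),
   (3, [(2, 0), (1, 1), (0, 0), (3, 0)], 0), (3, [(2, 0), (1, 1), (3, 0), (0, 0)], 0),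
   (12, [(2, 0), (3, 0), (0, 0), (1, 0)], 1), (9, [(2, 0), (3, 0), (0, 0), (1, 1)], 0),
   (7, [(2, 0), (3, 0), (0, 1), (1, 0)], 0), (8, [(2, 0), (3, 0), (1, 0), (0, 0)], 1),
   (6, [(2, 0), (3, 0), (1, 0), (0, 1)], 0), (4, [(2, 0), (3, 0), (1, 1), (0, 0)], 0),
   (4, [(2, 0), (3, 1), (0, 0), (1, 0)], 0), (2, [(2, 0), (3, 1), (1, 0), (0, 0)], 0),
   (2, [(2, 1), (0, 0), (1, 0), (3, 0)], 0), (1, [(2, 1), (0, 0), (3, 0), (1, 0)], 0),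
   (1, [(2, 1), (1, 0), (0, 0), (3, 0)], 0), (1, [(2, 1), (1, 0), (3, 0), (0, 0)], 0),
   (2, [(2, 1), (3, 0), (0, 0), (1, 0)], 0), (1, [(2, 1), (3, 0), (1, 0), (0, 0)], 0),
   (12, [(3, 0), (0, 0), (1, 0), (2, 0)], 1), (9, [(3, 0), (0, 0), (1, 0), (2, 1)], 0),
   (7, [(3, 0), (0, 0), (1, 1), (2, 0)], 0), (8, [(3, 0), (0, 0), (2, 0), (1, 0)], 1),
   (6, [(3, 0), (0, 0), (2, 0), (1, 1)], 0), (4, [(3, 0), (0, 0), (2, 1), (1, 0)], 0),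
   (5, [(3, 0), (0, 1), (1, 0), (2, 0)], 0), (3, [(3, 0), (0, 1), (2, 0), (1, 0)], 0),
   (8, [(3, 0), (1, 0), (0, 0), (2, 0)], 1), (6, [(3, 0), (1, 0), (0, 0), (2, 1)], 0),
   (5, [(3, 0), (1, 0), (0, 1), (2, 0)], 0), (8, [(3, 0), (1, 0), (2, 0), (0, 0)], 1),
   (6, [(3, 0), (1, 0), (2, 0), (0, 1)], 0), (4, [(3, 0), (1, 0), (2, 1), (0, 0)], 0),
   (3, [(3, 0), (1, 1), (0, 0), (2, 0)], 0), (3, [(3, 0), (1, 1), (2, 0), (0, 0)], 0),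
   (8, [(3, 0), (2, 0), (0, 0), (1, 0)], 1), (6, [(3, 0), (2, 0), (0, 0), (1, 1)], 0),
   (5, [(3, 0), (2, 0), (0, 1), (1, 0)], 0), (4, [(3, 0), (2, 0), (1, 0), (0, 0)], 1),
   (3, [(3, 0), (2, 0), (1, 0), (0, 1)], 0), (2, [(3, 0), (2, 0), (1, 1), (0, 0)], 0),
   (3, [(3, 0), (2, 1), (0, 0), (1, 0)], 0), (1, [(3, 0), (2, 1), (1, 0), (0, 0)], 0),
   (2, [(3, 1), (0, 0), (1, 0), (2, 0)], 0), (1, [(3, 1), (0, 0), (2, 0), (1, 0)], 0),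
   (1, [(3, 1), (1, 0), (0, 0), (2, 0)], 0), (1, [(3, 1), (1, 0), (2, 0), (0, 0)], 0),
   (1, [(3, 1), (2, 0), (0, 0), (1, 0)], 0)]

/-- the tables -/
def tbl : ℕ → List (ℤ × List (ℕ × ℕ) × ℕ)
  | 1 => tb1
  | 2 => tb2
  | 3 => tb3
  | 4 => tb4
  | 5 => tb5
  | _ => []

set_option maxRecDepth 100000

lemma tb1_ok : eqL 1 24 (XL 4 (Rl 1)) tb1 = true := by decide +kernel
lemma tb2_ok : eqL 2 24 (XL 3 (Rl 2)) tb2 = true := by decide +kernel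
lemma tb3_ok : eqL 3 24 (XL 2 (Rl 3)) tb3 = true := by decide +kernel
lemma tb4_ok : eqL 4 24 (strip (Rl 4)) tb4 = true := by decide +kernel
lemma tb5_ok : eqL 4 24 (XL 2 (Rl 4) ++ ngL (strip (Rl 4))) tb5 = true := by decide +kernel

end Run7.h607
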