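import Mathlib
import Pool.Agent.Run7.h607.Tab

/-! Values of words and the soundness of the relation rows. -/

namespace Run7.h607

universe u v

open scoped commutatorElement

/-- substitution of an entry -/
def sbE (n : List (ℕ × ℕ)) (p : ℕ × ℕ) : ℕ × ℕ :=
  ((n.getD p.1 (0, 0)).1, p.2 + (n.getD p.1 (0, 0)).2)

/-- a weighted word -/
abbrev Wt := ℤ × List (ℕ × ℕ) × (ℕ × ℕ)

/-- substitution of a term -/
def sbT (o n : List (ℕ × ℕ)) (z : ℕ × ℕ) (t : ℤ × List (ℕ × ℕ) × ℕ) : Wt :=
  (t.1, o ++ t.2.1.map (sbE n), (z.1, t.2.2 + z.2))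

/-- the word is a permutation of the letters -/
def PW (K : ℕ) (w : List (ℕ × ℕ)) (z : ℕ × ℕ) : Prop :=
  (w.map Prod.fst ++ [z.1]).Perm (List.range K)

/-- total exponent -/
def sE (w : List (ℕ × ℕ)) (z : ℕ × ℕ) : ℕ := (w.map Prod.snd).sum + z.2

section
variable {G : Type u} [Group G] {F : Filt G} {A : Type v} [AddCommGroup A]

/-- value of a word -/
def vl (ω : G → A) (g : G) (v : ℕ → F.N 0) (w : List (ℕ × ℕ)) (z : ℕ × ℕ) : A :=
  ω (rb (dw g v w) ((dd F g)^[z.2] (v z.1) : F.N 0))

/-- value of a list of weighted words -/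
def evW (ω : G → A) (g : G) (v : ℕ → F.N 0) (L : List Wt) : A :=
  (L.map fun t => t.1 • vl ω g v t.2.1 t.2.2).sum

/-- vanishing in total degree at least `R` -/
def VanK (ω : G → A) (g : G) (v : ℕ → F.N 0) (K R : ℕ) : Prop :=
  ∀ w z, PW K w z → R ≤ sE w z → vl ω g v w z = 0

variable {ω : G → A} {g : G} {v : ℕ → F.N 0}

lemma evW_append (L M : List Wt) : evW ω g v (L ++ M) = evW ω g v L + evW ω g v M := by
  simp [evW]

lemma rb_append (a b : List G) (z : G) : rb (a ++ b) z = rb a (rb b z) := by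
  induction a with
  | nil => rfl
  | cons c a ih => show ⁅c, rb (a ++ b) z⁆ = ⁅c, rb a (rb b z)⁆; rw [ih]

lemma vl_sb (o n u : List (ℕ × ℕ)) (z : ℕ × ℕ) (e : ℕ) :
    vl ω g v (o ++ u.map (sbE n)) (z.1, e + z.2) =
      ω (rb (dw g v o) (rb (dw g (fun l => (dd F g)^[(n.getD l (0, 0)).2]
        (v (n.getD l (0, 0)).1)) u) ((dd F g)^[e] ((dd F g)^[z.2] (v z.1)) : F.N 0))) := by
  unfold vl
  have h1 : dw g v (o ++ u.map (sbE n)) = dw g v o ++
      dw g (fun l => (dd F g)^[(n.getD l (0, 0)).2] (v (n.getD l (0, 0)).1)) u := by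
    unfold dw
    rw [List.map_append, List.map_map]
    congr 1
    apply List.map_congr_left
    intro p _
    simp only [Function.comp, sbE, Function.iterate_add_apply]
  rw [h1, rb_append]
  simp only [Function.iterate_add_apply]

lemma evW_sb (o n : List (ℕ × ℕ)) (z : ℕ × ℕ) (L : List (ℤ × List (ℕ × ℕ) × ℕ)) :
    evW ω g v (L.map (sbT o n z)) =
      evD (fun y => ω (rb (dw g v o) y)) g (fun l => (dd F g)^[(n.getD l (0, 0)).2]
        (v (n.getD l (0, 0)).1)) ((dd F g)^[z.2] (v z.1)) L := by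
  unfold evW evD
  rw [List.map_map]
  congr 1
  apply List.map_congr_left
  intro t _
  simp only [Function.comp, sbT, vl_sb]

omit [Group G] [AddCommGroup A] in
lemma getD_range (n : List (ℕ × ℕ)) :
    (List.range n.length).map (fun l => n.getD l (0, 0)) = n := by
  apply List.ext_getElem
  · simp
  · intro i h1 h2
    simp [List.getElem?_eq_getElem h2]

lemma sb_fst (n u : List (ℕ × ℕ)) (h : (u.map Prod.fst).Perm (List.range n.length)) :
    ((u.map (sbE n)).map Prod.fst).Perm (n.map Prod.fst) := by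
  have h1 : (u.map (sbE n)).map Prod.fst =
      (u.map Prod.fst).map (fun l => (n.getD l (0, 0)).1) := by
    rw [List.map_map, List.map_map]; rfl
  rw [h1]
  have h2 := h.map (fun l => (n.getD l (0, 0)).1)
  have h3 : (List.range n.length).map (fun l => (n.getD l (0, 0)).1) = n.map Prod.fst := by
    conv_rhs => rw [← getD_range n]
    rw [List.map_map]; rfl
  rw [h3] at h2
  exact h2

lemma sb_snd (n u : List (ℕ × ℕ)) (h : (u.map Prod.fst).Perm (List.range n.length)) :
    ((u.map (sbE n)).map Prod.snd).sum = (u.map Prod.snd).sum + (n.map Prod.snd).sum := by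
  have h2 := (h.map (fun l => (n.getD l (0, 0)).2)).sum_eq
  have h3 : (List.range n.length).map (fun l => (n.getD l (0, 0)).2) = n.map Prod.snd := by
    conv_rhs => rw [← getD_range n]
    rw [List.map_map]; rfl
  rw [h3] at h2
  rw [← h2]
  clear h h2 h3
  induction u with
  | nil => rfl
  | cons p u ih =>
    simp only [List.map_cons, List.sum_cons, sbE] at ih ⊢
    rw [ih]
    ring

lemma PW_sb {K : ℕ} {o n u : List (ℕ × ℕ)} {z : ℕ × ℕ} (h : PW K (o ++ n) z)
    (hu : (u.map Prod.fst).Perm (List.range n.length)) (e : ℕ) :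
    PW K (o ++ u.map (sbE n)) (z.1, e) := by
  unfold PW at *
  rw [List.map_append] at *
  refine List.Perm.trans ?_ h
  exact ((List.Perm.refl _).append (sb_fst n u hu)).append (List.Perm.refl _)

lemma sE_sb {o n u : List (ℕ × ℕ)} {z : ℕ × ℕ}
    (hu : (u.map Prod.fst).Perm (List.range n.length)) (e : ℕ) :
    sE (o ++ u.map (sbE n)) (z.1, e + z.2) = sE (o ++ n) z + (u.map Prod.snd).sum + e := by
  unfold sE
  rw [List.map_append, List.map_append, List.sum_append, List.sum_append, sb_snd n u hu]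
  ring

/-- number of letters of a relation -/
def rT : ℕ → ℕ
  | 1 => 1
  | 2 => 2
  | 3 => 3
  | _ => 4

/-- extra degree of a relation -/
def dT : ℕ → ℕ
  | 1 => 3
  | 2 => 2
  | 3 => 1
  | 4 => 0
  | _ => 1

/-- Soundness of the relation rows. -/
theorem rel_sound {x : G} (hx : Gen F x) (he : Eng x) {K : ℕ} (hω : F.Sym K ω)
    {o n : List (ℕ × ℕ)} {z : ℕ × ℕ} (hw : PW (K + 1) (o ++ n) z) {ty : ℕ}
    (hty : 1 ≤ ty ∧ ty ≤ 5) (hn : n.length = rT ty) {R : ℕ} (hV : VanK ω g v (K + 1) R)
    (hR : R ≤ sE (o ++ n) z + dT ty + 1) : evW ω g v ((tbl ty).map (sbT o n z)) = 0 := by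
  have hlen : o.length + n.length = K := by
    have := hw.length_eq
    simp only [List.length_append, List.length_map, List.length_singleton,
      List.length_range] at this
    omega
  have hdo : (dw g v o).length = o.length := by unfold dw; rw [List.length_map]
  have hs : ∀ r, r = n.length → F.Sym r (fun y => ω (rb (dw g v o) y)) := by
    intro r hr
    apply sym_last
    · rw [hdo, hr, add_comm, hlen]; exact hω
    · exact dw_mem g v o
  have hvan : ∀ (r T : ℕ), r = n.length → T = dT ty + 1 → ∀ t ∈ Rl r,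
      ∀ (u : List (ℕ × ℕ)) (e : ℕ), u.map Prod.fst = t.2.1.map Prod.fst →
      T ≤ (u.map Prod.snd).sum + e →
      (fun y => ω (rb (dw g v o) y)) (rb (dw g (fun l => (dd F g)^[(n.getD l (0, 0)).2]
        (v (n.getD l (0, 0)).1)) u) ((dd F g)^[e] ((dd F g)^[z.2] (v z.1)) : F.N 0)) = 0 := by
    intro r T hr hT t ht u e hu hs'
    have hp : (u.map Prod.fst).Perm (List.range n.length) := by
      rw [hu, ← hr]; exact Rl_letters r t ht
    have := hV (o ++ u.map (sbE n)) (z.1, e + z.2) (PW_sb hw hp _)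
      (by rw [sE_sb hp]; omega)
    rw [vl_sb] at this
    exact this
  rw [evW_sb]
  obtain ⟨h1, h5⟩ := hty
  interval_cases ty
  · have hr : 1 = n.length := hn.symm
    show evD _ _ _ _ tb1 = 0
    rw [← eqL_sound _ _ _ tb1_ok, ← XL_sound g _ _ (hs 1 hr) 4 (Rl 1)
      (fun t ht => (Rl_wf 1 t ht).1) (hvan 1 4 hr rfl)]
    exact REL' hx he (hs 1 hr) _ _ g
  · have hr : 2 = n.length := hn.symm
    show evD _ _ _ _ tb2 = 0
    rw [← eqL_sound _ _ _ tb2_ok, ← XL_sound g _ _ (hs 2 hr) 3 (Rl 2)
      (fun t ht => (Rl_wf 2 t ht).1) (hvan 2 3 hr rfl)]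
    exact REL' hx he (hs 2 hr) _ _ g
  · have hr : 3 = n.length := hn.symm
    show evD _ _ _ _ tb3 = 0
    rw [← eqL_sound _ _ _ tb3_ok, ← XL_sound g _ _ (hs 3 hr) 2 (Rl 3)
      (fun t ht => (Rl_wf 3 t ht).1) (hvan 3 2 hr rfl)]
    exact REL' hx he (hs 3 hr) _ _ g
  · have hr : 4 = n.length := hn.symm
    show evD _ _ _ _ tb4 = 0
    rw [← eqL_sound _ _ _ tb4_ok, ← strip_sound]
    exact REL' hx he (hs 4 hr) _ _ 1
  · have hr : 4 = n.length := hn.symm
    show evD _ _ _ _ tb5 = 0
    rw [← eqL_sound _ _ _ tb5_ok, evD_append, evD_ng, ← strip_sound,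
      ← XL_sound g _ _ (hs 4 hr) 2 (Rl 4)
      (fun t ht => (Rl_wf 4 t ht).1) (hvan 4 2 hr rfl), REL' hx he (hs 4 hr) _ _ g,
      REL' hx he (hs 4 hr) _ _ 1, neg_zero, add_zero]

/-! ### closure rows -/

/-- commutators with the letters `0,…,q-1` equal to `x` vanish -/
def ZK (F : Filt G) (A : Type v) [AddCommGroup A] (x : G) (K q : ℕ) : Prop :=
  ∀ (ω : G → A), F.Sym K ω → ∀ (v : ℕ → F.N 0), (∀ l < q, (v l : G) = x) →
    ∀ (w : List ℕ) (z : ℕ), (w ++ [z]).Perm (List.range (K + 1)) →
      ω (rb (w.map fun l => (v l : G)) (v z)) = 0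

/-- the exponents as a function of the letter -/
lemma exE (L : List (ℕ × ℕ)) (h : (L.map Prod.fst).Nodup) :
    ∃ E : ℕ → ℕ, L = (L.map Prod.fst).map (fun l => (l, E l)) := by
  induction L with
  | nil => exact ⟨fun _ => 0, rfl⟩
  | cons p L ih =>
    rw [List.map_cons, List.nodup_cons] at h
    obtain ⟨E, hE⟩ := ih h.2
    refine ⟨fun l => if l = p.1 then p.2 else E l, ?_⟩
    rw [List.map_cons, List.map_cons]
    show p :: L = (p.1, if p.1 = p.1 then p.2 else E p.1) :: _
    rw [if_pos rfl]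
    congr 1
    conv_lhs => rw [hE]
    apply List.map_congr_left
    intro l hl
    show (l, E l) = (l, if l = p.1 then p.2 else E l)
    rw [if_neg]
    intro hc
    exact h.1 (hc ▸ hl)

lemma PW.exE {K : ℕ} {w : List (ℕ × ℕ)} {z : ℕ × ℕ} (h : PW K w z) :
    ∃ E : ℕ → ℕ, w = (w.map Prod.fst).map (fun l => (l, E l)) ∧ z = (z.1, E z.1) := by
  have hn : ((w ++ [z]).map Prod.fst).Nodup := by
    rw [List.map_append]
    exact (List.Perm.nodup_iff h).mpr List.nodup_range
  obtain ⟨E, hE⟩ := Run7.h607.exE (w ++ [z]) hn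
  refine ⟨E, ?_⟩
  rw [List.map_append, List.map_append] at hE
  have h1 := List.append_inj hE (by simp)
  refine ⟨h1.1, ?_⟩
  have h2 := h1.2
  simp only [List.map_cons, List.map_nil, List.cons.injEq, and_true] at h2
  exact h2

/-- indicator exponent -/
def iq (q k l : ℕ) : ℕ := if l < q then k else 0

/-- positions of a word -/
def ps (q k : ℕ) (w : List (ℕ × ℕ)) : List (ℕ × ℕ) :=
  (List.range w.length).map fun i => (i, iq q k (w.getD i (0, 0)).1)

/-- single closure row -/
def zr (q t k : ℕ) (w : List (ℕ × ℕ)) (z : ℕ × ℕ) : List Wt :=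
  (xq (t + 1) (iq q k z.1) (ps q k w)).map (sbT [] w z)

/-- closure row -/
def zrow (q t : ℕ) (w : List (ℕ × ℕ)) (z : ℕ × ℕ) : List Wt :=
  (List.range (t + 1)).flatMap fun k =>
    (zr q t k w z).map fun s => ((-1) ^ (t - k) * (t.choose k : ℤ) * s.1, s.2)

lemma evW_scale (c : ℤ) (L : List Wt) :
    evW ω g v (L.map fun s => (c * s.1, s.2)) = c • evW ω g v L := by
  induction L with
  | nil => simp [evW]
  | cons t L ih =>
    simp only [evW, List.map_cons, List.sum_cons, smul_add, mul_smul] at ih ⊢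
    rw [ih]

lemma hh_iter' (g : G) (j : ℕ) (a : F.N 0) : cj (g ^ j) (a : G) = ((hh F g)^[j] a : F.N 0) :=
  (hh_iter g j a).symm

theorem zr_sound {x : G} (hx : x ∈ F.N 0) {K q : ℕ} (hω : F.Sym K ω) (hZ : ZK F A x K q)
    (hvx : ∀ l < q, (v l : G) = x) {w : List (ℕ × ℕ)} {z : ℕ × ℕ} (hw : PW (K + 1) w z)
    (h0 : ∀ p ∈ w, p.1 < q → p.2 = 0) (h0' : z.1 < q → z.2 = 0) (t k : ℕ) {R : ℕ}
    (hV : VanK ω g v (K + 1) R) (hR : R ≤ sE w z + t + 1) : evW ω g v (zr q t k w z) = 0 := by
  have hlen : w.length = K := by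
    have := hw.length_eq
    simp only [List.length_append, List.length_map, List.length_singleton,
      List.length_range] at this
    omega
  unfold zr
  rw [evW_sb]
  show evD ω _ _ _ _ = 0
  rw [← xq_sound]
  · -- the value of the shifted word
    obtain ⟨E, hE, hz⟩ := hw.exE
    have hωg : F.Sym K (fun y => ω (cj (g ^ k) y)) := hω.compcj (g ^ k)
    have key := hZ _ hωg (fun l => if l < q then ⟨x, hx⟩ else
      hh F (g ^ k)⁻¹ ((dd F g)^[E l] (v l))) (by
        intro l hl; simp only [if_pos hl]) (w.map Prod.fst) z.1 hw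
    -- conjugation commutes with rb
    have cjrb : ∀ (a : List G) (y : G) (c : G), cj c (rb a y) = rb (a.map (cj c)) (cj c y) := by
      intro a y c
      induction a with
      | nil => rfl
      | cons b a ih =>
        show cj c ⁅b, rb a y⁆ = ⁅cj c b, rb (a.map (cj c)) (cj c y)⁆
        rw [cj_comm, ih]
    simp only [cjrb, List.map_map] at key
    have hent : ∀ l, cj (g ^ k) ((if l < q then (⟨x, hx⟩ : F.N 0) else
        hh F (g ^ k)⁻¹ ((dd F g)^[E l] (v l)) : F.N 0) : G) =
        cj (g ^ iq q k l) ((dd F g)^[if l < q then 0 else E l] (v l) : F.N 0) := by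
      intro l
      unfold iq
      by_cases hl : l < q
      · rw [if_pos hl, if_pos hl, if_pos hl]
        show cj (g ^ k) x = cj (g ^ k) (v l : G)
        rw [hvx l hl]
      · rw [if_neg hl, if_neg hl, if_neg hl, pow_zero, cj_one_left]
        show cj (g ^ k) (cj (g ^ k)⁻¹ _) = _
        rw [← cj_mul_left, mul_inv_cancel, cj_one_left]
    rw [← key]
    congr 2
    · unfold lw ps
      rw [List.map_map]
      conv_rhs => rw [← getD_range w]
      rw [List.map_map]
      apply List.map_congr_left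
      intro i hi
      simp only [Function.comp]
      rw [hent]
      have hmem : w.getD i (0, 0) ∈ w := by
        rw [List.getD_eq_getElem _ _ (List.mem_range.mp hi)]
        exact List.getElem_mem _
      have hEi : (w.getD i (0, 0)).2 = E (w.getD i (0, 0)).1 := by
        have h1 : ∀ p ∈ w, p.2 = E p.1 := by
          intro p hp
          rw [hE] at hp
          simp only [List.mem_map] at hp
          obtain ⟨l, _, rfl⟩ := hp
          rfl
        exact h1 _ hmem
      by_cases hl : (w.getD i (0, 0)).1 < q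
      · rw [if_pos hl, h0 _ hmem hl]
      · rw [if_neg hl, hEi]
    · rw [hent]
      have hz2 : z.2 = E z.1 := congrArg Prod.snd hz
      by_cases hl : z.1 < q
      · rw [if_pos hl, h0' hl]
      · rw [if_neg hl, hz2]
  · have : (ps q k w).length = K := by unfold ps; simp [hlen]
    rw [this]; exact hω
  · intro u e hu hs
    have hp : (u.map Prod.fst).Perm (List.range w.length) := by
      rw [hu]
      unfold ps
      rw [List.map_map]
      have : (List.range w.length).map (Prod.fst ∘ fun i => (i, iq q k (w.getD i (0, 0)).1)) =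
          List.range w.length := by
        conv_rhs => rw [← List.map_id (List.range w.length)]
        rfl
      rw [this]
    have := hV ([] ++ u.map (sbE w)) (z.1, e + z.2)
      (PW_sb (o := []) (n := w) hw hp _)
      (by rw [sE_sb (o := []) hp]; simp only [List.nil_append]; omega)
    rw [vl_sb] at this
    exact this

theorem zrow_sound {x : G} (hx : x ∈ F.N 0) {K q : ℕ} (hω : F.Sym K ω) (hZ : ZK F A x K q)
    (hvx : ∀ l < q, (v l : G) = x) {w : List (ℕ × ℕ)} {z : ℕ × ℕ} (hw : PW (K + 1) w z)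
    (h0 : ∀ p ∈ w, p.1 < q → p.2 = 0) (h0' : z.1 < q → z.2 = 0) (t : ℕ) {R : ℕ}
    (hV : VanK ω g v (K + 1) R) (hR : R ≤ sE w z + t + 1) : evW ω g v (zrow q t w z) = 0 := by
  have key : ∀ m, evW ω g v ((List.range m).flatMap fun k =>
    (zr q t k w z).map fun s => ((-1) ^ (t - k) * (t.choose k : ℤ) * s.1, s.2)) = 0 := by
    intro m
    induction m with
    | zero => simp [evW]
    | succ m ih =>
      rw [List.range_succ, List.flatMap_append, evW_append, ih, zero_add, List.flatMap_cons,
        List.flatMap_nil, List.append_nil, evW_scale,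
        zr_sound hx hω hZ hvx hw h0 h0' t m hV hR, smul_zero]
  exact key _

end

end Run7.h607
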