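import Mathlib
import Pool.Agent.Run7.h607.Sys

/-! Normal form of the metabelian commutators of weight five. -/

namespace Run7.h607

universe u v

open scoped commutatorElement

section
variable {G : Type u} [Group G] {F : Filt G} {A : Type v} [AddCommGroup A]

/-- metabelian condition -/
def Met (F : Filt G) : Prop :=
  ∀ a b y, a ∈ F.N 0 → b ∈ F.N 0 → y ∈ F.N 1 → ⁅⁅a, b⁆, y⁆ = 1

lemma met_swap (hM : Met F) {φ : G → A} {m k : ℕ} (hφ : F.Sym k φ) (hk : m + 2 = k) (hm : 1 ≤ m)
    {a b y : G} (ha : a ∈ F.N 0) (hb : b ∈ F.N 0) (hy : y ∈ F.N m) :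
    φ ⁅a, ⁅b, y⁆⁆ = φ ⁅b, ⁅a, y⁆⁆ := by
  have h1 := hφ.jacobi (i := 0) (j := 0) (l := m) (by omega) ha hb hy
  rw [hM a b y ha hb (F.anti' hm hy), hφ.one] at h1
  exact (sub_eq_zero.mp h1.symm)

lemma rb_perm (hM : Met F) {w w' : List G} (h : w.Perm w') : ∀ {φ : G → A} {m : ℕ} {y : G},
    1 ≤ m → y ∈ F.N m → F.Sym (m + w.length) φ → (∀ a ∈ w, a ∈ F.N 0) →
    φ (rb w y) = φ (rb w' y) := by
  induction h with
  | nil => intros; rfl
  | cons a h ih =>
    intro φ m y hm hy hφ hw
    refine ih (φ := fun t => φ ⁅a, t⁆) hm hy ?_ (fun b hb => hw b (List.mem_cons_of_mem _ hb))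
    exact hφ.left (i := 0) (by simp only [List.length_cons]; omega) (hw a List.mem_cons_self)
  | swap a b l =>
    intro φ m y hm hy hφ hw
    have h1 := rb_mem (F := F) (w := l)
      (fun c hc => hw c (List.mem_cons_of_mem _ (List.mem_cons_of_mem _ hc))) hy
    exact met_swap hM hφ (m := m + l.length) (by simp only [List.length_cons]; omega) (by omega)
      (hw b List.mem_cons_self) (hw a (List.mem_cons_of_mem _ List.mem_cons_self)) h1
  | trans h1 h2 ih1 ih2 =>
    intro φ m y hm hy hφ hw
    rw [ih1 hm hy hφ hw]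
    refine ih2 hm hy ?_ (fun a ha => hw a (h1.mem_iff.mpr ha))
    rw [← h1.length_eq]; exact hφ

/-- canonical commutators -/
def kap (ω : G → A) (D : ℕ → F.N 0) (l : ℕ) : A :=
  ω (rb ((([0, 1, 2, 3] : List ℕ).erase l).map fun m => (D m : G)) ⁅(D l : G), (D 4 : G)⁆)

/-- with the exception of the last letter -/
def kap' (ω : G → A) (D : ℕ → F.N 0) (l : ℕ) : A := if l = 4 then 0 else kap ω D l

lemma map_mem (D : ℕ → F.N 0) (w : List ℕ) : ∀ a ∈ w.map (fun m => (D m : G)), a ∈ F.N 0 := by
  intro a ha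
  simp only [List.mem_map] at ha
  obtain ⟨m, _, rfl⟩ := ha
  exact (D m).2

/-- the value with innermost pair `(l, 4)` -/
lemma nf_last (hM : Met F) {ω : G → A} (hω : F.Sym 4 ω) (D : ℕ → F.N 0) {o : List ℕ} {l : ℕ}
    (h : (l :: o).Perm [0, 1, 2, 3]) :
    ω (rb (o.map fun m => (D m : G)) ⁅(D l : G), (D 4 : G)⁆) = kap ω D l := by
  have h1 : o.Perm (([0, 1, 2, 3] : List ℕ).erase l) := by
    have := h.erase l
    rwa [List.erase_cons_head] at this
  have hlen : o.length = 3 := by
    have := h.length_eq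
    simp only [List.length_cons, List.length_nil] at this
    omega
  unfold kap
  refine rb_perm hM (h1.map _) (m := 1) le_rfl (F.com 0 0 _ _ (D l).2 (D 4).2) ?_
    (map_mem D o)
  rw [List.length_map, hlen]; exact hω

theorem nf_letters (hM : Met F) {ω : G → A} (hω : F.Sym 4 ω) (D : ℕ → F.N 0) {o : List ℕ}
    {l3 l4 : ℕ} (h : (o ++ [l3] ++ [l4]).Perm (List.range 5)) :
    ω (rb ((o ++ [l3]).map fun m => (D m : G)) (D l4)) = kap' ω D l3 - kap' ω D l4 := by
  have hr : List.range 5 = [0, 1, 2, 3] ++ [4] := by decide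
  rw [hr] at h
  have hlen : o.length = 3 := by
    have := h.length_eq
    simp only [List.length_append, List.length_cons, List.length_nil] at this
    omega
  have e1 : rb ((o ++ [l3]).map fun m => (D m : G)) (D l4) =
      rb (o.map fun m => (D m : G)) ⁅(D l3 : G), (D l4 : G)⁆ := by
    rw [List.map_append, rb_append]; rfl
  rw [e1]
  have hnd : (o ++ [l3] ++ [l4]).Nodup := (List.Perm.nodup_iff h).mpr (by decide)
  have hne : l3 ≠ l4 := by
    intro hc
    subst hc
    rw [List.append_assoc, List.nodup_append] at hnd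
    simpa using hnd.2.1
  by_cases c4 : l4 = 4
  · subst c4
    have h2 : (o ++ [l3]).Perm [0, 1, 2, 3] := (List.perm_append_right_iff [4]).mp h
    have h3 : (l3 :: o).Perm [0, 1, 2, 3] := (List.perm_append_singleton l3 o).symm.trans h2
    rw [nf_last hM hω D h3]
    simp only [kap', if_neg hne, if_pos, sub_zero]
  by_cases c3 : l3 = 4
  · subst c3
    have h2 : (o ++ [l4]).Perm [0, 1, 2, 3] := by
      apply (List.perm_append_right_iff [4]).mp
      refine List.Perm.trans ?_ h
      rw [List.append_assoc, List.append_assoc]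
      exact (List.Perm.refl o).append (List.Perm.swap _ _ _)
    have h3 : (l4 :: o).Perm [0, 1, 2, 3] := (List.perm_append_singleton l4 o).symm.trans h2
    have hs : F.Sym 1 (fun y => ω (rb (o.map fun m => (D m : G)) y)) := by
      apply sym_last
      · rw [List.length_map, hlen]; exact hω
      · exact map_mem D o
    have h4 := hs.antisymm (i := 0) (j := 0) rfl (D 4).2 (D l4).2
    rw [h4, nf_last hM hω D h3]
    simp only [kap', if_neg c4, if_pos, zero_sub]
  · have hmem : 4 ∈ o := by
      have : 4 ∈ o ++ [l3] ++ [l4] := h.mem_iff.mpr (by simp)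
      simp only [List.mem_append, List.mem_singleton] at this
      rcases this with (h' | h') | h'
      · exact h'
      · exact absurd h'.symm c3
      · exact absurd h'.symm c4
    have hp := List.perm_cons_erase hmem
    set rest := o.erase 4 with hrest
    have hrl : rest.length = 2 := by
      have := hp.length_eq
      simp only [List.length_cons] at this
      omega
    have hp' : o.Perm (rest ++ [4]) := hp.trans (List.perm_append_singleton 4 rest).symm
    have hall : (rest ++ [l3, l4]).Perm [0, 1, 2, 3] := by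
      apply (List.perm_append_right_iff [4]).mp
      refine List.Perm.trans ?_ h
      have h5 : (rest ++ [l3, l4] ++ [4]).Perm (rest ++ [4] ++ [l3] ++ [l4]) := by
        rw [List.append_assoc, List.append_assoc, List.append_assoc]
        refine (List.Perm.refl rest).append ?_
        show [l3, l4, 4].Perm [4, l3, l4]
        exact (List.perm_append_singleton 4 [l3, l4])
      refine h5.trans ?_
      exact ((hp'.symm.append (List.Perm.refl _)).append (List.Perm.refl _))
    have ha : (l3 :: (rest ++ [l4])).Perm [0, 1, 2, 3] := by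
      refine List.Perm.trans ?_ hall
      exact (List.perm_middle (a := l3) (l₁ := rest) (l₂ := [l4])).symm
    have hb : (l4 :: (rest ++ [l3])).Perm [0, 1, 2, 3] := by
      refine List.Perm.trans ?_ hall
      refine List.Perm.trans (List.perm_append_singleton l4 (rest ++ [l3])).symm ?_
      rw [List.append_assoc]; rfl
    have e2 : ω (rb (o.map fun m => (D m : G)) ⁅(D l3 : G), (D l4 : G)⁆) =
        ω (rb (rest.map fun m => (D m : G)) ⁅(D 4 : G), ⁅(D l3 : G), (D l4 : G)⁆⁆) := by
      have := rb_perm hM (φ := ω) (hp'.map (fun m => (D m : G))) (m := 1) le_rfl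
        (F.com 0 0 _ _ (D l3).2 (D l4).2) (by rw [List.length_map, hlen]; exact hω)
        (map_mem D o)
      rw [this, List.map_append, rb_append]
      rfl
    rw [e2]
    have hs : F.Sym 2 (fun y => ω (rb (rest.map fun m => (D m : G)) y)) := by
      apply sym_last
      · rw [List.length_map, hrl]; exact hω
      · exact map_mem D rest
    have h3c : ∀ a b c : G, a ∈ F.N 0 → b ∈ F.N 0 → c ∈ F.N 0 →
        (fun y => ω (rb (rest.map fun m => (D m : G)) y)) ⁅c, ⁅a, b⁆⁆ =
        (fun y => ω (rb (rest.map fun m => (D m : G)) y)) ⁅b, ⁅a, c⁆⁆ -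
        (fun y => ω (rb (rest.map fun m => (D m : G)) y)) ⁅a, ⁅b, c⁆⁆ := by
      intro a b c ha hb hc
      have j1 := hs.jacobi (i := 0) (j := 0) (l := 0) rfl ha hb hc
      have j2 := hs.antisymm (i := 0) (j := 1) rfl hc (F.com1 ha hb)
      show ω (rb (rest.map fun m => (D m : G)) ⁅c, ⁅a, b⁆⁆) = _
      rw [j2, j1]; abel
    have h6 := h3c (D l3) (D l4) (D 4) (D l3).2 (D l4).2 (D 4).2
    simp only at h6
    rw [h6]
    have f1 : rb (rest.map fun m => (D m : G)) ⁅(D l4 : G), ⁅(D l3 : G), (D 4 : G)⁆⁆ =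
        rb ((rest ++ [l4]).map fun m => (D m : G)) ⁅(D l3 : G), (D 4 : G)⁆ := by
      rw [List.map_append, rb_append]; rfl
    have f2 : rb (rest.map fun m => (D m : G)) ⁅(D l3 : G), ⁅(D l4 : G), (D 4 : G)⁆⁆ =
        rb ((rest ++ [l3]).map fun m => (D m : G)) ⁅(D l4 : G), (D 4 : G)⁆ := by
      rw [List.map_append, rb_append]; rfl
    rw [f1, f2, nf_last hM hω D ha, nf_last hM hω D hb]
    simp only [kap', if_neg c3, if_neg c4]

/-! ### big exponents -/

lemma sym_mid {K : ℕ} {ω : G → A} (hω : F.Sym K ω) (a b : List G) (z : G)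
    (hK : a.length + b.length + 1 = K) (ha : ∀ y ∈ a, y ∈ F.N 0) (hb : ∀ y ∈ b, y ∈ F.N 0)
    (hz : z ∈ F.N 0) : F.Sym 0 (fun y => ω (rb (a ++ y :: b) z)) := by
  have h1 : F.Sym (b.length + 1) (fun y => ω (rb a y)) := by
    apply sym_last
    · have : b.length + 1 + a.length = K := by omega
      rw [this]; exact hω
    · exact ha
  have h2 : rb b z ∈ F.N b.length := by
    have := rb_mem hb hz
    rwa [zero_add] at this
  have h3 := h1.right (i := 0) (j := b.length) (by omega) h2
  have e : (fun y => ω (rb (a ++ y :: b) z)) = fun y => ω (rb a ⁅y, rb b z⁆) := by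
    funext y
    rw [rb_append]; rfl
  rw [e]
  exact h3

lemma dd_big {x : G} (hx : Gen F x) (he : Eng x) {φ : G → A} (hφ : F.Sym 0 φ) (g : G) {e : ℕ}
    (h4 : 4 ≤ e) (y : F.N 0) : φ ((dd F g)^[e] y : F.N 0) = 0 := by
  obtain ⟨m, rfl⟩ := Nat.exists_eq_add_of_le h4
  rw [Function.iterate_add_apply]
  exact d4_zero hx he hφ g ((dd F g)^[m] y).2

lemma vl_big {x : G} (hx : Gen F x) (he : Eng x) {K : ℕ} {ω : G → A} (hω : F.Sym K ω) {g : G}
    {v : ℕ → F.N 0} {w : List (ℕ × ℕ)} {z : ℕ × ℕ} (hw : PW (K + 1) w z)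
    (hb : (w ++ [z]).any (fun p => Nat.ble 4 p.2) = true) : vl ω g v w z = 0 := by
  have hlen : w.length = K := by
    have := hw.length_eq
    simp only [List.length_append, List.length_map, List.length_singleton,
      List.length_range] at this
    omega
  rw [List.any_append, Bool.or_eq_true] at hb
  unfold vl
  rcases hb with hb | hb
  · rw [List.any_eq_true] at hb
    obtain ⟨p, hp, hp4⟩ := hb
    rw [Nat.ble_eq] at hp4
    obtain ⟨a, b, rfl⟩ := List.append_of_mem hp
    have e : dw g v (a ++ p :: b) = dw g v a ++ (((dd F g)^[p.2] (v p.1) : F.N 0) : G) ::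
        dw g v b := by
      unfold dw; rw [List.map_append, List.map_cons]
    rw [e]
    refine dd_big hx he (φ := fun y => ω (rb (dw g v a ++ y :: dw g v b)
      ((dd F g)^[z.2] (v z.1) : F.N 0))) ?_ g hp4 (v p.1)
    apply sym_mid hω
    · unfold dw
      simp only [List.length_map, List.length_append, List.length_cons] at hlen ⊢
      omega
    · exact dw_mem g v a
    · exact dw_mem g v b
    · exact ((dd F g)^[z.2] (v z.1)).2
  · simp only [List.any_cons, List.any_nil, Bool.or_false, Nat.ble_eq] at hb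
    refine dd_big hx he (φ := fun y => ω (rb (dw g v w) y)) ?_ g hb (v z.1)
    apply sym_last
    · unfold dw; rw [List.length_map, hlen, zero_add]; exact hω
    · exact dw_mem g v w

/-! ### coded normal form -/

/-- code of the exponents -/
def ecd (L : List (ℕ × ℕ)) : ℕ := (L.map fun p => p.2 * 4 ^ p.1).sum

/-- key part -/
def kp (l : ℕ) (c : ℤ) (ec : ℕ) : List (ℤ × ℕ) := if l = 4 then [] else [(c, l + 4 * ec)]

/-- normal form -/
def nf5 (w : List (ℕ × ℕ)) (z : ℕ × ℕ) : List (ℤ × ℕ) :=
  if (w ++ [z]).any (fun p => Nat.ble 4 p.2) then [] else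
    kp (w.getD 3 (0, 0)).1 1 (ecd (w ++ [z])) ++ kp z.1 (-1) (ecd (w ++ [z]))

/-- value of a key -/
def B5 (ω : G → A) (g : G) (v : ℕ → F.N 0) (k : ℕ) : A :=
  kap ω (fun m => (dd F g)^[k / 4 / 4 ^ m % 4] (v m)) (k % 4)

lemma kap_congr {ω : G → A} {D D' : ℕ → F.N 0} (h : ∀ m < 5, D m = D' m) {l : ℕ} (hl : l < 4) :
    kap ω D l = kap ω D' l := by
  unfold kap
  rw [h l (by omega), h 4 (by norm_num)]
  have e : (([0, 1, 2, 3] : List ℕ).erase l).map (fun m => (D m : G)) =
      (([0, 1, 2, 3] : List ℕ).erase l).map (fun m => (D' m : G)) := by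
    apply List.map_congr_left
    intro m hm
    have h1 : m ∈ ([0, 1, 2, 3] : List ℕ) := List.mem_of_mem_erase hm
    have h2 : m < 5 := by
      simp only [List.mem_cons, List.not_mem_nil, or_false] at h1
      omega
    rw [h m h2]
  rw [e]

lemma nf5_sound {x : G} (hx : Gen F x) (he : Eng x) (hM : Met F) {ω : G → A} (hω : F.Sym 4 ω)
    {g : G} {v : ℕ → F.N 0} {w : List (ℕ × ℕ)} {z : ℕ × ℕ} (hw : PW 5 w z) :
    ev (B5 ω g v) (nf5 w z) = vl ω g v w z := by
  unfold nf5
  by_cases hb : (w ++ [z]).any (fun p => Nat.ble 4 p.2) = true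
  · rw [if_pos hb, vl_big hx he hω hw hb]; rfl
  rw [if_neg hb]
  have hsm : ∀ p ∈ w ++ [z], p.2 < 4 := by
    intro p hp
    by_contra hc
    apply hb
    rw [List.any_eq_true]
    exact ⟨p, hp, by rw [Nat.ble_eq]; omega⟩
  have hlen : w.length = 4 := by
    have := hw.length_eq
    simp only [List.length_append, List.length_map, List.length_singleton,
      List.length_range] at this
    omega
  obtain ⟨E, hE, hz⟩ := hw.exE
  obtain ⟨p0, p1, p2, p3, rfl⟩ : ∃ p0 p1 p2 p3, w = [p0, p1, p2, p3] := by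
    rcases w with _ | ⟨p0, _ | ⟨p1, _ | ⟨p2, _ | ⟨p3, _ | ⟨p4, w⟩⟩⟩⟩⟩
    · simp at hlen
    · simp at hlen
    · simp at hlen
    · simp at hlen
    · exact ⟨p0, p1, p2, p3, rfl⟩
    · simp at hlen
  simp only [List.map_cons, List.map_nil, List.cons.injEq, and_true] at hE
  obtain ⟨h0, h1, h2, h3⟩ := hE
  have g0 : p0.2 = E p0.1 := congrArg Prod.snd h0
  have g1 : p1.2 = E p1.1 := congrArg Prod.snd h1
  have g2 : p2.2 = E p2.1 := congrArg Prod.snd h2
  have g3 : p3.2 = E p3.1 := congrArg Prod.snd h3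
  have g4 : z.2 = E z.1 := congrArg Prod.snd hz
  have hperm : [p0.1, p1.1, p2.1, p3.1, z.1].Perm (List.range 5) := hw
  have hmem : ∀ l < 5, E l < 4 := by
    intro l hl
    have h5 : l ∈ [p0.1, p1.1, p2.1, p3.1, z.1] := hperm.mem_iff.mpr (List.mem_range.mpr hl)
    simp only [List.mem_cons, List.not_mem_nil, or_false] at h5
    rcases h5 with h5 | h5 | h5 | h5 | h5
    · rw [h5, ← g0]; exact hsm _ (by simp)
    · rw [h5, ← g1]; exact hsm _ (by simp)
    · rw [h5, ← g2]; exact hsm _ (by simp)
    · rw [h5, ← g3]; exact hsm _ (by simp)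
    · rw [h5, ← g4]; exact hsm _ (by simp)
  have hec : ecd ([p0, p1, p2, p3] ++ [z]) =
      E 0 + 4 * E 1 + 16 * E 2 + 64 * E 3 + 256 * E 4 := by
    have h6 := (hperm.map (fun l => E l * 4 ^ l)).sum_eq
    have h7 : ((List.range 5).map (fun l => E l * 4 ^ l)).sum =
        E 0 + 4 * E 1 + 16 * E 2 + 64 * E 3 + 256 * E 4 := by
      rw [show List.range 5 = [0, 1, 2, 3, 4] by decide]
      simp only [List.map_cons, List.map_nil, List.sum_cons, List.sum_nil]
      ring
    rw [h7] at h6
    rw [← h6]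
    simp only [ecd, List.cons_append, List.nil_append, List.map_cons, List.map_nil,
      List.sum_cons, List.sum_nil, g0, g1, g2, g3, g4]
  set ec := ecd ([p0, p1, p2, p3] ++ [z]) with hecdef
  have m0 := hmem 0 (by norm_num)
  have m1 := hmem 1 (by norm_num)
  have m2 := hmem 2 (by norm_num)
  have m3 := hmem 3 (by norm_num)
  have m4 := hmem 4 (by norm_num)
  have hB : ∀ l, l < 4 → B5 ω g v (l + 4 * ec) = kap ω (fun m => (dd F g)^[E m] (v m)) l := by
    intro l hl
    unfold B5
    have e1 : (l + 4 * ec) % 4 = l := by omega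
    have e2 : (l + 4 * ec) / 4 = ec := by omega
    rw [e1, e2]
    apply kap_congr _ hl
    intro m hm
    have : ec / 4 ^ m % 4 = E m := by
      interval_cases m
      · simp only [pow_zero, Nat.div_one]; omega
      · simp only [pow_one]; omega
      · norm_num; omega
      · norm_num; omega
      · norm_num; omega
    rw [this]
  have hkp : ∀ l c, l < 5 → ev (B5 ω g v) (kp l c ec) =
      c • kap' ω (fun m => (dd F g)^[E m] (v m)) l := by
    intro l c hl
    unfold kp kap'
    by_cases h4 : l = 4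
    · rw [if_pos h4, if_pos h4]; simp [ev]
    · rw [if_neg h4, if_neg h4]
      simp only [ev, add_zero]
      rw [hB l (by omega)]
  have l3lt : p3.1 < 5 := by
    have : p3.1 ∈ List.range 5 := hperm.mem_iff.mp (by simp)
    exact List.mem_range.mp this
  have l4lt : z.1 < 5 := by
    have : z.1 ∈ List.range 5 := hperm.mem_iff.mp (by simp)
    exact List.mem_range.mp this
  have hfin := nf_letters hM hω (fun m => (dd F g)^[E m] (v m)) (o := [p0.1, p1.1, p2.1])
    (l3 := p3.1) (l4 := z.1) hperm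
  rw [ev_append, hkp _ _ (by simpa using l3lt), hkp _ _ l4lt]
  simp only [List.getD_cons_succ, List.getD_cons_zero, one_smul, neg_smul]
  rw [← sub_eq_add_neg, ← hfin]
  unfold vl dw
  simp only [List.map_cons, List.map_nil, List.cons_append, List.nil_append, g0, g1, g2, g3, g4]

end

end Run7.h607
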