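import Mathlib
import Pool.Agent.Run7.h607.Meta5

/-! Contexts for the checker, five letters. -/

namespace Run7.h607

universe u v

open scoped commutatorElement

/-- terms of a relation -/
def tm5 (q ty : ℕ) (w : List (ℕ × ℕ)) (z : ℕ × ℕ) : List Wt :=
  if Nat.ble ty 5 then (tbl ty).map (sbT (w.take (4 - rT ty)) (w.drop (4 - rT ty)) z)
  else if Nat.ble ty 8 then
    [(1, w, z), (-1, w.map (fun p => (swL (ty - 6) p.1, p.2)), (swL (ty - 6) z.1, z.2))]
  else if Nat.ble ty 9 then [(1, w, z)]
  else zrow q (ty - 9) w z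

/-- the exponents of the first letters vanish -/
def zq5 (q : ℕ) (w : List (ℕ × ℕ)) (z : ℕ × ℕ) : Bool :=
  (w ++ [z]).all fun p => Nat.ble q p.1 || Nat.beq p.2 0

/-- degree and validity conditions -/
def ok5 (q m ty : ℕ) (w : List (ℕ × ℕ)) (z : ℕ × ℕ) : Bool :=
  (w.map Prod.fst ++ [z.1]).isPerm (List.range 5) &&
  (if Nat.ble ty 5 then Nat.ble 1 ty && Nat.beq (sE w z + dT ty) m
  else if Nat.ble ty 8 then Nat.blt (ty - 6 + 1) q
  else if Nat.ble ty 9 then Nat.ble 1 q && zq5 q w z
  else Nat.ble 1 q && zq5 q w z && Nat.beq (sE w z + (ty - 9)) m)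

/-- decoded word -/
def wd5 (n : ℕ) : List (ℕ × ℕ) :=
  [(n / 16 % 8, n / 524288 / 4 ^ (n / 16 % 8) % 4),
   (n / 128 % 8, n / 524288 / 4 ^ (n / 128 % 8) % 4),
   (n / 1024 % 8, n / 524288 / 4 ^ (n / 1024 % 8) % 4),
   (n / 8192 % 8, n / 524288 / 4 ^ (n / 8192 % 8) % 4)]

/-- decoded last letter -/
def zd5 (n : ℕ) : ℕ × ℕ := (n / 65536 % 8, n / 524288 / 4 ^ (n / 65536 % 8) % 4)

section
variable (nf : List (ℕ × ℕ) → ℕ × ℕ → List (ℤ × ℕ))

/-- normal form of a list of terms -/
def nfL : List Wt → List (ℤ × ℕ)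
  | [] => []
  | t :: L => scl t.1 (nf t.2.1 t.2.2) ++ nfL L

/-- the row -/
def rw5 (q n : ℕ) : List (ℤ × ℕ) := nfL nf (tm5 q (n % 16) (wd5 n) (zd5 n))

/-- validity -/
def okc (q m n : ℕ) : Bool := ok5 q m (n % 16) (wd5 n) (zd5 n)

end

/-- letters of the tables -/
lemma tbl_letters {ty : ℕ} (h : 1 ≤ ty ∧ ty ≤ 5) :
    ∀ t ∈ tbl ty, (t.2.1.map Prod.fst).Perm (List.range (rT ty)) := by
  have key : ∀ L : List (ℤ × List (ℕ × ℕ) × ℕ), ∀ r,
      (L.all fun t => (t.2.1.map Prod.fst).isPerm (List.range r)) = true →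
      ∀ t ∈ L, (t.2.1.map Prod.fst).Perm (List.range r) := by
    intro L r h t ht
    have := List.all_eq_true.mp h t ht
    exact List.isPerm_iff.mp this
  obtain ⟨h1, h5⟩ := h
  interval_cases ty
  · exact key tb1 1 (by decide +kernel)
  · exact key tb2 2 (by decide +kernel)
  · exact key tb3 3 (by decide +kernel)
  · exact key tb4 4 (by decide +kernel)
  · exact key tb5 4 (by decide +kernel)

lemma xq_fst (i : ℕ) (w : List (ℕ × ℕ)) : ∀ T, ∀ t ∈ xq T i w,
    t.2.1.map Prod.fst = w.map Prod.fst := by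
  induction w with
  | nil =>
    intro T t ht
    simp only [xq, List.mem_flatMap, List.mem_range] at ht
    obtain ⟨e, _, he⟩ := ht
    split_ifs at he
    · simp at he
    · simp only [List.mem_singleton] at he
      rw [he]
  | cons p w ih =>
    intro T t ht
    simp only [xq, List.mem_flatMap, List.mem_range, List.mem_map] at ht
    obtain ⟨e, _, t', ht', rfl⟩ := ht
    simp only [List.map_cons]
    rw [ih _ t' ht']

lemma swL_swL (i l : ℕ) : swL i (swL i l) = l := by
  unfold swL
  split_ifs <;> omega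

lemma perm_sw {i : ℕ} (hi : i < 4) : ((List.range 5).map (swL i)).Perm (List.range 5) := by
  interval_cases i <;> decide

lemma PW_sw {i : ℕ} (hi : i < 4) {w : List (ℕ × ℕ)} {z : ℕ × ℕ} (h : PW 5 w z) :
    PW 5 (w.map fun p => (swL i p.1, p.2)) (swL i z.1, z.2) := by
  unfold PW at *
  have h1 := h.map (swL i)
  rw [List.map_append, List.map_map] at h1
  rw [List.map_map]
  exact h1.trans (perm_sw hi)

section
variable {G : Type u} [Group G] {F : Filt G} {A : Type v} [AddCommGroup A]

lemma vl_sw {ω : G → A} {g : G} {v : ℕ → F.N 0} {i : ℕ} (hv : ∀ l, v (swL i l) = v l)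
    (w : List (ℕ × ℕ)) (z : ℕ × ℕ) :
    vl ω g v (w.map fun p => (swL i p.1, p.2)) (swL i z.1, z.2) = vl ω g v w z := by
  unfold vl dw
  rw [List.map_map, hv]
  congr 2
  apply List.map_congr_left
  intro p _
  simp only [Function.comp, hv]

lemma nfL_sound {nf : List (ℕ × ℕ) → ℕ × ℕ → List (ℤ × ℕ)} {B : ℕ → A} {ω : G → A} {g : G}
    {v : ℕ → F.N 0} (hnf : ∀ w z, PW 5 w z → ev B (nf w z) = vl ω g v w z) (L : List Wt)
    (hL : ∀ t ∈ L, PW 5 t.2.1 t.2.2) : ev B (nfL nf L) = evW ω g v L := by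
  induction L with
  | nil => rfl
  | cons t L ih =>
    rw [nfL, ev_append, ev_scl, hnf _ _ (hL t List.mem_cons_self),
      ih (fun t' ht' => hL t' (List.mem_cons_of_mem _ ht'))]
    simp [evW]

/-- Soundness of the rows. -/
theorem row5_sound {nf : List (ℕ × ℕ) → ℕ × ℕ → List (ℤ × ℕ)} {B : ℕ → A} {ω : G → A} {g : G}
    {v : ℕ → F.N 0} (hnf : ∀ w z, PW 5 w z → ev B (nf w z) = vl ω g v w z)
    {x : G} (hx : Gen F x) (he : Eng x) (hω : F.Sym 4 ω) {q : ℕ} (hq : q ≤ 4)
    (hZ : 1 ≤ q → ZK F A x 4 q) (hvx : ∀ l < q, (v l : G) = x) {m : ℕ}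
    (hV : VanK ω g v 5 (m + 1)) (n : ℕ) (h : okc q m n = true) : ev B (rw5 nf q n) = 0 := by
  unfold okc ok5 at h
  unfold rw5
  generalize n % 16 = ty at h ⊢
  generalize wd5 n = w at h ⊢
  generalize zd5 n = z at h ⊢
  rw [Bool.and_eq_true] at h
  obtain ⟨hp, h⟩ := h
  have hw : PW 5 w z := List.isPerm_iff.mp hp
  have hwlen : w.length = 4 := by
    have := hw.length_eq
    simp only [List.length_append, List.length_map, List.length_singleton,
      List.length_range] at this
    omega
  by_cases c5 : Nat.ble ty 5 = true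
  · rw [if_pos c5, Bool.and_eq_true, Nat.ble_eq, Nat.beq_eq] at h
    have hty : 1 ≤ ty ∧ ty ≤ 5 := ⟨h.1, by rw [Nat.ble_eq] at c5; exact c5⟩
    have hr : rT ty ≤ 4 := by
      obtain ⟨h1, h5⟩ := hty
      interval_cases ty <;> simp [rT]
    have hnlen : (w.drop (4 - rT ty)).length = rT ty := by
      rw [List.length_drop, hwlen]; omega
    have hw' : PW 5 (w.take (4 - rT ty) ++ w.drop (4 - rT ty)) z := by
      rw [List.take_append_drop]; exact hw
    unfold tm5
    rw [if_pos c5, nfL_sound hnf]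
    · refine rel_sound hx he hω hw' hty hnlen hV ?_
      rw [List.take_append_drop]; omega
    · intro t ht
      simp only [List.mem_map] at ht
      obtain ⟨t', ht', rfl⟩ := ht
      refine PW_sb hw' ?_ _
      rw [hnlen]
      exact tbl_letters hty t' ht'
  rw [if_neg c5] at h
  by_cases c8 : Nat.ble ty 8 = true
  · rw [if_pos c8, Nat.blt_eq] at h
    unfold tm5
    rw [if_neg c5, if_pos c8, nfL_sound hnf]
    · have hv : ∀ l, v (swL (ty - 6) l) = v l := by
        intro l
        apply Subtype.ext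
        unfold swL
        split_ifs with h1 h2
        · rw [h1, hvx _ (by omega), hvx _ (by omega)]
        · rw [h2, hvx _ (by omega), hvx _ (by omega)]
        · rfl
      simp only [evW, List.map_cons, List.map_nil, List.sum_cons, List.sum_nil, vl_sw hv]
      module
    · intro t ht
      simp only [List.mem_cons, List.not_mem_nil, or_false] at ht
      rcases ht with rfl | rfl
      · exact hw
      · exact PW_sw (by omega) hw
  rw [if_neg c8] at h
  have hzq : ∀ {q' : ℕ}, zq5 q' w z = true → (∀ p ∈ w, p.1 < q' → p.2 = 0) ∧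
      (z.1 < q' → z.2 = 0) := by
    intro q' hz
    have h1 : ∀ p ∈ w ++ [z], p.1 < q' → p.2 = 0 := by
      intro p hp' hlt
      have := List.all_eq_true.mp hz p hp'
      simp only [Bool.or_eq_true, Nat.ble_eq, Nat.beq_eq] at this
      omega
    exact ⟨fun p hp' => h1 p (List.mem_append_left _ hp'), h1 z (by simp)⟩
  by_cases c9 : Nat.ble ty 9 = true
  · rw [if_pos c9, Bool.and_eq_true, Nat.ble_eq] at h
    unfold tm5
    rw [if_neg c5, if_neg c8, if_pos c9, nfL_sound hnf]
    · obtain ⟨h1, h2⟩ := hzq h.2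
      obtain ⟨E, hE, hz⟩ := hw.exE
      have key := hZ h.1 ω hω (fun l => if l < q then v l else (dd F g)^[E l] (v l)) (by
        intro l hl; simp only [if_pos hl]; exact hvx l hl) (w.map Prod.fst) z.1 hw
      simp only [evW, List.map_cons, List.map_nil, List.sum_cons, List.sum_nil, one_smul,
        add_zero]
      rw [← key]
      unfold vl dw
      have hEw : ∀ p ∈ w, p.2 = E p.1 := by
        intro p hp'
        rw [hE] at hp'
        simp only [List.mem_map] at hp'
        obtain ⟨l, _, rfl⟩ := hp'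
        rfl
      rw [List.map_map]
      congr 2
      · apply List.map_congr_left
        intro p hp'
        simp only [Function.comp]
        by_cases hl : p.1 < q
        · rw [if_pos hl, h1 p hp' hl]; rfl
        · rw [if_neg hl, hEw p hp']
      · by_cases hl : z.1 < q
        · rw [if_pos hl, h2 hl]; rfl
        · rw [if_neg hl, congrArg Prod.snd hz]
    · intro t ht
      simp only [List.mem_cons, List.not_mem_nil, or_false] at ht
      rw [ht]; exact hw
  rw [if_neg c9, Bool.and_eq_true, Bool.and_eq_true, Nat.beq_eq, Nat.ble_eq] at h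
  unfold tm5
  rw [if_neg c5, if_neg c8, if_neg c9, nfL_sound hnf]
  · obtain ⟨h1, h2⟩ := hzq h.1.2
    exact zrow_sound hx.1 hω (hZ h.1.1) hvx hw h1 h2 (ty - 9) hV (by omega)
  · intro t ht
    simp only [zrow, zr, List.mem_flatMap, List.mem_map, List.map_map] at ht
    obtain ⟨k, _, t', ht', rfl⟩ := ht
    have h3 := xq_fst _ _ _ t' ht'
    refine PW_sb (o := []) (n := w) hw ?_ _
    rw [h3]
    unfold ps
    rw [List.map_map]
    have : (List.range w.length).map (Prod.fst ∘ fun i => (i, iq q k (w.getD i (0, 0)).1)) =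
        List.range w.length := by
      conv_rhs => rw [← List.map_id (List.range w.length)]
      rfl
    rw [this]

end

end Run7.h607
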