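import Mathlib
import Pool.Agent.Run7.h607.Refl2

/-! A verified checker modulo a prime, with rows accumulated in one natural number. -/

namespace Run7.h607

universe u v w

open Finset

/-- digit in base `2^s` -/
def dg (s N k : ℕ) : ℕ := N / 2 ^ (s * k) % 2 ^ s

lemma dg_sum (s n : ℕ) : ∀ (f : ℕ → ℕ), (∀ k < n, f k < 2 ^ s) → ∀ k < n,
    dg s (∑ j ∈ range n, f j * 2 ^ (s * j)) k = f k := by
  induction n with
  | zero => intro f _ k hk; omega
  | succ n ih =>
    intro f hf k hk
    have e : ∑ j ∈ range (n + 1), f j * 2 ^ (s * j) =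
        f 0 + 2 ^ s * ∑ j ∈ range n, f (j + 1) * 2 ^ (s * j) := by
      rw [Finset.sum_range_succ', Finset.mul_sum, add_comm]
      simp only [mul_zero, pow_zero, mul_one]
      congr 1
      apply Finset.sum_congr rfl
      intro j _
      rw [mul_add, mul_one, pow_add]; ring
    have hp : 0 < 2 ^ s := by positivity
    rcases k with _ | k
    · rw [e]
      unfold dg
      rw [mul_zero, pow_zero, Nat.div_one, Nat.add_mul_mod_self_left]
      exact Nat.mod_eq_of_lt (hf 0 (by omega))
    · have h1 := ih (fun j => f (j + 1)) (fun j hj => hf (j + 1) (by omega)) k (by omega)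
      unfold dg at h1 ⊢
      rw [e, mul_add, mul_one, add_comm (s * k) s, pow_add, ← Nat.div_div_eq_div_mul,
        Nat.add_mul_div_left _ _ hp, Nat.div_eq_of_lt (hf 0 (by omega)), zero_add]
      exact h1

lemma sum_dg (s n : ℕ) : ∀ N, N < 2 ^ (s * n) → N = ∑ j ∈ range n, dg s N j * 2 ^ (s * j) := by
  induction n with
  | zero => intro N hN; simp at hN; simp [hN]
  | succ n ih =>
    intro N hN
    have h1 : N / 2 ^ s < 2 ^ (s * n) := by
      apply Nat.div_lt_of_lt_mul
      rw [← pow_add]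
      have : s + s * n = s * (n + 1) := by ring
      rwa [this]
    have h2 := ih _ h1
    have e : ∀ j, dg s (N / 2 ^ s) j = dg s N (j + 1) := by
      intro j
      unfold dg
      rw [Nat.div_div_eq_div_mul, ← pow_add]
      congr 3
      ring
    rw [Finset.sum_range_succ']
    have h3 : ∑ j ∈ range n, dg s N (j + 1) * 2 ^ (s * (j + 1)) = 2 ^ s * (N / 2 ^ s) := by
      conv_rhs => rw [h2, Finset.mul_sum]
      apply Finset.sum_congr rfl
      intro j _
      rw [e, mul_add, mul_one, pow_add]; ring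
    rw [h3]
    have h4 : dg s N 0 * 2 ^ (s * 0) = N % 2 ^ s := by
      unfold dg; rw [mul_zero, pow_zero, Nat.div_one, mul_one]
    rw [h4]
    exact (Nat.div_add_mod N (2 ^ s)).symm

lemma dg_and (s a b k : ℕ) : dg s (a &&& b) k = dg s a k &&& dg s b k := by
  unfold dg
  rw [Nat.and_div_two_pow, Nat.and_mod_two_pow]

lemma dg_lt (s N k : ℕ) : dg s N k < 2 ^ s := Nat.mod_lt _ (by positivity)

lemma sum_lt (s n : ℕ) (f : ℕ → ℕ) (hf : ∀ k < n, f k < 2 ^ s) :
    ∑ j ∈ range n, f j * 2 ^ (s * j) < 2 ^ (s * n) := by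
  induction n with
  | zero => simp
  | succ n ih =>
    have h1 := ih (fun k hk => hf k (by omega))
    have h2 := hf n (by omega)
    rw [Finset.sum_range_succ, mul_add, mul_one, pow_add]
    calc _ < 2 ^ (s * n) + f n * 2 ^ (s * n) := by omega
      _ = (f n + 1) * 2 ^ (s * n) := by ring
      _ ≤ 2 ^ s * 2 ^ (s * n) := Nat.mul_le_mul_right _ h2
      _ = _ := by ring

/-- all digits equal to `c` -/
def rep (s n c : ℕ) : ℕ := c * ((2 ^ (s * n) - 1) / (2 ^ s - 1))

lemma rep_eq {s n : ℕ} (hs : 1 ≤ s) (c : ℕ) : rep s n c = ∑ j ∈ range n, c * 2 ^ (s * j) := by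
  unfold rep
  rw [← Finset.mul_sum]
  congr 1
  have h2 : 2 ≤ 2 ^ s := by
    calc 2 = 2 ^ 1 := rfl
      _ ≤ 2 ^ s := Nat.pow_le_pow_right (by norm_num) hs
  rw [pow_mul, ← Nat.geomSum_eq h2]
  apply Finset.sum_congr rfl
  intro j _
  rw [pow_mul]

lemma dg_rep {s n c : ℕ} (hs : 1 ≤ s) (hc : c < 2 ^ s) {k : ℕ} (hk : k < n) :
    dg s (rep s n c) k = c := by
  rw [rep_eq hs]
  exact dg_sum s n (fun _ => c) (fun _ _ => hc) k hk

lemma rep_lt {s n c : ℕ} (hs : 1 ≤ s) (hc : c < 2 ^ s) : rep s n c < 2 ^ (s * n) := by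
  rw [rep_eq hs]
  exact sum_lt s n (fun _ => c) (fun _ _ => hc)

/-- accumulate a scaled row -/
def nmL (p : ℤ) (s n : ℕ) (c : ℤ) : List (ℤ × ℕ) → ℕ → ℕ
  | [], N => N
  | q :: L, N => nmL p s n c L (N + ((c * q.1) % p).toNat * (2 ^ (s * q.2) + 2 ^ (s * n)))

/-- keys are small -/
def smB (n : ℕ) : List (ℤ × ℕ) → Bool
  | [] => true
  | q :: L => Nat.blt q.2 n && smB n L

section
variable {Q : Type v} [AddCommGroup Q] (B : ℕ → Q)

/-- `N` represents the value `q` -/
def Rp (s n N : ℕ) (q : Q) : Prop :=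
  ∃ f : ℕ → ℕ, N = (∑ k ∈ range n, f k * 2 ^ (s * k)) + f n * 2 ^ (s * n) ∧
    (∀ k < n, f k ≤ f n) ∧ ∑ k ∈ range n, (f k : ℤ) • B k = q

lemma Rp_zero (s n : ℕ) : Rp B s n 0 0 := ⟨fun _ => 0, by simp, by simp, by simp⟩

lemma Rp_nmL {p : ℤ} (hp0 : 0 < p) (hp : ∀ k, p • B k = 0) (s n : ℕ) (c : ℤ)
    (L : List (ℤ × ℕ)) : ∀ (N : ℕ) (q : Q), smB n L = true → Rp B s n N q →
    Rp B s n (nmL p s n c L N) (c • ev B L + q) := by
  induction L with
  | nil => intro N q _ h; simpa [nmL, ev] using h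
  | cons r L ih =>
    intro N q hs h
    simp only [smB, Bool.and_eq_true, Nat.blt_eq] at hs
    obtain ⟨f, h1, h2, h3⟩ := h
    set a := ((c * r.1) % p).toNat with ha
    have hsmul : (a : ℤ) • B r.2 = (c * r.1) • B r.2 := by
      have h4 : (a : ℤ) = (c * r.1) % p := Int.toNat_of_nonneg (Int.emod_nonneg _ (by omega))
      rw [h4]
      conv_rhs => rw [← Int.emod_add_mul_ediv (c * r.1) p]
      rw [add_smul, mul_comm p, mul_smul, hp, smul_zero, add_zero]
    have key : Rp B s n (N + a * (2 ^ (s * r.2) + 2 ^ (s * n))) ((c * r.1) • B r.2 + q) := by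
      refine ⟨fun k => f k + (if k = r.2 then a else 0) + (if k = n then a else 0), ?_, ?_, ?_⟩
      · have e1 : ∀ k ∈ range n, (f k + (if k = r.2 then a else 0) + (if k = n then a else 0)) *
            2 ^ (s * k) = f k * 2 ^ (s * k) + (if k = r.2 then a * 2 ^ (s * r.2) else 0) := by
          intro k hk
          have hkn : k ≠ n := by rw [Finset.mem_range] at hk; omega
          rw [if_neg hkn]
          split_ifs with h5
          · subst h5; ring
          · ring
        have hne : ¬ (n = r.2) := by omega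
        rw [Finset.sum_congr rfl e1, Finset.sum_add_distrib, Finset.sum_ite_eq',
          if_pos (Finset.mem_range.mpr hs.1), h1]
        simp only [if_neg hne, if_true]
        ring
      · intro k hk
        have hkn : ¬ (k = n) := by omega
        have hne : ¬ (n = r.2) := by omega
        have := h2 k hk
        simp only [if_neg hkn, if_neg hne, if_true]
        split_ifs <;> omega
      · have e1 : ∀ k ∈ range n, ((f k + (if k = r.2 then a else 0) +
            (if k = n then a else 0) : ℕ) : ℤ) • B k =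
            (f k : ℤ) • B k + (if k = r.2 then (a:ℤ) • B r.2 else 0) := by
          intro k hk
          have hkn : k ≠ n := by rw [Finset.mem_range] at hk; omega
          rw [if_neg hkn]
          split_ifs with h5
          · subst h5; push_cast; rw [add_zero, add_smul]
          · push_cast; rw [add_zero, add_zero, add_zero]
        rw [Finset.sum_congr rfl e1, Finset.sum_add_distrib, Finset.sum_ite_eq',
          if_pos (Finset.mem_range.mpr hs.1), h3, hsmul]
        abel
    have := ih _ _ hs.2 key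
    simp only [nmL, ev]
    rw [smul_add, smul_smul]
    have e2 : (c * r.1) • B r.2 + c • ev B L + q = c • ev B L + ((c * r.1) • B r.2 + q) := by abel
    rw [e2]
    exact this

/-- the unflagged mask is correct -/
def UM (s n NM : ℕ) : Prop := ∀ k < n, dg s NM k = 2 ^ s - 1 ∨ B k = 0

/-- remove a key from the mask -/
def unm (s n key NM : ℕ) : ℕ := NM &&& (rep s n (2 ^ s - 1) - (2 ^ s - 1) * 2 ^ (s * key))

lemma UM_unm {s n key NM : ℕ} (hs : 1 ≤ s) (hk : key < n) (h : UM B s n NM)
    (hB : B key = 0) : UM B s n (unm s n key NM) := by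
  intro k hkn
  by_cases hkk : k = key
  · right; rw [hkk]; exact hB
  rcases h k hkn with h1 | h1
  · left
    have hp : 1 ≤ 2 ^ s := Nat.one_le_two_pow
    have e : rep s n (2 ^ s - 1) - (2 ^ s - 1) * 2 ^ (s * key) =
        ∑ j ∈ range n, (if j = key then 0 else 2 ^ s - 1) * 2 ^ (s * j) := by
      rw [rep_eq hs]
      have e1 : ∀ j ∈ range n, (2 ^ s - 1) * 2 ^ (s * j) =
          (if j = key then 0 else 2 ^ s - 1) * 2 ^ (s * j) +
          (if j = key then (2 ^ s - 1) * 2 ^ (s * key) else 0) := by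
        intro j _
        split_ifs with h5
        · subst h5; ring
        · ring
      rw [Finset.sum_congr rfl e1, Finset.sum_add_distrib, Finset.sum_ite_eq',
        if_pos (Finset.mem_range.mpr hk), Nat.add_sub_cancel]
    have h2 := dg_sum s n (fun j => if j = key then 0 else 2 ^ s - 1) (by
      intro j _; split_ifs <;> omega) k hkn
    simp only [if_neg hkk] at h2
    unfold unm
    rw [dg_and, e, h2, h1, Nat.and_self]
  · right; exact h1

/-- final test of a step -/
def tst (p s n mu t b NM N' : ℕ) : Bool :=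
  let N := N' % 2 ^ (s * n)
  let Qt := ((N * mu) >>> t) &&& rep s n (2 ^ b - 1)
  let R := N - p * Qt
  Nat.blt (N' / 2 ^ (s * n)) (2 ^ s) && Nat.beq N (R + p * Qt) &&
  Nat.beq (R &&& rep s n 7) R && Nat.beq (R &&& NM) 0

theorem tst_sound {p s n mu t b NM N' : ℕ} (hs : 3 ≤ s) (hb : p * (2 ^ b - 1) + 7 < 2 ^ s)
    (hb2 : 2 ^ b ≤ 2 ^ s)
    (hp : ∀ k, (p : ℤ) • B k = 0) {q : Q} (h : Rp B s n N' q) (hU : UM B s n NM)
    (ht : tst p s n mu t b NM N' = true) : q = 0 := by
  obtain ⟨f, h1, h2, h3⟩ := h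
  simp only [tst, Bool.and_eq_true, Nat.blt_eq, Nat.beq_eq] at ht
  obtain ⟨⟨⟨t1, t2⟩, t3⟩, t4⟩ := ht
  have hs1 : 1 ≤ s := by omega
  have hfn : f n < 2 ^ s := by
    have h5 : f n ≤ N' / 2 ^ (s * n) := by
      rw [Nat.le_div_iff_mul_le (by positivity), h1]
      exact Nat.le_add_left _ _
    omega
  have hf : ∀ k < n, f k < 2 ^ s := fun k hk => lt_of_le_of_lt (h2 k hk) hfn
  have hlt := sum_lt s n f hf
  have hN : N' % 2 ^ (s * n) = ∑ k ∈ range n, f k * 2 ^ (s * k) := by
    rw [h1, Nat.add_mul_mod_self_right]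
    exact Nat.mod_eq_of_lt hlt
  rw [hN] at t2 t3 t4
  set N := ∑ k ∈ range n, f k * 2 ^ (s * k) with hNdef
  set Qt := ((N * mu) >>> t) &&& rep s n (2 ^ b - 1) with hQt
  set R := N - p * Qt with hR
  have hb1 : 1 ≤ 2 ^ b := Nat.one_le_two_pow
  have hbs : 2 ^ b - 1 < 2 ^ s := by omega
  have h7 : 7 < 2 ^ s := by
    calc 7 < 2 ^ 3 := by norm_num
      _ ≤ 2 ^ s := Nat.pow_le_pow_right (by norm_num) hs
  have hQlt : Qt < 2 ^ (s * n) := lt_of_le_of_lt Nat.and_le_right (rep_lt hs1 hbs)
  have hRlt : R < 2 ^ (s * n) := by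
    rw [← t3]; exact lt_of_le_of_lt Nat.and_le_right (rep_lt hs1 h7)
  have hQd : ∀ k < n, dg s Qt k ≤ 2 ^ b - 1 := by
    intro k hk
    rw [hQt, dg_and, dg_rep hs1 hbs hk]
    exact Nat.and_le_right
  have hRd : ∀ k < n, dg s R k ≤ 7 := by
    intro k hk
    rw [← t3, dg_and, dg_rep hs1 h7 hk]
    exact Nat.and_le_right
  have hsum : N = ∑ k ∈ range n, (dg s R k + p * dg s Qt k) * 2 ^ (s * k) := by
    rw [t2]
    conv_lhs => rw [sum_dg s n R hRlt, sum_dg s n Qt hQlt]
    rw [Finset.mul_sum, ← Finset.sum_add_distrib]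
    apply Finset.sum_congr rfl
    intro k _
    ring
  have hdd : ∀ k < n, f k = dg s R k + p * dg s Qt k := by
    intro k hk
    have a1 := dg_sum s n f hf k hk
    have a2 := dg_sum s n (fun k => dg s R k + p * dg s Qt k) (by
      intro j hj
      have b1 := hQd j hj
      have b2 := hRd j hj
      have b3 : p * dg s Qt j ≤ p * (2 ^ b - 1) := Nat.mul_le_mul_left _ b1
      omega) k hk
    rw [← a1, ← a2]
    show dg s N k = _
    conv_lhs => rw [hsum]
  rw [← h3]
  apply Finset.sum_eq_zero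
  intro k hk
  have hkn := Finset.mem_range.mp hk
  rw [hdd k hkn]
  push_cast
  rw [add_smul, mul_comm (p:ℤ), mul_smul, hp, smul_zero, add_zero]
  rcases hU k hkn with h5 | h5
  · have h6 : dg s (R &&& NM) k = 0 := by rw [t4]; simp [dg]
    rw [dg_and, h5, Nat.and_two_pow_sub_one_of_lt_two_pow (dg_lt s R k)] at h6
    rw [h6]; simp
  · rw [h5, smul_zero]

end

section check
variable (p s n mu t b : ℕ) (row : ℕ → List (ℤ × ℕ)) (ok : ℕ → Bool)

/-- accumulate relations -/
def bcR : List (ℤ × ℕ) → ℕ → ℕ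
  | [], N => N
  | q :: L, N => bcR L (nmL p s n q.1 (row q.2) N)

/-- validity of the relations -/
def bkA : List (ℤ × ℕ) → Bool
  | [] => true
  | q :: L => ok q.2 && smB n (row q.2) && bkA L

/-- accumulate facts -/
def bcF (facts : List (List (ℤ × ℕ))) : List (ℤ × ℕ) → ℕ → ℕ
  | [], N => N
  | q :: L, N => bcF facts L (nmL p s n q.1 (facts.getD q.2 []) N)

/-- validity of a step -/
def btOk (facts : List (List (ℤ × ℕ))) (NM : ℕ) (st : Step2) : Bool :=
  bkA n row ok st.rels && smB n st.F &&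
  tst p s n mu t b NM (bcR p s n row st.rels (bcF p s n facts st.fs (nmL p s n (-1) st.F 0)))

/-- flag a unit fact -/
def blg (F : List (ℤ × ℕ)) (NM : ℕ) : ℕ :=
  match F with
  | [q] => if q.1 = 1 then unm s n q.2 NM else NM
  | _ => NM

/-- run the steps -/
def run3 : List Step2 → List (List (ℤ × ℕ)) → ℕ → Option ℕ
  | [], _, NM => some NM
  | st :: L, facts, NM =>
    if btOk p s n mu t b row ok facts NM st then run3 L (st.F :: facts) (blg s n st.F NM)
    else none

end check

section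
variable {Q : Type v} [AddCommGroup Q] {row : ℕ → List (ℤ × ℕ)} {ok : ℕ → Bool}

lemma Rp_bcR (B : ℕ → Q) {p s n : ℕ} (hp0 : 0 < p) (hp : ∀ k, (p:ℤ) • B k = 0)
    (hrow : ∀ i, ok i = true → ev B (row i) = 0) (L : List (ℤ × ℕ)) :
    ∀ (N : ℕ) (q : Q), bkA n row ok L = true → Rp B s n N q → Rp B s n (bcR p s n row L N) q := by
  induction L with
  | nil => intro N q _ h; exact h
  | cons r L ih =>
    intro N q h hR
    simp only [bkA, Bool.and_eq_true] at h
    simp only [bcR]
    apply ih _ _ h.2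
    have := Rp_nmL B (p := p) (by omega) hp s n r.1 (row r.2) N q h.1.2 hR
    rw [hrow _ h.1.1, smul_zero, zero_add] at this
    exact this

lemma getD_fact3 (B : ℕ → Q) {n : ℕ} (facts : List (List (ℤ × ℕ)))
    (hf : ∀ F ∈ facts, ev B F = 0 ∧ smB n F = true) (i : ℕ) :
    ev B (facts.getD i []) = 0 ∧ smB n (facts.getD i []) = true := by
  by_cases h : i < facts.length
  · rw [List.getD_eq_getElem _ _ h]
    exact hf _ (List.getElem_mem h)
  · rw [List.getD_eq_default _ _ (not_lt.mp h)]
    exact ⟨rfl, rfl⟩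

lemma Rp_bcF (B : ℕ → Q) {p s n : ℕ} (hp0 : 0 < p) (hp : ∀ k, (p:ℤ) • B k = 0)
    (facts : List (List (ℤ × ℕ))) (hf : ∀ F ∈ facts, ev B F = 0 ∧ smB n F = true)
    (L : List (ℤ × ℕ)) : ∀ (N : ℕ) (q : Q), Rp B s n N q → Rp B s n (bcF p s n facts L N) q := by
  induction L with
  | nil => intro N q h; exact h
  | cons r L ih =>
    intro N q hR
    simp only [bcF]
    apply ih
    have h1 := getD_fact3 B facts hf r.2
    have := Rp_nmL B (p := p) (by omega) hp s n r.1 _ N q h1.2 hR
    rw [h1.1, smul_zero, zero_add] at this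
    exact this

theorem run3_sound (B : ℕ → Q) {p s n mu t b : ℕ} (hp0 : 0 < p) (hs : 3 ≤ s)
    (hb : p * (2 ^ b - 1) + 7 < 2 ^ s) (hb2 : 2 ^ b ≤ 2 ^ s) (hp : ∀ k, (p:ℤ) • B k = 0)
    (hrow : ∀ i, ok i = true → ev B (row i) = 0) (L : List Step2) :
    ∀ (facts : List (List (ℤ × ℕ))) (NM NM' : ℕ),
    (∀ F ∈ facts, ev B F = 0 ∧ smB n F = true) → UM B s n NM →
    run3 p s n mu t b row ok L facts NM = some NM' → UM B s n NM' := by
  induction L with
  | nil =>
    intro facts NM NM' _ hZ h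
    simp only [run3, Option.some.injEq] at h
    rw [← h]; exact hZ
  | cons st L ih =>
    intro facts NM NM' hf hZ h
    simp only [run3] at h
    by_cases hst : btOk p s n mu t b row ok facts NM st = true
    · rw [if_pos hst] at h
      simp only [btOk, Bool.and_eq_true] at hst
      obtain ⟨⟨h1, h2⟩, h4⟩ := hst
      have r0 := Rp_nmL B (p := p) (by omega) hp s n (-1) st.F 0 0 h2 (Rp_zero B s n)
      have r1 := Rp_bcF B hp0 hp facts hf st.fs _ _ r0
      have r2 := Rp_bcR B hp0 hp hrow st.rels _ _ h1 r1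
      have e := tst_sound B hs hb hb2 hp r2 hZ h4
      rw [add_zero, neg_one_smul, neg_eq_zero] at e
      refine ih _ _ _ ?_ ?_ h
      · intro F hF'
        rcases List.mem_cons.mp hF' with rfl | hF'
        · exact ⟨e, h2⟩
        · exact hf F hF'
      · unfold blg
        split
        · rename_i q hq
          by_cases hc : q.1 = 1
          · rw [if_pos hc]
            rw [hq] at e h2
            simp only [smB, Bool.and_true, Nat.blt_eq] at h2
            apply UM_unm B (by omega) h2 hZ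
            simp only [ev, add_zero, hc, one_smul] at e
            exact e
          · rw [if_neg hc]; exact hZ
        · exact hZ
    · rw [if_neg hst] at h
      exact absurd h (by simp)

end

/-- the whole check: all the target keys get flagged -/
def checkP (p s n mu t b : ℕ) (row : ℕ → List (ℤ × ℕ)) (ok : ℕ → Bool) (ntok nsteps data : ℕ)
    (targets : List ℕ) : Bool :=
  Nat.blt 0 p && Nat.ble 3 s && Nat.blt (p * (2 ^ b - 1) + 7) (2 ^ s) && Nat.ble (2 ^ b) (2 ^ s) &&
  match run3 p s n mu t b row ok (parseSteps2 nsteps (tokens ntok data)) []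
    (2 ^ (s * n) - 1) with
  | none => false
  | some NM => targets.all (fun k => Nat.blt k n && Nat.beq (dg s NM k) 0)

theorem checkP_sound {Q : Type v} [AddCommGroup Q] {p s n mu t b : ℕ} (B : ℕ → Q)
    (hp : ∀ k, (p:ℤ) • B k = 0)
    {row : ℕ → List (ℤ × ℕ)} {ok : ℕ → Bool} (hrow : ∀ i, ok i = true → ev B (row i) = 0)
    {ntok nsteps data : ℕ} {targets : List ℕ}
    (h : checkP p s n mu t b row ok ntok nsteps data targets = true) :
    ∀ k ∈ targets, B k = 0 := by
  simp only [checkP, Bool.and_eq_true, Nat.blt_eq, Nat.ble_eq] at h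
  obtain ⟨⟨⟨⟨h0, h1⟩, h2⟩, h3⟩, h⟩ := h
  split at h
  · exact absurd h (by simp)
  · rename_i NM hNM
    intro k hk
    have h5 := List.all_eq_true.mp h k hk
    simp only [Bool.and_eq_true, Nat.blt_eq, Nat.beq_eq] at h5
    have hU0 : UM B s n (2 ^ (s * n) - 1) := by
      intro k hk
      left
      have e : 2 ^ (s * n) - 1 = rep s n (2 ^ s - 1) := by
        rw [rep_eq (by omega)]
        have hlt : ∀ m, ∑ j ∈ range m, (2 ^ s - 1) * 2 ^ (s * j) = 2 ^ (s * m) - 1 := by
          intro m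
          induction m with
          | zero => simp
          | succ m ih =>
            rw [Finset.sum_range_succ, ih, mul_add, mul_one, pow_add]
            have a1 : 1 ≤ 2 ^ (s * m) := Nat.one_le_two_pow
            have a2 : 1 ≤ 2 ^ s := Nat.one_le_two_pow
            have a3 : 2 ^ (s * m) ≤ 2 ^ (s * m) * 2 ^ s := Nat.le_mul_of_pos_right _ (by omega)
            have a4 : (2 ^ s - 1) * 2 ^ (s * m) = 2 ^ (s * m) * 2 ^ s - 2 ^ (s * m) := by
              rw [Nat.sub_mul, one_mul, mul_comm]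
            omega
        rw [hlt]
      have a2 : 1 ≤ 2 ^ s := Nat.one_le_two_pow
      rw [e, dg_rep (by omega) (by omega) hk]
    have hU := run3_sound B h0 h1 h2 h3 hp hrow _ _ _ _ (by simp) hU0 hNM
    rcases hU k h5.1 with h6 | h6
    · rw [h5.2] at h6
      have : 8 ≤ 2 ^ s := by
        calc 8 = 2 ^ 3 := by norm_num
          _ ≤ 2 ^ s := Nat.pow_le_pow_right (by norm_num) h1
      omega
    · exact h6

end Run7.h607
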