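import Mathlib
import Pool.Agent.Run7.h607.Ctx5
import Pool.Agent.Run7.h607.Refl3

/-! Targets of the certificates, five letters. -/

namespace Run7.h607

/-- digit sum -/
def dsum (e : ℕ) : ℕ := e % 4 + e / 4 % 4 + e / 16 % 4 + e / 64 % 4 + e / 256 % 4

/-- exponents of total degree `m` -/
def xs5 (m : ℕ) : List ℕ :=
  (List.range 4).flatMap fun a => (List.range 4).flatMap fun b => (List.range 4).flatMap fun c =>
    if Nat.ble (a + b + c) m then (List.range 4).flatMap fun d =>
      if Nat.ble (a + b + c + d) m && Nat.blt (m - (a + b + c + d)) 4 then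
        [a + 4 * b + 16 * c + 64 * d + 256 * (m - (a + b + c + d))] else []
    else []

/-- target keys -/
def tg5 (m : ℕ) : List ℕ := (xs5 m).flatMap fun e => [4 * e, 1 + 4 * e, 2 + 4 * e, 3 + 4 * e]

lemma digs (e : ℕ) (he : e < 1024) :
    e = e % 4 + 4 * (e / 4 % 4) + 16 * (e / 16 % 4) + 64 * (e / 64 % 4) + 256 * (e / 256 % 4) := by
  omega

lemma mem_xs5 (e m : ℕ) (he : e < 1024) (h : dsum e = m) : e ∈ xs5 m := by
  unfold dsum at h
  have hd := digs e he
  have h1 : e % 4 < 4 := Nat.mod_lt _ (by norm_num)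
  have h2 : e / 4 % 4 < 4 := Nat.mod_lt _ (by norm_num)
  have h3 : e / 16 % 4 < 4 := Nat.mod_lt _ (by norm_num)
  have h4 : e / 64 % 4 < 4 := Nat.mod_lt _ (by norm_num)
  have h5 : e / 256 % 4 < 4 := Nat.mod_lt _ (by norm_num)
  generalize e % 4 = a at *
  generalize e / 4 % 4 = b at *
  generalize e / 16 % 4 = c at *
  generalize e / 64 % 4 = d at *
  generalize e / 256 % 4 = f at *
  have hm : m - (a + b + c + d) = f := by omega
  unfold xs5
  simp only [List.mem_flatMap, List.mem_range]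
  refine ⟨a, h1, b, h2, c, h3, ?_⟩
  have c1 : Nat.ble (a + b + c) m = true := by rw [Nat.ble_eq]; omega
  rw [if_pos c1]
  simp only [List.mem_flatMap, List.mem_range]
  refine ⟨d, h4, ?_⟩
  have c2 : (Nat.ble (a + b + c + d) m && Nat.blt (m - (a + b + c + d)) 4) = true := by
    rw [Bool.and_eq_true, Nat.ble_eq, Nat.blt_eq, hm]; exact ⟨by omega, h5⟩
  rw [if_pos c2, List.mem_singleton, hm]
  exact hd

lemma mem_tg5 {m k : ℕ} (hk : k < 4096) (h : dsum (k / 4) = m) : k ∈ tg5 m := by
  unfold tg5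
  rw [List.mem_flatMap]
  refine ⟨k / 4, mem_xs5 _ _ (by omega) h, ?_⟩
  simp only [List.mem_cons, List.not_mem_nil, or_false]
  omega

end Run7.h607
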