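import Mathlib
import Pool.Agent.Run7.h607.Tgt5

/-! Levels of the elimination, five letters, metabelian case. -/

namespace Run7.h607

universe u v

open scoped commutatorElement

section
variable {G : Type u} [Group G] {F : Filt G} {A : Type v} [AddCommGroup A]

/-- specification of the code of the exponents -/
lemma ecd_spec {w : List (ℕ × ℕ)} {z : ℕ × ℕ} (hw : PW 5 w z)
    (hb : ¬ (w ++ [z]).any (fun p => Nat.ble 4 p.2) = true) :
    ∃ E : ℕ → ℕ, (∀ l < 5, E l < 4) ∧ (∀ p ∈ w ++ [z], p.2 = E p.1) ∧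
      ecd (w ++ [z]) = E 0 + 4 * E 1 + 16 * E 2 + 64 * E 3 + 256 * E 4 ∧
      sE w z = E 0 + E 1 + E 2 + E 3 + E 4 := by
  have hsm : ∀ p ∈ w ++ [z], p.2 < 4 := by
    intro p hp
    by_contra hc
    apply hb
    rw [List.any_eq_true]
    exact ⟨p, hp, by rw [Nat.ble_eq]; omega⟩
  obtain ⟨E, hE, hz⟩ := hw.exE
  have hEw : ∀ p ∈ w ++ [z], p.2 = E p.1 := by
    intro p hp'
    rcases List.mem_append.mp hp' with h | h
    · rw [hE] at h
      simp only [List.mem_map] at h
      obtain ⟨l, _, rfl⟩ := h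
      rfl
    · rw [List.mem_singleton] at h
      rw [h]; exact congrArg Prod.snd hz
  have hperm : ((w ++ [z]).map Prod.fst).Perm (List.range 5) := by
    rw [List.map_append]; exact hw
  refine ⟨E, ?_, hEw, ?_, ?_⟩
  · intro l hl
    have h5 : l ∈ (w ++ [z]).map Prod.fst := hperm.mem_iff.mpr (List.mem_range.mpr hl)
    simp only [List.mem_map] at h5
    obtain ⟨p, hp, rfl⟩ := h5
    rw [← hEw p hp]; exact hsm p hp
  · have h6 := (hperm.map (fun l => E l * 4 ^ l)).sum_eq
    have h7 : ((List.range 5).map (fun l => E l * 4 ^ l)).sum =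
        E 0 + 4 * E 1 + 16 * E 2 + 64 * E 3 + 256 * E 4 := by
      rw [show List.range 5 = [0, 1, 2, 3, 4] by decide]
      simp only [List.map_cons, List.map_nil, List.sum_cons, List.sum_nil]
      ring
    rw [h7, List.map_map] at h6
    rw [← h6]
    unfold ecd
    congr 1
    apply List.map_congr_left
    intro p hp
    simp only [Function.comp, hEw p hp]
  · have h6 := (hperm.map E).sum_eq
    have h7 : ((List.range 5).map E).sum = E 0 + E 1 + E 2 + E 3 + E 4 := by
      rw [show List.range 5 = [0, 1, 2, 3, 4] by decide]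
      simp only [List.map_cons, List.map_nil, List.sum_cons, List.sum_nil]
      ring
    rw [h7, List.map_map] at h6
    rw [← h6]
    have h8 : sE w z = ((w ++ [z]).map Prod.snd).sum := by
      unfold sE; rw [List.map_append, List.sum_append]; simp
    rw [h8]
    congr 1
    apply List.map_congr_left
    intro p hp
    simp only [Function.comp, hEw p hp]

lemma dsum_ec {E : ℕ → ℕ} (h : ∀ l < 5, E l < 4) :
    dsum (E 0 + 4 * E 1 + 16 * E 2 + 64 * E 3 + 256 * E 4) = E 0 + E 1 + E 2 + E 3 + E 4 := by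
  have m0 := h 0 (by norm_num)
  have m1 := h 1 (by norm_num)
  have m2 := h 2 (by norm_num)
  have m3 := h 3 (by norm_num)
  have m4 := h 4 (by norm_num)
  unfold dsum
  omega

/-- the keys of the normal form -/
lemma nf5_keys {w : List (ℕ × ℕ)} {z : ℕ × ℕ} (hw : PW 5 w z) :
    ∀ p ∈ nf5 w z, p.2 < 4096 ∧ dsum (p.2 / 4) = sE w z := by
  unfold nf5
  by_cases hb : (w ++ [z]).any (fun p => Nat.ble 4 p.2) = true
  · rw [if_pos hb]; intro p hp; simp at hp
  rw [if_neg hb]
  obtain ⟨E, h1, _, h3, h4⟩ := ecd_spec hw hb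
  have hlen : w.length = 4 := by
    have := hw.length_eq
    simp only [List.length_append, List.length_map, List.length_singleton,
      List.length_range] at this
    omega
  have hkp : ∀ l c, l < 5 → ∀ p ∈ kp l c (ecd (w ++ [z])), p.2 < 4096 ∧
      dsum (p.2 / 4) = sE w z := by
    intro l c hl p hp
    unfold kp at hp
    split_ifs at hp with h
    · simp at hp
    · rw [List.mem_singleton] at hp
      subst hp
      have m0 := h1 0 (by norm_num)
      have m1 := h1 1 (by norm_num)
      have m2 := h1 2 (by norm_num)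
      have m3 := h1 3 (by norm_num)
      have m4 := h1 4 (by norm_num)
      have hl' : l < 4 := by omega
      refine ⟨by simp only; omega, ?_⟩
      have e : (l + 4 * ecd (w ++ [z])) / 4 = ecd (w ++ [z]) := by omega
      simp only [e]
      rw [h3, dsum_ec h1, h4]
  intro p hp
  have hlet : ∀ l ∈ w.map Prod.fst ++ [z.1], l < 5 := fun l hl =>
    List.mem_range.mp (hw.mem_iff.mp hl)
  rcases List.mem_append.mp hp with h | h
  · refine hkp _ _ ?_ p h
    apply hlet
    apply List.mem_append_left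
    apply List.mem_map_of_mem
    rw [List.getD_eq_getElem _ _ (by omega)]
    exact List.getElem_mem _
  · refine hkp _ _ ?_ p h
    apply hlet
    simp

lemma ev_zero {B : ℕ → A} {L : List (ℤ × ℕ)} (h : ∀ p ∈ L, B p.2 = 0) : ev B L = 0 := by
  induction L with
  | nil => rfl
  | cons p L ih =>
    rw [ev, h p List.mem_cons_self, ih (fun q hq => h q (List.mem_cons_of_mem _ hq)), smul_zero,
      add_zero]

/-- canonical word of a key -/
lemma B5_vl (ω : G → A) (g : G) (v : ℕ → F.N 0) (k : ℕ) :
    ∃ w z, PW 5 w z ∧ B5 ω g v k = vl ω g v w z ∧ sE w z = dsum (k / 4 % 1024) := by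
  have hl : k % 4 < 4 := Nat.mod_lt _ (by norm_num)
  refine ⟨((([0, 1, 2, 3] : List ℕ).erase (k % 4)) ++ [k % 4]).map
    (fun m => (m, k / 4 / 4 ^ m % 4)), (4, k / 4 / 4 ^ 4 % 4), ?_, ?_, ?_⟩
  · unfold PW
    rw [List.map_map]
    have : (([0, 1, 2, 3] : List ℕ).erase (k % 4) ++ [k % 4]).map
        (Prod.fst ∘ fun m => (m, k / 4 / 4 ^ m % 4)) =
        (([0, 1, 2, 3] : List ℕ).erase (k % 4)) ++ [k % 4] := by
      conv_rhs => rw [← List.map_id ((([0, 1, 2, 3] : List ℕ).erase (k % 4)) ++ [k % 4])]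
      rfl
    rw [this]
    show ((([0, 1, 2, 3] : List ℕ).erase (k % 4)) ++ [k % 4] ++ [4]).Perm (List.range 5)
    generalize k % 4 = l at hl
    interval_cases l <;> decide
  · unfold B5 kap vl dw
    rw [List.map_map, List.map_append, rb_append]
    rfl
  · unfold sE
    rw [List.map_map]
    have e : ∀ l < 4, (((([0, 1, 2, 3] : List ℕ).erase l) ++ [l]).map
        (Prod.snd ∘ fun m => (m, k / 4 / 4 ^ m % 4))).sum =
        k / 4 / 4 ^ 0 % 4 + k / 4 / 4 ^ 1 % 4 + k / 4 / 4 ^ 2 % 4 + k / 4 / 4 ^ 3 % 4 := by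
      intro l hl
      have hp : ((([0, 1, 2, 3] : List ℕ).erase l) ++ [l]).Perm [0, 1, 2, 3] := by
        interval_cases l <;> decide
      rw [(hp.map (Prod.snd ∘ fun m => (m, k / 4 / 4 ^ m % 4))).sum_eq]
      simp only [List.map_cons, List.map_nil, List.sum_cons, List.sum_nil, Function.comp]
      ring
    rw [e _ hl]
    unfold dsum
    simp only [pow_zero, Nat.div_one, pow_one]
    norm_num
    omega

/-- One level. -/
theorem lev5 {x : G} (hx : Gen F x) (he : Eng x) (hM : Met F) {ω : G → A} (hω : F.Sym 4 ω)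
    {g : G} {v : ℕ → F.N 0} {p : ℕ} (hp : ∀ w z, PW 5 w z → (p : ℤ) • vl ω g v w z = 0)
    {q : ℕ} (hq : q ≤ 4) (hZ : 1 ≤ q → ZK F A x 4 q) (hvx : ∀ l < q, (v l : G) = x) {m : ℕ}
    (hV : VanK ω g v 5 (m + 1)) {nt ns dat mu t : ℕ}
    (hc : checkP p 20 4096 mu t 9 (rw5 nf5 q) (okc q m) nt ns dat (tg5 m) = true) : VanK ω g v 5 m := by
  have hB : ∀ k, (p : ℤ) • B5 ω g v k = 0 := by
    intro k
    obtain ⟨w, z, h1, h2, _⟩ := B5_vl ω g v k
    rw [h2]; exact hp w z h1
  have key := checkP_sound (B5 ω g v) hB (fun n hn => row5_sound (fun w z h =>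
    nf5_sound hx he hM hω h) hx he hω hq hZ hvx hV n hn) hc
  intro w z hw hs
  by_cases hs' : m + 1 ≤ sE w z
  · exact hV w z hw hs'
  have hm : sE w z = m := by omega
  rw [← nf5_sound hx he hM hω hw]
  apply ev_zero
  intro pr hpr
  obtain ⟨h1, h2⟩ := nf5_keys hw pr hpr
  apply key
  exact mem_tg5 h1 (by rw [h2, hm])

/-- shifting the letters -/
lemma vl_shift (ω : G → A) (g : G) (v : ℕ → F.N 0) (c : ℕ → ℕ) (w : List (ℕ × ℕ)) (z : ℕ × ℕ) :
    vl ω g (fun l => (dd F g)^[c l] (v l)) w z =
      vl ω g v (w.map fun p => (p.1, p.2 + c p.1)) (z.1, z.2 + c z.1) := by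
  unfold vl dw
  rw [List.map_map]
  simp only [Function.iterate_add_apply]
  congr 2
  apply List.map_congr_left
  intro p _
  simp only [Function.comp, Function.iterate_add_apply]

lemma PW_shift {K : ℕ} (c : ℕ → ℕ) {w : List (ℕ × ℕ)} {z : ℕ × ℕ} (h : PW K w z) :
    PW K (w.map fun p => (p.1, p.2 + c p.1)) (z.1, z.2 + c z.1) := by
  unfold PW at *
  rw [List.map_map]
  exact h

lemma sE_shift (c : ℕ → ℕ) {w : List (ℕ × ℕ)} {z : ℕ × ℕ} (h : PW 5 w z) :
    sE (w.map fun p => (p.1, p.2 + c p.1)) (z.1, z.2 + c z.1) =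
      sE w z + (c 0 + c 1 + c 2 + c 3 + c 4) := by
  have h6 := (h.map c).sum_eq
  have h7 : ((List.range 5).map c).sum = c 0 + c 1 + c 2 + c 3 + c 4 := by
    rw [show List.range 5 = [0, 1, 2, 3, 4] by decide]
    simp only [List.map_cons, List.map_nil, List.sum_cons, List.sum_nil]
    ring
  rw [h7, List.map_append, List.sum_append] at h6
  simp only [List.map_cons, List.map_nil, List.sum_cons, List.sum_nil, add_zero,
    List.map_map] at h6
  unfold sE
  rw [List.map_map]
  have h8 : (w.map (Prod.snd ∘ fun p : ℕ × ℕ => (p.1, p.2 + c p.1))).sum =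
      (w.map Prod.snd).sum + (w.map (c ∘ Prod.fst)).sum := by
    clear h h6
    induction w with
    | nil => rfl
    | cons p w ih =>
      simp only [List.map_cons, List.sum_cons, Function.comp] at ih ⊢
      rw [ih]; ring
  rw [h8]
  simp only
  omega

/-- Generic vanishing in degree at least four. -/
theorem gen5 {x : G} (hx : Gen F x) (he : Eng x) (hM : Met F) {ω : G → A} (hω : F.Sym 4 ω)
    {g : G} {v : ℕ → F.N 0} {p : ℕ} (hp : ∀ w z, PW 5 w z → (p : ℤ) • vl ω g v w z = 0)
    {nt ns dat mu t : ℕ}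
    (hc : checkP p 20 4096 mu t 9 (rw5 nf5 0) (okc 0 4) nt ns dat (tg5 4) = true) : VanK ω g v 5 4 := by
  have step : ∀ r, 4 ≤ r → VanK ω g v 5 (r + 1) → VanK ω g v 5 r := by
    intro r hr H w z hw hs
    by_cases hs' : r + 1 ≤ sE w z
    · exact H w z hw hs'
    by_cases hb : (w ++ [z]).any (fun p => Nat.ble 4 p.2) = true
    · exact vl_big hx he hω hw hb
    obtain ⟨E, h1, h2, _, h4⟩ := ecd_spec hw hb
    obtain ⟨f, hf, hfs⟩ : ∃ f : ℕ → ℕ, (∀ l < 5, f l ≤ E l) ∧
        f 0 + f 1 + f 2 + f 3 + f 4 = 4 := by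
      have m0 := h1 0 (by norm_num)
      have m1 := h1 1 (by norm_num)
      have m2 := h1 2 (by norm_num)
      have m3 := h1 3 (by norm_num)
      have m4 := h1 4 (by norm_num)
      obtain ⟨a0, a1, a2, a3, a4, b0, b1, b2, b3, b4, hs5⟩ : ∃ a0 a1 a2 a3 a4, a0 ≤ E 0 ∧
          a1 ≤ E 1 ∧ a2 ≤ E 2 ∧ a3 ≤ E 3 ∧ a4 ≤ E 4 ∧ a0 + a1 + a2 + a3 + a4 = 4 := by
        refine ⟨min (E 0) 4, min (E 1) (4 - min (E 0) 4),
          min (E 2) (4 - min (E 0) 4 - min (E 1) (4 - min (E 0) 4)),
          min (E 3) (4 - min (E 0) 4 - min (E 1) (4 - min (E 0) 4) -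
            min (E 2) (4 - min (E 0) 4 - min (E 1) (4 - min (E 0) 4))),
          4 - min (E 0) 4 - min (E 1) (4 - min (E 0) 4) -
            min (E 2) (4 - min (E 0) 4 - min (E 1) (4 - min (E 0) 4)) -
            min (E 3) (4 - min (E 0) 4 - min (E 1) (4 - min (E 0) 4) -
              min (E 2) (4 - min (E 0) 4 - min (E 1) (4 - min (E 0) 4))),
          ?_, ?_, ?_, ?_, ?_, ?_⟩ <;> omega
      refine ⟨fun l => if l = 0 then a0 else if l = 1 then a1 else if l = 2 then a2 else
        if l = 3 then a3 else a4, ?_, ?_⟩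
      · intro l hl
        interval_cases l
        · exact b0
        · exact b1
        · exact b2
        · exact b3
        · exact b4
      · exact hs5
    set c : ℕ → ℕ := fun l => E l - f l with hc'
    have hwf : w = (w.map fun p => (p.1, f p.1)).map fun p => (p.1, p.2 + c p.1) := by
      rw [List.map_map]
      conv_lhs => rw [← List.map_id w]
      apply List.map_congr_left
      intro p hp'
      have h5 := h2 p (List.mem_append_left _ hp')
      have h6 : p.1 < 5 := List.mem_range.mp (hw.mem_iff.mp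
        (List.mem_append_left _ (List.mem_map_of_mem hp')))
      have h7 := hf _ h6
      simp only [Function.comp, hc', id]
      refine Prod.ext rfl ?_
      simp only
      omega
    have hzf : z = (z.1, f z.1 + c z.1) := by
      have h5 := h2 z (by simp)
      have h6 : z.1 < 5 := List.mem_range.mp (hw.mem_iff.mp (by simp))
      have h7 := hf _ h6
      refine Prod.ext rfl ?_
      simp only [hc']
      omega
    have hpw' : PW 5 (w.map fun p => (p.1, f p.1)) (z.1, f z.1) := by
      unfold PW at hw ⊢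
      rw [List.map_map]
      exact hw
    have hsum : c 0 + c 1 + c 2 + c 3 + c 4 + 4 = r := by
      have := hf 0 (by norm_num)
      have := hf 1 (by norm_num)
      have := hf 2 (by norm_num)
      have := hf 3 (by norm_num)
      have := hf 4 (by norm_num)
      simp only [hc']
      omega
    have hlev := lev5 hx he hM hω (v := fun l => (dd F g)^[c l] (v l)) (p := p)
      (fun w' z' hw' => by rw [vl_shift]; exact hp _ _ (PW_shift c hw'))
      (q := 0) (by norm_num) (by intro h; omega) (by intro l hl; omega) (m := 4)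
      (by
        intro w' z' hw' hs''
        rw [vl_shift]
        apply H _ _ (PW_shift c hw')
        rw [sE_shift c hw']
        omega) hc
    have hfin := hlev (w.map fun p => (p.1, f p.1)) (z.1, f z.1) hpw' (by
      have h8 : sE w z = sE (w.map fun p => (p.1, f p.1)) (z.1, f z.1) +
          (c 0 + c 1 + c 2 + c 3 + c 4) := by
        rw [← sE_shift c hpw']
        rw [← hwf]
        congr 1
      omega)
    rw [vl_shift, ← hwf] at hfin
    have hz3 : ((z.1, f z.1).1, (z.1, f z.1).2 + c (z.1, f z.1).1) = z := hzf.symm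
    rw [hz3] at hfin
    exact hfin
  have h16 : VanK ω g v 5 16 := by
    intro w z hw hs
    by_cases hb : (w ++ [z]).any (fun p => Nat.ble 4 p.2) = true
    · exact vl_big hx he hω hw hb
    obtain ⟨E, h1, _, _, h4⟩ := ecd_spec hw hb
    have m0 := h1 0 (by norm_num)
    have m1 := h1 1 (by norm_num)
    have m2 := h1 2 (by norm_num)
    have m3 := h1 3 (by norm_num)
    have m4 := h1 4 (by norm_num)
    omega
  exact step 4 (by norm_num) (step 5 (by norm_num) (step 6 (by norm_num) (step 7 (by norm_num)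
    (step 8 (by norm_num) (step 9 (by norm_num) (step 10 (by norm_num) (step 11 (by norm_num)
      (step 12 (by norm_num) (step 13 (by norm_num) (step 14 (by norm_num)
        (step 15 (by norm_num) h16)))))))))))

end

end Run7.h607
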