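import Mathlib
import Pool.Agent.Run7.h607.Lev5

/-! `lev5` and `gen5` with the certificate as a property. -/

namespace Run7.h607

universe u v

open scoped commutatorElement

section
variable {G : Type u} [Group G] {F : Filt G} {A : Type v} [AddCommGroup A]

/-- One level. -/
theorem lev5b {x : G} (hx : Gen F x) (he : Eng x) (hM : Met F) {ω : G → A} (hω : F.Sym 4 ω)
    {g : G} {v : ℕ → F.N 0} {p : ℕ} (hp : ∀ w z, PW 5 w z → (p : ℤ) • vl ω g v w z = 0)
    {q : ℕ} (hq : q ≤ 4) (hZ : 1 ≤ q → ZK F A x 4 q) (hvx : ∀ l < q, (v l : G) = x) {m : ℕ}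
    (hV : VanK ω g v 5 (m + 1)) (hc : ∀ B : ℕ → A, (∀ k, (p : ℤ) • B k = 0) → (∀ i, okc q m i = true → ev B (rw5 nf5 q i) = 0) →
      ∀ k ∈ tg5 m, B k = 0) : VanK ω g v 5 m := by
  have hB : ∀ k, (p : ℤ) • B5 ω g v k = 0 := by
    intro k
    obtain ⟨w, z, h1, h2, _⟩ := B5_vl ω g v k
    rw [h2]; exact hp w z h1
  have key := hc (B5 ω g v) hB (fun n hn => row5_sound (fun w z h =>
    nf5_sound hx he hM hω h) hx he hω hq hZ hvx hV n hn)
  intro w z hw hs
  by_cases hs' : m + 1 ≤ sE w z
  · exact hV w z hw hs'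
  have hm : sE w z = m := by omega
  rw [← nf5_sound hx he hM hω hw]
  apply ev_zero
  intro pr hpr
  obtain ⟨h1, h2⟩ := nf5_keys hw pr hpr
  apply key
  exact mem_tg5 h1 (by rw [h2, hm])

/-- Generic vanishing in degree at least four. -/
theorem gen5b {x : G} (hx : Gen F x) (he : Eng x) (hM : Met F) {ω : G → A} (hω : F.Sym 4 ω)
    {g : G} {v : ℕ → F.N 0} {p : ℕ} (hp : ∀ w z, PW 5 w z → (p : ℤ) • vl ω g v w z = 0)
    (hc : ∀ B : ℕ → A, (∀ k, (p : ℤ) • B k = 0) → (∀ i, okc 0 4 i = true → ev B (rw5 nf5 0 i) = 0) →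
      ∀ k ∈ tg5 4, B k = 0) : VanK ω g v 5 4 := by
  have step : ∀ r, 4 ≤ r → VanK ω g v 5 (r + 1) → VanK ω g v 5 r := by
    intro r hr H w z hw hs
    by_cases hs' : r + 1 ≤ sE w z
    · exact H w z hw hs'
    by_cases hb : (w ++ [z]).any (fun p => Nat.ble 4 p.2) = true
    · exact vl_big hx he hω hw hb
    obtain ⟨E, h1, h2, _, h4⟩ := ecd_spec hw hb
    obtain ⟨f, hf, hfs⟩ : ∃ f : ℕ → ℕ, (∀ l < 5, f l ≤ E l) ∧
        f 0 + f 1 + f 2 + f 3 + f 4 = 4 := by
      have m0 := h1 0 (by norm_num)
      have m1 := h1 1 (by norm_num)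
      have m2 := h1 2 (by norm_num)
      have m3 := h1 3 (by norm_num)
      have m4 := h1 4 (by norm_num)
      obtain ⟨a0, a1, a2, a3, a4, b0, b1, b2, b3, b4, hs5⟩ : ∃ a0 a1 a2 a3 a4, a0 ≤ E 0 ∧
          a1 ≤ E 1 ∧ a2 ≤ E 2 ∧ a3 ≤ E 3 ∧ a4 ≤ E 4 ∧ a0 + a1 + a2 + a3 + a4 = 4 := by
        refine ⟨min (E 0) 4, min (E 1) (4 - min (E 0) 4),
          min (E 2) (4 - min (E 0) 4 - min (E 1) (4 - min (E 0) 4)),
          min (E 3) (4 - min (E 0) 4 - min (E 1) (4 - min (E 0) 4) -
            min (E 2) (4 - min (E 0) 4 - min (E 1) (4 - min (E 0) 4))),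
          4 - min (E 0) 4 - min (E 1) (4 - min (E 0) 4) -
            min (E 2) (4 - min (E 0) 4 - min (E 1) (4 - min (E 0) 4)) -
            min (E 3) (4 - min (E 0) 4 - min (E 1) (4 - min (E 0) 4) -
              min (E 2) (4 - min (E 0) 4 - min (E 1) (4 - min (E 0) 4))),
          ?_, ?_, ?_, ?_, ?_, ?_⟩ <;> omega
      refine ⟨fun l => if l = 0 then a0 else if l = 1 then a1 else if l = 2 then a2 else
        if l = 3 then a3 else a4, ?_, ?_⟩
      · intro l hl
        interval_cases l
        · exact b0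
        · exact b1
        · exact b2
        · exact b3
        · exact b4
      · exact hs5
    set c : ℕ → ℕ := fun l => E l - f l with hc'
    have hwf : w = (w.map fun p => (p.1, f p.1)).map fun p => (p.1, p.2 + c p.1) := by
      rw [List.map_map]
      conv_lhs => rw [← List.map_id w]
      apply List.map_congr_left
      intro p hp'
      have h5 := h2 p (List.mem_append_left _ hp')
      have h6 : p.1 < 5 := List.mem_range.mp (hw.mem_iff.mp
        (List.mem_append_left _ (List.mem_map_of_mem hp')))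
      have h7 := hf _ h6
      simp only [Function.comp, hc', id]
      refine Prod.ext rfl ?_
      simp only
      omega
    have hzf : z = (z.1, f z.1 + c z.1) := by
      have h5 := h2 z (by simp)
      have h6 : z.1 < 5 := List.mem_range.mp (hw.mem_iff.mp (by simp))
      have h7 := hf _ h6
      refine Prod.ext rfl ?_
      simp only [hc']
      omega
    have hpw' : PW 5 (w.map fun p => (p.1, f p.1)) (z.1, f z.1) := by
      unfold PW at hw ⊢
      rw [List.map_map]
      exact hw
    have hsum : c 0 + c 1 + c 2 + c 3 + c 4 + 4 = r := by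
      have := hf 0 (by norm_num)
      have := hf 1 (by norm_num)
      have := hf 2 (by norm_num)
      have := hf 3 (by norm_num)
      have := hf 4 (by norm_num)
      simp only [hc']
      omega
    have hlev := lev5b hx he hM hω (v := fun l => (dd F g)^[c l] (v l)) (p := p)
      (fun w' z' hw' => by rw [vl_shift]; exact hp _ _ (PW_shift c hw'))
      (q := 0) (by norm_num) (by intro h; omega) (by intro l hl; omega) (m := 4)
      (by
        intro w' z' hw' hs''
        rw [vl_shift]
        apply H _ _ (PW_shift c hw')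
        rw [sE_shift c hw']
        omega) hc
    have hfin := hlev (w.map fun p => (p.1, f p.1)) (z.1, f z.1) hpw' (by
      have h8 : sE w z = sE (w.map fun p => (p.1, f p.1)) (z.1, f z.1) +
          (c 0 + c 1 + c 2 + c 3 + c 4) := by
        rw [← sE_shift c hpw']
        rw [← hwf]
        congr 1
      omega)
    rw [vl_shift, ← hwf] at hfin
    have hz3 : ((z.1, f z.1).1, (z.1, f z.1).2 + c (z.1, f z.1).1) = z := hzf.symm
    rw [hz3] at hfin
    exact hfin
  have h16 : VanK ω g v 5 16 := by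
    intro w z hw hs
    by_cases hb : (w ++ [z]).any (fun p => Nat.ble 4 p.2) = true
    · exact vl_big hx he hω hw hb
    obtain ⟨E, h1, _, _, h4⟩ := ecd_spec hw hb
    have m0 := h1 0 (by norm_num)
    have m1 := h1 1 (by norm_num)
    have m2 := h1 2 (by norm_num)
    have m3 := h1 3 (by norm_num)
    have m4 := h1 4 (by norm_num)
    omega
  exact step 4 (by norm_num) (step 5 (by norm_num) (step 6 (by norm_num) (step 7 (by norm_num)
    (step 8 (by norm_num) (step 9 (by norm_num) (step 10 (by norm_num) (step 11 (by norm_num)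
      (step 12 (by norm_num) (step 13 (by norm_num) (step 14 (by norm_num)
        (step 15 (by norm_num) h16)))))))))))

end

end Run7.h607
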