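import Mathlib
import Pool.Agent.Run7.h607.Tgt5
import Pool.Agent.Run7.h607.Pc042

/-! Certificates in pieces. -/

namespace Run7.h607

set_option maxRecDepth 1000000

lemma chk042_3 : S5.checkE 2 20 4096 1 1 9 (rw5 nf5 0) (okc 0 4) (2 ^ (20 * 4096) - 1)
    (((([] ++ pc042_0) ++ pc042_1) ++ pc042_2)) pc042_3 = true := by
  decide +kernel

end Run7.h607
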