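import Mathlib
import Pool.Agent.Run7.h607.Pk0420
import Pool.Agent.Run7.h607.Pk0421
import Pool.Agent.Run7.h607.Pk0422
import Pool.Agent.Run7.h607.Pk0423

/-! The certificate from its pieces. -/

namespace Run7.h607

set_option maxRecDepth 1000000

lemma fin042 : S5.checkT 20 4096 (2 ^ (20 * 4096) - 1) (((([] ++ pc042_0) ++ pc042_1) ++ pc042_2) ++ pc042_3) (tg5 4) = true := by
  decide +kernel

theorem ct042 {Q : Type*} [AddCommGroup Q] (B : ℕ → Q) (hp : ∀ k, ((2 : ℕ) : ℤ) • B k = 0)
    (hrow : ∀ i, okc 0 4 i = true → ev B (rw5 nf5 0 i) = 0) : ∀ k ∈ tg5 4, B k = 0 := by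
  have hZ : UM B 20 4096 (2 ^ (20 * 4096) - 1) := S5.UM_full _ (by norm_num)
  have h0 := S5.checkE_sound B (by norm_num) (by norm_num) (by norm_num) (by norm_num) hp hrow hZ
    (fun F hF => absurd hF (by simp [S5.fcs])) chk042_0
  have h1 := S5.checkE_sound B (by norm_num) (by norm_num) (by norm_num) (by norm_num) hp hrow hZ
    h0 chk042_1
  have h2 := S5.checkE_sound B (by norm_num) (by norm_num) (by norm_num) (by norm_num) hp hrow hZ
    h1 chk042_2
  have h3 := S5.checkE_sound B (by norm_num) (by norm_num) (by norm_num) (by norm_num) hp hrow hZ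
    h2 chk042_3
  exact S5.checkT_sound B hZ h3 fin042

end Run7.h607
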