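import Mathlib
import Pool.Agent.Run7.h607.Lev5
import Pool.Agent.Run7.h607.Gen5x
import Pool.Agent.Run7.h607.Pf042
import Pool.Agent.Run7.h607.Pf043
import Pool.Agent.Run7.h607.Pf045
import Pool.Agent.Run7.h607.Dat5C
import Pool.Agent.Run7.h607.Dat5D
import Pool.Agent.Run7.h607.Dat5E

/-! The chain argument, five letters, metabelian case. -/

namespace Run7.h607

universe u v

open scoped commutatorElement

section
variable {G : Type u} [Group G] {F : Filt G} {A : Type v} [AddCommGroup A]

/-- all the symbols of positive degree vanish modulo a prime -/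
theorem van5 {x : G} (hx : Gen F x) (he : Eng x) (hM : Met F) {ω : G → A} (hω : F.Sym 4 ω)
    {g : G} {v : ℕ → F.N 0} {p : ℕ} (hpp : p = 2 ∨ p = 3 ∨ p = 5)
    (hp : ∀ w z, PW 5 w z → (p : ℤ) • vl ω g v w z = 0)
    {q : ℕ} (hq : q = 2 ∨ q = 3 ∨ q = 4) (hZ : ZK F A x 4 q) (hvx : ∀ l < q, (v l : G) = x) :
    VanK ω g v 5 1 := by
  rcases hpp with rfl | rfl | rfl
  · have h4 : VanK ω g v 5 4 := gen5b hx he hM hω hp (fun B => ct042 B)
    rcases hq with rfl | rfl | rfl
    · exact lev5 hx he hM hω hp (by norm_num) (fun _ => hZ) hvx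
        (lev5 hx he hM hω hp (by norm_num) (fun _ => hZ) hvx
          (lev5 hx he hM hω hp (by norm_num) (fun _ => hZ) hvx h4 chk232) chk222) chk212
    · exact lev5 hx he hM hω hp (by norm_num) (fun _ => hZ) hvx
        (lev5 hx he hM hω hp (by norm_num) (fun _ => hZ) hvx
          (lev5 hx he hM hω hp (by norm_num) (fun _ => hZ) hvx h4 chk332) chk322) chk312
    · exact lev5 hx he hM hω hp (by norm_num) (fun _ => hZ) hvx
        (lev5 hx he hM hω hp (by norm_num) (fun _ => hZ) hvx
          (lev5 hx he hM hω hp (by norm_num) (fun _ => hZ) hvx h4 chk432) chk422) chk412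
  · have h4 : VanK ω g v 5 4 := gen5b hx he hM hω hp (fun B => ct043 B)
    rcases hq with rfl | rfl | rfl
    · exact lev5 hx he hM hω hp (by norm_num) (fun _ => hZ) hvx
        (lev5 hx he hM hω hp (by norm_num) (fun _ => hZ) hvx
          (lev5 hx he hM hω hp (by norm_num) (fun _ => hZ) hvx h4 chk233) chk223) chk213
    · exact lev5 hx he hM hω hp (by norm_num) (fun _ => hZ) hvx
        (lev5 hx he hM hω hp (by norm_num) (fun _ => hZ) hvx
          (lev5 hx he hM hω hp (by norm_num) (fun _ => hZ) hvx h4 chk333) chk323) chk313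
    · exact lev5 hx he hM hω hp (by norm_num) (fun _ => hZ) hvx
        (lev5 hx he hM hω hp (by norm_num) (fun _ => hZ) hvx
          (lev5 hx he hM hω hp (by norm_num) (fun _ => hZ) hvx h4 chk433) chk423) chk413
  · have h4 : VanK ω g v 5 4 := gen5b hx he hM hω hp (fun B => ct045 B)
    rcases hq with rfl | rfl | rfl
    · exact lev5 hx he hM hω hp (by norm_num) (fun _ => hZ) hvx
        (lev5 hx he hM hω hp (by norm_num) (fun _ => hZ) hvx
          (lev5 hx he hM hω hp (by norm_num) (fun _ => hZ) hvx h4 chk235) chk225) chk215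
    · exact lev5 hx he hM hω hp (by norm_num) (fun _ => hZ) hvx
        (lev5 hx he hM hω hp (by norm_num) (fun _ => hZ) hvx
          (lev5 hx he hM hω hp (by norm_num) (fun _ => hZ) hvx h4 chk335) chk325) chk315
    · exact lev5 hx he hM hω hp (by norm_num) (fun _ => hZ) hvx
        (lev5 hx he hM hω hp (by norm_num) (fun _ => hZ) hvx
          (lev5 hx he hM hω hp (by norm_num) (fun _ => hZ) hvx h4 chk435) chk425) chk415

end

end Run7.h607
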