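import Mathlib
import Pool.Agent.Run7.h607.Lev5

/-! The steps of the chain argument, in general. -/

namespace Run7.h607

universe u v

open scoped commutatorElement

/-- `{2,3,5}`-torsion -/
def Trs (A : Type v) [AddCommGroup A] : Prop := ∀ a : A, ∃ j : ℕ, ((30:ℤ) ^ j) • a = 0

section
variable {G : Type u} [Group G] {F : Filt G}

/-- replacing a letter -/
def upd (v : ℕ → F.N 0) (q : ℕ) (y : G) (l : ℕ) : G := if l = q then y else v l

lemma upd_map_ne (v : ℕ → F.N 0) {q : ℕ} (y : G) {a : List ℕ} (h : q ∉ a) :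
    a.map (upd v q y) = a.map fun l => (v l : G) := by
  apply List.map_congr_left
  intro l hl
  unfold upd
  rw [if_neg]
  intro hc; exact h (hc ▸ hl)

/-- the value is additive in a letter -/
lemma sym_upd {A : Type v} [AddCommGroup A] {K : ℕ} {ω : G → A} (hω : F.Sym K ω)
    (v : ℕ → F.N 0) {q : ℕ} (hq : q < K + 1) {w : List ℕ} {z : ℕ}
    (hw : (w ++ [z]).Perm (List.range (K + 1))) :
    F.Sym 0 (fun y => ω (rb (w.map (upd v q y)) (upd v q y z))) := by
  have hlen : w.length = K := by
    have := hw.length_eq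
    simp only [List.length_append, List.length_singleton, List.length_range] at this
    omega
  have hnd : (w ++ [z]).Nodup := (List.Perm.nodup_iff hw).mpr List.nodup_range
  have hmem : q ∈ w ++ [z] := hw.mem_iff.mpr (List.mem_range.mpr hq)
  have hmv : ∀ (a : List ℕ), ∀ y ∈ a.map (fun l => (v l : G)), y ∈ F.N 0 := by
    intro a y hy
    simp only [List.mem_map] at hy
    obtain ⟨l, _, rfl⟩ := hy
    exact (v l).2
  rw [List.nodup_append] at hnd
  rcases List.mem_append.mp hmem with h | h
  · have hzq : z ≠ q := by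
      intro hc
      exact hnd.2.2 q h z (by simp) hc.symm
    obtain ⟨a, b, rfl⟩ := List.append_of_mem h
    have hn := hnd.1
    rw [List.nodup_append] at hn
    have hqa : q ∉ a := by
      intro hc
      exact hn.2.2 q hc q (by simp) rfl
    have hqb : q ∉ b := (List.nodup_cons.mp hn.2.1).1
    have e : (fun y => ω (rb ((a ++ q :: b).map (upd v q y)) (upd v q y z))) =
        fun y => ω (rb (a.map (fun l => (v l : G)) ++ y :: b.map (fun l => (v l : G)))
          (v z : G)) := by
      funext y
      rw [List.map_append, List.map_cons, upd_map_ne v y hqa, upd_map_ne v y hqb]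
      have h1 : upd v q y q = y := by unfold upd; rw [if_pos rfl]
      have h2 : upd v q y z = v z := by unfold upd; rw [if_neg hzq]
      rw [h1, h2]
    rw [e]
    refine sym_mid hω _ _ _ ?_ (hmv a) (hmv b) (v z).2
    simp only [List.length_map]
    simp only [List.length_append, List.length_cons] at hlen
    omega
  · rw [List.mem_singleton] at h
    subst h
    have hqw : q ∉ w := by
      intro hc
      exact hnd.2.2 q hc q (by simp) rfl
    have e : (fun y => ω (rb (w.map (upd v q y)) (upd v q y q))) =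
        fun y => ω (rb (w.map (fun l => (v l : G))) y) := by
      funext y
      rw [upd_map_ne v y hqw]
      have h1 : upd v q y q = y := by unfold upd; rw [if_pos rfl]
      rw [h1]
    rw [e]
    apply sym_last
    · rw [List.length_map, hlen, zero_add]; exact hω
    · exact hmv w

/-- All the symbols vanish, given the vanishing modulo the three primes. -/
theorem nakV {A : Type v} [AddCommGroup A] (hT : Trs A) {ω : G → A} (hω : F.Sym 4 ω) {g : G}
    {v : ℕ → F.N 0} (n : ℕ) (B : (A' : Type v) → [AddCommGroup A'] → (G → A') → ℕ → A')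
    (nf : List (ℕ × ℕ) → ℕ × ℕ → List (ℤ × ℕ))
    (hnat : ∀ (A' : Type v) [AddCommGroup A'] (f : A →+ A') (k : ℕ),
      B A' (fun y => f (ω y)) k = f (B A ω k))
    (hnf : ∀ w z, PW 5 w z → ev (B A ω) (nf w z) = vl ω g v w z)
    (hk : ∀ w z, PW 5 w z → ∀ p ∈ nf w z, p.2 < n)
    (hmain : ∀ (A' : Type v) [AddCommGroup A'], Trs A' → ∀ (ω' : G → A'), F.Sym 4 ω' →
      ∀ p : ℕ, p = 2 ∨ p = 3 ∨ p = 5 → (∀ w z, PW 5 w z → (p : ℤ) • vl ω' g v w z = 0) →
      ∀ k < n, B A' ω' k = 0) :
    ∀ w z, PW 5 w z → vl ω g v w z = 0 := by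
  set S := AddSubgroup.closure (B A ω '' {k | k < n}) with hS
  have hvS : ∀ w z, PW 5 w z → vl ω g v w z ∈ S := by
    intro w z hw
    rw [← hnf w z hw]
    have hk' := hk w z hw
    generalize nf w z = L at hk'
    induction L with
    | nil => exact zero_mem _
    | cons p L ih =>
      rw [ev]
      have h1 : B A ω p.2 ∈ S := AddSubgroup.subset_closure
        (Set.mem_image_of_mem (B A ω) (hk' p List.mem_cons_self))
      exact add_mem (AddSubgroup.zsmul_mem _ h1 _)
        (ih (fun q hq => hk' q (List.mem_cons_of_mem _ hq)))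
  have hp : ∀ p : ℕ, p = 2 ∨ p = 3 ∨ p = 5 → ∀ k < n, ∃ s ∈ S, B A ω k = (p : ℤ) • s := by
    intro p hp k hkn
    let S' : AddSubgroup A := S.map (zsmulAddGroupHom (p : ℤ))
    let f : A →+ A ⧸ S' := QuotientAddGroup.mk' S'
    have hT' : Trs (A ⧸ S') := by
      intro a
      obtain ⟨b, rfl⟩ := QuotientAddGroup.mk'_surjective S' a
      obtain ⟨j, hj⟩ := hT b
      exact ⟨j, by rw [← map_zsmul, hj, map_zero]⟩
    have hω' : F.Sym 4 (fun y => f (ω y)) :=
      ⟨fun a b ha hb => by show f _ = f _ + f _; rw [hω.mul a b ha hb, map_add],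
       fun a ha => by show f _ = 0; rw [hω.ker a ha, map_zero]⟩
    have h1 := hmain (A ⧸ S') hT' (fun y => f (ω y)) hω' p hp (by
      intro w z hw
      show (p : ℤ) • f (vl ω g v w z) = 0
      rw [← map_zsmul]
      exact (QuotientAddGroup.eq_zero_iff _).mpr ⟨_, hvS w z hw, rfl⟩) k hkn
    rw [hnat] at h1
    obtain ⟨s, hs, e⟩ := (QuotientAddGroup.eq_zero_iff _).mp h1
    exact ⟨s, hs, e.symm⟩
  have hB := nak (B A ω) n (fun k _ => hT _) (hp 2 (by norm_num)) (hp 3 (by norm_num))
    (hp 5 (by norm_num))
  intro w z hw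
  rw [← hnf w z hw]
  exact ev_zero (fun p hp' => hB _ (hk w z hw p hp'))

/-- the last step -/
theorem ZK_last {A : Type v} [AddCommGroup A] {x : G} (hx : Gen F x) {K : ℕ}
    (hZ : ZK F A x K 1) : ZK F A x K 0 := by
  intro ω hω v _ w z hw
  have key := hx.ind (sym_upd hω v (q := 0) (by omega) hw) ?_ (v 0) (v 0).2
  · have e : ∀ l, upd v 0 (v 0 : G) l = v l := by
      intro l; unfold upd; split_ifs with h
      · rw [h]
      · rfl
    rw [funext e] at key
    exact key
  · intro g
    have cjrb : ∀ (a : List G) (y : G) (c : G), cj c (rb a y) = rb (a.map (cj c)) (cj c y) := by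
      intro a y c
      induction a with
      | nil => rfl
      | cons b a ih =>
        show cj c ⁅b, rb a y⁆ = ⁅cj c b, rb (a.map (cj c)) (cj c y)⁆
        rw [cj_comm, ih]
    have t := hZ (fun y => ω (cj g y)) (hω.compcj g)
      (fun l => if l = 0 then ⟨x, hx.1⟩ else hh F g⁻¹ (v l)) (by
        intro l hl
        have : l = 0 := by omega
        simp only [if_pos this]) w z hw
    simp only [cjrb, List.map_map] at t
    have c : ∀ l, cj g ((if l = 0 then (⟨x, hx.1⟩ : F.N 0) else hh F g⁻¹ (v l) : F.N 0) : G) =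
        upd v 0 (cj g x) l := by
      intro l
      unfold upd
      split_ifs with h
      · rfl
      · show cj g (cj g⁻¹ (v l)) = v l
        rw [← cj_mul_left, mul_inv_cancel, cj_one_left]
    have e1 : w.map (cj g ∘ fun l => ((if l = 0 then (⟨x, hx.1⟩ : F.N 0) else
        hh F g⁻¹ (v l) : F.N 0) : G)) = w.map (upd v 0 (cj g x)) := by
      apply List.map_congr_left
      intro l _
      exact c l
    rw [e1, c z] at t
    exact t

/-- a step of the chain -/
theorem ZK_step {A : Type v} [AddCommGroup A] {x : G} (hx : Gen F x) {K q : ℕ}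
    (hq : q < K + 1) (hZ : ZK F A x K (q + 1))
    (hV : ∀ (ω : G → A), F.Sym K ω → ∀ (g : G) (v : ℕ → F.N 0), (∀ l < q + 1, (v l : G) = x) →
      ∀ w z, PW (K + 1) w z → vl ω g v w z = 0) : ZK F A x K q := by
  intro ω hω v hv w z hw
  have hs := sym_upd hω v hq hw
  have key := hx.ind hs ?_ (v q) (v q).2
  · have e : ∀ l, upd v q (v q : G) l = v l := by
      intro l; unfold upd; split_ifs with h
      · rw [h]
      · rfl
    rw [funext e] at key
    exact key
  · intro g
    rw [cj_eq g x, hs.mul _ _ (F.com_any g hx.1) hx.1]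
    let v' : ℕ → F.N 0 := fun l => if l = q then ⟨x, hx.1⟩ else v l
    have hv' : ∀ l < q + 1, (v' l : G) = x := by
      intro l hl
      by_cases h : l = q
      · simp only [v', if_pos h]
      · simp only [v', if_neg h]
        exact hv l (by omega)
    have t2 := hZ ω hω v' hv' w z hw
    have c2 : ∀ l, (v' l : G) = upd v q x l := by
      intro l; simp only [v']; unfold upd; split_ifs <;> rfl
    simp only [c2] at t2
    have e2 : w.map (fun l => upd v q x l) = w.map (upd v q x) := rfl
    have t1 := hV ω hω g v' hv' (w.map fun l => (l, if l = q then 1 else 0))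
      (z, if z = q then 1 else 0) (by
        unfold PW
        rw [List.map_map]
        have : w.map (Prod.fst ∘ fun l => (l, if l = q then 1 else 0)) = w := by
          conv_rhs => rw [← List.map_id w]
          rfl
        rw [this]; exact hw)
    have c1 : ∀ l, (((dd F g)^[if l = q then 1 else 0] (v' l) : F.N 0) : G) =
        upd v q ⁅g, x⁆ l := by
      intro l
      unfold upd
      by_cases h : l = q
      · rw [if_pos h, if_pos h]
        show ⁅g, (v' l : G)⁆ = _
        rw [hv' l (by omega)]
      · rw [if_neg h, if_neg h]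
        simp only [v', if_neg h]
        rfl
    unfold vl dw at t1
    rw [List.map_map] at t1
    simp only [c1] at t1
    have e1 : w.map ((fun p : ℕ × ℕ => (((dd F g)^[p.2] (v' p.1) : F.N 0) : G)) ∘
        fun l => (l, if l = q then 1 else 0)) = w.map (upd v q ⁅g, x⁆) := by
      apply List.map_congr_left
      intro l _
      exact c1 l
    rw [e1] at t1
    show ω (rb (w.map (upd v q ⁅g, x⁆)) (upd v q ⁅g, x⁆ z)) +
      ω (rb (w.map (upd v q x)) (upd v q x z)) = 0
    rw [t1, zero_add]
    exact t2

lemma rb_one (a : List G) : rb a (1 : G) = 1 := by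
  induction a with
  | nil => rfl
  | cons b a ih => show ⁅b, rb a 1⁆ = 1; rw [ih]; simp

/-- the base of the chain -/
theorem ZK_base {A : Type v} [AddCommGroup A] {x : G} (hx : Gen F x) (he : Eng x) :
    ZK F A x 4 4 := by
  intro ω hω v hv w z hw
  have key := hx.ind (sym_upd hω v (q := 4) (by norm_num) hw) ?_ (v 4) (v 4).2
  · have e : ∀ l, upd v 4 (v 4 : G) l = v l := by
      intro l; unfold upd; split_ifs with h
      · rw [h]
      · rfl
    rw [funext e] at key
    exact key
  · intro g
    have hlen : w.length = 4 := by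
      have := hw.length_eq
      simp only [List.length_append, List.length_singleton, List.length_range] at this
      omega
    obtain ⟨a, b, c, d, rfl⟩ : ∃ a b c d, w = [a, b, c, d] := by
      rcases w with _ | ⟨p0, _ | ⟨p1, _ | ⟨p2, _ | ⟨p3, _ | ⟨p4, w⟩⟩⟩⟩⟩
      · simp at hlen
      · simp at hlen
      · simp at hlen
      · simp at hlen
      · exact ⟨p0, p1, p2, p3, rfl⟩
      · simp at hlen
    have hlt : ∀ l ∈ ([a, b, c, d] ++ [z] : List ℕ), l < 5 := fun l hl =>
      List.mem_range.mp (hw.mem_iff.mp hl)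
    have hnd : ([a, b, c, d] ++ [z] : List ℕ).Nodup :=
      (List.Perm.nodup_iff hw).mpr List.nodup_range
    have ux : ∀ l, l < 5 → l ≠ 4 → upd v 4 (cj g x) l = x := by
      intro l hl hne
      unfold upd
      rw [if_neg hne]
      exact hv l (by omega)
    have u4 : ∀ l, l = 4 → upd v 4 (cj g x) l = cj g x := by
      intro l hl; unfold upd; rw [if_pos hl]
    have ha := hlt a (by simp)
    have hb := hlt b (by simp)
    have hc := hlt c (by simp)
    have hd := hlt d (by simp)
    have hz := hlt z (by simp)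
    simp only [List.cons_append, List.nil_append, List.nodup_cons, List.mem_cons,
      List.not_mem_nil, or_false, not_or] at hnd
    obtain ⟨⟨nab, nac, nad, naz⟩, ⟨nbc, nbd, nbz⟩, ⟨ncd, ncz⟩, ndz, _⟩ := hnd
    have hE : ⁅x, ⁅x, ⁅x, ⁅x, cj g x⁆⁆⁆⁆ = 1 := he.conj g x
    show ω ⁅upd v 4 (cj g x) a, ⁅upd v 4 (cj g x) b, ⁅upd v 4 (cj g x) c,
      ⁅upd v 4 (cj g x) d, upd v 4 (cj g x) z⁆⁆⁆⁆ = 0
    by_cases z4 : z = 4
    · rw [ux a ha (by omega), ux b hb (by omega), ux c hc (by omega), ux d hd (by omega), u4 z z4,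
        hE, hω.one]
    by_cases d4 : d = 4
    · rw [ux a ha (by omega), ux b hb (by omega), ux c hc (by omega), ux z hz z4, u4 d d4]
      have h3 : F.Sym 1 (fun y => ω ⁅x, ⁅x, ⁅x, y⁆⁆⁆) :=
        ((hω.left (i := 0) (j := 3) rfl hx.1).left (i := 0) (j := 2) rfl hx.1).left
          (i := 0) (j := 1) rfl hx.1
      have h4 := h3.antisymm (i := 0) (j := 0) rfl (F.cj_mem g hx.1) hx.1
      rw [h4, hE, hω.one, neg_zero]
    · rw [ux d hd d4, ux z hz z4]
      simp only [commutatorElement_self, commutatorElement_one_right]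
      exact hω.one

end

end Run7.h607
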