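import Mathlib
import Pool.Agent.Run7.h607.Chain5
import Pool.Agent.Run7.h607.Step5
import Pool.Agent.Run7.h607.Tors

/-! Metabelian normal closures have class at most four. -/

namespace Run7.h607

universe u v

open scoped commutatorElement

section
variable {G : Type u} [Group G] {F : Filt G}

lemma vl_zero {A : Type v} {ω : G → A} {g : G} {v : ℕ → F.N 0}
    {w : List (ℕ × ℕ)} {z : ℕ × ℕ} (h : sE w z = 0) :
    vl ω g v w z = ω (rb ((w.map Prod.fst).map fun l => (v l : G)) (v z.1)) := by
  have h1 : (w.map Prod.snd).sum = 0 ∧ z.2 = 0 := by unfold sE at h; omega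
  have h2 : ∀ p ∈ w, p.2 = 0 := by
    intro p hp
    have h3 : p.2 ≤ (w.map Prod.snd).sum :=
      List.single_le_sum (fun _ _ => Nat.zero_le _) _ (List.mem_map_of_mem hp)
    omega
  unfold vl dw
  rw [List.map_map, h1.2]
  congr 2
  apply List.map_congr_left
  intro p hp
  rw [h2 p hp]
  rfl

theorem stepT {x : G} (hx : Gen F x) (he : Eng x) (hM : Met F) {q : ℕ}
    (hq : q = 1 ∨ q = 2 ∨ q = 3)
    (H : ∀ (A : Type v) [AddCommGroup A], Trs A → ZK F A x 4 (q + 1)) :
    ∀ (A : Type v) [AddCommGroup A], Trs A → ZK F A x 4 q := by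
  intro A _ hT
  refine ZK_step hx (by omega) (H A hT) ?_
  intro ω hω g v hv
  refine nakV hT hω 4096 (fun A' _ ω' => B5 ω' g v) nf5 ?_ ?_ ?_ ?_
  · intro A' _ f k; rfl
  · intro w z hw; exact nf5_sound hx he hM hω hw
  · intro w z hw p hp; exact (nf5_keys hw p hp).1
  · intro A' _ hT' ω' hω' p hp hpv k _
    obtain ⟨w, z, h1, h2, _⟩ := B5_vl ω' g v k
    show B5 ω' g v k = 0
    rw [h2]
    by_cases hs : 1 ≤ sE w z
    · exact van5 hx he hM hω' hp hpv (q := q + 1) (by omega) (H A' hT') hv w z h1 hs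
    · rw [vl_zero (by omega)]
      exact H A' hT' ω' hω' v hv (w.map Prod.fst) z.1 h1

/-- All the commutators of weight five vanish, metabelian case. -/
theorem weight_five {x : G} (hx : Gen F x) (he : Eng x) (hM : Met F) {A : Type v}
    [AddCommGroup A] (hT : Trs A) {ω : G → A} (hω : F.Sym 4 ω) {a b c d e : G}
    (ha : a ∈ F.N 0) (hb : b ∈ F.N 0) (hc : c ∈ F.N 0) (hd : d ∈ F.N 0) (he' : e ∈ F.N 0) :
    ω ⁅a, ⁅b, ⁅c, ⁅d, e⁆⁆⁆⁆ = 0 := by
  have h3 := stepT (F := F) hx he hM (q := 3) (by norm_num)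
    (fun (A : Type v) [AddCommGroup A] _ => ZK_base (A := A) hx he)
  have h2 := stepT hx he hM (q := 2) (by norm_num) h3
  have h1 := stepT hx he hM (q := 1) (by norm_num) h2
  have h0 := ZK_last hx (h1 A hT)
  exact h0 ω hω (fun l => if l = 0 then ⟨a, ha⟩ else if l = 1 then ⟨b, hb⟩ else
    if l = 2 then ⟨c, hc⟩ else if l = 3 then ⟨d, hd⟩ else ⟨e, he'⟩) (by simp) [0, 1, 2, 3] 4
    (by decide)

end

/-- generation of the lower central series by right-normed commutators -/
lemma lcs_gen {G : Type u} [Group G] {N : Subgroup G} [N.Normal] {A : Type v} [AddCommGroup A]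
    {ω : G → A} (hω : (lcsF N).Sym 4 ω)
    (main : ∀ a ∈ N, ∀ b ∈ N, ∀ c ∈ N, ∀ d ∈ N, ∀ e ∈ N, ω ⁅a, ⁅b, ⁅c, ⁅d, e⁆⁆⁆⁆ = 0) :
    ∀ y ∈ N.lowerCentralSeries 4, ω y = 0 := by
  refine lcs_ind (k := 3) hω ?_
  intro p hp q hq
  refine lcs_ind (k := 2) (φ := fun p => ω ⁅p, q⁆) (hω.right (i := 3) (j := 0) rfl hq) ?_ p hp
  intro r hr s hs
  have s3 : (lcsF N).Sym 3 (fun p => ω ⁅p, q⁆) := hω.right (i := 3) (j := 0) rfl hq
  refine lcs_ind (k := 1) (φ := fun r => ω ⁅⁅r, s⁆, q⁆) (s3.right (i := 2) (j := 0) rfl hs) ?_ r hr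
  intro t ht u hu
  have s2 : (lcsF N).Sym 2 (fun r => ω ⁅⁅r, s⁆, q⁆) := s3.right (i := 2) (j := 0) rfl hs
  refine lcs_ind (k := 0) (φ := fun t => ω ⁅⁅⁅t, u⁆, s⁆, q⁆)
    (s2.right (i := 1) (j := 0) rfl hu) ?_ t ht
  intro a ha b hb
  have ha0 : a ∈ (lcsF N).N 0 := ha
  have hb0 : b ∈ (lcsF N).N 0 := hb
  have hu0 : u ∈ (lcsF N).N 0 := hu
  have hs0 : s ∈ (lcsF N).N 0 := hs
  have hq0 : q ∈ (lcsF N).N 0 := hq
  have hab := (lcsF N).com1 ha0 hb0
  have habu := (lcsF N).com2 hab hu0
  have habus := (lcsF N).com2 habu hs0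
  have e1 := hω.antisymm (i := 3) (j := 0) rfl habus hq0
  have e2 := (hω.left (i := 0) (j := 3) rfl hq0).antisymm (i := 2) (j := 0) rfl habu hs0
  have e3 := ((hω.left (i := 0) (j := 3) rfl hq0).left (i := 0) (j := 2) rfl hs0).antisymm
    (i := 1) (j := 0) rfl hab hu0
  show ω ⁅⁅⁅⁅a, b⁆, u⁆, s⁆, q⁆ = 0
  rw [e1, e2, e3, main q hq s hs u hu a ha b hb]
  simp

/-- Class at most four, for class at most five. -/
theorem class_four_aux {G : Type u} [Group G] {x : G} (he : Eng x)
    (h5 : (Subgroup.normalClosure {x}).lowerCentralSeries 5 = ⊥)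
    (hM : ∀ a ∈ (Subgroup.normalClosure {x}).lowerCentralSeries 1,
      ∀ b ∈ (Subgroup.normalClosure {x}).lowerCentralSeries 1, ⁅a, b⁆ = 1) :
    (Subgroup.normalClosure {x}).lowerCentralSeries 4 = ⊥ := by
  classical
  set N := Subgroup.normalClosure {x} with hN
  set F := lcsF N with hF
  have hnil : Group.IsNilpotent N :=
    (Subgroup.isNilpotent_iff_lowerCentralSeries N).mpr ⟨5, h5⟩
  have hcomm : ∀ a b : N.lowerCentralSeries 4, a * b = b * a := by
    intro a b
    have h1 : ⁅(a:G), (b:G)⁆ ∈ F.N (4+4+1) := F.com 4 4 _ _ a.2 b.2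
    have h2 : ⁅(a:G), (b:G)⁆ ∈ F.N 5 := F.anti' (by norm_num) h1
    have h3 : ⁅(a:G), (b:G)⁆ = 1 := by
      have : ⁅(a:G), (b:G)⁆ ∈ N.lowerCentralSeries 5 := h2
      rw [h5] at this
      exact Subgroup.mem_bot.mp this
    apply Subtype.ext
    exact commutatorElement_eq_one_iff_mul_comm.mp h3
  let _ : CommGroup (N.lowerCentralSeries 4) :=
    { (inferInstance : Group (N.lowerCentralSeries 4)) with mul_comm := hcomm }
  let ω : G → Additive (N.lowerCentralSeries 4) := fun g =>
    if h : g ∈ N.lowerCentralSeries 4 then Additive.ofMul ⟨g, h⟩ else 0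
  have hω : F.Sym 4 ω := by
    constructor
    · intro a b ha hb
      have ha' : a ∈ N.lowerCentralSeries 4 := ha
      have hb' : b ∈ N.lowerCentralSeries 4 := hb
      simp only [ω, dif_pos ha', dif_pos hb', dif_pos (mul_mem ha' hb')]
      rfl
    · intro a ha
      have ha' : a ∈ N.lowerCentralSeries 5 := ha
      rw [h5] at ha'
      have : a = 1 := Subgroup.mem_bot.mp ha'
      subst this
      simp only [ω, dif_pos (one_mem (N.lowerCentralSeries 4))]
      rfl
  have hω0 : ∀ y ∈ N.lowerCentralSeries 4, ω y = 0 → y = 1 := by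
    intro y hy h
    simp only [ω, dif_pos hy] at h
    have h2 : (⟨y, hy⟩ : N.lowerCentralSeries 4) = 1 := h
    exact congrArg Subtype.val h2
  have hT : Trs (Additive (N.lowerCentralSeries 4)) := by
    intro q
    obtain ⟨j, hj⟩ := gamma_four he hnil ((Additive.toMul q : N.lowerCentralSeries 4) : G)
      (N.lowerCentralSeries_antitone (by norm_num) (Additive.toMul q).2)
    refine ⟨j, ?_⟩
    have h1 : (Additive.toMul q) ^ (30 ^ j) = 1 := Subtype.ext hj
    have h2 : ((30 ^ j : ℕ)) • q = 0 := h1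
    have h3 : (((30 ^ j : ℕ)) : ℤ) • q = 0 := by rw [natCast_zsmul]; exact h2
    push_cast at h3
    exact h3
  have hgen : Gen F x := gen_normalClosure x
  have hMet : Met F := by
    intro a b y ha hb hy
    exact hM _ (F.com1 ha hb) y hy
  rw [eq_bot_iff]
  intro y hy
  rw [Subgroup.mem_bot]
  apply hω0 y hy
  exact lcs_gen hω (fun a ha b hb c hc d hd e he' =>
    weight_five hgen he hMet hT hω ha hb hc hd he') y hy

/-- a nilpotent normal closure which is metabelian has class at most four -/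
theorem metabelian_class {G : Type u} [Group G] {x : G} (he : Eng x)
    (hn : Group.IsNilpotent (Subgroup.normalClosure {x} : Subgroup G))
    (hM : ∀ a ∈ (Subgroup.normalClosure {x}).lowerCentralSeries 1,
      ∀ b ∈ (Subgroup.normalClosure {x}).lowerCentralSeries 1, ⁅a, b⁆ = 1) :
    (Subgroup.normalClosure {x}).lowerCentralSeries 4 = ⊥ := by
  set N := Subgroup.normalClosure {x} with hN
  -- the quotient by the sixth term
  have h45 : N.lowerCentralSeries 4 ≤ N.lowerCentralSeries 5 := by
    set K := N.lowerCentralSeries 5 with hK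
    let π := QuotientGroup.mk' K
    have hπ : Function.Surjective π := QuotientGroup.mk'_surjective K
    have hmap : N.map π = Subgroup.normalClosure {π x} := by
      have h0 := Subgroup.map_normalClosure ({x} : Set G) π hπ
      rw [Set.image_singleton] at h0
      exact h0
    have hE : Eng (π x) := by
      intro h'
      obtain ⟨h, rfl⟩ := hπ h'
      rw [← map_commutatorElement, ← map_commutatorElement, ← map_commutatorElement,
        ← map_commutatorElement, he h, map_one]
    have h5 : (Subgroup.normalClosure {π x}).lowerCentralSeries 5 = ⊥ := by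
      rw [← hmap, ← Subgroup.map_lowerCentralSeries, Subgroup.map_eq_bot_iff,
        QuotientGroup.ker_mk']
    have h4 := class_four_aux hE h5 (by
      intro a ha b hb
      rw [← hmap, ← Subgroup.map_lowerCentralSeries] at ha hb
      obtain ⟨a', ha', rfl⟩ := ha
      obtain ⟨b', hb', rfl⟩ := hb
      rw [← map_commutatorElement, hM a' ha' b' hb', map_one])
    rw [← hmap, ← Subgroup.map_lowerCentralSeries, Subgroup.map_eq_bot_iff,
      QuotientGroup.ker_mk'] at h4
    exact h4
  -- descend
  have hall : ∀ t, N.lowerCentralSeries 4 ≤ N.lowerCentralSeries (4 + t) := by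
    intro t
    induction t with
    | zero => exact le_rfl
    | succ t ih =>
      have h1 : N.lowerCentralSeries 5 ≤ N.lowerCentralSeries (4 + t + 1) := by
        rw [Subgroup.lowerCentralSeries_succ, Subgroup.lowerCentralSeries_succ]
        exact Subgroup.commutator_mono ih le_rfl
      exact h45.trans h1
  obtain ⟨c, hc⟩ := (Subgroup.isNilpotent_iff_lowerCentralSeries N).mp hn
  rw [eq_bot_iff]
  refine (hall c).trans ?_
  rw [← hc]
  exact N.lowerCentralSeries_antitone (Nat.le_add_left c 4)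

/-- In a nilpotent normal closure the fifth term of the lower central series is contained in the
second derived subgroup. -/
theorem gamma_five_le {G : Type u} [Group G] {x : G} (he : Eng x)
    (hn : Group.IsNilpotent (Subgroup.normalClosure {x} : Subgroup G)) :
    (Subgroup.normalClosure {x}).lowerCentralSeries 4 ≤
      ⁅(Subgroup.normalClosure {x}).lowerCentralSeries 1,
        (Subgroup.normalClosure {x}).lowerCentralSeries 1⁆ := by
  set N := Subgroup.normalClosure {x} with hN
  set K := ⁅N.lowerCentralSeries 1, N.lowerCentralSeries 1⁆ with hK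
  have : K.Normal := inferInstance
  let π := QuotientGroup.mk' K
  have hπ : Function.Surjective π := QuotientGroup.mk'_surjective K
  have hmap : N.map π = Subgroup.normalClosure {π x} := by
    have h0 := Subgroup.map_normalClosure ({x} : Set G) π hπ
    rw [Set.image_singleton] at h0
    exact h0
  have hE : Eng (π x) := by
    intro h'
    obtain ⟨h, rfl⟩ := hπ h'
    rw [← map_commutatorElement, ← map_commutatorElement, ← map_commutatorElement,
      ← map_commutatorElement, he h, map_one]
  obtain ⟨c, hc⟩ := (Subgroup.isNilpotent_iff_lowerCentralSeries N).mp hn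
  have hn' : Group.IsNilpotent (Subgroup.normalClosure {π x} : Subgroup (G ⧸ K)) := by
    apply (Subgroup.isNilpotent_iff_lowerCentralSeries _).mpr
    refine ⟨c, ?_⟩
    rw [← hmap, ← Subgroup.map_lowerCentralSeries, hc, Subgroup.map_bot]
  have h4 := metabelian_class hE hn' (by
    intro a ha b hb
    rw [← hmap, ← Subgroup.map_lowerCentralSeries] at ha hb
    obtain ⟨a', ha', rfl⟩ := ha
    obtain ⟨b', hb', rfl⟩ := hb
    rw [← map_commutatorElement]
    exact (QuotientGroup.eq_one_iff _).mpr (Subgroup.commutator_mem_commutator ha' hb'))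
  rw [← hmap, ← Subgroup.map_lowerCentralSeries, Subgroup.map_eq_bot_iff,
    QuotientGroup.ker_mk'] at h4
  exact h4

end Run7.h607
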