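import Mathlib
import Pool.Agent.Run7.h607.Lev5
import Pool.Agent.Run7.h607.Step5
import Pool.Agent.Run7.h607.Tors

/-! Two lemmas of `Fin5`, here without the certificates of the metabelian case. -/

namespace Run7.h607

universe u v

open scoped commutatorElement

section
variable {G : Type u} [Group G] {F : Filt G}

lemma vl_zero6 {A : Type v} {ω : G → A} {g : G} {v : ℕ → F.N 0}
    {w : List (ℕ × ℕ)} {z : ℕ × ℕ} (h : sE w z = 0) :
    vl ω g v w z = ω (rb ((w.map Prod.fst).map fun l => (v l : G)) (v z.1)) := by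
  have h1 : (w.map Prod.snd).sum = 0 ∧ z.2 = 0 := by unfold sE at h; omega
  have h2 : ∀ p ∈ w, p.2 = 0 := by
    intro p hp
    have h3 : p.2 ≤ (w.map Prod.snd).sum :=
      List.single_le_sum (fun _ _ => Nat.zero_le _) _ (List.mem_map_of_mem hp)
    omega
  unfold vl dw
  rw [List.map_map, h1.2]
  congr 2
  apply List.map_congr_left
  intro p hp
  rw [h2 p hp]
  rfl

end

/-- generation of the lower central series by right-normed commutators -/
lemma lcs_gen5 {G : Type u} [Group G] {N : Subgroup G} [N.Normal] {A : Type v} [AddCommGroup A]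
    {ω : G → A} (hω : (lcsF N).Sym 4 ω)
    (main : ∀ a ∈ N, ∀ b ∈ N, ∀ c ∈ N, ∀ d ∈ N, ∀ e ∈ N, ω ⁅a, ⁅b, ⁅c, ⁅d, e⁆⁆⁆⁆ = 0) :
    ∀ y ∈ N.lowerCentralSeries 4, ω y = 0 := by
  refine lcs_ind (k := 3) hω ?_
  intro p hp q hq
  refine lcs_ind (k := 2) (φ := fun p => ω ⁅p, q⁆) (hω.right (i := 3) (j := 0) rfl hq) ?_ p hp
  intro r hr s hs
  have s3 : (lcsF N).Sym 3 (fun p => ω ⁅p, q⁆) := hω.right (i := 3) (j := 0) rfl hq
  refine lcs_ind (k := 1) (φ := fun r => ω ⁅⁅r, s⁆, q⁆) (s3.right (i := 2) (j := 0) rfl hs) ?_ r hr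
  intro t ht u hu
  have s2 : (lcsF N).Sym 2 (fun r => ω ⁅⁅r, s⁆, q⁆) := s3.right (i := 2) (j := 0) rfl hs
  refine lcs_ind (k := 0) (φ := fun t => ω ⁅⁅⁅t, u⁆, s⁆, q⁆)
    (s2.right (i := 1) (j := 0) rfl hu) ?_ t ht
  intro a ha b hb
  have ha0 : a ∈ (lcsF N).N 0 := ha
  have hb0 : b ∈ (lcsF N).N 0 := hb
  have hu0 : u ∈ (lcsF N).N 0 := hu
  have hs0 : s ∈ (lcsF N).N 0 := hs
  have hq0 : q ∈ (lcsF N).N 0 := hq
  have hab := (lcsF N).com1 ha0 hb0
  have habu := (lcsF N).com2 hab hu0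
  have habus := (lcsF N).com2 habu hs0
  have e1 := hω.antisymm (i := 3) (j := 0) rfl habus hq0
  have e2 := (hω.left (i := 0) (j := 3) rfl hq0).antisymm (i := 2) (j := 0) rfl habu hs0
  have e3 := ((hω.left (i := 0) (j := 3) rfl hq0).left (i := 0) (j := 2) rfl hs0).antisymm
    (i := 1) (j := 0) rfl hab hu0
  show ω ⁅⁅⁅⁅a, b⁆, u⁆, s⁆, q⁆ = 0
  rw [e1, e2, e3, main q hq s hs u hu a ha b hb]
  simp

end Run7.h607
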