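import Mathlib
import Pool.Agent.Run7.h607.Sys

/-! Normal forms of commutators: moving a letter to the end. -/

namespace Run7.h607

universe u v

open scoped commutatorElement

/-- expansion of the adjoint action of a right-normed commutator -/
def axL : List (ℕ × ℕ) → ℕ × ℕ → List (ℤ × List (ℕ × ℕ))
  | [], z => [(1, [z])]
  | a :: w, z => (axL w z).flatMap fun t => [(t.1, a :: t.2), (-t.1, t.2 ++ [a])]

/-- move the letter `j` to the end -/
def spl (j : ℕ) (z : ℕ × ℕ) : List (ℕ × ℕ) → List (ℕ × ℕ) → List Wt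
  | pre, [] => [(1, pre, z)]
  | pre, a :: w =>
    if a.1 = j then (axL w z).map (fun t => (-t.1, pre ++ t.2, a)) else spl j z (pre ++ [a]) w

/-- normal form of a word -/
def nfW (j : ℕ) (w : List (ℕ × ℕ)) (z : ℕ × ℕ) : List Wt :=
  if z.1 = j then [(1, w, z)] else spl j z [] w

/-- normal form of a list of words -/
def nfA (j : ℕ) (L : List Wt) : List Wt :=
  L.flatMap fun t => (nfW j t.2.1 t.2.2).map fun s => (t.1 * s.1, s.2)

section
variable {G : Type u} [Group G] {F : Filt G} {A : Type v} [AddCommGroup A]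

/-- value of a word -/
def vu (ω : G → A) (u : ℕ × ℕ → F.N 0) (w : List (ℕ × ℕ)) (z : ℕ × ℕ) : A :=
  ω (rb (w.map fun p => (u p : G)) (u z))

/-- value of a list of words -/
def evU (ω : G → A) (u : ℕ × ℕ → F.N 0) (L : List Wt) : A :=
  (L.map fun t => t.1 • vu ω u t.2.1 t.2.2).sum

lemma mapu_mem (u : ℕ × ℕ → F.N 0) (w : List (ℕ × ℕ)) :
    ∀ a ∈ w.map (fun p => (u p : G)), a ∈ F.N 0 := by
  intro a ha
  simp only [List.mem_map] at ha
  obtain ⟨p, _, rfl⟩ := ha
  exact (u p).2

lemma sum_flatMap_two {α : Type*} (L : List α) (f g : α → ℤ × List (ℕ × ℕ))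
    (h : ℤ × List (ℕ × ℕ) → A) :
    ((L.flatMap fun t => [f t, g t]).map h).sum = (L.map fun t => h (f t) + h (g t)).sum := by
  induction L with
  | nil => rfl
  | cons t L ih =>
    simp only [List.flatMap_cons, List.map_append, List.sum_append, List.map_cons, List.map_nil,
      List.sum_cons, List.sum_nil, ih]
    abel

lemma sum_map_sub' {α : Type*} (L : List α) (f g : α → A) :
    (L.map fun t => f t - g t).sum = (L.map f).sum - (L.map g).sum := by
  induction L with
  | nil => simp
  | cons t L ih => simp only [List.map_cons, List.sum_cons, ih]; abel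

lemma neg_sum' {α : Type*} (L : List α) (f : α → A) :
    -(L.map f).sum = (L.map fun t => - f t).sum := by
  induction L with
  | nil => simp
  | cons t L ih => simp only [List.map_cons, List.sum_cons, ← ih]; abel

lemma axL_sound (u : ℕ × ℕ → F.N 0) (z : ℕ × ℕ) (w : List (ℕ × ℕ)) :
    ∀ {m : ℕ} {φ : G → A} {y : G}, F.Sym (m + w.length + 1) φ → y ∈ F.N m →
    φ ⁅rb (w.map fun p => (u p : G)) (u z), y⁆ =
      ((axL w z).map fun t => t.1 • φ (rb (t.2.map fun p => (u p : G)) y)).sum := by
  induction w with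
  | nil =>
    intro m φ y hφ hy
    simp [axL, rb]
  | cons a w ih =>
    intro m φ y hφ hy
    have hlen : (a :: w).length = w.length + 1 := rfl
    rw [hlen] at hφ
    set Y := rb (w.map fun p => (u p : G)) (u z) with hY
    have hYm : Y ∈ F.N w.length := by
      have := rb_mem (mapu_mem u w) (u z).2
      rwa [List.length_map, zero_add] at this
    have e1 : rb ((a :: w).map fun p => (u p : G)) (u z) = ⁅(u a : G), Y⁆ := rfl
    rw [e1, hφ.jacobi (i := 0) (j := w.length) (l := m) (by omega) (u a).2 hYm hy]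
    have h1 := ih (m := m) (φ := fun t => φ ⁅(u a : G), t⁆) (y := y)
      (hφ.left (i := 0) (by omega) (u a).2) hy
    have h2 := ih (m := m + 1) (φ := φ) (y := ⁅(u a : G), y⁆)
      (by rw [show m + 1 + w.length + 1 = m + (w.length + 1) + 1 by omega]; exact hφ)
      (F.com1 (u a).2 hy)
    rw [h1, h2, axL, sum_flatMap_two, ← sum_map_sub']
    congr 1
    apply List.map_congr_left
    intro t _
    simp only [List.map_cons, List.map_append, rb_append, List.map_nil, neg_smul]
    show t.1 • φ _ - t.1 • φ _ = t.1 • φ _ + -(t.1 • φ _)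
    rw [sub_eq_add_neg]
    rfl

lemma spl_sound {K : ℕ} {ω : G → A} (hω : F.Sym K ω) (u : ℕ × ℕ → F.N 0) (j : ℕ) (z : ℕ × ℕ)
    (w : List (ℕ × ℕ)) : ∀ pre : List (ℕ × ℕ), pre.length + w.length = K →
    evU ω u (spl j z pre w) = vu ω u (pre ++ w) z := by
  induction w with
  | nil => intro pre _; simp [spl, evU]
  | cons a w ih =>
    intro pre hK
    have hlen : (a :: w).length = w.length + 1 := rfl
    rw [hlen] at hK
    unfold spl
    split_ifs with h
    · have hs : F.Sym (w.length + 1) (fun y => ω (rb (pre.map fun p => (u p : G)) y)) := by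
        apply sym_last
        · rw [List.length_map, show w.length + 1 + pre.length = K by omega]; exact hω
        · exact mapu_mem u pre
      have hYm : rb (w.map fun p => (u p : G)) (u z) ∈ F.N w.length := by
        have := rb_mem (mapu_mem u w) (u z).2
        rwa [List.length_map, zero_add] at this
      have h1 : vu ω u (pre ++ a :: w) z = (fun y => ω (rb (pre.map fun p => (u p : G)) y))
          ⁅(u a : G), rb (w.map fun p => (u p : G)) (u z)⁆ := by
        unfold vu
        rw [List.map_append, List.map_cons, rb_append]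
        rfl
      have h2 := hs.antisymm (i := 0) (j := w.length) (by omega) (u a).2 hYm
      have h3 := axL_sound u z w (m := 0) (by rw [zero_add]; exact hs) (u a).2
      rw [h1.trans (h2.trans (congrArg Neg.neg h3))]
      unfold evU
      rw [List.map_map, neg_sum']
      congr 1
      apply List.map_congr_left
      intro t _
      simp only [Function.comp, neg_smul, vu, List.map_append, rb_append]
    · rw [ih (pre ++ [a]) (by rw [List.length_append, List.length_singleton]; omega)]
      rw [List.append_assoc]; rfl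

lemma nfW_sound {K : ℕ} {ω : G → A} (hω : F.Sym K ω) (u : ℕ × ℕ → F.N 0) (j : ℕ)
    {w : List (ℕ × ℕ)} (hw : w.length = K) (z : ℕ × ℕ) :
    evU ω u (nfW j w z) = vu ω u w z := by
  unfold nfW
  split_ifs with h
  · simp [evU]
  · rw [spl_sound hω u j z w [] (by simpa using hw)]; rfl

lemma evU_append (ω : G → A) (u : ℕ × ℕ → F.N 0) (L M : List Wt) :
    evU ω u (L ++ M) = evU ω u L + evU ω u M := by simp [evU]

lemma evU_scale (ω : G → A) (u : ℕ × ℕ → F.N 0) (c : ℤ) (L : List Wt) :
    evU ω u (L.map fun s => (c * s.1, s.2)) = c • evU ω u L := by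
  induction L with
  | nil => simp [evU]
  | cons t L ih =>
    simp only [evU, List.map_cons, List.sum_cons, smul_add, mul_smul] at ih ⊢
    rw [ih]

lemma nfA_sound {K : ℕ} {ω : G → A} (hω : F.Sym K ω) (u : ℕ × ℕ → F.N 0) (j : ℕ)
    (L : List Wt) (hL : ∀ t ∈ L, t.2.1.length = K) : evU ω u (nfA j L) = evU ω u L := by
  induction L with
  | nil => rfl
  | cons t L ih =>
    have h1 := ih (fun s hs => hL s (List.mem_cons_of_mem _ hs))
    unfold nfA at h1 ⊢
    rw [List.flatMap_cons, evU_append, evU_scale, nfW_sound hω u j (hL t List.mem_cons_self), h1]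
    simp [evU]

end

/-! ### coded words -/

/-- code of a word -/
def cW : List (ℕ × ℕ) → ℕ × ℕ → ℕ
  | [], z => z.1 + 8 * z.2
  | p :: w, z => p.1 + 8 * p.2 + 64 * cW w z

/-- decoding -/
def dW : ℕ → ℕ → List (ℕ × ℕ) × (ℕ × ℕ)
  | 0, k => ([], (k % 8, k / 8))
  | r + 1, k => ((k % 8, k / 8 % 8) :: (dW r (k / 64)).1, (dW r (k / 64)).2)

/-- good words -/
def gW : ℕ → List (ℕ × ℕ) → ℕ × ℕ → Bool
  | 0, [], z => Nat.blt z.1 8
  | r + 1, p :: w, z => Nat.blt p.1 8 && Nat.blt p.2 8 && gW r w z
  | _, _, _ => false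

lemma dW_cW (r : ℕ) : ∀ (w : List (ℕ × ℕ)) (z : ℕ × ℕ), gW r w z = true → dW r (cW w z) = (w, z) := by
  induction r with
  | zero =>
    intro w z h
    cases w with
    | nil =>
      simp only [gW, Nat.blt_eq] at h
      have e1 : (z.1 + 8 * z.2) % 8 = z.1 := by omega
      have e2 : (z.1 + 8 * z.2) / 8 = z.2 := by omega
      simp only [dW, cW, e1, e2]
    | cons p w => simp [gW] at h
  | succ r ih =>
    intro w z h
    cases w with
    | nil => simp [gW] at h
    | cons p w =>
      simp only [gW, Bool.and_eq_true, Nat.blt_eq] at h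
      obtain ⟨⟨h1, h2⟩, h3⟩ := h
      have e1 : (p.1 + 8 * p.2 + 64 * cW w z) % 8 = p.1 := by omega
      have e2 : (p.1 + 8 * p.2 + 64 * cW w z) / 8 % 8 = p.2 := by omega
      have e3 : (p.1 + 8 * p.2 + 64 * cW w z) / 64 = cW w z := by omega
      simp only [dW, cW, e1, e2, e3, ih w z h3]

/-- coded list -/
def keyW (L : List Wt) : List (ℤ × ℕ) := L.map fun t => (t.1, cW t.2.1 t.2.2)

/-- formal equality modulo `p` -/
def eqW (r f : ℕ) (p : ℤ) (L M : List Wt) : Bool :=
  (L.all fun t => gW r t.2.1 t.2.2) && (M.all fun t => gW r t.2.1 t.2.2) &&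
    smallF f (keyW L) && smallF f (keyW M) &&
    (addR f (-1) (keyW M) (addR f 1 (keyW L) .n)).zp p .n

section
variable {G : Type u} [Group G] {F : Filt G} {A : Type v} [AddCommGroup A]

lemma evU_key (ω : G → A) (u : ℕ × ℕ → F.N 0) (r : ℕ) (L : List Wt)
    (h : (L.all fun t => gW r t.2.1 t.2.2) = true) :
    evU ω u L = ev (fun k => vu ω u (dW r k).1 (dW r k).2) (keyW L) := by
  induction L with
  | nil => rfl
  | cons t L ih =>
    simp only [List.all_cons, Bool.and_eq_true] at h
    have h1 := ih h.2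
    simp only [evU, keyW, List.map_cons, List.sum_cons, ev] at h1 ⊢
    rw [h1, dW_cW r _ _ h.1]

theorem eqW_sound {p : ℤ} (hp : ∀ a : A, p • a = 0) (ω : G → A) (u : ℕ × ℕ → F.N 0) {r f : ℕ}
    {L M : List Wt} (h : eqW r f p L M = true) : evU ω u L = evU ω u M := by
  simp only [eqW, Bool.and_eq_true] at h
  obtain ⟨⟨⟨⟨h1, h2⟩, h3⟩, h4⟩, h5⟩ := h
  have e := evT_zp p _ (fun k => vu ω u (dW r k).1 (dW r k).2) .n (fun _ => hp _) trivial h5
  rw [evT_addR f _ _ _ _ h4, evT_addR f _ _ _ _ h3] at e
  rw [evU_key ω u r L h1, evU_key ω u r M h2]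
  simp only [evT, add_zero, neg_smul, one_smul] at e
  rw [neg_add_eq_zero] at e
  exact e.symm

end

end Run7.h607
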