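import Mathlib
import Pool.Agent.Run7.h607.NF
import Pool.Agent.Run7.h607.Lev5

/-! Keys of the words of length five, by position. -/

namespace Run7.h607

universe u v

open scoped commutatorElement

/-- identify the first letters -/
def clsE (q : ℕ) (p : ℕ × ℕ) : ℕ × ℕ := (if p.1 < q then 0 else p.1, p.2)

/-- key of a word which ends in the letter `4` -/
def ksW (q : ℕ) : List (ℕ × ℕ) → ℕ → Option ℕ
  | [], e => if Nat.blt 3 e then none else some e
  | p :: w, e => match ksW q w e with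
    | none => none
    | some r => if Nat.blt 3 p.2 then none else some ((clsE q p).1 + 4 * p.2 + 16 * r)

/-- decoding of keys -/
def dK : ℕ → ℕ → List (ℕ × ℕ) × ℕ
  | 0, k => ([], k)
  | r + 1, k => ((k % 4, k / 4 % 4) :: (dK r (k / 16)).1, (dK r (k / 16)).2)

/-- list of keys -/
def rwK (q : ℕ) : List Wt → List (ℤ × ℕ)
  | [] => []
  | t :: L => match ksW q t.2.1 t.2.2.2 with
    | none => rwK q L
    | some k => (t.1, k) :: rwK q L

lemma clsE_lt {q : ℕ} {p : ℕ × ℕ} (h : p.1 < 4) : (clsE q p).1 < 4 := by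
  unfold clsE
  split_ifs
  · norm_num
  · exact h

lemma ks_some {q : ℕ} {w : List (ℕ × ℕ)} : ∀ {e k : ℕ}, ksW q w e = some k →
    (∀ p ∈ w, p.1 < 4) → dK w.length k = (w.map (clsE q), e) ∧ (∀ p ∈ w, p.2 ≤ 3) ∧ e ≤ 3 := by
  induction w with
  | nil =>
    intro e k h _
    simp only [ksW] at h
    split_ifs at h with h1
    simp only [Option.some.injEq] at h
    subst h
    rw [Nat.blt_eq, not_lt] at h1
    exact ⟨rfl, by simp, h1⟩
  | cons p w ih =>
    intro e k h hl
    simp only [ksW] at h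
    rcases hr : ksW q w e with _ | r
    · rw [hr] at h; simp at h
    · rw [hr] at h
      simp only at h
      split_ifs at h with h1
      simp only [Option.some.injEq] at h
      obtain ⟨i1, i2, i3⟩ := ih hr (fun p' hp' => hl p' (List.mem_cons_of_mem _ hp'))
      rw [Nat.blt_eq, not_lt] at h1
      have hc := clsE_lt (q := q) (hl p List.mem_cons_self)
      have e1 : k % 4 = (clsE q p).1 := by omega
      have e2 : k / 4 % 4 = p.2 := by omega
      have e3 : k / 16 = r := by omega
      refine ⟨?_, ?_, i3⟩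
      · rw [List.length_cons, dK, e1, e2, e3, i1]
        rfl
      · intro p' hp'
        rcases List.mem_cons.mp hp' with rfl | h'
        · exact h1
        · exact i2 p' h'

lemma ks_none {q : ℕ} {w : List (ℕ × ℕ)} {e : ℕ} (h : ksW q w e = none) :
    (∃ p ∈ w, 4 ≤ p.2) ∨ 4 ≤ e := by
  induction w with
  | nil =>
    simp only [ksW] at h
    split_ifs at h with h1
    rw [Nat.blt_eq] at h1
    right; exact h1
  | cons p w ih =>
    simp only [ksW] at h
    rcases hr : ksW q w e with _ | r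
    · rcases ih hr with ⟨p', h1, h2⟩ | h1
      · left; exact ⟨p', List.mem_cons_of_mem _ h1, h2⟩
      · right; exact h1
    · rw [hr] at h
      simp only at h
      split_ifs at h with h1
      rw [Nat.blt_eq] at h1
      left; exact ⟨p, List.mem_cons_self, h1⟩

section
variable {G : Type u} [Group G] {F : Filt G} {A : Type v} [AddCommGroup A]

/-- value of a key -/
def BK (ω : G → A) (g : G) (v : ℕ → F.N 0) (k : ℕ) : A := vl ω g v (dK 4 k).1 (4, (dK 4 k).2)

lemma vl_cls {ω : G → A} {g : G} {v : ℕ → F.N 0} {q : ℕ} (hv : ∀ l < q, v l = v 0)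
    (w : List (ℕ × ℕ)) (z : ℕ × ℕ) : vl ω g v (w.map (clsE q)) z = vl ω g v w z := by
  unfold vl dw
  rw [List.map_map]
  congr 2
  apply List.map_congr_left
  intro p _
  simp only [Function.comp, clsE]
  split_ifs with h
  · rw [hv _ h]
  · rfl

lemma PW5_len {w : List (ℕ × ℕ)} {z : ℕ × ℕ} (h : PW 5 w z) : w.length = 4 := by
  have := h.length_eq
  simp only [List.length_append, List.length_map, List.length_singleton,
    List.length_range] at this
  omega

lemma PW5_lt {w : List (ℕ × ℕ)} {z : ℕ × ℕ} (h : PW 5 w z) (hz : z.1 = 4) : ∀ p ∈ w, p.1 < 4 := by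
  intro p hp
  have h1 : p.1 ∈ w.map Prod.fst := List.mem_map_of_mem hp
  have h2 : p.1 < 5 := List.mem_range.mp (h.mem_iff.mp (List.mem_append_left _ h1))
  have h3 : p.1 ≠ 4 := by
    intro hc
    have hn : (w.map Prod.fst ++ [z.1]).Nodup := (List.Perm.nodup_iff h).mpr List.nodup_range
    rw [List.nodup_append] at hn
    exact hn.2.2 _ h1 z.1 (by simp) (by rw [hc, hz])
  omega

lemma ks_val {x : G} (hx : Gen F x) (he : Eng x) {ω : G → A} (hω : F.Sym 4 ω) {g : G}
    {v : ℕ → F.N 0} {q : ℕ} (hv : ∀ l < q, v l = v 0) {w : List (ℕ × ℕ)} {z : ℕ × ℕ}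
    (hw : PW 5 w z) (hz : z.1 = 4) :
    (∀ k, ksW q w z.2 = some k → BK ω g v k = vl ω g v w z) ∧
    (ksW q w z.2 = none → vl ω g v w z = 0) := by
  constructor
  · intro k hk
    obtain ⟨h1, _, _⟩ := ks_some hk (PW5_lt hw hz)
    rw [PW5_len hw] at h1
    unfold BK
    rw [h1, vl_cls hv]
    have : z = (4, z.2) := Prod.ext hz rfl
    conv_rhs => rw [this]
  · intro hk
    apply vl_big hx he hω hw
    rw [List.any_eq_true]
    rcases ks_none hk with ⟨p, h1, h2⟩ | h1
    · exact ⟨p, List.mem_append_left _ h1, by rw [Nat.ble_eq]; exact h2⟩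
    · exact ⟨z, by simp, by rw [Nat.ble_eq]; exact h1⟩

lemma rwK_sound {x : G} (hx : Gen F x) (he : Eng x) {ω : G → A} (hω : F.Sym 4 ω) {g : G}
    {v : ℕ → F.N 0} {q : ℕ} (hv : ∀ l < q, v l = v 0) (L : List Wt)
    (hL : ∀ t ∈ L, PW 5 t.2.1 t.2.2 ∧ t.2.2.1 = 4) :
    ev (BK ω g v) (rwK q L) = evW ω g v L := by
  induction L with
  | nil => rfl
  | cons t L ih =>
    have h1 := ih (fun s hs => hL s (List.mem_cons_of_mem _ hs))
    obtain ⟨a1, a2⟩ := hL t List.mem_cons_self
    obtain ⟨b1, b2⟩ := ks_val hx he hω (g := g) (v := v) hv a1 a2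
    have e : evW ω g v (t :: L) = t.1 • vl ω g v t.2.1 t.2.2 + evW ω g v L := by simp [evW]
    rw [e, rwK]
    rcases hk : ksW q t.2.1 t.2.2.2 with _ | k
    · simp only [h1, b2 hk, smul_zero, zero_add]
    · simp only [ev, h1, b1 k hk]

/-! ### the letters of the normal form -/

omit [Group G] [AddCommGroup A] in
lemma axL_perm (z : ℕ × ℕ) (w : List (ℕ × ℕ)) : ∀ t ∈ axL w z, t.2.Perm (w ++ [z]) := by
  induction w with
  | nil =>
    intro t ht
    simp only [axL, List.mem_singleton] at ht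
    rw [ht]
    exact List.Perm.refl _
  | cons a w ih =>
    intro t ht
    simp only [axL, List.mem_flatMap, List.mem_cons, List.not_mem_nil, or_false] at ht
    obtain ⟨t', ht', h | h⟩ := ht
    · rw [h]
      exact List.Perm.cons a (ih t' ht')
    · rw [h]
      exact (List.perm_append_singleton a t'.2).trans (List.Perm.cons a (ih t' ht'))

lemma spl_perm (j : ℕ) (z : ℕ × ℕ) (w : List (ℕ × ℕ)) : ∀ pre : List (ℕ × ℕ),
    (∃ p ∈ w, p.1 = j) → ∀ s ∈ spl j z pre w,
      (s.2.1 ++ [s.2.2]).Perm (pre ++ w ++ [z]) ∧ s.2.2.1 = j := by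
  induction w with
  | nil => intro pre h; obtain ⟨p, hp, _⟩ := h; simp at hp
  | cons a w ih =>
    intro pre h s hs
    unfold spl at hs
    split_ifs at hs with ha
    · simp only [List.mem_map] at hs
      obtain ⟨t, ht, rfl⟩ := hs
      refine ⟨?_, ha⟩
      have h1 := axL_perm z w t ht
      show (pre ++ t.2 ++ [a]).Perm _
      rw [List.append_assoc, List.append_assoc]
      refine (List.Perm.refl pre).append ?_
      exact (List.perm_append_singleton a t.2).trans (List.Perm.cons a h1)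
    · obtain ⟨p, hp, hj⟩ := h
      have h2 : ∃ p ∈ w, p.1 = j := by
        rcases List.mem_cons.mp hp with rfl | h'
        · exact absurd hj ha
        · exact ⟨p, h', hj⟩
      have h3 := ih (pre ++ [a]) h2 s hs
      refine ⟨?_, h3.2⟩
      have e : pre ++ [a] ++ w = pre ++ a :: w := by rw [List.append_assoc]; rfl
      rw [e] at h3
      exact h3.1

lemma nfW_perm {j : ℕ} {w : List (ℕ × ℕ)} {z : ℕ × ℕ} (h : ∃ p ∈ w ++ [z], p.1 = j) :
    ∀ s ∈ nfW j w z, (s.2.1 ++ [s.2.2]).Perm (w ++ [z]) ∧ s.2.2.1 = j := by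
  intro s hs
  unfold nfW at hs
  split_ifs at hs with hz
  · rw [List.mem_singleton] at hs
    rw [hs]
    exact ⟨List.Perm.refl _, hz⟩
  · obtain ⟨p, hp, hj⟩ := h
    have h2 : ∃ p ∈ w, p.1 = j := by
      rcases List.mem_append.mp hp with h' | h'
      · exact ⟨p, h', hj⟩
      · rw [List.mem_singleton] at h'
        subst h'
        exact absurd hj hz
    have := spl_perm j z w [] h2 s hs
    simpa using this

lemma PW_of_perm {w w' : List (ℕ × ℕ)} {z z' : ℕ × ℕ} (h : (w' ++ [z']).Perm (w ++ [z]))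
    (hw : PW 5 w z) : PW 5 w' z' := by
  unfold PW at *
  have h1 := h.map Prod.fst
  rw [List.map_append, List.map_append] at h1
  exact h1.trans hw

lemma sE_of_perm {w w' : List (ℕ × ℕ)} {z z' : ℕ × ℕ} (h : (w' ++ [z']).Perm (w ++ [z])) :
    sE w' z' = sE w z := by
  have h1 := (h.map Prod.snd).sum_eq
  rw [List.map_append, List.map_append, List.sum_append, List.sum_append] at h1
  unfold sE
  simpa using h1

/-- vanishing of the words which end in the letter `4` -/
lemma van_of_last {ω : G → A} (hω : F.Sym 4 ω) {g : G} {v : ℕ → F.N 0} {R : ℕ}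
    (h : ∀ w z, PW 5 w z → z.1 = 4 → R ≤ sE w z → vl ω g v w z = 0) : VanK ω g v 5 R := by
  intro w z hw hs
  have h4 : ∃ p ∈ w ++ [z], p.1 = 4 := by
    have : 4 ∈ w.map Prod.fst ++ [z.1] := hw.mem_iff.mpr (by simp)
    rcases List.mem_append.mp this with h' | h'
    · simp only [List.mem_map] at h'
      obtain ⟨p, hp, hp4⟩ := h'
      exact ⟨p, List.mem_append_left _ hp, hp4⟩
    · rw [List.mem_singleton] at h'
      exact ⟨z, by simp, h'.symm⟩
  have h1 := nfW_sound hω (fun p => (dd F g)^[p.2] (v p.1)) 4 (PW5_len hw) z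
  have h2 : vu ω (fun p => (dd F g)^[p.2] (v p.1)) w z = vl ω g v w z := rfl
  rw [← h2, ← h1]
  unfold evU
  apply List.sum_eq_zero
  intro a ha
  simp only [List.mem_map] at ha
  obtain ⟨s, hs', rfl⟩ := ha
  obtain ⟨p1, p2⟩ := nfW_perm h4 s hs'
  have h3 := h s.2.1 s.2.2 (PW_of_perm p1 hw) p2 (by rw [sE_of_perm p1]; exact hs)
  have h5 : vu ω (fun p => (dd F g)^[p.2] (v p.1)) s.2.1 s.2.2 = vl ω g v s.2.1 s.2.2 := rfl
  rw [h5, h3, smul_zero]

end

end Run7.h607
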