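import Mathlib
import Pool.Agent.Run7.h607.Key5

/-! Fast position keys. -/

namespace Run7.h607

universe u v

open scoped commutatorElement

/-- digit of a letter -/
def dgt (q : ℕ) (p : ℕ × ℕ) : ℕ := (clsE q p).1 + 4 * (clsE q p).2

/-- number of a list of digits -/
def kc : List ℕ → ℕ → ℕ
  | [], e => e
  | d :: L, e => d + 16 * kc L e

lemma kc_append (L M : List ℕ) (e : ℕ) : kc (L ++ M) e = kc L 0 + 16 ^ L.length * kc M e := by
  induction L with
  | nil => simp [kc]
  | cons d L ih => simp only [List.cons_append, kc, ih, List.length_cons]; ring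

/-- numerical version of `axL` -/
def axN : List ℕ → ℕ → List (ℤ × ℕ)
  | [], z => [(1, z)]
  | a :: w, z => (axN w z).flatMap fun t => [(t.1, a + 16 * t.2),
      (-t.1, t.2 + 16 ^ (w.length + 1) * a)]

lemma axL_len (z : ℕ × ℕ) (w : List (ℕ × ℕ)) : ∀ t ∈ axL w z, t.2.length = w.length + 1 := by
  intro t ht
  have := (axL_perm z w t ht).length_eq
  simpa using this

lemma flatMap_two_map {α β : Type*} (L : List α) (f g : α → α) (h : α → β) (f' g' : β → β)
    (hf : ∀ t ∈ L, h (f t) = f' (h t)) (hg : ∀ t ∈ L, h (g t) = g' (h t)) :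
    (L.flatMap fun t => [f t, g t]).map h = (L.map h).flatMap fun t => [f' t, g' t] := by
  induction L with
  | nil => rfl
  | cons t L ih =>
    simp only [List.flatMap_cons, List.map_append, List.map_cons, List.map_nil]
    rw [hf t List.mem_cons_self, hg t List.mem_cons_self,
      ih (fun s hs => hf s (List.mem_cons_of_mem _ hs)) (fun s hs => hg s (List.mem_cons_of_mem _ hs))]

lemma axN_eq (q : ℕ) (z : ℕ × ℕ) (w : List (ℕ × ℕ)) :
    axN (w.map (dgt q)) (dgt q z) = (axL w z).map fun t => (t.1, kc (t.2.map (dgt q)) 0) := by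
  induction w with
  | nil => simp [axN, axL, kc]
  | cons a w ih =>
    simp only [List.map_cons, axN, axL]
    rw [ih, ← flatMap_two_map (axL w z) (fun t => (t.1, a :: t.2)) (fun t => (-t.1, t.2 ++ [a]))
      (fun t => (t.1, kc (t.2.map (dgt q)) 0))]
    · intro t _
      rfl
    · intro t ht
      have hl := axL_len z w t ht
      simp only [List.map_append, List.map_cons, List.map_nil, kc_append, List.length_map, kc, hl,
        mul_zero, add_zero]

/-- numerical version of `spl` -/
def splN (q : ℕ) (z : ℕ) : ℕ → ℕ → List (ℕ × ℕ) → List (ℤ × ℕ)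
  | pre, _, [] => [(1, pre)]
  | pre, s, a :: w =>
    if Nat.beq a.1 4 then (axN (w.map (dgt q)) z).map fun t =>
      (-t.1, pre + s * t.2 + 65536 * a.2)
    else splN q z (pre + s * dgt q a) (16 * s) w

/-- position key normal form -/
def nfK (q : ℕ) (w : List (ℕ × ℕ)) (z : ℕ × ℕ) : List (ℤ × ℕ) :=
  if (w ++ [z]).any (fun p => Nat.ble 4 p.2) then []
  else if Nat.beq z.1 4 then [(1, kc (w.map (dgt q)) z.2)]
  else splN q (dgt q z) 0 1 w

lemma splN_eq (q : ℕ) (z : ℕ × ℕ) (w : List (ℕ × ℕ)) : ∀ pre : List (ℕ × ℕ),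
    pre.length + w.length = 4 → (∃ p ∈ w, p.1 = 4) →
    splN q (dgt q z) (kc (pre.map (dgt q)) 0) (16 ^ pre.length) w =
      (spl 4 z pre w).map fun t => (t.1, kc (t.2.1.map (dgt q)) t.2.2.2) := by
  induction w with
  | nil => intro pre _ h; obtain ⟨p, hp, _⟩ := h; simp at hp
  | cons a w ih =>
    intro pre hlen hm
    rw [List.length_cons] at hlen
    unfold splN spl
    by_cases ha : a.1 = 4
    · rw [if_pos ha, if_pos (by rw [ha]; rfl), axN_eq, List.map_map, List.map_map]
      apply List.map_congr_left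
      intro t ht
      have hl := axL_len z w t ht
      simp only [Function.comp, List.map_append, kc_append, List.length_map]
      have e : ∀ (L : List ℕ) (e : ℕ), kc L e = kc L 0 + 16 ^ L.length * e := by
        intro L e
        have := kc_append L [] e
        rw [List.append_nil] at this
        rw [this]; rfl
      rw [e (t.2.map (dgt q)) a.2, List.length_map, hl]
      have h4 : pre.length + (w.length + 1) = 4 := by omega
      have h5 : (65536 : ℕ) = 16 ^ pre.length * 16 ^ (w.length + 1) := by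
        rw [← pow_add, h4]; norm_num
      rw [h5]
      refine Prod.ext rfl ?_
      simp only
      ring
    · have hb : ¬ (Nat.beq a.1 4 = true) := by rw [Nat.beq_eq]; exact ha
      rw [if_neg ha, if_neg hb]
      obtain ⟨p, hp, hp4⟩ := hm
      have h2 : ∃ p ∈ w, p.1 = 4 := by
        rcases List.mem_cons.mp hp with rfl | h'
        · exact absurd hp4 ha
        · exact ⟨p, h', hp4⟩
      rw [← ih (pre ++ [a]) (by rw [List.length_append, List.length_singleton]; omega) h2]
      congr 1
      · rw [List.map_append, kc_append, List.length_map]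
        simp [kc]
      · rw [List.length_append, List.length_singleton, pow_succ]; ring

lemma ksW_eq {q : ℕ} {w : List (ℕ × ℕ)} {e : ℕ} (hw : ∀ p ∈ w, p.2 ≤ 3) (he : e ≤ 3) :
    ksW q w e = some (kc (w.map (dgt q)) e) := by
  induction w with
  | nil =>
    unfold ksW kc
    rw [if_neg]
    · rfl
    · rw [Nat.blt_eq]; omega
  | cons p w ih =>
    have h1 := ih (fun p' hp' => hw p' (List.mem_cons_of_mem _ hp'))
    have h2 := hw p List.mem_cons_self
    simp only [ksW, h1, List.map_cons, kc]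
    rw [if_neg (by rw [Nat.blt_eq]; omega)]
    rfl

lemma rwK_eq {q : ℕ} (L : List Wt) (h : ∀ t ∈ L, ∀ p ∈ t.2.1 ++ [t.2.2], p.2 ≤ 3) :
    rwK q L = L.map fun t => (t.1, kc (t.2.1.map (dgt q)) t.2.2.2) := by
  induction L with
  | nil => rfl
  | cons t L ih =>
    have h1 := h t List.mem_cons_self
    rw [rwK, ksW_eq (fun p hp => h1 p (List.mem_append_left _ hp)) (h1 t.2.2 (by simp))]
    simp only [List.map_cons]
    rw [ih (fun s hs => h s (List.mem_cons_of_mem _ hs))]

section
variable {G : Type u} [Group G] {F : Filt G} {A : Type v} [AddCommGroup A]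

lemma mem4 {w : List (ℕ × ℕ)} {z : ℕ × ℕ} (hw : PW 5 w z) : ∃ p ∈ w ++ [z], p.1 = 4 := by
  have : 4 ∈ w.map Prod.fst ++ [z.1] := hw.mem_iff.mpr (by simp)
  rcases List.mem_append.mp this with h' | h'
  · simp only [List.mem_map] at h'
    obtain ⟨p, hp, hp4⟩ := h'
    exact ⟨p, List.mem_append_left _ hp, hp4⟩
  · rw [List.mem_singleton] at h'
    exact ⟨z, by simp, h'.symm⟩

theorem nfK_sound {x : G} (hx : Gen F x) (he : Eng x) {ω : G → A} (hω : F.Sym 4 ω) {g : G}
    {v : ℕ → F.N 0} {q : ℕ} (hv : ∀ l < q, v l = v 0) {w : List (ℕ × ℕ)} {z : ℕ × ℕ}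
    (hw : PW 5 w z) : ev (BK ω g v) (nfK q w z) = vl ω g v w z := by
  unfold nfK
  by_cases hb : (w ++ [z]).any (fun p => Nat.ble 4 p.2) = true
  · rw [if_pos hb, vl_big hx he hω hw hb]; rfl
  rw [if_neg hb]
  have hsm : ∀ p ∈ w ++ [z], p.2 ≤ 3 := by
    intro p hp
    by_contra hc
    apply hb
    rw [List.any_eq_true]
    exact ⟨p, hp, by rw [Nat.ble_eq]; omega⟩
  have hp := nfW_perm (mem4 hw)
  have hall : ∀ t ∈ nfW 4 w z, PW 5 t.2.1 t.2.2 ∧ t.2.2.1 = 4 := fun t ht =>
    ⟨PW_of_perm (hp t ht).1 hw, (hp t ht).2⟩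
  have h1 := rwK_sound hx he hω (g := g) (v := v) hv (nfW 4 w z) hall
  have h2 : evW ω g v (nfW 4 w z) = vl ω g v w z :=
    nfW_sound hω (fun p => (dd F g)^[p.2] (v p.1)) 4 (PW5_len hw) z
  have h3 : rwK q (nfW 4 w z) =
      (nfW 4 w z).map fun t => (t.1, kc (t.2.1.map (dgt q)) t.2.2.2) := by
    apply rwK_eq
    intro t ht p hp'
    exact hsm p ((hp t ht).1.mem_iff.mp hp')
  rw [← h2, ← h1, h3]
  congr 1
  unfold nfW
  by_cases hz : z.1 = 4
  · rw [if_pos hz, if_pos (by rw [hz]; rfl)]
    rfl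
  · have hz' : ¬ (Nat.beq z.1 4 = true) := by rw [Nat.beq_eq]; exact hz
    rw [if_neg hz, if_neg hz']
    have hm : ∃ p ∈ w, p.1 = 4 := by
      obtain ⟨p, hp', h4⟩ := mem4 hw
      rcases List.mem_append.mp hp' with h' | h'
      · exact ⟨p, h', h4⟩
      · rw [List.mem_singleton] at h'
        subst h'
        exact absurd h4 hz
    exact splN_eq q z w [] (by simpa using PW5_len hw) hm

end

end Run7.h607
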