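import Mathlib
import Pool.Agent.Run7.h607.Nf5

/-! The checker with flags for groups of keys; targets. -/

namespace Run7.h607

universe u v

open scoped commutatorElement

/-- flag several keys -/
def flL (f : ℕ) : List ℕ → T → T
  | [], Z => Z
  | k :: L, Z => flL f L (ins f k 1 Z)

/-- run the steps, each proving that one key vanishes -/
def run6 (f : ℕ) (p : ℤ) (row : ℕ → List (ℤ × ℕ)) (ok : ℕ → Bool) (grp : ℕ → List ℕ) :
    List Step2 → T → Option T
  | [], Z => some Z
  | s :: L, Z =>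
    match s.F with
    | [q] => if q.1 = 1 then
        (if stOk f row ok p [] Z s then run6 f p row ok grp L (flL f (q.2 :: grp q.2) Z) else none)
      else none
    | _ => none

lemma FO_flL {Q : Type v} [AddCommGroup Q] (f : ℕ) (B : ℕ → Q) (L : List ℕ) : ∀ Z : T,
    (∀ k ∈ L, B k = 0) → FO B Z → FO B (flL f L Z) := by
  induction L with
  | nil => intro Z _ h; exact h
  | cons k L ih =>
    intro Z hL h
    exact ih _ (fun k' hk' => hL k' (List.mem_cons_of_mem _ hk'))
      (FO_ins _ _ _ _ _ (hL k List.mem_cons_self) h)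

theorem run6_sound {Q : Type v} [AddCommGroup Q] {f : ℕ} {p : ℤ} (B : ℕ → Q)
    (hp : ∀ k, p • B k = 0) {row : ℕ → List (ℤ × ℕ)} {ok : ℕ → Bool} {grp : ℕ → List ℕ}
    (hrow : ∀ i, ok i = true → ev B (row i) = 0)
    (hgrp : ∀ k, B k = 0 → ∀ k' ∈ grp k, B k' = 0)
    (L : List Step2) : ∀ Z Z' : T, FO B Z → run6 f p row ok grp L Z = some Z' → FO B Z' := by
  induction L with
  | nil =>
    intro Z Z' hZ h
    simp only [run6, Option.some.injEq] at h
    rw [← h]; exact hZ
  | cons s L ih =>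
    intro Z Z' hZ h
    simp only [run6] at h
    split at h
    · rename_i q hq
      split_ifs at h with h1 h2
      refine ih _ _ ?_ h
      simp only [stOk, Bool.and_eq_true] at h2
      obtain ⟨⟨a1, a2⟩, a4⟩ := h2
      have e := evT_zp p _ B Z hp hZ a4
      rw [evT_acR B hrow _ _ a1, evT_acF B [] (by simp), evT_addR f B _ _ _ a2, hq] at e
      simp only [evT, add_zero, neg_smul, one_smul, neg_eq_zero, ev, h1] at e
      apply FO_flL
      · intro k hk
        rcases List.mem_cons.mp hk with rfl | hk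
        · exact e
        · exact hgrp _ e k hk
      · exact hZ
    · exact absurd h (by simp)

/-- the whole check -/
def check6 (f : ℕ) (p : ℤ) (row : ℕ → List (ℤ × ℕ)) (ok : ℕ → Bool) (grp : ℕ → List ℕ)
    (ntok nsteps data : ℕ) (targets : List ℕ) : Bool :=
  match run6 f p row ok grp (parseSteps2 nsteps (tokens ntok data)) .n with
  | none => false
  | some Z => targets.all (fun k => T.get f k Z)

theorem check6_sound {Q : Type v} [AddCommGroup Q] {f : ℕ} {p : ℤ} (B : ℕ → Q)
    (hp : ∀ k, p • B k = 0) {row : ℕ → List (ℤ × ℕ)} {ok : ℕ → Bool} {grp : ℕ → List ℕ}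
    (hrow : ∀ i, ok i = true → ev B (row i) = 0)
    (hgrp : ∀ k, B k = 0 → ∀ k' ∈ grp k, B k' = 0) {ntok nsteps data : ℕ} {targets : List ℕ}
    (h : check6 f p row ok grp ntok nsteps data targets = true) : ∀ k ∈ targets, B k = 0 := by
  unfold check6 at h
  split at h
  · exact absurd h (by simp)
  · rename_i Z hZ
    intro k hk
    have h1 := List.all_eq_true.mp h k hk
    exact T.get_sound f B k Z
      (run6_sound B hp hrow hgrp _ _ _ (show FO B T.n from trivial) hZ) h1

/-! ### permutations and targets -/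

/-- the permutations of the first four letters -/
def p4 : List (List ℕ) :=
  (List.range 4).flatMap fun a => (List.range 4).flatMap fun b => (List.range 4).flatMap fun c =>
    (List.range 4).flatMap fun d =>
      if Nat.beq a b || Nat.beq a c || Nat.beq a d || Nat.beq b c || Nat.beq b d || Nat.beq c d
      then [] else [[a, b, c, d]]

/-- letters of a key -/
def dgs (k : ℕ) : List ℕ := [k % 16, k / 16 % 16, k / 256 % 16, k / 4096 % 16]

/-- relabel a key -/
def rlK (s : List ℕ) (k : ℕ) : ℕ :=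
  kc ((dgs k).map fun d => s.getD (d % 4) 0 + 4 * (d / 4)) (k / 65536)

/-- keys up to a permutation of the first four letters -/
def sgK (k : ℕ) : List ℕ := p4.map fun s => rlK s k

/-- code with given letters and exponents -/
def cKE (u : List ℕ) (e : ℕ) : ℕ :=
  match u with
  | [a, b, c, d] => (a + 4 * (e % 4)) + 16 * ((b + 4 * (e / 4 % 4)) + 16 * ((c + 4 * (e / 16 % 4)) +
      16 * ((d + 4 * (e / 64 % 4)) + 16 * (e / 256 % 4))))
  | _ => 0

/-- target keys -/
def tgJ (q m : ℕ) : List ℕ :=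
  p4.flatMap fun u => (xs5 m).map fun e => cKE (u.map fun l => if l < q then 0 else l) e

lemma mem_p4 {a b c d : ℕ} (ha : a < 4) (hb : b < 4) (hc : c < 4) (hd : d < 4)
    (h : [a, b, c, d].Nodup) : [a, b, c, d] ∈ p4 := by
  unfold p4
  simp only [List.mem_flatMap, List.mem_range]
  refine ⟨a, ha, b, hb, c, hc, d, hd, ?_⟩
  simp only [List.nodup_cons, List.mem_cons, List.not_mem_nil, or_false, not_or] at h
  rw [if_neg]
  · simp
  · simp only [Bool.or_eq_true, Nat.beq_eq]
    omega

lemma tgJ_mem {q m : ℕ} {w : List (ℕ × ℕ)} {z : ℕ × ℕ} (hw : PW 5 w z) (hz : z.1 = 4)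
    (hs : ∀ p ∈ w ++ [z], p.2 ≤ 3) (hm : sE w z = m) :
    kc (w.map (dgt q)) z.2 ∈ tgJ q m := by
  have hlen := PW5_len hw
  have hlt := PW5_lt hw hz
  obtain ⟨p0, p1, p2, p3, rfl⟩ : ∃ p0 p1 p2 p3, w = [p0, p1, p2, p3] := by
    rcases w with _ | ⟨p0, _ | ⟨p1, _ | ⟨p2, _ | ⟨p3, _ | ⟨p4, w⟩⟩⟩⟩⟩
    · simp at hlen
    · simp at hlen
    · simp at hlen
    · simp at hlen
    · exact ⟨p0, p1, p2, p3, rfl⟩
    · simp at hlen
  have hnd : ([p0, p1, p2, p3].map Prod.fst ++ [z.1]).Nodup :=
    (List.Perm.nodup_iff hw).mpr List.nodup_range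
  rw [List.nodup_append] at hnd
  have h0 := hlt p0 (by simp)
  have h1 := hlt p1 (by simp)
  have h2 := hlt p2 (by simp)
  have h3 := hlt p3 (by simp)
  have s0 := hs p0 (by simp)
  have s1 := hs p1 (by simp)
  have s2 := hs p2 (by simp)
  have s3 := hs p3 (by simp)
  have s4 := hs z (by simp)
  have hmem := mem_p4 h0 h1 h2 h3 hnd.1
  unfold tgJ
  rw [List.mem_flatMap]
  refine ⟨_, hmem, ?_⟩
  rw [List.mem_map]
  refine ⟨p0.2 + 4 * p1.2 + 16 * p2.2 + 64 * p3.2 + 256 * z.2, mem_xs5 _ _ (by omega) ?_, ?_⟩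
  · rw [← hm]
    unfold dsum sE
    simp only [List.map_cons, List.map_nil, List.sum_cons, List.sum_nil]
    omega
  · simp only [List.map_cons, List.map_nil, cKE, kc, dgt, clsE]
    have e0 : (p0.2 + 4 * p1.2 + 16 * p2.2 + 64 * p3.2 + 256 * z.2) % 4 = p0.2 := by omega
    have e1 : (p0.2 + 4 * p1.2 + 16 * p2.2 + 64 * p3.2 + 256 * z.2) / 4 % 4 = p1.2 := by omega
    have e2 : (p0.2 + 4 * p1.2 + 16 * p2.2 + 64 * p3.2 + 256 * z.2) / 16 % 4 = p2.2 := by omega
    have e3 : (p0.2 + 4 * p1.2 + 16 * p2.2 + 64 * p3.2 + 256 * z.2) / 64 % 4 = p3.2 := by omega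
    have e4 : (p0.2 + 4 * p1.2 + 16 * p2.2 + 64 * p3.2 + 256 * z.2) / 256 % 4 = z.2 := by omega
    rw [e0, e1, e2, e3, e4]

section
variable {G : Type u} [Group G] {F : Filt G} {A : Type v} [AddCommGroup A]

/-- vanishing of the words from the vanishing of the target keys -/
lemma van_tgJ {x : G} (hx : Gen F x) (he : Eng x) {ω : G → A} (hω : F.Sym 4 ω) {g : G}
    {v : ℕ → F.N 0} {q : ℕ} (hv : ∀ l < q, v l = v 0) {m : ℕ} (hV : VanK ω g v 5 (m + 1))
    (h : ∀ k ∈ tgJ q m, BK ω g v k = 0) : VanK ω g v 5 m := by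
  apply van_of_last hω
  intro w z hw hz hs
  by_cases hs' : m + 1 ≤ sE w z
  · exact hV w z hw hs'
  have hm : sE w z = m := by omega
  rw [← nfK_sound hx he hω (g := g) (v := v) (q := q) hv hw]
  unfold nfK
  by_cases hb : (w ++ [z]).any (fun p => Nat.ble 4 p.2) = true
  · rw [if_pos hb]; rfl
  rw [if_neg hb, if_pos (by rw [hz]; rfl)]
  have hsm : ∀ p ∈ w ++ [z], p.2 ≤ 3 := by
    intro p hp
    by_contra hc
    apply hb
    rw [List.any_eq_true]
    exact ⟨p, hp, by rw [Nat.ble_eq]; omega⟩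
  simp only [ev, h _ (tgJ_mem hw hz hsm hm), smul_zero, add_zero]

omit [AddCommGroup A] in
/-- permuting the letters -/
lemma vl_rel (ω : G → A) (g : G) (v : ℕ → F.N 0) (s : ℕ → ℕ) (w : List (ℕ × ℕ)) (z : ℕ × ℕ) :
    vl ω g (fun l => v (s l)) w z = vl ω g v (w.map fun p => (s p.1, p.2)) (s z.1, z.2) := by
  unfold vl dw
  rw [List.map_map]
  rfl

/-- the permutation of all the letters -/
def sg (s : List ℕ) (l : ℕ) : ℕ := if l < 4 then s.getD l 0 else l

lemma sg_perm : ∀ s ∈ p4, ((List.range 5).map (sg s)).Perm (List.range 5) := by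
  have h : (p4.all fun s => ((List.range 5).map (sg s)).isPerm (List.range 5)) = true := by
    decide +kernel
  intro s hs
  exact List.isPerm_iff.mp (List.all_eq_true.mp h s hs)

lemma p4_lt : ∀ s ∈ p4, ∀ i < 4, s.getD i 0 < 4 := by
  have h : (p4.all fun s => (List.range 4).all fun i => Nat.blt (s.getD i 0) 4) = true := by
    decide +kernel
  intro s hs i hi
  have h1 := List.all_eq_true.mp h s hs
  have h2 := List.all_eq_true.mp h1 i (List.mem_range.mpr hi)
  exact Nat.blt_eq.mp h2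

lemma PW_sg {s : List ℕ} (hs : s ∈ p4) {w : List (ℕ × ℕ)} {z : ℕ × ℕ} (h : PW 5 w z) :
    PW 5 (w.map fun p => (sg s p.1, p.2)) (sg s z.1, z.2) := by
  unfold PW at *
  have h1 := h.map (sg s)
  rw [List.map_append, List.map_map] at h1
  rw [List.map_map]
  exact h1.trans (sg_perm s hs)

lemma VanK_sg {ω : G → A} {g : G} {v : ℕ → F.N 0} {R : ℕ} {s : List ℕ} (hs : s ∈ p4)
    (h : VanK ω g v 5 R) : VanK ω g (fun l => v (sg s l)) 5 R := by
  intro w z hw hR
  rw [vl_rel]
  apply h _ _ (PW_sg hs hw)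
  unfold sE at *
  rw [List.map_map]
  exact hR

omit [Group G] [AddCommGroup A] in
lemma dK_kc (L : List ℕ) : ∀ e, (∀ d ∈ L, d < 16) →
    dK L.length (kc L e) = (L.map (fun d => (d % 4, d / 4)), e) := by
  induction L with
  | nil => intro e _; rfl
  | cons d L ih =>
    intro e h
    have hd := h d List.mem_cons_self
    have e1 : (d + 16 * kc L e) % 4 = d % 4 := by omega
    have e2 : (d + 16 * kc L e) / 4 % 4 = d / 4 := by omega
    have e3 : (d + 16 * kc L e) / 16 = kc L e := by omega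
    simp only [List.length_cons, kc, dK, e1, e2, e3, ih e (fun d' hd' => h d' (List.mem_cons_of_mem _ hd')),
      List.map_cons]

lemma kc_dgs (k : ℕ) : kc (dgs k) (k / 65536) = k := by
  simp only [dgs, kc]
  omega

lemma dgs_lt (k : ℕ) : ∀ d ∈ dgs k, d < 16 := by
  intro d hd
  simp only [dgs, List.mem_cons, List.not_mem_nil, or_false] at hd
  rcases hd with h | h | h | h <;> rw [h] <;> exact Nat.mod_lt _ (by norm_num)

lemma BK_rlK (ω : G → A) (g : G) (v : ℕ → F.N 0) {s : List ℕ} (hs : s ∈ p4) (k : ℕ) :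
    BK ω g v (rlK s k) = BK ω g (fun l => v (sg s l)) k := by
  unfold BK
  rw [vl_rel]
  have hlt : ∀ a : ℕ, a % 4 < 4 := fun a => Nat.mod_lt _ (by norm_num)
  have e0 : dK 4 k = ((dgs k).map (fun d => (d % 4, d / 4)), k / 65536) := by
    have := dK_kc (dgs k) (k / 65536) (dgs_lt k)
    rw [kc_dgs] at this
    exact this
  have e1 : dK 4 (rlK s k) = (((dgs k).map fun d => s.getD (d % 4) 0 + 4 * (d / 4)).map
      (fun d => (d % 4, d / 4)), k / 65536) := by
    have := dK_kc ((dgs k).map fun d => s.getD (d % 4) 0 + 4 * (d / 4)) (k / 65536) (by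
      intro d hd
      rw [List.mem_map] at hd
      obtain ⟨d', hd', rfl⟩ := hd
      have h1 := dgs_lt k d' hd'
      have h2 := p4_lt s hs (d' % 4) (hlt d')
      omega)
    exact this
  have e : dK 4 (rlK s k) = ((dK 4 k).1.map (fun p => (sg s p.1, p.2)), (dK 4 k).2) := by
    rw [e0, e1]
    simp only [List.map_map]
    refine Prod.ext ?_ rfl
    apply List.map_congr_left
    intro d hd
    have h2 := p4_lt s hs (d % 4) (hlt d)
    simp only [Function.comp, sg, hlt, if_true]
    refine Prod.ext ?_ ?_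
    · show (s.getD (d % 4) 0 + 4 * (d / 4)) % 4 = _
      omega
    · show (s.getD (d % 4) 0 + 4 * (d / 4)) / 4 = _
      omega
  rw [e]
  rfl

end

end Run7.h607
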