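import Mathlib
import Pool.Agent.Run7.h607.Grp6

/-! Templates: normal forms of the relations modulo three. -/

namespace Run7.h607

set_option maxRecDepth 1000000

/-- the relations as words in the positions -/
def L0 (ty : ℕ) : List Wt :=
  (tbl ty).map (sbT ((([(0,0),(1,0),(2,0),(3,0)] : List (ℕ × ℕ))).take (4 - rT ty))
    ((([(0,0),(1,0),(2,0),(3,0)] : List (ℕ × ℕ))).drop (4 - rT ty)) (4,0))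

/-- the list of templates -/
def tpA : List (List Wt) := [
  [(-1,[(1,0),(2,0),(3,0),(4,3)],(0,0)),
   (-1,[(1,0),(2,0),(3,2),(4,1)],(0,0)),
   (-1,[(1,0),(2,0),(3,3),(4,0)],(0,0)),
   (1,[(1,0),(2,0),(4,3),(3,0)],(0,0)),
   (1,[(1,0),(2,0),(4,1),(3,2)],(0,0)),
   (1,[(1,0),(2,0),(4,0),(3,3)],(0,0)),
   (1,[(1,0),(3,0),(4,3),(2,0)],(0,0)),
   (1,[(1,0),(3,2),(4,1),(2,0)],(0,0)),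
   (1,[(1,0),(3,3),(4,0),(2,0)],(0,0)),
   (-1,[(1,0),(4,3),(3,0),(2,0)],(0,0)),
   (-1,[(1,0),(4,1),(3,2),(2,0)],(0,0)),
   (-1,[(1,0),(4,0),(3,3),(2,0)],(0,0)),
   (1,[(2,0),(3,0),(4,3),(1,0)],(0,0)),
   (1,[(2,0),(3,2),(4,1),(1,0)],(0,0)),
   (1,[(2,0),(3,3),(4,0),(1,0)],(0,0)),
   (-1,[(2,0),(4,3),(3,0),(1,0)],(0,0)),
   (-1,[(2,0),(4,1),(3,2),(1,0)],(0,0)),
   (-1,[(2,0),(4,0),(3,3),(1,0)],(0,0)),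
   (-1,[(3,0),(4,3),(2,0),(1,0)],(0,0)),
   (-1,[(3,2),(4,1),(2,0),(1,0)],(0,0)),
   (-1,[(3,3),(4,0),(2,0),(1,0)],(0,0)),
   (1,[(4,3),(3,0),(2,0),(1,0)],(0,0)),
   (1,[(4,1),(3,2),(2,0),(1,0)],(0,0)),
   (1,[(4,0),(3,3),(2,0),(1,0)],(0,0))],
  [(-1,[(0,0),(2,0),(3,0),(4,3)],(1,0)),
   (-1,[(0,0),(2,0),(3,2),(4,1)],(1,0)),
   (-1,[(0,0),(2,0),(3,3),(4,0)],(1,0)),
   (1,[(0,0),(2,0),(4,3),(3,0)],(1,0)),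
   (1,[(0,0),(2,0),(4,1),(3,2)],(1,0)),
   (1,[(0,0),(2,0),(4,0),(3,3)],(1,0)),
   (1,[(0,0),(3,0),(4,3),(2,0)],(1,0)),
   (1,[(0,0),(3,2),(4,1),(2,0)],(1,0)),
   (1,[(0,0),(3,3),(4,0),(2,0)],(1,0)),
   (-1,[(0,0),(4,3),(3,0),(2,0)],(1,0)),
   (-1,[(0,0),(4,1),(3,2),(2,0)],(1,0)),
   (-1,[(0,0),(4,0),(3,3),(2,0)],(1,0))],
  [(-1,[(0,0),(1,0),(3,0),(4,3)],(2,0)),
   (-1,[(0,0),(1,0),(3,2),(4,1)],(2,0)),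
   (-1,[(0,0),(1,0),(3,3),(4,0)],(2,0)),
   (1,[(0,0),(1,0),(4,3),(3,0)],(2,0)),
   (1,[(0,0),(1,0),(4,1),(3,2)],(2,0)),
   (1,[(0,0),(1,0),(4,0),(3,3)],(2,0))],
  [(-1,[(0,0),(1,0),(2,0),(4,3)],(3,0)),
   (-1,[(0,0),(1,0),(2,0),(4,1)],(3,2)),
   (-1,[(0,0),(1,0),(2,0),(4,0)],(3,3))],
  [(1,[(0,0),(1,0),(2,0),(3,0)],(4,3)),
   (1,[(0,0),(1,0),(2,0),(3,2)],(4,1)),
   (1,[(0,0),(1,0),(2,0),(3,3)],(4,0))],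
  [(1,[(1,0),(2,0),(3,1),(4,1)],(0,0)),
   (-1,[(1,0),(2,1),(3,0),(4,1)],(0,0)),
   (-1,[(1,0),(2,2),(3,0),(4,0)],(0,0)),
   (1,[(1,0),(2,0),(4,0),(3,2)],(0,0)),
   (1,[(1,0),(2,2),(4,0),(3,0)],(0,0)),
   (-1,[(1,0),(3,1),(2,0),(4,1)],(0,0)),
   (-1,[(1,0),(3,2),(2,0),(4,0)],(0,0)),
   (1,[(1,0),(3,0),(2,1),(4,1)],(0,0)),
   (1,[(1,0),(3,2),(4,0),(2,0)],(0,0)),
   (1,[(1,0),(3,0),(4,0),(2,2)],(0,0)),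
   (-1,[(1,0),(4,1),(2,0),(3,1)],(0,0)),
   (-1,[(1,0),(4,0),(2,0),(3,2)],(0,0)),
   (1,[(1,0),(4,1),(2,1),(3,0)],(0,0)),
   (1,[(1,0),(4,1),(3,1),(2,0)],(0,0)),
   (-1,[(1,0),(4,1),(3,0),(2,1)],(0,0)),
   (-1,[(1,0),(4,0),(3,0),(2,2)],(0,0)),
   (-1,[(2,0),(3,1),(4,1),(1,0)],(0,0)),
   (1,[(2,1),(3,0),(4,1),(1,0)],(0,0)),
   (1,[(2,2),(3,0),(4,0),(1,0)],(0,0)),
   (-1,[(2,0),(4,0),(3,2),(1,0)],(0,0)),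
   (-1,[(2,2),(4,0),(3,0),(1,0)],(0,0)),
   (1,[(3,1),(2,0),(4,1),(1,0)],(0,0)),
   (1,[(3,2),(2,0),(4,0),(1,0)],(0,0)),
   (-1,[(3,0),(2,1),(4,1),(1,0)],(0,0)),
   (-1,[(3,2),(4,0),(2,0),(1,0)],(0,0)),
   (-1,[(3,0),(4,0),(2,2),(1,0)],(0,0)),
   (1,[(4,1),(2,0),(3,1),(1,0)],(0,0)),
   (1,[(4,0),(2,0),(3,2),(1,0)],(0,0)),
   (-1,[(4,1),(2,1),(3,0),(1,0)],(0,0)),
   (-1,[(4,1),(3,1),(2,0),(1,0)],(0,0)),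
   (1,[(4,1),(3,0),(2,1),(1,0)],(0,0)),
   (1,[(4,0),(3,0),(2,2),(1,0)],(0,0))],
  [(1,[(0,0),(2,0),(3,1),(4,1)],(1,0)),
   (-1,[(0,0),(2,1),(3,0),(4,1)],(1,0)),
   (-1,[(0,0),(2,2),(3,0),(4,0)],(1,0)),
   (1,[(0,0),(2,0),(4,0),(3,2)],(1,0)),
   (1,[(0,0),(2,2),(4,0),(3,0)],(1,0)),
   (-1,[(0,0),(3,1),(2,0),(4,1)],(1,0)),
   (-1,[(0,0),(3,2),(2,0),(4,0)],(1,0)),
   (1,[(0,0),(3,0),(2,1),(4,1)],(1,0)),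
   (1,[(0,0),(3,2),(4,0),(2,0)],(1,0)),
   (1,[(0,0),(3,0),(4,0),(2,2)],(1,0)),
   (-1,[(0,0),(4,1),(2,0),(3,1)],(1,0)),
   (-1,[(0,0),(4,0),(2,0),(3,2)],(1,0)),
   (1,[(0,0),(4,1),(2,1),(3,0)],(1,0)),
   (1,[(0,0),(4,1),(3,1),(2,0)],(1,0)),
   (-1,[(0,0),(4,1),(3,0),(2,1)],(1,0)),
   (-1,[(0,0),(4,0),(3,0),(2,2)],(1,0))],
  [(-1,[(0,0),(1,0),(3,2),(4,0)],(2,0)),
   (-1,[(0,0),(1,0),(3,0),(4,0)],(2,2)),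
   (-1,[(0,0),(1,0),(4,1),(3,1)],(2,0)),
   (1,[(0,0),(1,0),(4,1),(3,0)],(2,1)),
   (1,[(0,0),(1,0),(4,0),(3,0)],(2,2))],
  [(-1,[(0,0),(1,0),(2,0),(4,0)],(3,2)),
   (-1,[(0,0),(1,0),(2,2),(4,0)],(3,0)),
   (1,[(0,0),(1,0),(4,1),(2,0)],(3,1)),
   (1,[(0,0),(1,0),(4,0),(2,0)],(3,2)),
   (-1,[(0,0),(1,0),(4,1),(2,1)],(3,0))],
  [(-1,[(0,0),(1,0),(2,0),(3,1)],(4,1)),
   (1,[(0,0),(1,0),(2,1),(3,0)],(4,1)),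
   (1,[(0,0),(1,0),(2,2),(3,0)],(4,0)),
   (1,[(0,0),(1,0),(3,1),(2,0)],(4,1)),
   (1,[(0,0),(1,0),(3,2),(2,0)],(4,0)),
   (-1,[(0,0),(1,0),(3,0),(2,1)],(4,1))],
  [(-1,[(1,0),(2,0),(3,0),(4,1)],(0,0)),
   (1,[(1,0),(2,1),(3,0),(4,0)],(0,0)),
   (-1,[(1,1),(2,0),(3,0),(4,0)],(0,0)),
   (-1,[(1,0),(2,1),(4,0),(3,0)],(0,0)),
   (1,[(1,1),(2,0),(4,0),(3,0)],(0,0)),
   (-1,[(1,0),(3,0),(2,0),(4,1)],(0,0)),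
   (1,[(1,0),(3,1),(2,0),(4,0)],(0,0)),
   (-1,[(1,1),(3,0),(2,0),(4,0)],(0,0)),
   (-1,[(1,0),(3,1),(4,0),(2,0)],(0,0)),
   (1,[(1,1),(3,0),(4,0),(2,0)],(0,0)),
   (-1,[(1,0),(4,0),(2,0),(3,1)],(0,0)),
   (1,[(1,0),(4,0),(2,1),(3,0)],(0,0)),
   (1,[(1,0),(4,0),(3,1),(2,0)],(0,0)),
   (-1,[(1,0),(4,0),(3,0),(2,1)],(0,0)),
   (-1,[(2,0),(1,0),(3,0),(4,1)],(0,0)),
   (-1,[(2,1),(1,0),(3,0),(4,0)],(0,0)),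
   (1,[(2,0),(1,1),(3,0),(4,0)],(0,0)),
   (1,[(2,1),(1,0),(4,0),(3,0)],(0,0)),
   (-1,[(2,0),(1,1),(4,0),(3,0)],(0,0)),
   (-1,[(2,0),(3,0),(1,0),(4,1)],(0,0)),
   (1,[(2,0),(3,1),(1,0),(4,0)],(0,0)),
   (-1,[(2,1),(3,0),(1,0),(4,0)],(0,0)),
   (-1,[(2,0),(3,1),(4,0),(1,0)],(0,0)),
   (1,[(2,1),(3,0),(4,0),(1,0)],(0,0)),
   (-1,[(2,0),(4,0),(1,0),(3,1)],(0,0)),
   (1,[(2,0),(4,0),(1,1),(3,0)],(0,0)),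
   (1,[(2,0),(4,0),(3,1),(1,0)],(0,0)),
   (-1,[(2,0),(4,0),(3,0),(1,1)],(0,0)),
   (-1,[(3,0),(1,0),(2,0),(4,1)],(0,0)),
   (-1,[(3,1),(1,0),(2,0),(4,0)],(0,0)),
   (1,[(3,0),(1,1),(2,0),(4,0)],(0,0)),
   (1,[(3,1),(1,0),(4,0),(2,0)],(0,0)),
   (-1,[(3,0),(1,1),(4,0),(2,0)],(0,0)),
   (-1,[(3,0),(2,0),(1,0),(4,1)],(0,0)),
   (-1,[(3,1),(2,0),(1,0),(4,0)],(0,0)),
   (1,[(3,0),(2,1),(1,0),(4,0)],(0,0)),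
   (1,[(3,1),(2,0),(4,0),(1,0)],(0,0)),
   (-1,[(3,0),(2,1),(4,0),(1,0)],(0,0)),
   (-1,[(3,0),(4,0),(1,0),(2,1)],(0,0)),
   (1,[(3,0),(4,0),(1,1),(2,0)],(0,0)),
   (1,[(3,0),(4,0),(2,1),(1,0)],(0,0)),
   (-1,[(3,0),(4,0),(2,0),(1,1)],(0,0)),
   (1,[(4,1),(1,0),(2,0),(3,0)],(0,0)),
   (1,[(4,0),(1,0),(2,0),(3,1)],(0,0)),
   (-1,[(4,0),(1,0),(2,1),(3,0)],(0,0)),
   (1,[(4,1),(1,0),(3,0),(2,0)],(0,0)),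
   (-1,[(4,0),(1,0),(3,1),(2,0)],(0,0)),
   (1,[(4,0),(1,0),(3,0),(2,1)],(0,0)),
   (1,[(4,1),(2,0),(1,0),(3,0)],(0,0)),
   (1,[(4,0),(2,0),(1,0),(3,1)],(0,0)),
   (-1,[(4,0),(2,0),(1,1),(3,0)],(0,0)),
   (1,[(4,1),(2,0),(3,0),(1,0)],(0,0)),
   (-1,[(4,0),(2,0),(3,1),(1,0)],(0,0)),
   (1,[(4,0),(2,0),(3,0),(1,1)],(0,0)),
   (1,[(4,1),(3,0),(1,0),(2,0)],(0,0)),
   (1,[(4,0),(3,0),(1,0),(2,1)],(0,0)),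
   (-1,[(4,0),(3,0),(1,1),(2,0)],(0,0)),
   (1,[(4,1),(3,0),(2,0),(1,0)],(0,0)),
   (-1,[(4,0),(3,0),(2,1),(1,0)],(0,0)),
   (1,[(4,0),(3,0),(2,0),(1,1)],(0,0))],
  [(1,[(0,0),(2,0),(3,1),(4,0)],(1,0)),
   (-1,[(0,0),(2,1),(3,0),(4,0)],(1,0)),
   (-1,[(0,0),(2,0),(4,0),(3,1)],(1,0)),
   (1,[(0,0),(2,0),(4,0),(3,0)],(1,1)),
   (-1,[(0,0),(3,1),(2,0),(4,0)],(1,0)),
   (1,[(0,0),(3,0),(2,1),(4,0)],(1,0)),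
   (-1,[(0,0),(3,0),(4,0),(2,1)],(1,0)),
   (1,[(0,0),(3,0),(4,0),(2,0)],(1,1)),
   (-1,[(0,0),(4,1),(2,0),(3,0)],(1,0)),
   (1,[(0,0),(4,0),(2,0),(3,1)],(1,0)),
   (-1,[(0,0),(4,0),(2,0),(3,0)],(1,1)),
   (-1,[(0,0),(4,1),(3,0),(2,0)],(1,0)),
   (1,[(0,0),(4,0),(3,0),(2,1)],(1,0)),
   (-1,[(0,0),(4,0),(3,0),(2,0)],(1,1))],
  [(1,[(0,0),(1,0),(3,1),(4,0)],(2,0)),
   (-1,[(0,0),(1,1),(3,0),(4,0)],(2,0)),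
   (-1,[(0,0),(1,0),(4,0),(3,1)],(2,0)),
   (1,[(0,0),(1,0),(4,0),(3,0)],(2,1)),
   (-1,[(0,0),(3,1),(1,0),(4,0)],(2,0)),
   (1,[(0,0),(3,0),(1,1),(4,0)],(2,0)),
   (1,[(0,0),(3,0),(4,0),(1,0)],(2,1)),
   (-1,[(0,0),(3,0),(4,0),(1,1)],(2,0)),
   (-1,[(0,0),(4,1),(1,0),(3,0)],(2,0)),
   (1,[(0,0),(4,0),(1,0),(3,1)],(2,0)),
   (-1,[(0,0),(4,0),(1,0),(3,0)],(2,1)),
   (-1,[(0,0),(4,1),(3,0),(1,0)],(2,0)),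
   (-1,[(0,0),(4,0),(3,0),(1,0)],(2,1)),
   (1,[(0,0),(4,0),(3,0),(1,1)],(2,0))],
  [(1,[(0,0),(1,0),(2,1),(4,0)],(3,0)),
   (-1,[(0,0),(1,1),(2,0),(4,0)],(3,0)),
   (1,[(0,0),(1,0),(4,0),(2,0)],(3,1)),
   (-1,[(0,0),(1,0),(4,0),(2,1)],(3,0)),
   (-1,[(0,0),(2,1),(1,0),(4,0)],(3,0)),
   (1,[(0,0),(2,0),(1,1),(4,0)],(3,0)),
   (1,[(0,0),(2,0),(4,0),(1,0)],(3,1)),
   (-1,[(0,0),(2,0),(4,0),(1,1)],(3,0)),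
   (-1,[(0,0),(4,1),(1,0),(2,0)],(3,0)),
   (-1,[(0,0),(4,0),(1,0),(2,0)],(3,1)),
   (1,[(0,0),(4,0),(1,0),(2,1)],(3,0)),
   (-1,[(0,0),(4,1),(2,0),(1,0)],(3,0)),
   (-1,[(0,0),(4,0),(2,0),(1,0)],(3,1)),
   (1,[(0,0),(4,0),(2,0),(1,1)],(3,0))],
  [(1,[(0,0),(1,0),(2,0),(3,0)],(4,1)),
   (-1,[(0,0),(1,0),(2,1),(3,0)],(4,0)),
   (1,[(0,0),(1,1),(2,0),(3,0)],(4,0)),
   (1,[(0,0),(1,0),(3,0),(2,0)],(4,1)),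
   (-1,[(0,0),(1,0),(3,1),(2,0)],(4,0)),
   (1,[(0,0),(1,1),(3,0),(2,0)],(4,0)),
   (1,[(0,0),(2,0),(1,0),(3,0)],(4,1)),
   (1,[(0,0),(2,1),(1,0),(3,0)],(4,0)),
   (-1,[(0,0),(2,0),(1,1),(3,0)],(4,0)),
   (1,[(0,0),(2,0),(3,0),(1,0)],(4,1)),
   (-1,[(0,0),(2,0),(3,1),(1,0)],(4,0)),
   (1,[(0,0),(2,1),(3,0),(1,0)],(4,0)),
   (1,[(0,0),(3,0),(1,0),(2,0)],(4,1)),
   (1,[(0,0),(3,1),(1,0),(2,0)],(4,0)),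
   (-1,[(0,0),(3,0),(1,1),(2,0)],(4,0)),
   (1,[(0,0),(3,0),(2,0),(1,0)],(4,1)),
   (1,[(0,0),(3,1),(2,0),(1,0)],(4,0)),
   (-1,[(0,0),(3,0),(2,1),(1,0)],(4,0))],
  [(-1,[(1,0),(2,0),(3,0),(4,0)],(0,0)),
   (-1,[(1,0),(3,0),(2,0),(4,0)],(0,0)),
   (-1,[(1,0),(4,0),(2,0),(3,0)],(0,0)),
   (-1,[(1,0),(4,0),(3,0),(2,0)],(0,0)),
   (-1,[(2,0),(1,0),(3,0),(4,0)],(0,0)),
   (-1,[(2,0),(3,0),(1,0),(4,0)],(0,0)),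
   (-1,[(2,0),(4,0),(1,0),(3,0)],(0,0)),
   (-1,[(2,0),(4,0),(3,0),(1,0)],(0,0)),
   (-1,[(3,0),(1,0),(2,0),(4,0)],(0,0)),
   (-1,[(3,0),(2,0),(1,0),(4,0)],(0,0)),
   (-1,[(3,0),(4,0),(1,0),(2,0)],(0,0)),
   (-1,[(3,0),(4,0),(2,0),(1,0)],(0,0)),
   (1,[(4,0),(1,0),(2,0),(3,0)],(0,0)),
   (1,[(4,0),(1,0),(3,0),(2,0)],(0,0)),
   (1,[(4,0),(2,0),(1,0),(3,0)],(0,0)),
   (1,[(4,0),(2,0),(3,0),(1,0)],(0,0)),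
   (1,[(4,0),(3,0),(1,0),(2,0)],(0,0)),
   (1,[(4,0),(3,0),(2,0),(1,0)],(0,0))],
  [(-1,[(0,0),(2,0),(3,0),(4,0)],(1,0)),
   (-1,[(0,0),(3,0),(2,0),(4,0)],(1,0)),
   (-1,[(0,0),(4,0),(2,0),(3,0)],(1,0)),
   (-1,[(0,0),(4,0),(3,0),(2,0)],(1,0)),
   (-1,[(2,0),(0,0),(3,0),(4,0)],(1,0)),
   (-1,[(2,0),(3,0),(0,0),(4,0)],(1,0)),
   (-1,[(2,0),(4,0),(0,0),(3,0)],(1,0)),
   (-1,[(2,0),(4,0),(3,0),(0,0)],(1,0)),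
   (-1,[(3,0),(0,0),(2,0),(4,0)],(1,0)),
   (-1,[(3,0),(2,0),(0,0),(4,0)],(1,0)),
   (-1,[(3,0),(4,0),(0,0),(2,0)],(1,0)),
   (-1,[(3,0),(4,0),(2,0),(0,0)],(1,0)),
   (1,[(4,0),(0,0),(2,0),(3,0)],(1,0)),
   (1,[(4,0),(0,0),(3,0),(2,0)],(1,0)),
   (1,[(4,0),(2,0),(0,0),(3,0)],(1,0)),
   (1,[(4,0),(2,0),(3,0),(0,0)],(1,0)),
   (1,[(4,0),(3,0),(0,0),(2,0)],(1,0)),
   (1,[(4,0),(3,0),(2,0),(0,0)],(1,0))],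
  [(-1,[(0,0),(1,0),(3,0),(4,0)],(2,0)),
   (-1,[(0,0),(3,0),(1,0),(4,0)],(2,0)),
   (-1,[(0,0),(4,0),(1,0),(3,0)],(2,0)),
   (-1,[(0,0),(4,0),(3,0),(1,0)],(2,0)),
   (-1,[(1,0),(0,0),(3,0),(4,0)],(2,0)),
   (-1,[(1,0),(3,0),(0,0),(4,0)],(2,0)),
   (-1,[(1,0),(4,0),(0,0),(3,0)],(2,0)),
   (-1,[(1,0),(4,0),(3,0),(0,0)],(2,0)),
   (-1,[(3,0),(0,0),(1,0),(4,0)],(2,0)),
   (-1,[(3,0),(1,0),(0,0),(4,0)],(2,0)),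
   (-1,[(3,0),(4,0),(0,0),(1,0)],(2,0)),
   (-1,[(3,0),(4,0),(1,0),(0,0)],(2,0)),
   (1,[(4,0),(0,0),(1,0),(3,0)],(2,0)),
   (1,[(4,0),(0,0),(3,0),(1,0)],(2,0)),
   (1,[(4,0),(1,0),(0,0),(3,0)],(2,0)),
   (1,[(4,0),(1,0),(3,0),(0,0)],(2,0)),
   (1,[(4,0),(3,0),(0,0),(1,0)],(2,0)),
   (1,[(4,0),(3,0),(1,0),(0,0)],(2,0))],
  [(-1,[(0,0),(1,0),(2,0),(4,0)],(3,0)),
   (-1,[(0,0),(2,0),(1,0),(4,0)],(3,0)),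
   (-1,[(0,0),(4,0),(1,0),(2,0)],(3,0)),
   (-1,[(0,0),(4,0),(2,0),(1,0)],(3,0)),
   (-1,[(1,0),(0,0),(2,0),(4,0)],(3,0)),
   (-1,[(1,0),(2,0),(0,0),(4,0)],(3,0)),
   (-1,[(1,0),(4,0),(0,0),(2,0)],(3,0)),
   (-1,[(1,0),(4,0),(2,0),(0,0)],(3,0)),
   (-1,[(2,0),(0,0),(1,0),(4,0)],(3,0)),
   (-1,[(2,0),(1,0),(0,0),(4,0)],(3,0)),
   (-1,[(2,0),(4,0),(0,0),(1,0)],(3,0)),
   (-1,[(2,0),(4,0),(1,0),(0,0)],(3,0)),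
   (1,[(4,0),(0,0),(1,0),(2,0)],(3,0)),
   (1,[(4,0),(0,0),(2,0),(1,0)],(3,0)),
   (1,[(4,0),(1,0),(0,0),(2,0)],(3,0)),
   (1,[(4,0),(1,0),(2,0),(0,0)],(3,0)),
   (1,[(4,0),(2,0),(0,0),(1,0)],(3,0)),
   (1,[(4,0),(2,0),(1,0),(0,0)],(3,0))],
  [(1,[(0,0),(1,0),(2,0),(3,0)],(4,0)),
   (1,[(0,0),(1,0),(3,0),(2,0)],(4,0)),
   (1,[(0,0),(2,0),(1,0),(3,0)],(4,0)),
   (1,[(0,0),(2,0),(3,0),(1,0)],(4,0)),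
   (1,[(0,0),(3,0),(1,0),(2,0)],(4,0)),
   (1,[(0,0),(3,0),(2,0),(1,0)],(4,0)),
   (1,[(1,0),(0,0),(2,0),(3,0)],(4,0)),
   (1,[(1,0),(0,0),(3,0),(2,0)],(4,0)),
   (1,[(1,0),(2,0),(0,0),(3,0)],(4,0)),
   (1,[(1,0),(2,0),(3,0),(0,0)],(4,0)),
   (1,[(1,0),(3,0),(0,0),(2,0)],(4,0)),
   (1,[(1,0),(3,0),(2,0),(0,0)],(4,0)),
   (1,[(2,0),(0,0),(1,0),(3,0)],(4,0)),
   (1,[(2,0),(0,0),(3,0),(1,0)],(4,0)),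
   (1,[(2,0),(1,0),(0,0),(3,0)],(4,0)),
   (1,[(2,0),(1,0),(3,0),(0,0)],(4,0)),
   (1,[(2,0),(3,0),(0,0),(1,0)],(4,0)),
   (1,[(2,0),(3,0),(1,0),(0,0)],(4,0)),
   (1,[(3,0),(0,0),(1,0),(2,0)],(4,0)),
   (1,[(3,0),(0,0),(2,0),(1,0)],(4,0)),
   (1,[(3,0),(1,0),(0,0),(2,0)],(4,0)),
   (1,[(3,0),(1,0),(2,0),(0,0)],(4,0)),
   (1,[(3,0),(2,0),(0,0),(1,0)],(4,0)),
   (1,[(3,0),(2,0),(1,0),(0,0)],(4,0))],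
  [(-1,[(1,0),(2,0),(3,0),(4,1)],(0,0)),
   (-1,[(1,0),(2,0),(4,0),(3,1)],(0,0)),
   (-1,[(1,0),(2,1),(4,0),(3,0)],(0,0)),
   (1,[(1,1),(2,0),(4,0),(3,0)],(0,0)),
   (1,[(1,0),(2,0),(4,0),(3,0)],(0,1)),
   (-1,[(1,0),(3,0),(2,0),(4,1)],(0,0)),
   (-1,[(1,0),(3,1),(2,0),(4,0)],(0,0)),
   (-1,[(1,0),(3,0),(2,1),(4,0)],(0,0)),
   (1,[(1,1),(3,0),(2,0),(4,0)],(0,0)),
   (-1,[(1,0),(3,1),(4,0),(2,0)],(0,0)),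
   (-1,[(1,0),(3,0),(4,0),(2,1)],(0,0)),
   (1,[(1,1),(3,0),(4,0),(2,0)],(0,0)),
   (1,[(1,0),(3,0),(4,0),(2,0)],(0,1)),
   (-1,[(1,0),(4,1),(2,0),(3,0)],(0,0)),
   (-1,[(1,0),(4,0),(2,0),(3,1)],(0,0)),
   (-1,[(1,0),(4,0),(2,1),(3,0)],(0,0)),
   (1,[(1,0),(4,0),(2,0),(3,0)],(0,1)),
   (-1,[(1,0),(4,1),(3,0),(2,0)],(0,0)),
   (-1,[(2,0),(1,0),(3,0),(4,1)],(0,0)),
   (-1,[(2,0),(1,0),(3,1),(4,0)],(0,0)),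
   (1,[(2,1),(1,0),(3,0),(4,0)],(0,0)),
   (1,[(2,0),(1,1),(3,0),(4,0)],(0,0)),
   (1,[(2,1),(1,0),(4,0),(3,0)],(0,0)),
   (-1,[(2,0),(1,1),(4,0),(3,0)],(0,0)),
   (-1,[(2,0),(3,0),(1,0),(4,1)],(0,0)),
   (-1,[(2,0),(3,1),(1,0),(4,0)],(0,0)),
   (1,[(2,1),(3,0),(1,0),(4,0)],(0,0)),
   (-1,[(2,0),(3,0),(1,1),(4,0)],(0,0)),
   (-1,[(2,0),(3,1),(4,0),(1,0)],(0,0)),
   (1,[(2,1),(3,0),(4,0),(1,0)],(0,0)),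
   (-1,[(2,0),(3,0),(4,0),(1,1)],(0,0)),
   (1,[(2,0),(3,0),(4,0),(1,0)],(0,1)),
   (-1,[(2,0),(4,1),(1,0),(3,0)],(0,0)),
   (-1,[(2,0),(4,0),(1,0),(3,1)],(0,0)),
   (-1,[(2,0),(4,0),(1,1),(3,0)],(0,0)),
   (1,[(2,0),(4,0),(1,0),(3,0)],(0,1)),
   (-1,[(2,0),(4,1),(3,0),(1,0)],(0,0)),
   (-1,[(3,0),(1,0),(2,0),(4,1)],(0,0)),
   (1,[(3,1),(1,0),(2,0),(4,0)],(0,0)),
   (-1,[(3,0),(1,0),(2,1),(4,0)],(0,0)),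
   (1,[(3,0),(1,1),(2,0),(4,0)],(0,0)),
   (1,[(3,1),(1,0),(4,0),(2,0)],(0,0)),
   (-1,[(3,0),(1,1),(4,0),(2,0)],(0,0)),
   (-1,[(3,0),(2,0),(1,0),(4,1)],(0,0)),
   (-1,[(3,1),(2,0),(1,0),(4,0)],(0,0)),
   (1,[(3,0),(2,0),(1,1),(4,0)],(0,0)),
   (1,[(3,1),(2,0),(4,0),(1,0)],(0,0)),
   (-1,[(3,0),(2,1),(4,0),(1,0)],(0,0)),
   (-1,[(3,0),(4,1),(1,0),(2,0)],(0,0)),
   (-1,[(3,0),(4,0),(1,0),(2,1)],(0,0)),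
   (-1,[(3,0),(4,0),(1,1),(2,0)],(0,0)),
   (1,[(3,0),(4,0),(1,0),(2,0)],(0,1)),
   (-1,[(3,0),(4,1),(2,0),(1,0)],(0,0)),
   (-1,[(4,1),(1,0),(2,0),(3,0)],(0,0)),
   (-1,[(4,0),(1,0),(2,0),(3,1)],(0,0)),
   (1,[(4,0),(1,0),(2,1),(3,0)],(0,0)),
   (1,[(4,0),(1,0),(2,0),(3,0)],(0,1)),
   (1,[(4,0),(1,0),(3,0),(2,1)],(0,0)),
   (-1,[(4,0),(1,0),(3,0),(2,0)],(0,1)),
   (1,[(4,0),(2,0),(1,0),(3,1)],(0,0)),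
   (1,[(4,0),(2,0),(1,1),(3,0)],(0,0)),
   (-1,[(4,0),(2,0),(1,0),(3,0)],(0,1)),
   (1,[(4,0),(2,0),(3,0),(1,1)],(0,0)),
   (-1,[(4,0),(2,0),(3,0),(1,0)],(0,1)),
   (1,[(4,0),(3,0),(1,0),(2,1)],(0,0)),
   (1,[(4,0),(3,0),(1,1),(2,0)],(0,0)),
   (-1,[(4,0),(3,0),(1,0),(2,0)],(0,1)),
   (1,[(4,1),(3,0),(2,0),(1,0)],(0,0))],
  [(-1,[(0,0),(2,0),(3,0),(4,1)],(1,0)),
   (-1,[(0,0),(2,0),(4,0),(3,1)],(1,0)),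
   (-1,[(0,0),(2,1),(4,0),(3,0)],(1,0)),
   (1,[(0,0),(2,0),(4,0),(3,0)],(1,1)),
   (1,[(0,1),(2,0),(4,0),(3,0)],(1,0)),
   (-1,[(0,0),(3,0),(2,0),(4,1)],(1,0)),
   (-1,[(0,0),(3,1),(2,0),(4,0)],(1,0)),
   (-1,[(0,0),(3,0),(2,1),(4,0)],(1,0)),
   (1,[(0,1),(3,0),(2,0),(4,0)],(1,0)),
   (-1,[(0,0),(3,1),(4,0),(2,0)],(1,0)),
   (-1,[(0,0),(3,0),(4,0),(2,1)],(1,0)),
   (1,[(0,0),(3,0),(4,0),(2,0)],(1,1)),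
   (1,[(0,1),(3,0),(4,0),(2,0)],(1,0)),
   (-1,[(0,0),(4,1),(2,0),(3,0)],(1,0)),
   (-1,[(0,0),(4,0),(2,0),(3,1)],(1,0)),
   (-1,[(0,0),(4,0),(2,1),(3,0)],(1,0)),
   (1,[(0,0),(4,0),(2,0),(3,0)],(1,1)),
   (-1,[(0,0),(4,1),(3,0),(2,0)],(1,0)),
   (-1,[(2,0),(0,0),(3,0),(4,1)],(1,0)),
   (-1,[(2,0),(0,0),(3,1),(4,0)],(1,0)),
   (1,[(2,1),(0,0),(3,0),(4,0)],(1,0)),
   (1,[(2,0),(0,1),(3,0),(4,0)],(1,0)),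
   (1,[(2,1),(0,0),(4,0),(3,0)],(1,0)),
   (-1,[(2,0),(0,1),(4,0),(3,0)],(1,0)),
   (-1,[(2,0),(3,0),(0,0),(4,1)],(1,0)),
   (-1,[(2,0),(3,1),(0,0),(4,0)],(1,0)),
   (1,[(2,1),(3,0),(0,0),(4,0)],(1,0)),
   (-1,[(2,0),(3,0),(0,1),(4,0)],(1,0)),
   (1,[(2,0),(3,0),(4,0),(0,0)],(1,1)),
   (-1,[(2,0),(3,0),(4,0),(0,1)],(1,0)),
   (-1,[(2,0),(4,1),(0,0),(3,0)],(1,0)),
   (-1,[(2,0),(4,0),(0,0),(3,1)],(1,0)),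
   (1,[(2,0),(4,0),(0,0),(3,0)],(1,1)),
   (-1,[(2,0),(4,0),(0,1),(3,0)],(1,0)),
   (-1,[(2,0),(4,1),(3,0),(0,0)],(1,0)),
   (-1,[(2,0),(4,0),(3,1),(0,0)],(1,0)),
   (1,[(2,0),(4,0),(3,0),(0,0)],(1,1)),
   (1,[(2,0),(4,0),(3,0),(0,1)],(1,0)),
   (-1,[(3,0),(0,0),(2,0),(4,1)],(1,0)),
   (1,[(3,1),(0,0),(2,0),(4,0)],(1,0)),
   (-1,[(3,0),(0,0),(2,1),(4,0)],(1,0)),
   (1,[(3,0),(0,1),(2,0),(4,0)],(1,0)),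
   (1,[(3,1),(0,0),(4,0),(2,0)],(1,0)),
   (-1,[(3,0),(0,1),(4,0),(2,0)],(1,0)),
   (-1,[(3,0),(2,0),(0,0),(4,1)],(1,0)),
   (-1,[(3,1),(2,0),(0,0),(4,0)],(1,0)),
   (1,[(3,0),(2,0),(0,1),(4,0)],(1,0)),
   (-1,[(3,0),(4,1),(0,0),(2,0)],(1,0)),
   (-1,[(3,0),(4,0),(0,0),(2,1)],(1,0)),
   (1,[(3,0),(4,0),(0,0),(2,0)],(1,1)),
   (-1,[(3,0),(4,0),(0,1),(2,0)],(1,0)),
   (-1,[(3,0),(4,1),(2,0),(0,0)],(1,0)),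
   (-1,[(3,0),(4,0),(2,1),(0,0)],(1,0)),
   (1,[(3,0),(4,0),(2,0),(0,0)],(1,1)),
   (1,[(3,0),(4,0),(2,0),(0,1)],(1,0)),
   (-1,[(4,1),(0,0),(2,0),(3,0)],(1,0)),
   (-1,[(4,0),(0,0),(2,0),(3,1)],(1,0)),
   (1,[(4,0),(0,0),(2,1),(3,0)],(1,0)),
   (1,[(4,0),(0,0),(2,0),(3,0)],(1,1)),
   (1,[(4,0),(0,0),(3,0),(2,1)],(1,0)),
   (-1,[(4,0),(0,0),(3,0),(2,0)],(1,1)),
   (1,[(4,0),(2,0),(0,0),(3,1)],(1,0)),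
   (-1,[(4,0),(2,0),(0,0),(3,0)],(1,1)),
   (1,[(4,0),(2,0),(0,1),(3,0)],(1,0)),
   (-1,[(4,1),(2,0),(3,0),(0,0)],(1,0)),
   (1,[(4,0),(2,0),(3,1),(0,0)],(1,0)),
   (1,[(4,0),(2,0),(3,0),(0,0)],(1,1)),
   (1,[(4,0),(3,0),(0,0),(2,1)],(1,0)),
   (-1,[(4,0),(3,0),(0,0),(2,0)],(1,1)),
   (1,[(4,0),(3,0),(0,1),(2,0)],(1,0)),
   (1,[(4,0),(3,0),(2,1),(0,0)],(1,0)),
   (-1,[(4,0),(3,0),(2,0),(0,0)],(1,1)),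
   (-1,[(4,0),(3,0),(2,0),(0,1)],(1,0))],
  [(-1,[(0,0),(1,0),(3,0),(4,1)],(2,0)),
   (-1,[(0,0),(1,0),(4,0),(3,1)],(2,0)),
   (1,[(0,0),(1,0),(4,0),(3,0)],(2,1)),
   (-1,[(0,0),(1,1),(4,0),(3,0)],(2,0)),
   (1,[(0,1),(1,0),(4,0),(3,0)],(2,0)),
   (-1,[(0,0),(3,0),(1,0),(4,1)],(2,0)),
   (-1,[(0,0),(3,1),(1,0),(4,0)],(2,0)),
   (-1,[(0,0),(3,0),(1,1),(4,0)],(2,0)),
   (1,[(0,1),(3,0),(1,0),(4,0)],(2,0)),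
   (1,[(0,0),(3,0),(4,0),(1,0)],(2,1)),
   (-1,[(0,0),(3,0),(4,0),(1,1)],(2,0)),
   (-1,[(0,0),(4,1),(1,0),(3,0)],(2,0)),
   (-1,[(0,0),(4,0),(1,0),(3,1)],(2,0)),
   (1,[(0,0),(4,0),(1,0),(3,0)],(2,1)),
   (-1,[(0,0),(4,0),(1,1),(3,0)],(2,0)),
   (-1,[(0,0),(4,1),(3,0),(1,0)],(2,0)),
   (-1,[(0,0),(4,0),(3,1),(1,0)],(2,0)),
   (1,[(0,0),(4,0),(3,0),(1,0)],(2,1)),
   (1,[(0,0),(4,0),(3,0),(1,1)],(2,0)),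
   (-1,[(1,0),(0,0),(3,0),(4,1)],(2,0)),
   (-1,[(1,0),(0,0),(3,1),(4,0)],(2,0)),
   (1,[(1,1),(0,0),(3,0),(4,0)],(2,0)),
   (1,[(1,0),(0,1),(3,0),(4,0)],(2,0)),
   (1,[(1,1),(0,0),(4,0),(3,0)],(2,0)),
   (-1,[(1,0),(0,1),(4,0),(3,0)],(2,0)),
   (-1,[(1,0),(3,0),(0,0),(4,1)],(2,0)),
   (-1,[(1,0),(3,1),(0,0),(4,0)],(2,0)),
   (1,[(1,1),(3,0),(0,0),(4,0)],(2,0)),
   (-1,[(1,0),(3,0),(0,1),(4,0)],(2,0)),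
   (1,[(1,0),(3,0),(4,0),(0,0)],(2,1)),
   (-1,[(1,0),(3,0),(4,0),(0,1)],(2,0)),
   (-1,[(1,0),(4,1),(0,0),(3,0)],(2,0)),
   (-1,[(1,0),(4,0),(0,0),(3,1)],(2,0)),
   (1,[(1,0),(4,0),(0,0),(3,0)],(2,1)),
   (-1,[(1,0),(4,0),(0,1),(3,0)],(2,0)),
   (-1,[(1,0),(4,1),(3,0),(0,0)],(2,0)),
   (-1,[(1,0),(4,0),(3,1),(0,0)],(2,0)),
   (1,[(1,0),(4,0),(3,0),(0,0)],(2,1)),
   (1,[(1,0),(4,0),(3,0),(0,1)],(2,0)),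
   (-1,[(3,0),(0,0),(1,0),(4,1)],(2,0)),
   (1,[(3,1),(0,0),(1,0),(4,0)],(2,0)),
   (-1,[(3,0),(0,0),(1,1),(4,0)],(2,0)),
   (1,[(3,0),(0,1),(1,0),(4,0)],(2,0)),
   (-1,[(3,0),(1,0),(0,0),(4,1)],(2,0)),
   (-1,[(3,1),(1,0),(0,0),(4,0)],(2,0)),
   (1,[(3,0),(1,0),(0,1),(4,0)],(2,0)),
   (-1,[(3,0),(4,1),(0,0),(1,0)],(2,0)),
   (-1,[(3,0),(4,0),(0,0),(1,0)],(2,1)),
   (1,[(3,0),(4,0),(0,1),(1,0)],(2,0)),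
   (-1,[(3,0),(4,1),(1,0),(0,0)],(2,0)),
   (1,[(3,0),(4,0),(1,0),(0,0)],(2,1)),
   (-1,[(3,0),(4,0),(1,1),(0,0)],(2,0)),
   (1,[(3,0),(4,0),(1,0),(0,1)],(2,0)),
   (-1,[(4,1),(0,0),(1,0),(3,0)],(2,0)),
   (-1,[(4,0),(0,0),(1,0),(3,1)],(2,0)),
   (1,[(4,0),(0,0),(1,0),(3,0)],(2,1)),
   (1,[(4,0),(0,0),(1,1),(3,0)],(2,0)),
   (-1,[(4,1),(0,0),(3,0),(1,0)],(2,0)),
   (1,[(4,0),(0,0),(3,1),(1,0)],(2,0)),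
   (1,[(4,0),(0,0),(3,0),(1,0)],(2,1)),
   (1,[(4,0),(1,0),(0,0),(3,1)],(2,0)),
   (-1,[(4,0),(1,0),(0,0),(3,0)],(2,1)),
   (1,[(4,0),(1,0),(0,1),(3,0)],(2,0)),
   (-1,[(4,1),(1,0),(3,0),(0,0)],(2,0)),
   (1,[(4,0),(1,0),(3,1),(0,0)],(2,0)),
   (1,[(4,0),(1,0),(3,0),(0,0)],(2,1)),
   (-1,[(4,1),(3,0),(0,0),(1,0)],(2,0)),
   (1,[(4,0),(3,0),(0,0),(1,0)],(2,1)),
   (-1,[(4,0),(3,0),(0,1),(1,0)],(2,0)),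
   (-1,[(4,0),(3,0),(1,0),(0,0)],(2,1)),
   (1,[(4,0),(3,0),(1,1),(0,0)],(2,0)),
   (-1,[(4,0),(3,0),(1,0),(0,1)],(2,0))],
  [(-1,[(0,0),(1,0),(2,0),(4,1)],(3,0)),
   (1,[(0,0),(1,0),(4,0),(2,0)],(3,1)),
   (-1,[(0,0),(1,0),(4,0),(2,1)],(3,0)),
   (-1,[(0,0),(2,0),(1,0),(4,1)],(3,0)),
   (-1,[(0,0),(2,1),(1,0),(4,0)],(3,0)),
   (-1,[(0,0),(2,0),(1,1),(4,0)],(3,0)),
   (1,[(0,1),(2,0),(1,0),(4,0)],(3,0)),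
   (1,[(0,0),(2,0),(4,0),(1,0)],(3,1)),
   (-1,[(0,0),(2,0),(4,0),(1,1)],(3,0)),
   (-1,[(0,0),(4,1),(1,0),(2,0)],(3,0)),
   (-1,[(0,0),(4,0),(1,0),(2,0)],(3,1)),
   (1,[(0,0),(4,0),(1,1),(2,0)],(3,0)),
   (-1,[(0,0),(4,1),(2,0),(1,0)],(3,0)),
   (1,[(0,0),(4,0),(2,0),(1,0)],(3,1)),
   (-1,[(0,0),(4,0),(2,1),(1,0)],(3,0)),
   (1,[(0,0),(4,0),(2,0),(1,1)],(3,0)),
   (-1,[(1,0),(0,0),(2,0),(4,1)],(3,0)),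
   (-1,[(1,0),(0,0),(2,1),(4,0)],(3,0)),
   (1,[(1,1),(0,0),(2,0),(4,0)],(3,0)),
   (1,[(1,0),(0,1),(2,0),(4,0)],(3,0)),
   (-1,[(1,0),(2,0),(0,0),(4,1)],(3,0)),
   (-1,[(1,0),(2,1),(0,0),(4,0)],(3,0)),
   (1,[(1,1),(2,0),(0,0),(4,0)],(3,0)),
   (-1,[(1,0),(2,0),(0,1),(4,0)],(3,0)),
   (1,[(1,0),(2,0),(4,0),(0,0)],(3,1)),
   (-1,[(1,0),(2,0),(4,0),(0,1)],(3,0)),
   (-1,[(1,0),(4,1),(0,0),(2,0)],(3,0)),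
   (-1,[(1,0),(4,0),(0,0),(2,0)],(3,1)),
   (1,[(1,0),(4,0),(0,1),(2,0)],(3,0)),
   (-1,[(1,0),(4,1),(2,0),(0,0)],(3,0)),
   (1,[(1,0),(4,0),(2,0),(0,0)],(3,1)),
   (-1,[(1,0),(4,0),(2,1),(0,0)],(3,0)),
   (1,[(1,0),(4,0),(2,0),(0,1)],(3,0)),
   (-1,[(2,0),(0,0),(1,0),(4,1)],(3,0)),
   (1,[(2,1),(0,0),(1,0),(4,0)],(3,0)),
   (-1,[(2,0),(0,0),(1,1),(4,0)],(3,0)),
   (1,[(2,0),(0,1),(1,0),(4,0)],(3,0)),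
   (-1,[(2,0),(1,0),(0,0),(4,1)],(3,0)),
   (-1,[(2,1),(1,0),(0,0),(4,0)],(3,0)),
   (1,[(2,0),(1,0),(0,1),(4,0)],(3,0)),
   (-1,[(2,0),(4,1),(0,0),(1,0)],(3,0)),
   (-1,[(2,0),(4,0),(0,0),(1,0)],(3,1)),
   (1,[(2,0),(4,0),(0,1),(1,0)],(3,0)),
   (-1,[(2,0),(4,1),(1,0),(0,0)],(3,0)),
   (1,[(2,0),(4,0),(1,0),(0,0)],(3,1)),
   (-1,[(2,0),(4,0),(1,1),(0,0)],(3,0)),
   (1,[(2,0),(4,0),(1,0),(0,1)],(3,0)),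
   (1,[(4,1),(0,0),(1,0),(2,0)],(3,0)),
   (1,[(4,0),(0,0),(1,0),(2,1)],(3,0)),
   (-1,[(4,0),(0,0),(1,1),(2,0)],(3,0)),
   (-1,[(4,1),(0,0),(2,0),(1,0)],(3,0)),
   (1,[(4,0),(0,0),(2,0),(1,0)],(3,1)),
   (1,[(4,0),(0,0),(2,1),(1,0)],(3,0)),
   (-1,[(4,1),(1,0),(0,0),(2,0)],(3,0)),
   (1,[(4,0),(1,0),(0,0),(2,0)],(3,1)),
   (-1,[(4,0),(1,0),(0,1),(2,0)],(3,0)),
   (-1,[(4,1),(1,0),(2,0),(0,0)],(3,0)),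
   (1,[(4,0),(1,0),(2,0),(0,0)],(3,1)),
   (1,[(4,0),(1,0),(2,1),(0,0)],(3,0)),
   (-1,[(4,1),(2,0),(0,0),(1,0)],(3,0)),
   (1,[(4,0),(2,0),(0,0),(1,0)],(3,1)),
   (-1,[(4,0),(2,0),(0,1),(1,0)],(3,0)),
   (-1,[(4,0),(2,0),(1,0),(0,0)],(3,1)),
   (1,[(4,0),(2,0),(1,1),(0,0)],(3,0)),
   (-1,[(4,0),(2,0),(1,0),(0,1)],(3,0))],
  [(1,[(0,0),(1,0),(2,0),(3,0)],(4,1)),
   (1,[(0,0),(1,1),(3,0),(2,0)],(4,0)),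
   (-1,[(0,1),(1,0),(3,0),(2,0)],(4,0)),
   (1,[(0,0),(2,1),(1,0),(3,0)],(4,0)),
   (1,[(0,0),(2,0),(1,1),(3,0)],(4,0)),
   (-1,[(0,1),(2,0),(1,0),(3,0)],(4,0)),
   (1,[(0,0),(2,1),(3,0),(1,0)],(4,0)),
   (-1,[(0,1),(2,0),(3,0),(1,0)],(4,0)),
   (1,[(0,0),(3,1),(1,0),(2,0)],(4,0)),
   (1,[(0,0),(3,0),(1,1),(2,0)],(4,0)),
   (-1,[(0,1),(3,0),(1,0),(2,0)],(4,0)),
   (-1,[(0,0),(3,0),(2,0),(1,0)],(4,1)),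
   (-1,[(0,0),(3,1),(2,0),(1,0)],(4,0)),
   (1,[(0,0),(3,0),(2,1),(1,0)],(4,0)),
   (1,[(0,1),(3,0),(2,0),(1,0)],(4,0)),
   (1,[(1,0),(0,0),(2,1),(3,0)],(4,0)),
   (-1,[(1,1),(0,0),(2,0),(3,0)],(4,0)),
   (-1,[(1,0),(0,1),(2,0),(3,0)],(4,0)),
   (-1,[(1,0),(0,0),(3,0),(2,0)],(4,1)),
   (1,[(1,0),(0,0),(3,1),(2,0)],(4,0)),
   (1,[(1,1),(0,0),(3,0),(2,0)],(4,0)),
   (1,[(1,0),(2,1),(0,0),(3,0)],(4,0)),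
   (-1,[(1,1),(2,0),(0,0),(3,0)],(4,0)),
   (1,[(1,0),(2,0),(0,1),(3,0)],(4,0)),
   (1,[(1,0),(2,1),(3,0),(0,0)],(4,0)),
   (-1,[(1,1),(2,0),(3,0),(0,0)],(4,0)),
   (1,[(1,0),(3,1),(0,0),(2,0)],(4,0)),
   (-1,[(1,1),(3,0),(0,0),(2,0)],(4,0)),
   (1,[(1,0),(3,0),(0,1),(2,0)],(4,0)),
   (-1,[(1,0),(3,0),(2,0),(0,0)],(4,1)),
   (-1,[(1,0),(3,1),(2,0),(0,0)],(4,0)),
   (1,[(1,0),(3,0),(2,1),(0,0)],(4,0)),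
   (1,[(1,1),(3,0),(2,0),(0,0)],(4,0)),
   (-1,[(2,1),(0,0),(1,0),(3,0)],(4,0)),
   (1,[(2,0),(0,0),(1,1),(3,0)],(4,0)),
   (-1,[(2,0),(0,1),(1,0),(3,0)],(4,0)),
   (-1,[(2,0),(0,0),(3,0),(1,0)],(4,1)),
   (1,[(2,0),(0,0),(3,1),(1,0)],(4,0)),
   (1,[(2,1),(0,0),(3,0),(1,0)],(4,0)),
   (-1,[(2,0),(1,0),(0,0),(3,0)],(4,1)),
   (1,[(2,1),(1,0),(0,0),(3,0)],(4,0)),
   (-1,[(2,0),(1,0),(0,1),(3,0)],(4,0)),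
   (-1,[(2,0),(1,0),(3,0),(0,0)],(4,1)),
   (1,[(2,0),(1,0),(3,1),(0,0)],(4,0)),
   (1,[(2,1),(1,0),(3,0),(0,0)],(4,0)),
   (1,[(2,0),(3,1),(0,0),(1,0)],(4,0)),
   (-1,[(2,1),(3,0),(0,0),(1,0)],(4,0)),
   (1,[(2,0),(3,0),(0,1),(1,0)],(4,0)),
   (-1,[(2,0),(3,0),(1,0),(0,0)],(4,1)),
   (-1,[(2,0),(3,1),(1,0),(0,0)],(4,0)),
   (1,[(2,1),(3,0),(1,0),(0,0)],(4,0)),
   (1,[(2,0),(3,0),(1,1),(0,0)],(4,0)),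
   (-1,[(3,1),(0,0),(1,0),(2,0)],(4,0)),
   (1,[(3,0),(0,0),(1,1),(2,0)],(4,0)),
   (-1,[(3,0),(0,1),(1,0),(2,0)],(4,0)),
   (-1,[(3,0),(0,0),(2,0),(1,0)],(4,1)),
   (1,[(3,1),(0,0),(2,0),(1,0)],(4,0)),
   (1,[(3,0),(0,0),(2,1),(1,0)],(4,0)),
   (-1,[(3,0),(1,0),(0,0),(2,0)],(4,1)),
   (1,[(3,1),(1,0),(0,0),(2,0)],(4,0)),
   (-1,[(3,0),(1,0),(0,1),(2,0)],(4,0)),
   (-1,[(3,0),(1,0),(2,0),(0,0)],(4,1)),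
   (1,[(3,1),(1,0),(2,0),(0,0)],(4,0)),
   (1,[(3,0),(1,0),(2,1),(0,0)],(4,0)),
   (-1,[(3,0),(2,0),(0,0),(1,0)],(4,1)),
   (1,[(3,1),(2,0),(0,0),(1,0)],(4,0)),
   (-1,[(3,0),(2,0),(0,1),(1,0)],(4,0)),
   (1,[(3,0),(2,0),(1,0),(0,0)],(4,1)),
   (1,[(3,0),(2,1),(1,0),(0,0)],(4,0)),
   (-1,[(3,0),(2,0),(1,1),(0,0)],(4,0))]]

/-- template -/
def tpl (ty j : ℕ) : List Wt := tpA.getD (5 * (ty - 1) + j) []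

/-- check of a template -/
def tpC (ty j : ℕ) : Bool :=
  eqW 4 34 3 (nfA j (L0 ty)) (tpl ty j) &&
  ((tpl ty j).all fun t => (t.2.1.map Prod.fst ++ [t.2.2.1]).isPerm (List.range 5) &&
    Nat.beq t.2.2.1 j) && ((L0 ty).all fun t => Nat.beq t.2.1.length 4)

lemma tpC10 : tpC 1 0 = true := by decide +kernel
lemma tpC11 : tpC 1 1 = true := by decide +kernel
lemma tpC12 : tpC 1 2 = true := by decide +kernel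
lemma tpC13 : tpC 1 3 = true := by decide +kernel
lemma tpC14 : tpC 1 4 = true := by decide +kernel
lemma tpC20 : tpC 2 0 = true := by decide +kernel
lemma tpC21 : tpC 2 1 = true := by decide +kernel
lemma tpC22 : tpC 2 2 = true := by decide +kernel
lemma tpC23 : tpC 2 3 = true := by decide +kernel
lemma tpC24 : tpC 2 4 = true := by decide +kernel
lemma tpC30 : tpC 3 0 = true := by decide +kernel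
lemma tpC31 : tpC 3 1 = true := by decide +kernel
lemma tpC32 : tpC 3 2 = true := by decide +kernel
lemma tpC33 : tpC 3 3 = true := by decide +kernel
lemma tpC34 : tpC 3 4 = true := by decide +kernel
lemma tpC40 : tpC 4 0 = true := by decide +kernel
lemma tpC41 : tpC 4 1 = true := by decide +kernel
lemma tpC42 : tpC 4 2 = true := by decide +kernel
lemma tpC43 : tpC 4 3 = true := by decide +kernel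
lemma tpC44 : tpC 4 4 = true := by decide +kernel
lemma tpC50 : tpC 5 0 = true := by decide +kernel
lemma tpC51 : tpC 5 1 = true := by decide +kernel
lemma tpC52 : tpC 5 2 = true := by decide +kernel
lemma tpC53 : tpC 5 3 = true := by decide +kernel
lemma tpC54 : tpC 5 4 = true := by decide +kernel

lemma tpC_all {ty j : ℕ} (h : 1 ≤ ty ∧ ty ≤ 5) (hj : j < 5) : tpC ty j = true := by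
  obtain ⟨h1, h5⟩ := h
  interval_cases ty <;> interval_cases j
  · exact tpC10
  · exact tpC11
  · exact tpC12
  · exact tpC13
  · exact tpC14
  · exact tpC20
  · exact tpC21
  · exact tpC22
  · exact tpC23
  · exact tpC24
  · exact tpC30
  · exact tpC31
  · exact tpC32
  · exact tpC33
  · exact tpC34
  · exact tpC40
  · exact tpC41
  · exact tpC42
  · exact tpC43
  · exact tpC44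
  · exact tpC50
  · exact tpC51
  · exact tpC52
  · exact tpC53
  · exact tpC54

end Run7.h607
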