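import Mathlib
import Pool.Agent.Run7.h607.Tpl6

/-! Rows from the templates. -/

namespace Run7.h607

universe u v

open scoped commutatorElement

/-- letter at a position -/
def pP (n i : ℕ) : ℕ := n / 16 / 8 ^ i % 8

/-- exponent at a position -/
def eP (n i : ℕ) : ℕ := n / 524288 / 4 ^ i % 4

/-- relabelling -/
def rho (n : ℕ) (p : ℕ × ℕ) : ℕ × ℕ := (pP n p.1, p.2 + eP n p.1)

/-- position of the letter `4` -/
def jP (n : ℕ) : ℕ :=
  if Nat.beq (pP n 0) 4 then 0 else if Nat.beq (pP n 1) 4 then 1 else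
    if Nat.beq (pP n 2) 4 then 2 else if Nat.beq (pP n 3) 4 then 3 else 4

/-- the row -/
def rw6 (q n : ℕ) : List (ℤ × ℕ) :=
  if Nat.ble (n % 16) 5 then
    rwK q ((tpl (n % 16) (jP n)).map fun t => (t.1, t.2.1.map (rho n), rho n t.2.2))
  else rw5 (nfK q) q n

/-- validity -/
def ok6 (q m n : ℕ) : Bool :=
  if Nat.ble (n % 16) 5 then
    Nat.ble 1 (n % 16) && [pP n 0, pP n 1, pP n 2, pP n 3, pP n 4].isPerm [0, 1, 2, 3, 4] &&
      Nat.beq (eP n 0 + eP n 1 + eP n 2 + eP n 3 + eP n 4 + dT (n % 16)) m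
  else okc q m n

lemma jP_spec {n : ℕ} (h : [pP n 0, pP n 1, pP n 2, pP n 3, pP n 4].Perm [0, 1, 2, 3, 4]) :
    jP n < 5 ∧ pP n (jP n) = 4 := by
  have h4 : 4 ∈ [pP n 0, pP n 1, pP n 2, pP n 3, pP n 4] := h.mem_iff.mpr (by simp)
  simp only [List.mem_cons, List.not_mem_nil, or_false] at h4
  unfold jP
  simp only [Nat.beq_eq]
  split_ifs with h0 h1 h2 h3
  · exact ⟨by norm_num, h0⟩
  · exact ⟨by norm_num, h1⟩
  · exact ⟨by norm_num, h2⟩
  · exact ⟨by norm_num, h3⟩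
  · refine ⟨by norm_num, ?_⟩
    rcases h4 with h | h | h | h | h
    · exact absurd h.symm h0
    · exact absurd h.symm h1
    · exact absurd h.symm h2
    · exact absurd h.symm h3
    · exact h.symm

lemma pP_perm {n : ℕ} (h : [pP n 0, pP n 1, pP n 2, pP n 3, pP n 4].Perm [0, 1, 2, 3, 4]) :
    ((List.range 5).map (pP n)).Perm (List.range 5) := h

lemma PW_rho {n : ℕ} (h : [pP n 0, pP n 1, pP n 2, pP n 3, pP n 4].Perm [0, 1, 2, 3, 4])
    {w : List (ℕ × ℕ)} {z : ℕ × ℕ} (hw : PW 5 w z) : PW 5 (w.map (rho n)) (rho n z) := by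
  unfold PW at *
  have h1 := hw.map (pP n)
  rw [List.map_append, List.map_map] at h1
  rw [List.map_map]
  exact h1.trans (pP_perm h)

lemma sE_rho (n : ℕ) {w : List (ℕ × ℕ)} {z : ℕ × ℕ} (hw : PW 5 w z) :
    sE (w.map (rho n)) (rho n z) = sE w z + (eP n 0 + eP n 1 + eP n 2 + eP n 3 + eP n 4) := by
  have h1 := sE_shift (eP n) hw
  have h2 : sE (w.map (rho n)) (rho n z) =
      sE (w.map fun p => (p.1, p.2 + eP n p.1)) (z.1, z.2 + eP n z.1) := by
    unfold sE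
    rw [List.map_map, List.map_map]
    rfl
  rw [h2, h1]

section
variable {G : Type u} [Group G] {F : Filt G} {A : Type v} [AddCommGroup A] {ω : G → A} {g : G}
  {v : ℕ → F.N 0}

omit [AddCommGroup A] in
lemma vl_rho (n : ℕ) (w : List (ℕ × ℕ)) (z : ℕ × ℕ) :
    vl ω g (fun i => (dd F g)^[eP n i] (v (pP n i))) w z = vl ω g v (w.map (rho n)) (rho n z) := by
  unfold vl dw
  rw [List.map_map]
  simp only [← Function.iterate_add_apply]
  rfl

lemma VanK_rho {n : ℕ} (h : [pP n 0, pP n 1, pP n 2, pP n 3, pP n 4].Perm [0, 1, 2, 3, 4])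
    {R R' : ℕ} (hV : VanK ω g v 5 R)
    (hR : R ≤ R' + (eP n 0 + eP n 1 + eP n 2 + eP n 3 + eP n 4)) :
    VanK ω g (fun i => (dd F g)^[eP n i] (v (pP n i))) 5 R' := by
  intro w z hw hs
  rw [vl_rho]
  apply hV _ _ (PW_rho h hw)
  rw [sE_rho n hw]
  omega

lemma evW_tpl {x : G} (hx : Gen F x) (he : Eng x) (h3 : ∀ a : A, (3 : ℤ) • a = 0)
    (hω : F.Sym 4 ω) {ty j : ℕ} (hty : 1 ≤ ty ∧ ty ≤ 5) (hj : j < 5)
    (hV : VanK ω g v 5 (dT ty + 1)) : evW ω g v (tpl ty j) = 0 := by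
  have hc := tpC_all hty hj
  unfold tpC at hc
  simp only [Bool.and_eq_true] at hc
  obtain ⟨⟨c1, _⟩, c3⟩ := hc
  have hlen : ∀ t ∈ L0 ty, t.2.1.length = 4 := by
    intro t ht
    have := List.all_eq_true.mp c3 t ht
    rwa [Nat.beq_eq] at this
  have e1 := eqW_sound (p := 3) h3 ω (fun p => (dd F g)^[p.2] (v p.1)) c1
  have e2 := nfA_sound hω (fun p => (dd F g)^[p.2] (v p.1)) j (L0 ty) hlen
  have hr : rT ty ≤ 4 := by
    obtain ⟨h1, h5⟩ := hty
    interval_cases ty <;> simp [rT]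
  have e3 : evW ω g v (L0 ty) = 0 := by
    unfold L0
    refine rel_sound hx he hω ?_ hty ?_ hV ?_
    · rw [List.take_append_drop]
      show ([(0,0),(1,0),(2,0),(3,0)].map Prod.fst ++ [4]).Perm (List.range 5)
      decide
    · rw [List.length_drop]
      simp only [List.length_cons, List.length_nil]
      omega
    · omega
  show evU ω (fun p => (dd F g)^[p.2] (v p.1)) (tpl ty j) = 0
  rw [← e1, e2]
  exact e3

theorem row6_sound {x : G} (hx : Gen F x) (he : Eng x) (h3 : ∀ a : A, (3 : ℤ) • a = 0)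
    (hω : F.Sym 4 ω) {q : ℕ} (hq : q ≤ 4) (hv : ∀ l < q, v l = v 0) {m : ℕ}
    (hV : VanK ω g v 5 (m + 1))
    (hcl : ∀ n, okc q m n = true → 5 < n % 16 → ev (BK ω g v) (rw5 (nfK q) q n) = 0)
    (n : ℕ) (h : ok6 q m n = true) : ev (BK ω g v) (rw6 q n) = 0 := by
  unfold ok6 at h
  unfold rw6
  by_cases c5 : Nat.ble (n % 16) 5 = true
  · rw [if_pos c5, Bool.and_eq_true, Bool.and_eq_true, Nat.ble_eq, Nat.beq_eq] at h
    rw [if_pos c5]
    obtain ⟨⟨h1, hp⟩, hm⟩ := h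
    have hp := List.isPerm_iff.mp hp
    rw [Nat.ble_eq] at c5
    obtain ⟨j5, j4⟩ := jP_spec hp
    have hc := tpC_all ⟨h1, c5⟩ j5
    unfold tpC at hc
    simp only [Bool.and_eq_true] at hc
    obtain ⟨⟨_, c2⟩, _⟩ := hc
    have hall : ∀ t ∈ tpl (n % 16) (jP n), PW 5 t.2.1 t.2.2 ∧ t.2.2.1 = jP n := by
      intro t ht
      have := List.all_eq_true.mp c2 t ht
      rw [Bool.and_eq_true, Nat.beq_eq] at this
      exact ⟨List.isPerm_iff.mp this.1, this.2⟩
    rw [rwK_sound hx he hω hv]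
    · have e : evW ω g v ((tpl (n % 16) (jP n)).map fun t => (t.1, t.2.1.map (rho n), rho n t.2.2))
          = evW ω g (fun i => (dd F g)^[eP n i] (v (pP n i))) (tpl (n % 16) (jP n)) := by
        unfold evW
        rw [List.map_map]
        congr 1
        apply List.map_congr_left
        intro t _
        simp only [Function.comp, vl_rho]
      rw [e]
      exact evW_tpl hx he h3 hω ⟨h1, c5⟩ j5 (VanK_rho hp hV (by omega))
    · intro t ht
      rw [List.mem_map] at ht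
      obtain ⟨t', ht', rfl⟩ := ht
      obtain ⟨a1, a2⟩ := hall t' ht'
      refine ⟨PW_rho hp a1, ?_⟩
      show pP n t'.2.2.1 = 4
      rw [a2, j4]
  · rw [if_neg c5] at h ⊢
    rw [Nat.ble_eq] at c5
    exact hcl n h (by omega)

end

end Run7.h607
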