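import Mathlib
import Pool.Agent.Run7.h607.Step5
import Pool.Agent.Run7.h607.Row6

/-! The closure rows for a single functional and its conjugates. -/

namespace Run7.h607

universe u v

open scoped commutatorElement

/-- commutators with the letters `0,…,q-1` equal to `x` are killed by `ω` and its conjugates -/
def ZW {G : Type u} [Group G] (F : Filt G) {A : Type v} [AddCommGroup A] (ω : G → A) (x : G)
    (K q : ℕ) : Prop :=
  ∀ (c : G) (v : ℕ → F.N 0), (∀ l < q, (v l : G) = x) →
    ∀ (w : List ℕ) (z : ℕ), (w ++ [z]).Perm (List.range (K + 1)) →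
      ω (cj c (rb (w.map fun l => (v l : G)) (v z))) = 0

section
variable {G : Type u} [Group G] {F : Filt G} {A : Type v} [AddCommGroup A] {ω : G → A} {g : G}
  {v : ℕ → F.N 0}

theorem zr_soundW {x : G} (hx : x ∈ F.N 0) {K q : ℕ} (hω : F.Sym K ω) (hZ : ZW F ω x K q)
    (hvx : ∀ l < q, (v l : G) = x) {w : List (ℕ × ℕ)} {z : ℕ × ℕ} (hw : PW (K + 1) w z)
    (h0 : ∀ p ∈ w, p.1 < q → p.2 = 0) (h0' : z.1 < q → z.2 = 0) (t k : ℕ) {R : ℕ}
    (hV : VanK ω g v (K + 1) R) (hR : R ≤ sE w z + t + 1) : evW ω g v (zr q t k w z) = 0 := by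
  have hlen : w.length = K := by
    have := hw.length_eq
    simp only [List.length_append, List.length_map, List.length_singleton,
      List.length_range] at this
    omega
  unfold zr
  rw [evW_sb]
  show evD ω _ _ _ _ = 0
  rw [← xq_sound]
  · -- the value of the shifted word
    obtain ⟨E, hE, hz⟩ := hw.exE
    have key := hZ (g ^ k) (fun l => if l < q then ⟨x, hx⟩ else
      hh F (g ^ k)⁻¹ ((dd F g)^[E l] (v l))) (by
        intro l hl; simp only [if_pos hl]) (w.map Prod.fst) z.1 hw
    -- conjugation commutes with rb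
    have cjrb : ∀ (a : List G) (y : G) (c : G), cj c (rb a y) = rb (a.map (cj c)) (cj c y) := by
      intro a y c
      induction a with
      | nil => rfl
      | cons b a ih =>
        show cj c ⁅b, rb a y⁆ = ⁅cj c b, rb (a.map (cj c)) (cj c y)⁆
        rw [cj_comm, ih]
    simp only [cjrb, List.map_map] at key
    have hent : ∀ l, cj (g ^ k) ((if l < q then (⟨x, hx⟩ : F.N 0) else
        hh F (g ^ k)⁻¹ ((dd F g)^[E l] (v l)) : F.N 0) : G) =
        cj (g ^ iq q k l) ((dd F g)^[if l < q then 0 else E l] (v l) : F.N 0) := by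
      intro l
      unfold iq
      by_cases hl : l < q
      · rw [if_pos hl, if_pos hl, if_pos hl]
        show cj (g ^ k) x = cj (g ^ k) (v l : G)
        rw [hvx l hl]
      · rw [if_neg hl, if_neg hl, if_neg hl, pow_zero, cj_one_left]
        show cj (g ^ k) (cj (g ^ k)⁻¹ _) = _
        rw [← cj_mul_left, mul_inv_cancel, cj_one_left]
    rw [← key]
    congr 2
    · unfold lw ps
      rw [List.map_map]
      conv_rhs => rw [← getD_range w]
      rw [List.map_map]
      apply List.map_congr_left
      intro i hi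
      simp only [Function.comp]
      rw [hent]
      have hmem : w.getD i (0, 0) ∈ w := by
        rw [List.getD_eq_getElem _ _ (List.mem_range.mp hi)]
        exact List.getElem_mem _
      have hEi : (w.getD i (0, 0)).2 = E (w.getD i (0, 0)).1 := by
        have h1 : ∀ p ∈ w, p.2 = E p.1 := by
          intro p hp
          rw [hE] at hp
          simp only [List.mem_map] at hp
          obtain ⟨l, _, rfl⟩ := hp
          rfl
        exact h1 _ hmem
      by_cases hl : (w.getD i (0, 0)).1 < q
      · rw [if_pos hl, h0 _ hmem hl]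
      · rw [if_neg hl, hEi]
    · rw [hent]
      have hz2 : z.2 = E z.1 := congrArg Prod.snd hz
      by_cases hl : z.1 < q
      · rw [if_pos hl, h0' hl]
      · rw [if_neg hl, hz2]
  · have : (ps q k w).length = K := by unfold ps; simp [hlen]
    rw [this]; exact hω
  · intro u e hu hs
    have hp : (u.map Prod.fst).Perm (List.range w.length) := by
      rw [hu]
      unfold ps
      rw [List.map_map]
      have : (List.range w.length).map (Prod.fst ∘ fun i => (i, iq q k (w.getD i (0, 0)).1)) =
          List.range w.length := by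
        conv_rhs => rw [← List.map_id (List.range w.length)]
        rfl
      rw [this]
    have := hV ([] ++ u.map (sbE w)) (z.1, e + z.2)
      (PW_sb (o := []) (n := w) hw hp _)
      (by rw [sE_sb (o := []) hp]; simp only [List.nil_append]; omega)
    rw [vl_sb] at this
    exact this

theorem zrow_soundW {x : G} (hx : x ∈ F.N 0) {K q : ℕ} (hω : F.Sym K ω) (hZ : ZW F ω x K q)
    (hvx : ∀ l < q, (v l : G) = x) {w : List (ℕ × ℕ)} {z : ℕ × ℕ} (hw : PW (K + 1) w z)
    (h0 : ∀ p ∈ w, p.1 < q → p.2 = 0) (h0' : z.1 < q → z.2 = 0) (t : ℕ) {R : ℕ}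
    (hV : VanK ω g v (K + 1) R) (hR : R ≤ sE w z + t + 1) : evW ω g v (zrow q t w z) = 0 := by
  have key : ∀ m, evW ω g v ((List.range m).flatMap fun k =>
    (zr q t k w z).map fun s => ((-1) ^ (t - k) * (t.choose k : ℤ) * s.1, s.2)) = 0 := by
    intro m
    induction m with
    | zero => simp [evW]
    | succ m ih =>
      rw [List.range_succ, List.flatMap_append, evW_append, ih, zero_add, List.flatMap_cons,
        List.flatMap_nil, List.append_nil, evW_scale,
        zr_soundW hx hω hZ hvx hw h0 h0' t m hV hR, smul_zero]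
  exact key _

/-- Soundness of the rows. -/
theorem row5_soundW {nf : List (ℕ × ℕ) → ℕ × ℕ → List (ℤ × ℕ)} {B : ℕ → A} {ω : G → A} {g : G}
    {v : ℕ → F.N 0} (hnf : ∀ w z, PW 5 w z → ev B (nf w z) = vl ω g v w z)
    {x : G} (hx : Gen F x) (he : Eng x) (hω : F.Sym 4 ω) {q : ℕ} (hq : q ≤ 4)
    (hZ : 1 ≤ q → ZW F ω x 4 q) (hvx : ∀ l < q, (v l : G) = x) {m : ℕ}
    (hV : VanK ω g v 5 (m + 1)) (n : ℕ) (h : okc q m n = true) : ev B (rw5 nf q n) = 0 := by
  unfold okc ok5 at h
  unfold rw5
  generalize n % 16 = ty at h ⊢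
  generalize wd5 n = w at h ⊢
  generalize zd5 n = z at h ⊢
  rw [Bool.and_eq_true] at h
  obtain ⟨hp, h⟩ := h
  have hw : PW 5 w z := List.isPerm_iff.mp hp
  have hwlen : w.length = 4 := by
    have := hw.length_eq
    simp only [List.length_append, List.length_map, List.length_singleton,
      List.length_range] at this
    omega
  by_cases c5 : Nat.ble ty 5 = true
  · rw [if_pos c5, Bool.and_eq_true, Nat.ble_eq, Nat.beq_eq] at h
    have hty : 1 ≤ ty ∧ ty ≤ 5 := ⟨h.1, by rw [Nat.ble_eq] at c5; exact c5⟩
    have hr : rT ty ≤ 4 := by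
      obtain ⟨h1, h5⟩ := hty
      interval_cases ty <;> simp [rT]
    have hnlen : (w.drop (4 - rT ty)).length = rT ty := by
      rw [List.length_drop, hwlen]; omega
    have hw' : PW 5 (w.take (4 - rT ty) ++ w.drop (4 - rT ty)) z := by
      rw [List.take_append_drop]; exact hw
    unfold tm5
    rw [if_pos c5, nfL_sound hnf]
    · refine rel_sound hx he hω hw' hty hnlen hV ?_
      rw [List.take_append_drop]; omega
    · intro t ht
      simp only [List.mem_map] at ht
      obtain ⟨t', ht', rfl⟩ := ht
      refine PW_sb hw' ?_ _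
      rw [hnlen]
      exact tbl_letters hty t' ht'
  rw [if_neg c5] at h
  by_cases c8 : Nat.ble ty 8 = true
  · rw [if_pos c8, Nat.blt_eq] at h
    unfold tm5
    rw [if_neg c5, if_pos c8, nfL_sound hnf]
    · have hv : ∀ l, v (swL (ty - 6) l) = v l := by
        intro l
        apply Subtype.ext
        unfold swL
        split_ifs with h1 h2
        · rw [h1, hvx _ (by omega), hvx _ (by omega)]
        · rw [h2, hvx _ (by omega), hvx _ (by omega)]
        · rfl
      simp only [evW, List.map_cons, List.map_nil, List.sum_cons, List.sum_nil, vl_sw hv]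
      module
    · intro t ht
      simp only [List.mem_cons, List.not_mem_nil, or_false] at ht
      rcases ht with rfl | rfl
      · exact hw
      · exact PW_sw (by omega) hw
  rw [if_neg c8] at h
  have hzq : ∀ {q' : ℕ}, zq5 q' w z = true → (∀ p ∈ w, p.1 < q' → p.2 = 0) ∧
      (z.1 < q' → z.2 = 0) := by
    intro q' hz
    have h1 : ∀ p ∈ w ++ [z], p.1 < q' → p.2 = 0 := by
      intro p hp' hlt
      have := List.all_eq_true.mp hz p hp'
      simp only [Bool.or_eq_true, Nat.ble_eq, Nat.beq_eq] at this
      omega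
    exact ⟨fun p hp' => h1 p (List.mem_append_left _ hp'), h1 z (by simp)⟩
  by_cases c9 : Nat.ble ty 9 = true
  · rw [if_pos c9, Bool.and_eq_true, Nat.ble_eq] at h
    unfold tm5
    rw [if_neg c5, if_neg c8, if_pos c9, nfL_sound hnf]
    · obtain ⟨h1, h2⟩ := hzq h.2
      obtain ⟨E, hE, hz⟩ := hw.exE
      have key := hZ h.1 1 (fun l => if l < q then v l else (dd F g)^[E l] (v l)) (by
        intro l hl; simp only [if_pos hl]; exact hvx l hl) (w.map Prod.fst) z.1 hw
      simp only [evW, List.map_cons, List.map_nil, List.sum_cons, List.sum_nil, one_smul,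
        add_zero]
      rw [cj_one_left] at key
      rw [← key]
      unfold vl dw
      have hEw : ∀ p ∈ w, p.2 = E p.1 := by
        intro p hp'
        rw [hE] at hp'
        simp only [List.mem_map] at hp'
        obtain ⟨l, _, rfl⟩ := hp'
        rfl
      rw [List.map_map]
      congr 2
      · apply List.map_congr_left
        intro p hp'
        simp only [Function.comp]
        by_cases hl : p.1 < q
        · rw [if_pos hl, h1 p hp' hl]; rfl
        · rw [if_neg hl, hEw p hp']
      · by_cases hl : z.1 < q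
        · rw [if_pos hl, h2 hl]; rfl
        · rw [if_neg hl, congrArg Prod.snd hz]
    · intro t ht
      simp only [List.mem_cons, List.not_mem_nil, or_false] at ht
      rw [ht]; exact hw
  rw [if_neg c9, Bool.and_eq_true, Bool.and_eq_true, Nat.beq_eq, Nat.ble_eq] at h
  unfold tm5
  rw [if_neg c5, if_neg c8, if_neg c9, nfL_sound hnf]
  · obtain ⟨h1, h2⟩ := hzq h.1.2
    exact zrow_soundW hx.1 hω (hZ h.1.1) hvx hw h1 h2 (ty - 9) hV (by omega)
  · intro t ht
    simp only [zrow, zr, List.mem_flatMap, List.mem_map, List.map_map] at ht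
    obtain ⟨k, _, t', ht', rfl⟩ := ht
    have h3 := xq_fst _ _ _ t' ht'
    refine PW_sb (o := []) (n := w) hw ?_ _
    rw [h3]
    unfold ps
    rw [List.map_map]
    have : (List.range w.length).map (Prod.fst ∘ fun i => (i, iq q k (w.getD i (0, 0)).1)) =
        List.range w.length := by
      conv_rhs => rw [← List.map_id (List.range w.length)]
      rfl
    rw [this]

end

end Run7.h607
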