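import Mathlib
import Pool.Agent.Run7.h607.Es60

/-! Certificates of the chain. -/

namespace Run7.h607

set_option maxRecDepth 1000000

/-- data -/
def dat60d1 : ℕ := 21887795922777217640347060095784459364488290592198017753911240214172714265661385193182368311398433276975038554879727802154101360626945707787728768365729921310995244282579036344226175458773564522980111464024136315055550945886968177680547294062146423388057430814492932817439739593552673643247715873766511842530568258605203244098697762883747801831789464164770014216246342962165938449435185592524749545999931969046415393292040070383962238338247456780966152384063369920758998791289990453973310469856827941722893769274938706640915663989108442267544423464340802036342399829970497295594973875100248898279633637389242223351705707639604252100373790700717729520160131941778560771349778941803036475553685245930788347478259595494277719983065863864133730350413814629069965865689412449758067204285033644635859352788857475754483126350377574342769401310982143066963333317794313591979756194670223253353349343859938298096080536271972110234908805064192866324279931097863507504428754588768435067797451937256431675679078991115717819246008060595420003634350449233838368293347083253966812080061215359115970757582592883959846156500004838976402075628405650484300432380988626639789607870893094716653642372427265336569199447411309190354020067198456607031775384008375809989443586238465356946161622248736106288967238690280904212090782977724207310652923924747419469350209879833236690729563132396118726693502840732554535958089048661379375205509265649176681175758687584804681463247522292221156087856608066400591173744320123722277991086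28648376834448388233377175283254592551527928783877213345364735594852259651760894511316270611954518347242851386215638095384572382444171337056152416254890485569957021273003355295174140916343039675675399250848185754544166923018591650076290039086534716583686000694097839395926322925601319356488668346677850762067321396098744116120775728647462850313719069229578090905706476362772293395843316900538245531848596499703558355501360239584356289193910473998252850594096699875013974142275589591710999875919258143013879371285634341927749734145825478165156663377632594885529793303037848988865916117554680283182764602607310978991781249032657936762202935064472907369230864280281878659142890134591721093559283124837666585243206533609858945729873131916860836020661295848435315770476115697981163154763929713409290720938408941576363533075736956891480003843507695498030726560810684689008621644377860709234170589390910460101845019853993944300194717049527357621737336175986193271871706010288432630713566656497948826163341047797112887987524689819446673926431539387451554647591621030009741464821695572020397992666819067367797014959064123392261414534055851819526987821593039925740377732629619472178055215433826960373736662380498730987529977371650106738133735565027092360230756205785222516584390342602383020084569096050356787712595772594825119097332398104670297570092622209711655682930462863688968171830504555444622403121331960937772163671871321461004387581401415614961705508851666102060484571791960701702521258770434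

lemma chk60d1 : check7 20 3 (rw6 0) (ok6 0 4) sgK 156 2 dat60d1 (kyE (es60a1 ++ es60a2 ++ es60b ++ es60c)) (kyE es60d1) = true := by
  decide +kernel

end Run7.h607
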