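import Mathlib
import Pool.Agent.Run7.h607.Es60

/-! Certificates of the chain. -/

namespace Run7.h607

set_option maxRecDepth 1000000

/-- data -/
def dat60d2 : ℕ := 815204554226637232567257444388726759613919679957539574177290118174966774185894353061113083834981974707046188138737174499846394488984067588562335330020127016156033226428650749537708511823192923818776313505434817197484908145194992402357775411464192123685497854650289208781540374829674894068973152241548010750517422670934211027591939001367513429474205583644474093579353097485209719406648972734902626255639770740896835063141868984998225837607852093873457831497481383401793700102636612257755338259673376391753157906139486132134994978706800458013859885941001710111569180713209855302864648478281349181054510990450154259634583351777237978780703767576628790945816183486795550389019268276398543046007848327726305978128673063812080010290104131967003036121669223305508829281546537951881588607186124188802317112425352463729254479193858929450980483283673654457188524678808531270183212456893996713589287878318598836440988754051117740420795053693428773684486702031533442082804035576065410511108604050616219256166798194905215014218287593698282486610868459695445415299471682052032052215677016404618202185635156569468857279888186011546545235953345002674435252715212177055741420972324695604962508867956720035849589514700330114357330494580927498560294507528769519841881212093172064697195289849604464394454343917222769786929385968503536221988531857712659378859447913296603614472570416458557207925180315174986641327675083876967972628529868612014974989049473010447596525201693613620211657060361401317756473388762121884437888858237804496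0483379748824964271617563716429746938997827560643486365870704611466734411938530494622069142922287147891434934019903115936032390036242874911658249921581987835529660085816133302215152784451770574545574845033640681161055474812343167683283591313173055362370967208805653265772611211217876822859985221614459809454701909552162229343470344232235605400674138091090909704761406386506011673594866383787723462472338074767689796852192102632625149582097467224581664551107173149173307068894439461183299167204189960010382883158876952709321403208003277107150136494074021526646319183894534679167062027618471526231899364654215089804110636440402025685823849193843742661799897857631659329286680754355902326483789229232028369980553420912978402586645512997220289874306016783652671567118647369470753671713414238667919562630597201209701530462972358190325225435188321365614579018025157394376479369825247361694445747563243646540421457326919813535101751079956507046359938438151977762227962407477971931032437407002306234416233697735378728418043158060906756355637010847734233225623731287972341934344217223038296170212377139331004949032210679304230650355710534035674648317942236718778945316020935563671515280563456289518713642040686164886071061003563171149820237306269466148176492367091421552010265367564778912065399330684961541533214182290268215929414698272605126893364479838923208381548159519016314340181657266760232751293894287875990751821673323220969370830300325839829990819481850284243306955420798753450100666800833730026375186500111432239335882114403224397094288569201010456756000285909711620434832594307167979083513180974318031095642931102773314835192248126739704744771325693036227047594568351342173376762914733148550502997718909919709934508579093018729841391238089311060107314362056839034508940657082204727050257909937726250802297234273410149189457782411982092782326947796122543201709129303408225965634906404572136220364111875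

lemma chk60d2 : check7 20 3 (rw6 0) (ok6 0 4) sgK 178 10 dat60d2 (kyE (es60a1 ++ es60a2 ++ es60b ++ es60c ++ es60d1)) (kyE es60d2) = true := by
  decide +kernel

end Run7.h607
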