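import Mathlib
import Pool.Agent.Run7.h607.Dat60a1
import Pool.Agent.Run7.h607.Dat60a2
import Pool.Agent.Run7.h607.Dat60b
import Pool.Agent.Run7.h607.Dat60c
import Pool.Agent.Run7.h607.Dat60d1
import Pool.Agent.Run7.h607.Dat60d2
import Pool.Agent.Run7.h607.Dat60d3
import Pool.Agent.Run7.h607.Lev5

/-! Generic vanishing, five letters, modulo three. -/

namespace Run7.h607

universe u v

open scoped commutatorElement

lemma ev_apply {ι : Type u} {A : Type v} [AddCommGroup A] (B : ℕ → ι → A) (L : List (ℤ × ℕ)) (i : ι) :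
    ev B L i = ev (fun k => B k i) L := by
  induction L with
  | nil => rfl
  | cons p L ih =>
    simp only [ev, Pi.add_apply, Pi.smul_apply, ih]

section
variable {G : Type u} [Group G] {F : Filt G} {A : Type v} [AddCommGroup A]

lemma rowG_sound {x : G} (hx : Gen F x) (he : Eng x) (h3 : ∀ a : A, (3 : ℤ) • a = 0) {ω : G → A}
    (hω : F.Sym 4 ω) {g : G} {v : ℕ → F.N 0} (hV : VanK ω g v 5 5) (n : ℕ)
    (hn : ok6 0 4 n = true) : ev (BK ω g v) (rw6 0 n) = 0 := by
  have hnf : ∀ w z, PW 5 w z → ev (BK ω g v) (nfK 0 w z) = vl ω g v w z := fun w z hw =>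
    nfK_sound hx he hω (q := 0) (by intro l hl; omega) hw
  refine row6_sound hx he h3 hω (by norm_num) (by intro l hl; omega) hV ?_ n hn
  intro n h _
  exact row5_sound hnf hx he hω (by norm_num) (by intro h; omega) (by intro l hl; omega) hV n h

/-- values as functions of the letters -/
def BG (ω : G → A) (g : G) : ℕ → {v : ℕ → F.N 0 // VanK ω g v 5 5} → A :=
  fun k v => BK ω g v.1 k

lemma BG_row {x : G} (hx : Gen F x) (he : Eng x) (h3 : ∀ a : A, (3 : ℤ) • a = 0) {ω : G → A}
    (hω : F.Sym 4 ω) {g : G} (n : ℕ) (hn : ok6 0 4 n = true) :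
    ev (BG (F := F) ω g) (rw6 0 n) = 0 := by
  funext v
  rw [ev_apply]
  exact rowG_sound hx he h3 hω v.2 n hn

omit [AddCommGroup A] in
lemma BG_grp [AddCommGroup A] {ω : G → A} {g : G} (k : ℕ) (hk : BG (F := F) ω g k = 0) :
    ∀ k' ∈ sgK k, BG (F := F) ω g k' = 0 := by
  intro k' hk'
  unfold sgK at hk'
  rw [List.mem_map] at hk'
  obtain ⟨s, hs, rfl⟩ := hk'
  funext v
  show BK ω g v.1 (rlK s k) = 0
  rw [BK_rlK ω g v.1 hs]
  exact congrFun hk ⟨fun l => v.1 (sg s l), VanK_sg hs v.2⟩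

lemma kyE_mem2 {Q : Type v} [AddCommGroup Q] {B : ℕ → Q} {a b : List ℕ} (ha : ∀ k ∈ kyE a, B k = 0)
    (hb : ∀ k ∈ kyE b, B k = 0) : ∀ k ∈ kyE (a ++ b), B k = 0 := by
  intro k hk
  rw [kyE_append, List.mem_append] at hk
  exact hk.elim (ha k) (hb k)

theorem base6 {x : G} (hx : Gen F x) (he : Eng x) (h3 : ∀ a : A, (3 : ℤ) • a = 0) {ω : G → A}
    (hω : F.Sym 4 ω) {g : G} (v : ℕ → F.N 0) (hV : VanK ω g v 5 5) : VanK ω g v 5 4 := by
  have h3' : ∀ k, (3 : ℤ) • BG (F := F) ω g k = 0 := fun k => funext fun v => h3 _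
  have hr : ∀ n, ok6 0 4 n = true → ev (BG (F := F) ω g) (rw6 0 n) = 0 :=
    fun n hn => BG_row hx he h3 hω n hn
  have hg : ∀ k, BG (F := F) ω g k = 0 → ∀ k' ∈ sgK k, BG (F := F) ω g k' = 0 :=
    fun k hk => BG_grp k hk
  have h0 : ∀ k ∈ kyE [], BG (F := F) ω g k = 0 := by intro k hk; simp [kyE] at hk
  have h1 := check7_sound (BG (F := F) ω g) h3' hr hg h0 chk60a1
  have h2 := kyE_mem2 h1 (check7_sound (BG (F := F) ω g) h3' hr hg h1 chk60a2)
  have h3 := kyE_mem2 h2 (ct60b (BG (F := F) ω g) h3' hr hg h2)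
  have h4 := kyE_mem2 h3 (ct60c (BG (F := F) ω g) h3' hr hg h3)
  have h5 := kyE_mem2 h4 (check7_sound (BG (F := F) ω g) h3' hr hg h4 chk60d1)
  have h6 := kyE_mem2 h5 (check7_sound (BG (F := F) ω g) h3' hr hg h5 chk60d2)
  have hB := kyE_mem2 h6 (check7_sound (BG (F := F) ω g) h3' hr hg h6 chk60d3)
  have hsub := tgJ_sub (es := es60a1 ++ es60a2 ++ es60b ++ es60c ++ es60d1 ++ es60d2 ++ es60d3)
    (by decide +kernel)
  exact van_tgJ hx he hω (q := 0) (by intro l hl; omega) hV
    (fun k hk => congrFun (hB k (hsub k hk)) ⟨v, hV⟩)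

/-- Generic vanishing in degree at least four. -/
theorem shift6 {x : G} (hx : Gen F x) (he : Eng x) {ω : G → A} (hω : F.Sym 4 ω)
    {g : G} (v : ℕ → F.N 0)
    (hbase : ∀ v' : ℕ → F.N 0, VanK ω g v' 5 5 → VanK ω g v' 5 4) : VanK ω g v 5 4 := by
  have step : ∀ r, 4 ≤ r → VanK ω g v 5 (r + 1) → VanK ω g v 5 r := by
    intro r hr H w z hw hs
    by_cases hs' : r + 1 ≤ sE w z
    · exact H w z hw hs'
    by_cases hb : (w ++ [z]).any (fun p => Nat.ble 4 p.2) = true
    · exact vl_big hx he hω hw hb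
    obtain ⟨E, h1, h2, _, h4⟩ := ecd_spec hw hb
    obtain ⟨f, hf, hfs⟩ : ∃ f : ℕ → ℕ, (∀ l < 5, f l ≤ E l) ∧
        f 0 + f 1 + f 2 + f 3 + f 4 = 4 := by
      have m0 := h1 0 (by norm_num)
      have m1 := h1 1 (by norm_num)
      have m2 := h1 2 (by norm_num)
      have m3 := h1 3 (by norm_num)
      have m4 := h1 4 (by norm_num)
      obtain ⟨a0, a1, a2, a3, a4, b0, b1, b2, b3, b4, hs5⟩ : ∃ a0 a1 a2 a3 a4, a0 ≤ E 0 ∧
          a1 ≤ E 1 ∧ a2 ≤ E 2 ∧ a3 ≤ E 3 ∧ a4 ≤ E 4 ∧ a0 + a1 + a2 + a3 + a4 = 4 := by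
        refine ⟨min (E 0) 4, min (E 1) (4 - min (E 0) 4),
          min (E 2) (4 - min (E 0) 4 - min (E 1) (4 - min (E 0) 4)),
          min (E 3) (4 - min (E 0) 4 - min (E 1) (4 - min (E 0) 4) -
            min (E 2) (4 - min (E 0) 4 - min (E 1) (4 - min (E 0) 4))),
          4 - min (E 0) 4 - min (E 1) (4 - min (E 0) 4) -
            min (E 2) (4 - min (E 0) 4 - min (E 1) (4 - min (E 0) 4)) -
            min (E 3) (4 - min (E 0) 4 - min (E 1) (4 - min (E 0) 4) -
              min (E 2) (4 - min (E 0) 4 - min (E 1) (4 - min (E 0) 4))),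
          ?_, ?_, ?_, ?_, ?_, ?_⟩ <;> omega
      refine ⟨fun l => if l = 0 then a0 else if l = 1 then a1 else if l = 2 then a2 else
        if l = 3 then a3 else a4, ?_, ?_⟩
      · intro l hl
        interval_cases l
        · exact b0
        · exact b1
        · exact b2
        · exact b3
        · exact b4
      · exact hs5
    set c : ℕ → ℕ := fun l => E l - f l with hc'
    have hwf : w = (w.map fun p => (p.1, f p.1)).map fun p => (p.1, p.2 + c p.1) := by
      rw [List.map_map]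
      conv_lhs => rw [← List.map_id w]
      apply List.map_congr_left
      intro p hp'
      have h5 := h2 p (List.mem_append_left _ hp')
      have h6 : p.1 < 5 := List.mem_range.mp (hw.mem_iff.mp
        (List.mem_append_left _ (List.mem_map_of_mem hp')))
      have h7 := hf _ h6
      simp only [Function.comp, hc', id]
      refine Prod.ext rfl ?_
      simp only
      omega
    have hzf : z = (z.1, f z.1 + c z.1) := by
      have h5 := h2 z (by simp)
      have h6 : z.1 < 5 := List.mem_range.mp (hw.mem_iff.mp (by simp))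
      have h7 := hf _ h6
      refine Prod.ext rfl ?_
      simp only [hc']
      omega
    have hpw' : PW 5 (w.map fun p => (p.1, f p.1)) (z.1, f z.1) := by
      unfold PW at hw ⊢
      rw [List.map_map]
      exact hw
    have hsum : c 0 + c 1 + c 2 + c 3 + c 4 + 4 = r := by
      have := hf 0 (by norm_num)
      have := hf 1 (by norm_num)
      have := hf 2 (by norm_num)
      have := hf 3 (by norm_num)
      have := hf 4 (by norm_num)
      simp only [hc']
      omega
    have hlev := hbase (fun l => (dd F g)^[c l] (v l))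
      (by
        intro w' z' hw' hs''
        rw [vl_shift]
        apply H _ _ (PW_shift c hw')
        rw [sE_shift c hw']
        omega)
    have hfin := hlev (w.map fun p => (p.1, f p.1)) (z.1, f z.1) hpw' (by
      have h8 : sE w z = sE (w.map fun p => (p.1, f p.1)) (z.1, f z.1) +
          (c 0 + c 1 + c 2 + c 3 + c 4) := by
        rw [← sE_shift c hpw']
        rw [← hwf]
        congr 1
      omega)
    rw [vl_shift, ← hwf] at hfin
    have hz3 : ((z.1, f z.1).1, (z.1, f z.1).2 + c (z.1, f z.1).1) = z := hzf.symm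
    rw [hz3] at hfin
    exact hfin
  have h16 : VanK ω g v 5 16 := by
    intro w z hw hs
    by_cases hb : (w ++ [z]).any (fun p => Nat.ble 4 p.2) = true
    · exact vl_big hx he hω hw hb
    obtain ⟨E, h1, _, _, h4⟩ := ecd_spec hw hb
    have m0 := h1 0 (by norm_num)
    have m1 := h1 1 (by norm_num)
    have m2 := h1 2 (by norm_num)
    have m3 := h1 3 (by norm_num)
    have m4 := h1 4 (by norm_num)
    omega
  exact step 4 (by norm_num) (step 5 (by norm_num) (step 6 (by norm_num) (step 7 (by norm_num)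
    (step 8 (by norm_num) (step 9 (by norm_num) (step 10 (by norm_num) (step 11 (by norm_num)
      (step 12 (by norm_num) (step 13 (by norm_num) (step 14 (by norm_num)
        (step 15 (by norm_num) h16)))))))))))

theorem gen6 {x : G} (hx : Gen F x) (he : Eng x) (h3 : ∀ a : A, (3 : ℤ) • a = 0) {ω : G → A}
    (hω : F.Sym 4 ω) (g : G) (v : ℕ → F.N 0) : VanK ω g v 5 4 :=
  shift6 hx he hω v (fun v' h => base6 hx he h3 hω v' h)

end

end Run7.h607
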