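import Mathlib
import Pool.Agent.Run7.h607.Fam6
import Pool.Agent.Run7.h607.Gen6
import Pool.Agent.Run7.h607.Dat61A
import Pool.Agent.Run7.h607.Dat61B
import Pool.Agent.Run7.h607.Dat61C
import Pool.Agent.Run7.h607.Aux6

/-! The chain argument modulo three. -/

namespace Run7.h607

universe u v

open scoped commutatorElement

section
variable {G : Type u} [Group G] {F : Filt G} {A : Type v} [AddCommGroup A] {ω : G → A} {g : G}
  {v : ℕ → F.N 0}

lemma ZW_cj {x : G} {K q : ℕ} (h : ZW F ω x K q) (c : G) :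
    ZW F (fun y => ω (cj c y)) x K q := by
  intro c' v hv w z hw
  have := h (c * c') v hv w z hw
  rw [cj_mul_left] at this
  exact this

theorem lev6 {x : G} (hx : Gen F x) (he : Eng x) (h3 : ∀ a : A, (3 : ℤ) • a = 0)
    (hω : F.Sym 4 ω) {q : ℕ} (hq : q ≤ 4) (hq1 : 1 ≤ q) (hZ : ZW F ω x 4 q)
    (hvx : ∀ l < q, (v l : G) = x) {m : ℕ} (hV : VanK ω g v 5 (m + 1))
    (hc : ∀ B : ℕ → A, (∀ k, (3:ℤ) • B k = 0) →
      (∀ i, ok6 q m i = true → ev B (rw6 q i) = 0) → ∀ k ∈ tgJ q m, B k = 0) :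
    VanK ω g v 5 m := by
  have hv0 : ∀ l < q, v l = v 0 := fun l hl =>
    Subtype.ext ((hvx l hl).trans (hvx 0 (by omega)).symm)
  have hnf : ∀ w z, PW 5 w z → ev (BK ω g v) (nfK q w z) = vl ω g v w z := fun w z hw =>
    nfK_sound hx he hω hv0 hw
  have key := hc (BK ω g v) (fun k => h3 _) (fun n hn =>
    row6_sound hx he h3 hω hq hv0 hV (fun n h _ =>
      row5_soundW hnf hx he hω hq (fun _ => hZ) hvx hV n h) n hn)
  exact van_tgJ hx he hω hv0 hV key

/-- vanishing in positive degree with three or two letters equal to `x` -/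
theorem van6 {x : G} (hx : Gen F x) (he : Eng x) (h3 : ∀ a : A, (3 : ℤ) • a = 0)
    (hω : F.Sym 4 ω) {q : ℕ} (hq : q = 2 ∨ q = 3) (hZ : ZW F ω x 4 q)
    (hvx : ∀ l < q, (v l : G) = x) : VanK ω g v 5 1 := by
  have h4 : VanK ω g v 5 4 := gen6 hx he h3 hω g v
  rcases hq with rfl | rfl
  · exact lev6 hx he h3 hω (by norm_num) (by norm_num) hZ hvx
      (lev6 hx he h3 hω (by norm_num) (by norm_num) hZ hvx
        (lev6 hx he h3 hω (by norm_num) (by norm_num) hZ hvx h4 (fun B => ct623 B)) (fun B => ct622 B)) (fun B => ct621 B)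
  · exact lev6 hx he h3 hω (by norm_num) (by norm_num) hZ hvx
      (lev6 hx he h3 hω (by norm_num) (by norm_num) hZ hvx
        (lev6 hx he h3 hω (by norm_num) (by norm_num) hZ hvx h4 (fun B => ct633 B)) (fun B => ct632 B)) (fun B => ct631 B)

/-- all the words vanish -/
lemma all6 {x : G} (hx : Gen F x) (he : Eng x) (h3 : ∀ a : A, (3 : ℤ) • a = 0)
    (hω : F.Sym 4 ω) {q : ℕ} (hq : q = 2 ∨ q = 3) (hZ : ZW F ω x 4 q)
    (hvx : ∀ l < q, (v l : G) = x) {w : List (ℕ × ℕ)} {z : ℕ × ℕ} (hw : PW 5 w z) :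
    vl ω g v w z = 0 := by
  by_cases hs : 1 ≤ sE w z
  · exact van6 hx he h3 hω hq hZ hvx w z hw hs
  · rw [vl_zero6 (by omega)]
    have := hZ 1 v hvx (w.map Prod.fst) z.1 hw
    rw [cj_one_left] at this
    exact this

end

section
variable {G : Type u} [Group G] {F : Filt G}

/-- a step of the chain -/
theorem ZW_step1 {A : Type v} [AddCommGroup A] {x : G} (hx : Gen F x) {K q : ℕ}
    (hq : q < K + 1) {ω : G → A} (hω : F.Sym K ω)
    (hZ : ∀ (v : ℕ → F.N 0), (∀ l < q + 1, (v l : G) = x) →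
      ∀ (w : List ℕ) (z : ℕ), (w ++ [z]).Perm (List.range (K + 1)) →
        ω (rb (w.map fun l => (v l : G)) (v z)) = 0)
    (hV : ∀ (g : G) (v : ℕ → F.N 0), (∀ l < q + 1, (v l : G) = x) →
      ∀ w z, PW (K + 1) w z → vl ω g v w z = 0) :
    ∀ (v : ℕ → F.N 0), (∀ l < q, (v l : G) = x) →
      ∀ (w : List ℕ) (z : ℕ), (w ++ [z]).Perm (List.range (K + 1)) →
        ω (rb (w.map fun l => (v l : G)) (v z)) = 0 := by
  intro v hv w z hw
  have hs := sym_upd hω v hq hw
  have key := hx.ind hs ?_ (v q) (v q).2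
  · have e : ∀ l, upd v q (v q : G) l = v l := by
      intro l; unfold upd; split_ifs with h
      · rw [h]
      · rfl
    rw [funext e] at key
    exact key
  · intro g
    rw [cj_eq g x, hs.mul _ _ (F.com_any g hx.1) hx.1]
    let v' : ℕ → F.N 0 := fun l => if l = q then ⟨x, hx.1⟩ else v l
    have hv' : ∀ l < q + 1, (v' l : G) = x := by
      intro l hl
      by_cases h : l = q
      · simp only [v', if_pos h]
      · simp only [v', if_neg h]
        exact hv l (by omega)
    have t2 := hZ v' hv' w z hw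
    have c2 : ∀ l, (v' l : G) = upd v q x l := by
      intro l; simp only [v']; unfold upd; split_ifs <;> rfl
    simp only [c2] at t2
    have t1 := hV g v' hv' (w.map fun l => (l, if l = q then 1 else 0))
      (z, if z = q then 1 else 0) (by
        unfold PW
        rw [List.map_map]
        have : w.map (Prod.fst ∘ fun l => (l, if l = q then 1 else 0)) = w := by
          conv_rhs => rw [← List.map_id w]
          rfl
        rw [this]; exact hw)
    have c1 : ∀ l, (((dd F g)^[if l = q then 1 else 0] (v' l) : F.N 0) : G) =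
        upd v q ⁅g, x⁆ l := by
      intro l
      unfold upd
      by_cases h : l = q
      · rw [if_pos h, if_pos h]
        show ⁅g, (v' l : G)⁆ = _
        rw [hv' l (by omega)]
      · rw [if_neg h, if_neg h]
        simp only [v', if_neg h]
        rfl
    unfold vl dw at t1
    rw [List.map_map] at t1
    simp only [c1] at t1
    have e1 : w.map ((fun p : ℕ × ℕ => (((dd F g)^[p.2] (v' p.1) : F.N 0) : G)) ∘
        fun l => (l, if l = q then 1 else 0)) = w.map (upd v q ⁅g, x⁆) := by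
      apply List.map_congr_left
      intro l _
      exact c1 l
    rw [e1] at t1
    show ω (rb (w.map (upd v q ⁅g, x⁆)) (upd v q ⁅g, x⁆ z)) +
      ω (rb (w.map (upd v q x)) (upd v q x z)) = 0
    rw [t1, zero_add]
    exact t2

lemma cj_rb (a : List G) (y : G) (c : G) : cj c (rb a y) = rb (a.map (cj c)) (cj c y) := by
  induction a with
  | nil => rfl
  | cons b a ih =>
    show cj c ⁅b, rb a y⁆ = ⁅cj c b, rb (a.map (cj c)) (cj c y)⁆
    rw [cj_comm, ih]

/-- the last step -/
theorem ZW_last {A : Type v} [AddCommGroup A] {x : G} (hx : Gen F x) {ω : G → A}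
    (hω : F.Sym 4 ω) (hZ : ZW F ω x 4 1) (v : ℕ → F.N 0) (w : List ℕ) (z : ℕ)
    (hw : (w ++ [z]).Perm (List.range 5)) : ω (rb (w.map fun l => (v l : G)) (v z)) = 0 := by
  have key := hx.ind (sym_upd hω v (q := 0) (by omega) hw) ?_ (v 0) (v 0).2
  · have e : ∀ l, upd v 0 (v 0 : G) l = v l := by
      intro l; unfold upd; split_ifs with h
      · rw [h]
      · rfl
    rw [funext e] at key
    exact key
  · intro g
    have t := hZ g (fun l => if l = 0 then ⟨x, hx.1⟩ else hh F g⁻¹ (v l)) (by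
        intro l hl
        have : l = 0 := by omega
        simp only [if_pos this]) w z hw
    simp only [cj_rb, List.map_map] at t
    have c : ∀ l, cj g ((if l = 0 then (⟨x, hx.1⟩ : F.N 0) else hh F g⁻¹ (v l) : F.N 0) : G) =
        upd v 0 (cj g x) l := by
      intro l
      unfold upd
      split_ifs with h
      · rfl
      · show cj g (cj g⁻¹ (v l)) = v l
        rw [← cj_mul_left, mul_inv_cancel, cj_one_left]
    have e1 : w.map (cj g ∘ fun l => ((if l = 0 then (⟨x, hx.1⟩ : F.N 0) else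
        hh F g⁻¹ (v l) : F.N 0) : G)) = w.map (upd v 0 (cj g x)) := by
      apply List.map_congr_left
      intro l _
      exact c l
    rw [e1, c z] at t
    exact t

/-- the chain -/
theorem chain6 {A : Type v} [AddCommGroup A] {x : G} (hx : Gen F x) (he : Eng x)
    (h3 : ∀ a : A, (3 : ℤ) • a = 0) {ω : G → A} (hω : F.Sym 4 ω) (hZ : ZW F ω x 4 3)
    {a b c d e : G} (ha : a ∈ F.N 0) (hb : b ∈ F.N 0) (hc : c ∈ F.N 0) (hd : d ∈ F.N 0)
    (he' : e ∈ F.N 0) : ω ⁅a, ⁅b, ⁅c, ⁅d, e⁆⁆⁆⁆ = 0 := by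
  have step : ∀ q, q = 1 ∨ q = 2 → ZW F ω x 4 (q + 1) → ZW F ω x 4 q := by
    intro q hq hZq k
    have hZk := ZW_cj hZq k
    exact ZW_step1 hx (by omega) (hω.compcj k) (fun v hv w z hw => hZq k v hv w z hw)
      (fun g v hv w z hw => all6 hx he h3 (hω.compcj k) (by omega) hZk hv hw)
  have h1 := step 1 (by norm_num) (step 2 (by norm_num) hZ)
  exact ZW_last hx hω h1 (fun l => if l = 0 then ⟨a, ha⟩ else if l = 1 then ⟨b, hb⟩ else
    if l = 2 then ⟨c, hc⟩ else if l = 3 then ⟨d, hd⟩ else ⟨e, he'⟩) [0, 1, 2, 3] 4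
    (by decide)

end

end Run7.h607
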