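import Mathlib
import Pool.Agent.Run7.h607.Grp6
import Pool.Agent.Run7.h607.Step5

/-! Exact rows for the T-lemma. -/

namespace Run7.h607

universe u v

open scoped commutatorElement

/-- the letters are permuted -/
def pmB (n : ℕ) : Bool := ((wd5 n).map Prod.fst ++ [(zd5 n).1]).isPerm (List.range 5)

/-- rows for the T-lemma -/
def rwT (n : ℕ) : List (ℤ × ℕ) :=
  if Nat.beq (n % 16) 6 then
    nfL (nfK 4) ((XL 3 (Rl 3)).map (sbT ((wd5 n).take 1) ((wd5 n).drop 1) (zd5 n)))
  else if Nat.beq (n % 16) 7 then nfL (nfK 4) (zr 4 2 1 (wd5 n) (zd5 n))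
  else rw5 (nfK 4) 4 n

/-- validity -/
def okT (n : ℕ) : Bool :=
  if Nat.beq (n % 16) 6 || Nat.beq (n % 16) 7 then
    pmB n && Nat.beq (sE (wd5 n) (zd5 n)) 0
  else if Nat.beq (n % 16) 4 then pmB n
  else okc 4 2 n

section
variable {G : Type u} [Group G] {F : Filt G} {A : Type v} [AddCommGroup A] {ω : G → A} {g : G}
  {v : ℕ → F.N 0}

lemma evW_R3 {x : G} (hx : Gen F x) (he : Eng x) (hω : F.Sym 4 ω)
    {o n : List (ℕ × ℕ)} {z : ℕ × ℕ} (hw : PW 5 (o ++ n) z) (hn : n.length = 3)
    (hV : VanK ω g v 5 3) : evW ω g v ((XL 3 (Rl 3)).map (sbT o n z)) = 0 := by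
  have hlen : o.length + n.length = 4 := by
    have := hw.length_eq
    simp only [List.length_append, List.length_map, List.length_singleton,
      List.length_range] at this
    omega
  have hdo : (dw g v o).length = o.length := by unfold dw; rw [List.length_map]
  have hs : F.Sym 3 (fun y => ω (rb (dw g v o) y)) := by
    apply sym_last
    · rw [hdo, show 3 + o.length = 4 by omega]; exact hω
    · exact dw_mem g v o
  rw [evW_sb, ← XL_sound g _ _ hs 3 (Rl 3) (fun t ht => (Rl_wf 3 t ht).1)]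
  · exact REL' hx he hs _ _ g
  · intro t ht u e hu hs'
    have hp : (u.map Prod.fst).Perm (List.range n.length) := by
      rw [hu, hn]; exact Rl_letters 3 t ht
    have := hV (o ++ u.map (sbE n)) (z.1, e + z.2) (PW_sb hw hp _)
      (by rw [sE_sb hp]; omega)
    rw [vl_sb] at this
    exact this

lemma evW_R4 {x : G} (hx : Gen F x) (he : Eng x) (hω : F.Sym 4 ω)
    {n : List (ℕ × ℕ)} {z : ℕ × ℕ} (hn : n.length = 4) :
    evW ω g v (tb4.map (sbT [] n z)) = 0 := by
  have hs : F.Sym 4 (fun y => ω (rb (dw g v []) y)) := hω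
  rw [evW_sb, ← eqL_sound _ _ _ tb4_ok, ← strip_sound]
  exact REL' hx he hs _ _ 1

theorem rowT_sound {x : G} (hx : Gen F x) (he : Eng x) (hω : F.Sym 4 ω)
    (hvx : ∀ l < 4, (v l : G) = x) (hV : VanK ω g v 5 3) (n : ℕ) (h : okT n = true) :
    ev (BK ω g v) (rwT n) = 0 := by
  have hv0 : ∀ l < 4, v l = v 0 := fun l hl =>
    Subtype.ext ((hvx l hl).trans (hvx 0 (by norm_num)).symm)
  have hnf : ∀ w z, PW 5 w z → ev (BK ω g v) (nfK 4 w z) = vl ω g v w z := fun w z hw =>
    nfK_sound hx he hω hv0 hw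
  have hZ : ZK F A x 4 4 := ZK_base hx he
  unfold okT at h
  unfold rwT
  by_cases c6 : Nat.beq (n % 16) 6 = true
  · rw [if_pos (by rw [c6]; rfl), Bool.and_eq_true, Nat.beq_eq] at h
    have hw : PW 5 (wd5 n) (zd5 n) := List.isPerm_iff.mp h.1
    have hw' : PW 5 ((wd5 n).take 1 ++ (wd5 n).drop 1) (zd5 n) := by
      rw [List.take_append_drop]; exact hw
    rw [if_pos c6, nfL_sound hnf]
    · exact evW_R3 hx he hω hw' rfl hV
    · intro t ht
      simp only [List.mem_map] at ht
      obtain ⟨t', ht', rfl⟩ := ht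
      refine PW_sb hw' ?_ _
      simp only [XL, List.mem_flatMap, List.mem_map] at ht'
      obtain ⟨t1, ht1, t2, ht2, rfl⟩ := ht'
      show (t2.2.1.map Prod.fst).Perm _
      rw [xq_fst _ _ _ t2 ht2]
      exact Rl_letters 3 t1 ht1
  by_cases c7 : Nat.beq (n % 16) 7 = true
  · rw [if_pos (by rw [c7, Bool.or_true]), Bool.and_eq_true, Nat.beq_eq] at h
    have hw : PW 5 (wd5 n) (zd5 n) := List.isPerm_iff.mp h.1
    have h1 : ((wd5 n).map Prod.snd).sum = 0 ∧ (zd5 n).2 = 0 := by
      have := h.2; unfold sE at this; omega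
    have h2 : ∀ p ∈ wd5 n, p.2 = 0 := by
      intro p hp
      have h3 : p.2 ≤ ((wd5 n).map Prod.snd).sum :=
        List.single_le_sum (fun _ _ => Nat.zero_le _) _ (List.mem_map_of_mem hp)
      omega
    rw [if_neg c6, if_pos c7, nfL_sound hnf]
    · exact zr_sound hx.1 hω hZ hvx hw (fun p hp _ => h2 p hp) (fun _ => h1.2) 2 1 hV (by omega)
    · intro t ht
      simp only [zr, List.mem_map] at ht
      obtain ⟨t', ht', rfl⟩ := ht
      have h3 := xq_fst _ _ _ t' ht'
      refine PW_sb (o := []) (n := wd5 n) hw ?_ _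
      rw [h3]
      unfold ps
      rw [List.map_map]
      have : (List.range (wd5 n).length).map (Prod.fst ∘ fun i =>
          (i, iq 4 1 ((wd5 n).getD i (0, 0)).1)) = List.range (wd5 n).length := by
        conv_rhs => rw [← List.map_id (List.range (wd5 n).length)]
        rfl
      rw [this]
  rw [if_neg c6, if_neg c7]
  have hor : ¬ ((Nat.beq (n % 16) 6 || Nat.beq (n % 16) 7) = true) := by
    rw [Bool.or_eq_true]; exact fun h => h.elim c6 c7
  rw [if_neg hor] at h
  by_cases c4 : Nat.beq (n % 16) 4 = true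
  · rw [if_pos c4] at h
    have hw : PW 5 (wd5 n) (zd5 n) := List.isPerm_iff.mp h
    rw [Nat.beq_eq] at c4
    unfold rw5 tm5
    rw [c4]
    simp only [Nat.ble_eq, Nat.reduceLeDiff, if_true, rT, Nat.sub_self, List.take_zero,
      List.drop_zero]
    rw [nfL_sound hnf]
    · exact evW_R4 hx he hω rfl
    · intro t ht
      simp only [List.mem_map] at ht
      obtain ⟨t', ht', rfl⟩ := ht
      refine PW_sb (o := []) hw ?_ _
      exact tbl_letters (ty := 4) (by norm_num) t' ht'
  · rw [if_neg c4] at h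
    exact row5_sound hnf hx he hω (by norm_num) (fun _ => hZ) hvx hV n h

end

end Run7.h607
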