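import Mathlib
import Pool.Agent.Run7.h607.TLem

/-! Certificates of the T-lemma. -/

namespace Run7.h607

set_option maxRecDepth 1000000

lemma chkT1 : stOk 20 rwT okT 3 [] .n ⟨[(-1, 231558), (1, 755843), (1, 214082), (-1, 231554), (-1, 2311236)], [], [(1, 64), (1, 4)]⟩ = true := by decide +kernel

lemma chkT2 : stOk 20 rwT okT 3 [] .n ⟨[(1, 2311684)], [], [(1, 1024), (-1, 4)]⟩ = true := by decide +kernel

lemma chkT3 : stOk 20 rwT okT 3 [] .n ⟨[(-1, 42231940), (1, 288903), (1, 231558), (-1, 755843), (-1, 214082), (1, 231554), (-1, 288905)], [], [(1, 16384), (1, 4)]⟩ = true := by decide +kernel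

end Run7.h607
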