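import Mathlib
import Pool.Agent.Run7.h607.DatT
import Pool.Agent.Run7.h607.Chain6

/-! The T-lemma. -/

namespace Run7.h607

universe u v

open scoped commutatorElement

lemma stOk_sound {Q : Type v} [AddCommGroup Q] {f : ℕ} {p : ℤ} (B : ℕ → Q)
    (hp : ∀ k, p • B k = 0) {row : ℕ → List (ℤ × ℕ)} {ok : ℕ → Bool}
    (hrow : ∀ i, ok i = true → ev B (row i) = 0) {s : Step2}
    (h : stOk f row ok p [] .n s = true) : ev B s.F = 0 := by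
  simp only [stOk, Bool.and_eq_true] at h
  obtain ⟨⟨h1, h2⟩, h4⟩ := h
  have e := evT_zp p _ B .n hp trivial h4
  rw [evT_acR B hrow _ _ h1, evT_acF B [] (by simp), evT_addR f B _ _ _ h2] at e
  simpa only [evT, add_zero, neg_smul, one_smul, neg_eq_zero] using e

section
variable {G : Type u} [Group G] {F : Filt G} {A : Type v} [AddCommGroup A]

lemma Filt.Sym.add' {k : ℕ} {φ ψ : G → A} (h : F.Sym k φ) (h' : F.Sym k ψ) :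
    F.Sym k (fun y => φ y + ψ y) where
  mul a b ha hb := by
    show φ _ + ψ _ = (φ _ + ψ _) + (φ _ + ψ _)
    rw [h.mul _ _ ha hb, h'.mul _ _ ha hb]; abel
  ker a ha := by
    show φ _ + ψ _ = 0
    rw [h.ker _ ha, h'.ker _ ha, add_zero]

lemma Filt.Sym.sub' {k : ℕ} {φ ψ : G → A} (h : F.Sym k φ) (h' : F.Sym k ψ) :
    F.Sym k (fun y => φ y - ψ y) where
  mul a b ha hb := by
    show φ _ - ψ _ = (φ _ - ψ _) + (φ _ - ψ _)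
    rw [h.mul _ _ ha hb, h'.mul _ _ ha hb]; abel
  ker a ha := by
    show φ _ - ψ _ = 0
    rw [h.ker _ ha, h'.ker _ ha, sub_zero]

section
variable {ω : G → A} {x : G}

/-- the four words are additive in the moving letter -/
lemma symW0 (hω : F.Sym 4 ω) (hx : x ∈ F.N 0) {u : G} (hu : u ∈ F.N 0) :
    F.Sym 0 (fun y => ω ⁅y, ⁅x, ⁅x, ⁅x, u⁆⁆⁆⁆) :=
  hω.right (i := 0) (j := 3) rfl (F.com1 hx (F.com1 hx (F.com1 hx hu)))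

lemma symW1 (hω : F.Sym 4 ω) (hx : x ∈ F.N 0) {u : G} (hu : u ∈ F.N 0) :
    F.Sym 0 (fun y => ω ⁅x, ⁅y, ⁅x, ⁅x, u⁆⁆⁆⁆) :=
  (hω.left (i := 0) (j := 3) rfl hx).right (i := 0) (j := 2) rfl (F.com1 hx (F.com1 hx hu))

lemma symW2 (hω : F.Sym 4 ω) (hx : x ∈ F.N 0) {u : G} (hu : u ∈ F.N 0) :
    F.Sym 0 (fun y => ω ⁅x, ⁅x, ⁅y, ⁅x, u⁆⁆⁆⁆) :=
  ((hω.left (i := 0) (j := 3) rfl hx).left (i := 0) (j := 2) rfl hx).right (i := 0) (j := 1) rfl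
    (F.com1 hx hu)

lemma symW3 (hω : F.Sym 4 ω) (hx : x ∈ F.N 0) {u : G} (hu : u ∈ F.N 0) :
    F.Sym 0 (fun y => ω ⁅x, ⁅x, ⁅x, ⁅y, u⁆⁆⁆⁆) :=
  (((hω.left (i := 0) (j := 3) rfl hx).left (i := 0) (j := 2) rfl hx).left
    (i := 0) (j := 1) rfl hx).right (i := 0) (j := 0) rfl hu

theorem TL (hx : Gen F x) (he : Eng x) (h3 : ∀ a : A, (3 : ℤ) • a = 0) (hω : F.Sym 4 ω)
    {y u : G} (hy : y ∈ F.N 0) (hu : u ∈ F.N 0) :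
    ω ⁅x, ⁅y, ⁅x, ⁅x, u⁆⁆⁆⁆ = - ω ⁅y, ⁅x, ⁅x, ⁅x, u⁆⁆⁆⁆ ∧
    ω ⁅x, ⁅x, ⁅y, ⁅x, u⁆⁆⁆⁆ = ω ⁅y, ⁅x, ⁅x, ⁅x, u⁆⁆⁆⁆ ∧
    ω ⁅x, ⁅x, ⁅x, ⁅y, u⁆⁆⁆⁆ = - ω ⁅y, ⁅x, ⁅x, ⁅x, u⁆⁆⁆⁆ := by
  have hx0 := hx.1
  have hxu : ω ⁅x, ⁅x, ⁅x, ⁅x, u⁆⁆⁆⁆ = 0 := by
    have := ZK_base (A := A) hx he ω hω (fun l => if l < 4 then ⟨x, hx0⟩ else ⟨u, hu⟩)
      (by intro l hl; simp only [if_pos hl]) [0, 1, 2, 3] 4 (by decide)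
    exact this
  have main : ∀ g : G, ω ⁅x, ⁅⁅g, x⁆, ⁅x, ⁅x, u⁆⁆⁆⁆ = - ω ⁅⁅g, x⁆, ⁅x, ⁅x, ⁅x, u⁆⁆⁆⁆ ∧
      ω ⁅x, ⁅x, ⁅⁅g, x⁆, ⁅x, u⁆⁆⁆⁆ = ω ⁅⁅g, x⁆, ⁅x, ⁅x, ⁅x, u⁆⁆⁆⁆ ∧
      ω ⁅x, ⁅x, ⁅x, ⁅⁅g, x⁆, u⁆⁆⁆⁆ = - ω ⁅⁅g, x⁆, ⁅x, ⁅x, ⁅x, u⁆⁆⁆⁆ := by
    intro g
    let v : ℕ → F.N 0 := fun l => if l < 4 then ⟨x, hx0⟩ else ⟨u, hu⟩
    have hvx : ∀ l < 4, (v l : G) = x := by intro l hl; simp only [v, if_pos hl]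
    have hZ : ZW F ω x 4 4 := by
      intro c v' hv' w z hw
      exact ZK_base hx he _ (hω.compcj c) v' hv' w z hw
    have hV : VanK ω g v 5 3 := lev6 hx he h3 hω (by norm_num) (by norm_num) hZ hvx
      (gen6 hx he h3 hω g v) (fun B => ct643 B)
    have hr := fun n hn => rowT_sound hx he hω hvx hV n hn
    have t1 := stOk_sound (BK ω g v) (fun k => h3 _) hr chkT1
    have t2 := stOk_sound (BK ω g v) (fun k => h3 _) hr chkT2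
    have t3 := stOk_sound (BK ω g v) (fun k => h3 _) hr chkT3
    have b0 : BK ω g v 4 = ω ⁅⁅g, x⁆, ⁅x, ⁅x, ⁅x, u⁆⁆⁆⁆ := rfl
    have b1 : BK ω g v 64 = ω ⁅x, ⁅⁅g, x⁆, ⁅x, ⁅x, u⁆⁆⁆⁆ := rfl
    have b2 : BK ω g v 1024 = ω ⁅x, ⁅x, ⁅⁅g, x⁆, ⁅x, u⁆⁆⁆⁆ := rfl
    have b3 : BK ω g v 16384 = ω ⁅x, ⁅x, ⁅x, ⁅⁅g, x⁆, u⁆⁆⁆⁆ := rfl
    simp only [ev, one_smul, neg_smul, add_zero, b0, b1, b2, b3] at t1 t2 t3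
    refine ⟨eq_neg_of_add_eq_zero_left t1, ?_, eq_neg_of_add_eq_zero_left t3⟩
    rw [← sub_eq_add_neg] at t2
    exact sub_eq_zero.mp t2
  have split0 : ∀ g, ω ⁅cj g x, ⁅x, ⁅x, ⁅x, u⁆⁆⁆⁆ = ω ⁅⁅g, x⁆, ⁅x, ⁅x, ⁅x, u⁆⁆⁆⁆ := by
    intro g
    rw [cj_eq, (symW0 hω hx0 hu).mul _ _ (F.com_any g hx0) hx0, hxu, add_zero]
  refine ⟨?_, ?_, ?_⟩
  · have k := hx.ind ((symW1 hω hx0 hu).add' (symW0 hω hx0 hu)) ?_ y hy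
    · exact eq_neg_of_add_eq_zero_left k
    · intro g
      show ω ⁅x, ⁅cj g x, ⁅x, ⁅x, u⁆⁆⁆⁆ + ω ⁅cj g x, ⁅x, ⁅x, ⁅x, u⁆⁆⁆⁆ = 0
      rw [split0, cj_eq, (symW1 hω hx0 hu).mul _ _ (F.com_any g hx0) hx0, hxu, (main g).1]
      simp
  · have k := hx.ind ((symW2 hω hx0 hu).sub' (symW0 hω hx0 hu)) ?_ y hy
    · exact sub_eq_zero.mp k
    · intro g
      show ω ⁅x, ⁅x, ⁅cj g x, ⁅x, u⁆⁆⁆⁆ - ω ⁅cj g x, ⁅x, ⁅x, ⁅x, u⁆⁆⁆⁆ = 0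
      rw [split0, cj_eq, (symW2 hω hx0 hu).mul _ _ (F.com_any g hx0) hx0, hxu, (main g).2.1]
      simp
  · have k := hx.ind ((symW3 hω hx0 hu).add' (symW0 hω hx0 hu)) ?_ y hy
    · exact eq_neg_of_add_eq_zero_left k
    · intro g
      show ω ⁅x, ⁅x, ⁅x, ⁅cj g x, u⁆⁆⁆⁆ + ω ⁅cj g x, ⁅x, ⁅x, ⁅x, u⁆⁆⁆⁆ = 0
      rw [split0, cj_eq, (symW3 hω hx0 hu).mul _ _ (F.com_any g hx0) hx0, hxu, (main g).2.2]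
      simp

end

end

end Run7.h607
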