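import Mathlib
import Pool.Agent.Run7.h607.TL6

/-! The slot-2 trick and the algebra modulo three. -/

namespace Run7.h607

universe u v

open scoped commutatorElement

section
variable {G : Type u} [Group G] {F : Filt G}

/-- the element `(1, b)` -/
def sn (F : Filt G) (b : G) (hb : b ∈ F.N 0) : F.dbl := ⟨(1, b), by
  show b * 1⁻¹ ∈ F.N 0
  rw [inv_one, mul_one]; exact hb⟩

lemma rt_sn (b : G) (hb : b ∈ F.N 0) : rt F (sn F b hb) = b := by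
  show b * 1⁻¹ = b
  rw [inv_one, mul_one]

lemma sn_mem {b : G} (hb : b ∈ F.N 0) (hb1 : b ∈ F.N 1) : sn F b hb ∈ F.D.N 0 := by
  refine ⟨one_mem _, ?_⟩
  rw [rt_sn]; exact hb1

lemma cst_sn (a : G) {b : G} (hb : b ∈ F.N 0) :
    ⁅cst F a, sn F b hb⁆ = sn F ⁅a, b⁆ (F.com_any a hb) := by
  apply Subtype.ext
  apply Prod.ext
  · show ⁅a, (1 : G)⁆ = 1
    simp
  · rfl

/-- the second term is generated by commutators -/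
def Gn1 (F : Filt G) : Prop :=
  ∀ r ∈ F.N 1, r ∈ Subgroup.closure {r | ∃ m ∈ F.N 0, ∃ n ∈ F.N 0, r = ⁅m, n⁆}

lemma gen_D {x : G} (hx : Gen F x) (h1 : Gn1 F) : Gen F.D (cst F x) := by
  refine ⟨cst_mem hx.1, ?_⟩
  set C := Subgroup.closure {y : F.dbl | ∃ g, y = cj g (cst F x)} with hC
  have hcj : ∀ (p : F.dbl) (y : F.dbl), y ∈ C → cj p y ∈ C := by
    intro p y hy
    refine Subgroup.closure_induction (p := fun y _ => cj p y ∈ C) ?_ ?_ ?_ ?_ hy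
    · rintro _ ⟨g, rfl⟩
      rw [← cj_mul_left]
      exact Subgroup.subset_closure ⟨_, rfl⟩
    · rw [cj_one_right]; exact one_mem _
    · intro a b _ _ ha hb
      rw [cj_mul_right]; exact mul_mem ha hb
    · intro a _ ha
      rw [cj_inv]; exact inv_mem ha
  -- constants
  have hcst : ∀ a ∈ F.N 0, cst F a ∈ C := by
    intro a ha
    refine Subgroup.closure_induction (p := fun a _ => cst F a ∈ C) ?_ ?_ ?_ ?_ (hx.2 a ha)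
    · rintro _ ⟨g, rfl⟩
      have : cst F (cj g x) = cj (cst F g) (cst F x) := by
        apply Subtype.ext; apply Prod.ext <;> rfl
      rw [this]
      exact Subgroup.subset_closure ⟨_, rfl⟩
    · have : cst F (1 : G) = 1 := by apply Subtype.ext; apply Prod.ext <;> rfl
      rw [this]; exact one_mem _
    · intro a b _ _ ha hb
      have : cst F (a * b) = cst F a * cst F b := by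
        apply Subtype.ext; apply Prod.ext <;> rfl
      rw [this]; exact mul_mem ha hb
    · intro a _ ha
      have : cst F a⁻¹ = (cst F a)⁻¹ := by
        apply Subtype.ext; apply Prod.ext <;> rfl
      rw [this]; exact inv_mem ha
  -- second components
  have hsn : ∀ m ∈ F.N 0, ∀ n ∈ F.N 0, ∀ h : ⁅m, n⁆ ∈ F.N 0, sn F ⁅m, n⁆ h ∈ C := by
    intro m hm n hn
    have hsub : ∀ z ∈ Subgroup.closure {y | ∃ g, y = cj g x}, z ∈ F.N 0 := by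
      intro z hz
      refine (Subgroup.closure_le (F.N 0)).mpr ?_ hz
      rintro _ ⟨g, rfl⟩
      exact F.cj_mem _ hx.1
    refine Subgroup.closure_induction
      (p := fun n _ => ∀ h : ⁅m, n⁆ ∈ F.N 0, sn F ⁅m, n⁆ h ∈ C) ?_ ?_ ?_ ?_ (hx.2 n hn)
    · rintro _ ⟨g, rfl⟩ h
      have e : sn F ⁅m, cj g x⁆ h = cj (shf F m g hm) (cst F x) * (cj (cst F g) (cst F x))⁻¹ := by
        apply Subtype.ext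
        apply Prod.ext
        · show (1 : G) = cj g x * (cj g x)⁻¹
          rw [mul_inv_cancel]
        · show ⁅m, cj g x⁆ = cj (m * g) x * (cj g x)⁻¹
          unfold cj
          rw [commutatorElement_def]
          group
      rw [e]
      exact mul_mem (Subgroup.subset_closure ⟨_, rfl⟩)
        (inv_mem (Subgroup.subset_closure ⟨_, rfl⟩))
    · intro h
      have e : sn F ⁅m, (1 : G)⁆ h = 1 := by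
        apply Subtype.ext
        apply Prod.ext
        · rfl
        · show ⁅m, (1 : G)⁆ = 1
          simp
      rw [e]; exact one_mem _
    · intro a b ha hb iha ihb h
      have ha' := hsub a ha
      have hb' := hsub b hb
      have hma := F.com_any m ha'
      have hmb := F.com_any m hb'
      have e : sn F ⁅m, a * b⁆ h = sn F ⁅m, a⁆ hma * cj (cst F a) (sn F ⁅m, b⁆ hmb) := by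
        apply Subtype.ext
        apply Prod.ext
        · show (1 : G) = 1 * cj a 1
          rw [cj_one_right, one_mul]
        · show ⁅m, a * b⁆ = ⁅m, a⁆ * cj a ⁅m, b⁆
          exact comm_mul_right m a b
      rw [e]
      exact mul_mem (iha hma) (hcj _ _ (ihb hmb))
    · intro a ha iha h
      have ha' := hsub a ha
      have hma := F.com_any m ha'
      have e : sn F ⁅m, a⁻¹⁆ h = cj (cst F a⁻¹) (sn F ⁅m, a⁆ hma)⁻¹ := by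
        apply Subtype.ext
        apply Prod.ext
        · show (1 : G) = cj a⁻¹ (1⁻¹)
          rw [inv_one, cj_one_right]
        · show ⁅m, a⁻¹⁆ = cj a⁻¹ (⁅m, a⁆)⁻¹
          unfold cj
          rw [commutatorElement_def, commutatorElement_def]
          group
      rw [e]
      exact hcj _ _ (inv_mem (iha hma))
  have hsn2 : ∀ r ∈ F.N 1, ∀ h : r ∈ F.N 0, sn F r h ∈ C := by
    intro r hr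
    have hsub : ∀ z ∈ Subgroup.closure {r | ∃ m ∈ F.N 0, ∃ n ∈ F.N 0, r = ⁅m, n⁆},
        z ∈ F.N 0 := by
      intro z hz
      refine (Subgroup.closure_le (F.N 0)).mpr ?_ hz
      rintro _ ⟨m, _, n, hn, rfl⟩
      exact F.com_any m hn
    refine Subgroup.closure_induction (p := fun r _ => ∀ h : r ∈ F.N 0, sn F r h ∈ C)
      ?_ ?_ ?_ ?_ (h1 r hr)
    · rintro _ ⟨m, hm, n, hn, rfl⟩ h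
      exact hsn m hm n hn h
    · intro h
      have e : sn F (1 : G) h = 1 := rfl
      rw [e]; exact one_mem _
    · intro a b ha hb iha ihb h
      have e : sn F (a * b) h = sn F a (hsub a ha) * sn F b (hsub b hb) := by
        apply Subtype.ext
        apply Prod.ext
        · show (1 : G) = 1 * 1
          rw [one_mul]
        · rfl
      rw [e]
      exact mul_mem (iha _) (ihb _)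
    · intro a ha iha h
      have e : sn F a⁻¹ h = (sn F a (hsub a ha))⁻¹ := by
        apply Subtype.ext
        apply Prod.ext
        · show (1 : G) = 1⁻¹
          rw [inv_one]
        · rfl
      rw [e]
      exact inv_mem (iha _)
  intro y hy
  have hy' : y.1.1 ∈ F.N 0 ∧ rt F y ∈ F.N 1 := hy
  have hr0 : rt F y ∈ F.N 0 := F.anti _ _ hy'.2
  have e : y = sn F (rt F y) hr0 * cst F y.1.1 := by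
    apply Subtype.ext
    apply Prod.ext
    · show y.1.1 = 1 * y.1.1
      rw [one_mul]
    · exact snd_eq F y
  rw [e]
  exact mul_mem (hsn2 _ hy'.2 hr0) (hcst _ hy'.1)

variable {A : Type v} [AddCommGroup A] {ω : G → A} {x : G}

/-- the T-lemma in the second slot -/
theorem SL (hx : Gen F x) (he : Eng x) (h1 : Gn1 F) (h3 : ∀ a : A, (3 : ℤ) • a = 0)
    (hω : F.Sym 5 ω) {y u : G} (hy : y ∈ F.N 0) (hu : u ∈ F.N 1) :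
    ω ⁅x, ⁅x, ⁅x, ⁅y, u⁆⁆⁆⁆ = - ω ⁅y, ⁅x, ⁅x, ⁅x, u⁆⁆⁆⁆ := by
  have hu0 : u ∈ F.N 0 := F.anti _ _ hu
  have := (TL (F := F.D) (gen_D hx h1) (cst_eng he) h3 hω.dbl (cst_mem hy) (sn_mem hu0 hu)).2.2
  simp only [cst_sn, rt_sn] at this
  exact this

/-- three-fold Leibniz rule -/
lemma leib (h3 : ∀ a : A, (3 : ℤ) • a = 0) {i j : ℕ} (hω : F.Sym (i + j + 4) ω) (hx : x ∈ F.N 0)
    {a b : G} (ha : a ∈ F.N i) (hb : b ∈ F.N j) :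
    ω ⁅x, ⁅x, ⁅x, ⁅a, b⁆⁆⁆⁆ = ω ⁅⁅x, ⁅x, ⁅x, a⁆⁆⁆, b⁆ + ω ⁅a, ⁅x, ⁅x, ⁅x, b⁆⁆⁆⁆ := by
  have step : ∀ {k i j : ℕ} {φ : G → A} {a b : G}, F.Sym k φ → i + j + 2 = k → a ∈ F.N i →
      b ∈ F.N j → φ ⁅x, ⁅a, b⁆⁆ = φ ⁅⁅x, a⁆, b⁆ + φ ⁅a, ⁅x, b⁆⁆ := by
    intro k i j φ a b hφ hk ha hb
    have := hφ.jacobi (i := 0) (j := i) (l := j) (by omega) hx ha hb
    rw [this]; abel
  have xa := F.com1 hx ha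
  have xxa := F.com1 hx xa
  have xxxa := F.com1 hx xxa
  have xb := F.com1 hx hb
  have xxb := F.com1 hx xb
  have xxxb := F.com1 hx xxb
  have l1 : F.Sym (i + j + 3) (fun y => ω ⁅x, y⁆) := hω.left (i := 0) (by omega) hx
  have l2 : F.Sym (i + j + 2) (fun y => ω ⁅x, ⁅x, y⁆⁆) := l1.left (i := 0) (by omega) hx
  have s1 := step l2 rfl ha hb
  have s2 := step l1 (by omega) xa hb
  have s3 := step l1 (by omega) ha xb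
  have s4 := step hω (by omega) xxa hb
  have s5 := step hω (by omega) xa xb
  have s6 := step hω (by omega) ha xxb
  have s1' : ω ⁅x, ⁅x, ⁅x, ⁅a, b⁆⁆⁆⁆ = ω ⁅x, ⁅x, ⁅⁅x, a⁆, b⁆⁆⁆ + ω ⁅x, ⁅x, ⁅a, ⁅x, b⁆⁆⁆⁆ := s1
  have s2' : ω ⁅x, ⁅x, ⁅⁅x, a⁆, b⁆⁆⁆ = ω ⁅x, ⁅⁅x, ⁅x, a⁆⁆, b⁆⁆ + ω ⁅x, ⁅⁅x, a⁆, ⁅x, b⁆⁆⁆ := s2
  have s3' : ω ⁅x, ⁅x, ⁅a, ⁅x, b⁆⁆⁆⁆ = ω ⁅x, ⁅⁅x, a⁆, ⁅x, b⁆⁆⁆ + ω ⁅x, ⁅a, ⁅x, ⁅x, b⁆⁆⁆⁆ := s3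
  have t := h3 (ω ⁅⁅x, ⁅x, a⁆⁆, ⁅x, b⁆⁆)
  have t' := h3 (ω ⁅⁅x, a⁆, ⁅x, ⁅x, b⁆⁆⁆)
  rw [s1', s2', s3', s4, s5, s6]
  have e : ω ⁅⁅x, ⁅x, ⁅x, a⁆⁆⁆, b⁆ + ω ⁅⁅x, ⁅x, a⁆⁆, ⁅x, b⁆⁆ +
      (ω ⁅⁅x, ⁅x, a⁆⁆, ⁅x, b⁆⁆ + ω ⁅⁅x, a⁆, ⁅x, ⁅x, b⁆⁆⁆) +
      (ω ⁅⁅x, ⁅x, a⁆⁆, ⁅x, b⁆⁆ + ω ⁅⁅x, a⁆, ⁅x, ⁅x, b⁆⁆⁆ +
      (ω ⁅⁅x, a⁆, ⁅x, ⁅x, b⁆⁆⁆ + ω ⁅a, ⁅x, ⁅x, ⁅x, b⁆⁆⁆⁆)) =
      ω ⁅⁅x, ⁅x, ⁅x, a⁆⁆⁆, b⁆ + ω ⁅a, ⁅x, ⁅x, ⁅x, b⁆⁆⁆⁆ +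
      (3 : ℤ) • ω ⁅⁅x, ⁅x, a⁆⁆, ⁅x, b⁆⁆ + (3 : ℤ) • ω ⁅⁅x, a⁆, ⁅x, ⁅x, b⁆⁆⁆ := by module
  rw [e, t, t', add_zero, add_zero]

/-- the algebra: `Φ = 0` -/
theorem phi_zero (hx : Gen F x) (he : Eng x) (h1 : Gn1 F) (h3 : ∀ a : A, (3 : ℤ) • a = 0)
    (hω : F.Sym 5 ω) {w a b : G} (hw : w ∈ F.N 0) (ha : a ∈ F.N 0) (hb : b ∈ F.N 0) :
    ω ⁅w, ⁅a, ⁅x, ⁅x, ⁅x, b⁆⁆⁆⁆⁆ = 0 := by
  have hx0 := hx.1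
  have m3 : ∀ {b : G} {i : ℕ}, b ∈ F.N i → ⁅x, ⁅x, ⁅x, b⁆⁆⁆ ∈ F.N (i + 3) := fun hb =>
    F.com1 hx0 (F.com1 hx0 (F.com1 hx0 hb))
  -- antisymmetry
  have anti : ∀ {w a b : G}, w ∈ F.N 0 → a ∈ F.N 0 → b ∈ F.N 0 →
      ω ⁅w, ⁅a, ⁅x, ⁅x, ⁅x, b⁆⁆⁆⁆⁆ = - ω ⁅w, ⁅b, ⁅x, ⁅x, ⁅x, a⁆⁆⁆⁆⁆ := by
    intro w a b hw ha hb
    have hφ : F.Sym 4 (fun y => ω ⁅w, y⁆) := hω.left (i := 0) (by norm_num) hw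
    have t1 : ω ⁅w, ⁅x, ⁅x, ⁅x, ⁅a, b⁆⁆⁆⁆⁆ = - ω ⁅w, ⁅a, ⁅x, ⁅x, ⁅x, b⁆⁆⁆⁆⁆ :=
      (TL hx he h3 hφ ha hb).2.2
    have t2 : ω ⁅w, ⁅x, ⁅x, ⁅x, ⁅b, a⁆⁆⁆⁆⁆ = - ω ⁅w, ⁅b, ⁅x, ⁅x, ⁅x, a⁆⁆⁆⁆⁆ :=
      (TL hx he h3 hφ hb ha).2.2
    have hψ : F.Sym 1 (fun y => ω ⁅w, ⁅x, ⁅x, ⁅x, y⁆⁆⁆⁆) :=
      ((hφ.left (i := 0) (j := 3) rfl hx0).left (i := 0) (j := 2) rfl hx0).left (i := 0)
        (j := 1) rfl hx0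
    have t3 : ω ⁅w, ⁅x, ⁅x, ⁅x, ⁅a, b⁆⁆⁆⁆⁆ = - ω ⁅w, ⁅x, ⁅x, ⁅x, ⁅b, a⁆⁆⁆⁆⁆ :=
      hψ.antisymm (i := 0) (j := 0) rfl ha hb
    have e1 : ω ⁅w, ⁅a, ⁅x, ⁅x, ⁅x, b⁆⁆⁆⁆⁆ = - ω ⁅w, ⁅x, ⁅x, ⁅x, ⁅a, b⁆⁆⁆⁆⁆ := by
      rw [t1, neg_neg]
    have e2 : ω ⁅w, ⁅b, ⁅x, ⁅x, ⁅x, a⁆⁆⁆⁆⁆ = - ω ⁅w, ⁅x, ⁅x, ⁅x, ⁅b, a⁆⁆⁆⁆⁆ := by
      rw [t2, neg_neg]
    rw [e1, e2, t3]
  -- the cyclic relation
  have cyc : ∀ {y a b : G}, y ∈ F.N 0 → a ∈ F.N 0 → b ∈ F.N 0 →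
      ω ⁅y, ⁅a, ⁅x, ⁅x, ⁅x, b⁆⁆⁆⁆⁆ - ω ⁅a, ⁅b, ⁅x, ⁅x, ⁅x, y⁆⁆⁆⁆⁆ +
        ω ⁅b, ⁅a, ⁅x, ⁅x, ⁅x, y⁆⁆⁆⁆⁆ = 0 := by
    intro y a b hy ha hb
    have hab : ⁅a, b⁆ ∈ F.N 1 := F.com 0 0 _ _ ha hb
    have s := SL hx he h1 h3 hω hy hab
    have l := leib h3 (i := 0) (j := 1) (by simpa using hω) hx0 hy hab
    have hφ : F.Sym 4 (fun z => ω ⁅y, z⁆) := hω.left (i := 0) (by norm_num) hy
    have l2 : ω ⁅y, ⁅x, ⁅x, ⁅x, ⁅a, b⁆⁆⁆⁆⁆ =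
        ω ⁅y, ⁅⁅x, ⁅x, ⁅x, a⁆⁆⁆, b⁆⁆ + ω ⁅y, ⁅a, ⁅x, ⁅x, ⁅x, b⁆⁆⁆⁆⁆ :=
      leib h3 (ω := fun z => ω ⁅y, z⁆) (i := 0) (j := 0) hφ hx0 ha hb
    -- ω[y,[X³a,b]] = -ω[y,[b,X³a]] = ω[y,[a,X³b]]
    have e1 : ω ⁅y, ⁅⁅x, ⁅x, ⁅x, a⁆⁆⁆, b⁆⁆ = ω ⁅y, ⁅a, ⁅x, ⁅x, ⁅x, b⁆⁆⁆⁆⁆ := by
      have : ω ⁅y, ⁅⁅x, ⁅x, ⁅x, a⁆⁆⁆, b⁆⁆ = - ω ⁅y, ⁅b, ⁅x, ⁅x, ⁅x, a⁆⁆⁆⁆⁆ :=
        hφ.antisymm (i := 3) (j := 0) rfl (m3 ha) hb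
      rw [this, anti hy ha hb]
    have e2 : ω ⁅⁅x, ⁅x, ⁅x, y⁆⁆⁆, ⁅a, b⁆⁆ =
        - (ω ⁅a, ⁅b, ⁅x, ⁅x, ⁅x, y⁆⁆⁆⁆⁆ - ω ⁅b, ⁅a, ⁅x, ⁅x, ⁅x, y⁆⁆⁆⁆⁆) := by
      rw [hω.antisymm (i := 3) (j := 1) rfl (m3 hy) hab,
        hω.jacobi (i := 0) (j := 0) (l := 3) rfl ha hb (m3 hy)]
    rw [l, l2, e1, e2] at s
    have t := h3 (ω ⁅y, ⁅a, ⁅x, ⁅x, ⁅x, b⁆⁆⁆⁆⁆)
    have e : ω ⁅y, ⁅a, ⁅x, ⁅x, ⁅x, b⁆⁆⁆⁆⁆ - ω ⁅a, ⁅b, ⁅x, ⁅x, ⁅x, y⁆⁆⁆⁆⁆ +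
        ω ⁅b, ⁅a, ⁅x, ⁅x, ⁅x, y⁆⁆⁆⁆⁆ =
        (-(ω ⁅a, ⁅b, ⁅x, ⁅x, ⁅x, y⁆⁆⁆⁆⁆ - ω ⁅b, ⁅a, ⁅x, ⁅x, ⁅x, y⁆⁆⁆⁆⁆) +
          (ω ⁅y, ⁅a, ⁅x, ⁅x, ⁅x, b⁆⁆⁆⁆⁆ + ω ⁅y, ⁅a, ⁅x, ⁅x, ⁅x, b⁆⁆⁆⁆⁆)) -
          (-(ω ⁅y, ⁅a, ⁅x, ⁅x, ⁅x, b⁆⁆⁆⁆⁆ + ω ⁅y, ⁅a, ⁅x, ⁅x, ⁅x, b⁆⁆⁆⁆⁆)) -
          (3 : ℤ) • ω ⁅y, ⁅a, ⁅x, ⁅x, ⁅x, b⁆⁆⁆⁆⁆ := by module
    rw [e, s, t]
    simp
  have c1 := cyc hw ha hb
  have c2 := cyc ha hb hw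
  have c3 := cyc hb hw ha
  -- in terms of the three cyclic values
  have n1 := anti hb ha hw
  have n2 := anti hw hb ha
  have n3 := anti ha hw hb
  set P := ω ⁅w, ⁅a, ⁅x, ⁅x, ⁅x, b⁆⁆⁆⁆⁆ with hP
  set Q := ω ⁅a, ⁅b, ⁅x, ⁅x, ⁅x, w⁆⁆⁆⁆⁆ with hQ
  set R := ω ⁅b, ⁅w, ⁅x, ⁅x, ⁅x, a⁆⁆⁆⁆⁆ with hR
  rw [n1] at c1
  rw [n2] at c2
  rw [n3] at c3
  have t := h3 P
  have : P = (3 : ℤ) • P + ((Q - R + -P) + (R - P + -Q)) := by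
    module
  rw [this, t, c2, c3]
  simp

end

end Run7.h607
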