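import Mathlib
import Pool.Agent.Run7.h607.Slot6

/-! Weight six modulo three. -/

namespace Run7.h607

universe u v

open scoped commutatorElement

section
variable {G : Type u} [Group G] {F : Filt G} {A : Type v} [AddCommGroup A]

lemma words_last {ψ : G → A} (hψ : F.Sym 4 ψ) (v : ℕ → F.N 0)
    (hW : ∀ l : List ℕ, l.Perm [0, 1, 2, 3] → ψ (rb (l.map fun i => (v i : G)) (v 4)) = 0)
    (w : List ℕ) (z : ℕ) (hw : (w ++ [z]).Perm (List.range 5)) :
    ψ (rb (w.map fun i => (v i : G)) (v z)) = 0 := by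
  have hpw : PW 5 (w.map fun l => (l, 0)) (z, 0) := by
    unfold PW
    rw [List.map_map]
    have : w.map (Prod.fst ∘ fun l => (l, 0)) = w := by
      conv_rhs => rw [← List.map_id w]
      rfl
    rw [this]; exact hw
  have h1 := nfW_sound hψ (fun p => v p.1) 4 (PW5_len hpw) (z, 0)
  have h2 : vu ψ (fun p => v p.1) (w.map fun l => (l, 0)) (z, 0) =
      ψ (rb (w.map fun i => (v i : G)) (v z)) := by
    unfold vu
    rw [List.map_map]
    rfl
  rw [← h2, ← h1]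
  unfold evU
  apply List.sum_eq_zero
  intro a ha
  rw [List.mem_map] at ha
  obtain ⟨s, hs, rfl⟩ := ha
  obtain ⟨p1, p2⟩ := nfW_perm (mem4 hpw) s hs
  have h3 := PW_of_perm p1 hpw
  have h4 : (s.2.1.map Prod.fst).Perm [0, 1, 2, 3] := by
    unfold PW at h3
    rw [p2] at h3
    have hr : List.range 5 = [0, 1, 2, 3] ++ [4] := by decide
    rw [hr] at h3
    exact (List.perm_append_right_iff [4]).mp h3
  have h5 := hW _ h4
  have h6 : vu ψ (fun p => v p.1) s.2.1 s.2.2 =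
      ψ (rb ((s.2.1.map Prod.fst).map fun i => (v i : G)) (v 4)) := by
    rw [List.map_map, ← p2]
    rfl
  rw [h6, h5, smul_zero]

lemma perm4_cases {l : List ℕ} (h : l.Perm [0, 1, 2, 3]) : l ∈ p4 := by
  have hlen : l.length = 4 := by simpa using h.length_eq
  obtain ⟨a, b, c, d, rfl⟩ : ∃ a b c d, l = [a, b, c, d] := by
    rcases l with _ | ⟨p0, _ | ⟨p1, _ | ⟨p2, _ | ⟨p3, _ | ⟨p4, w⟩⟩⟩⟩⟩
    · simp at hlen
    · simp at hlen
    · simp at hlen
    · simp at hlen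
    · exact ⟨p0, p1, p2, p3, rfl⟩
    · simp at hlen
  have hlt : ∀ i ∈ [a, b, c, d], i < 4 := by
    intro i hi
    have : i ∈ [0, 1, 2, 3] := h.mem_iff.mp hi
    simp only [List.mem_cons, List.not_mem_nil, or_false] at this
    omega
  exact mem_p4 (hlt a (by simp)) (hlt b (by simp)) (hlt c (by simp)) (hlt d (by simp))
    ((List.Perm.nodup_iff h).mpr (by decide))

lemma p4_three : ∀ l ∈ p4, ∃ i < 4, l = (List.range 4).map
    (fun k => if k = i then 3 else (l.getD k 0)) ∧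
    (∀ k < 4, k ≠ i → l.getD k 0 < 3) := by
  have h : (p4.all fun l => (List.range 4).any fun i => decide (l = (List.range 4).map
    (fun k => if k = i then 3 else (l.getD k 0))) &&
    (List.range 4).all fun k => Nat.beq k i || Nat.blt (l.getD k 0) 3) = true := by
    decide +kernel
  intro l hl
  have h1 := List.all_eq_true.mp h l hl
  rw [List.any_eq_true] at h1
  obtain ⟨i, hi, h2⟩ := h1
  rw [Bool.and_eq_true, decide_eq_true_eq] at h2
  refine ⟨i, List.mem_range.mp hi, h2.1, ?_⟩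
  intro k hk hne
  have h3 := List.all_eq_true.mp h2.2 k (List.mem_range.mpr hk)
  rw [Bool.or_eq_true, Nat.beq_eq, Nat.blt_eq] at h3
  exact h3.resolve_left hne

theorem words_three {x : G} {ψ : G → A} (hψ : F.Sym 4 ψ) (v : ℕ → F.N 0)
    (hv : ∀ l < 3, (v l : G) = x)
    (h0 : ψ ⁅(v 3 : G), ⁅x, ⁅x, ⁅x, (v 4 : G)⁆⁆⁆⁆ = 0)
    (h1 : ψ ⁅x, ⁅(v 3 : G), ⁅x, ⁅x, (v 4 : G)⁆⁆⁆⁆ = 0)
    (h2 : ψ ⁅x, ⁅x, ⁅(v 3 : G), ⁅x, (v 4 : G)⁆⁆⁆⁆ = 0)
    (h3 : ψ ⁅x, ⁅x, ⁅x, ⁅(v 3 : G), (v 4 : G)⁆⁆⁆⁆ = 0)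
    (w : List ℕ) (z : ℕ) (hw : (w ++ [z]).Perm (List.range 5)) :
    ψ (rb (w.map fun i => (v i : G)) (v z)) = 0 := by
  refine words_last hψ v ?_ w z hw
  intro l hl
  obtain ⟨i, hi, e, hlt⟩ := p4_three l (perm4_cases hl)
  rw [e, List.map_map]
  have hr : List.range 4 = [0, 1, 2, 3] := by decide
  rw [hr]
  have hx : ∀ k < 4, k ≠ i → (v (l.getD k 0) : G) = x := fun k hk hne => hv _ (hlt k hk hne)
  interval_cases i
  · simp only [List.map_cons, List.map_nil, Function.comp, if_true, one_ne_zero, if_false,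
      OfNat.ofNat_ne_zero]
    rw [hx 1 (by norm_num) (by norm_num), hx 2 (by norm_num) (by norm_num),
      hx 3 (by norm_num) (by norm_num)]
    exact h0
  · simp only [List.map_cons, List.map_nil, Function.comp, if_true, zero_ne_one, if_false,
      OfNat.ofNat_ne_one]
    rw [hx 0 (by norm_num) (by norm_num), hx 2 (by norm_num) (by norm_num),
      hx 3 (by norm_num) (by norm_num)]
    exact h1
  · have n0 : ¬ (0 = 2) := by norm_num
    have n1 : ¬ (1 = 2) := by norm_num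
    have n3 : ¬ (3 = 2) := by norm_num
    simp only [List.map_cons, List.map_nil, Function.comp, if_true, if_neg n0, if_neg n1,
      if_neg n3]
    rw [hx 0 (by norm_num) (by norm_num), hx 1 (by norm_num) (by norm_num),
      hx 3 (by norm_num) (by norm_num)]
    exact h2
  · have n0 : ¬ (0 = 3) := by norm_num
    have n1 : ¬ (1 = 3) := by norm_num
    have n2 : ¬ (2 = 3) := by norm_num
    simp only [List.map_cons, List.map_nil, Function.comp, if_true, if_neg n0, if_neg n1,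
      if_neg n2]
    rw [hx 0 (by norm_num) (by norm_num), hx 1 (by norm_num) (by norm_num),
      hx 2 (by norm_num) (by norm_num)]
    exact h3

theorem ZW3 {x : G} (hx : Gen F x) (he : Eng x) (h1 : Gn1 F) (h3 : ∀ a : A, (3 : ℤ) • a = 0)
    {ω : G → A} (hω : F.Sym 5 ω) {w : G} (hw : w ∈ F.N 0) :
    ZW F (fun y => ω ⁅w, y⁆) x 4 3 := by
  intro c v hv w' z hw'
  have hω' : F.Sym 5 (fun y => ω (cj c y)) := hω.compcj c
  have hwc : cj c⁻¹ w ∈ F.N 0 := F.cj_mem _ hw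
  have hψ : F.Sym 4 (fun y => ω (cj c ⁅cj c⁻¹ w, y⁆)) :=
    hω'.left (i := 0) (by norm_num) hwc
  have e : ∀ y, ω ⁅w, cj c y⁆ = ω (cj c ⁅cj c⁻¹ w, y⁆) := by
    intro y
    rw [cj_comm, ← cj_mul_left, mul_inv_cancel, cj_one_left]
  show ω ⁅w, cj c _⁆ = 0
  rw [e]
  have p0 : ω (cj c ⁅cj c⁻¹ w, ⁅(v 3 : G), ⁅x, ⁅x, ⁅x, (v 4 : G)⁆⁆⁆⁆⁆) = 0 :=
    phi_zero hx he h1 h3 hω' hwc (v 3).2 (v 4).2
  have t := TL hx he h3 hψ (v 3).2 (v 4).2
  simp only [p0, neg_zero] at t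
  exact words_three hψ v hv p0 t.1 t.2.1 t.2.2 w' z hw'

/-- Weight six vanishes modulo three. -/
theorem weight_six {x : G} (hx : Gen F x) (he : Eng x) (h1 : Gn1 F)
    (h3 : ∀ a : A, (3 : ℤ) • a = 0) {ω : G → A} (hω : F.Sym 5 ω) {w a b c d e : G}
    (hw : w ∈ F.N 0) (ha : a ∈ F.N 0) (hb : b ∈ F.N 0) (hc : c ∈ F.N 0) (hd : d ∈ F.N 0)
    (he' : e ∈ F.N 0) : ω ⁅w, ⁅a, ⁅b, ⁅c, ⁅d, e⁆⁆⁆⁆⁆ = 0 :=
  chain6 hx he h3 (hω.left (i := 0) (by norm_num) hw) (ZW3 hx he h1 h3 hω hw) ha hb hc hd he'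

end

end Run7.h607
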