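import Mathlib
import Pool.Agent.Run7.h607.W6

/-! A uniform bound for the exponent of the commutators of weight four. -/

namespace Run7.h607

universe u v

open scoped commutatorElement

/-- a counterexample to the bound `30 ^ M` -/
structure Bad (M : ℕ) where
  G : Type u
  gG : Group G
  F : Filt G
  x : G
  hx : Gen F x
  he : Eng x
  A : Type v
  gA : AddCommGroup A
  ω : G → A
  hω : F.Sym 3 ω
  a : G
  b : G
  c : G
  d : G
  h : ((30:ℤ) ^ M) • ω ⁅cj a x, ⁅cj b x, ⁅cj c x, cj d x⁆⁆⁆ ≠ 0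

section
variable (B : ∀ M, Bad.{u, v} M)

instance (k : ℕ) : Group (B k).G := (B k).gG
instance (k : ℕ) : AddCommGroup (B k).A := (B k).gA

/-- the product group -/
abbrev PG := ∀ k, (B k).G

/-- the product of the elements `x` -/
def Px : PG B := fun k => (B k).x

/-- the product filtration -/
def PF : Filt (PG B) where
  N i :=
    { carrier := {p | p ∈ Subgroup.normalClosure {Px B} ∧ ∀ k, p k ∈ (B k).F.N i}
      one_mem' := ⟨one_mem _, fun k => one_mem _⟩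
      mul_mem' := fun ha hb => ⟨mul_mem ha.1 hb.1, fun k => mul_mem (ha.2 k) (hb.2 k)⟩
      inv_mem' := fun ha => ⟨inv_mem ha.1, fun k => inv_mem (ha.2 k)⟩ }
  nrm i g a ha := ⟨Subgroup.normalClosure_normal.conj_mem _ ha.1 g,
    fun k => (B k).F.nrm i (g k) (a k) (ha.2 k)⟩
  anti i a ha := ⟨ha.1, fun k => (B k).F.anti i _ (ha.2 k)⟩
  com i j a b ha hb := by
    refine ⟨?_, fun k => (B k).F.com i j _ _ (ha.2 k) (hb.2 k)⟩
    rw [commutatorElement_def]
    exact mul_mem (mul_mem (mul_mem ha.1 hb.1) (inv_mem ha.1)) (inv_mem hb.1)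

lemma PF_mem (i : ℕ) (p : PG B) :
    p ∈ (PF B).N i ↔ p ∈ Subgroup.normalClosure {Px B} ∧ ∀ k, p k ∈ (B k).F.N i := Iff.rfl

lemma P_gen : Gen (PF B) (Px B) := by
  refine ⟨⟨Subgroup.subset_normalClosure (Set.mem_singleton _), fun k => (B k).hx.1⟩, ?_⟩
  intro y hy
  have hy' : y ∈ Subgroup.normalClosure {Px B} := hy.1
  refine (Subgroup.closure_mono ?_)
    (show y ∈ Subgroup.closure (Group.conjugatesOfSet {Px B}) from hy')
  intro z hz
  rw [Group.mem_conjugatesOfSet_iff] at hz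
  obtain ⟨a, ha, hc⟩ := hz
  rw [Set.mem_singleton_iff] at ha
  subst ha
  rw [isConj_iff] at hc
  obtain ⟨g, hg⟩ := hc
  exact ⟨g, hg.symm⟩

lemma P_eng : Eng (Px B) := by
  intro h
  funext k
  exact (B k).he (h k)

/-- the torsion of the product -/
def PT : AddSubgroup (∀ k, (B k).A) where
  carrier := {a | ∃ j : ℕ, ((30:ℤ) ^ j) • a = 0}
  zero_mem' := ⟨0, smul_zero _⟩
  add_mem' := by
    rintro a b ⟨i, hi⟩ ⟨j, hj⟩
    refine ⟨i + j, ?_⟩
    rw [smul_add, pow_add, mul_smul, mul_smul, hj, smul_zero, add_zero, smul_comm, hi, smul_zero]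
  neg_mem' := by
    rintro a ⟨i, hi⟩
    exact ⟨i, by rw [smul_neg, hi, neg_zero]⟩

/-- the functional on the product -/
def Pω (p : PG B) : (∀ k, (B k).A) ⧸ PT B := QuotientAddGroup.mk' (PT B) (fun k => (B k).ω (p k))

lemma P_tor : Tor ((∀ k, (B k).A) ⧸ PT B) := by
  intro q hq
  obtain ⟨a, rfl⟩ := QuotientAddGroup.mk'_surjective (PT B) q
  rw [← map_zsmul] at hq
  obtain ⟨j, hj⟩ := (QuotientAddGroup.eq_zero_iff _).mp hq
  refine (QuotientAddGroup.eq_zero_iff _).mpr ⟨j + 1, ?_⟩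
  rw [pow_succ, mul_smul]
  exact hj

lemma P_sym : (PF B).Sym 3 (Pω B) where
  mul a b ha hb := by
    unfold Pω
    rw [← map_add]
    congr 1
    funext k
    exact (B k).hω.mul _ _ (ha.2 k) (hb.2 k)
  ker a ha := by
    unfold Pω
    have : (fun k => (B k).ω (a k)) = 0 := by
      funext k
      exact (B k).hω.ker _ (ha.2 k)
    rw [this, map_zero]

include B in
theorem P_false : False := by
  have h := weight_four (P_gen B) (P_eng B) (P_tor B) (P_sym B)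
    (a := cj (fun k => (B k).a) (Px B)) (b := cj (fun k => (B k).b) (Px B))
    (c := cj (fun k => (B k).c) (Px B)) (e := cj (fun k => (B k).d) (Px B))
    ((PF B).cj_mem _ (P_gen B).1) ((PF B).cj_mem _ (P_gen B).1)
    ((PF B).cj_mem _ (P_gen B).1) ((PF B).cj_mem _ (P_gen B).1)
  obtain ⟨j, hj⟩ := (QuotientAddGroup.eq_zero_iff _).mp h
  exact (B j).h (congrFun hj j)

end

/-- the uniform bound for conjugates -/
theorem exists_bound : ∃ M : ℕ, IsEmpty (Bad.{u, v} M) := by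
  by_contra hc
  push Not at hc
  exact P_false (fun M => Classical.choice (hc M))

lemma Filt.Sym.smul' {G : Type u} [Group G] {F : Filt G} {A : Type v} [AddCommGroup A] {k : ℕ}
    {φ : G → A} (h : F.Sym k φ) (m : ℤ) : F.Sym k (fun y => m • φ y) where
  mul a b ha hb := by
    show m • φ _ = m • φ _ + m • φ _
    rw [h.mul _ _ ha hb, smul_add]
  ker a ha := by
    show m • φ _ = 0
    rw [h.ker _ ha, smul_zero]

lemma ext_four {G : Type u} [Group G] {F : Filt G} {A : Type v} [AddCommGroup A] {x : G}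
    (hx : Gen F x) {ψ : G → A} (hψ : F.Sym 3 ψ)
    (h : ∀ a b c d, ψ ⁅cj a x, ⁅cj b x, ⁅cj c x, cj d x⁆⁆⁆ = 0) {a b c d : G} (ha : a ∈ F.N 0)
    (hb : b ∈ F.N 0) (hc : c ∈ F.N 0) (hd : d ∈ F.N 0) : ψ ⁅a, ⁅b, ⁅c, d⁆⁆⁆ = 0 := by
  have hj : ∀ g, cj g x ∈ F.N 0 := fun g => F.cj_mem g hx.1
  refine hx.ind (φ := fun a => ψ ⁅a, ⁅b, ⁅c, d⁆⁆⁆)
    (hψ.right (i := 0) (j := 2) rfl (F.com1 hb (F.com1 hc hd))) ?_ a ha
  intro p
  refine hx.ind (φ := fun b => ψ ⁅cj p x, ⁅b, ⁅c, d⁆⁆⁆)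
    ((hψ.left (i := 0) (j := 2) rfl (hj p)).right (i := 0) (j := 1) rfl (F.com1 hc hd)) ?_ b hb
  intro q
  refine hx.ind (φ := fun c => ψ ⁅cj p x, ⁅cj q x, ⁅c, d⁆⁆⁆)
    (((hψ.left (i := 0) (j := 2) rfl (hj p)).left (i := 0) (j := 1) rfl (hj q)).right (i := 0)
      (j := 0) rfl hd) ?_ c hc
  intro r
  refine hx.ind (φ := fun d => ψ ⁅cj p x, ⁅cj q x, ⁅cj r x, d⁆⁆⁆)
    (((hψ.left (i := 0) (j := 2) rfl (hj p)).left (i := 0) (j := 1) rfl (hj q)).left (i := 0)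
      (j := 0) rfl (hj r)) ?_ d hd
  intro s
  exact h p q r s

/-- A uniform bound for the torsion of weight four. -/
theorem bound_four : ∃ M : ℕ, ∀ (G : Type u) [Group G] (F : Filt G) (x : G), Gen F x → Eng x →
    ∀ (A : Type v) [AddCommGroup A] (ω : G → A), F.Sym 3 ω → ∀ a b c d : G, a ∈ F.N 0 →
    b ∈ F.N 0 → c ∈ F.N 0 → d ∈ F.N 0 → ((30:ℤ) ^ M) • ω ⁅a, ⁅b, ⁅c, d⁆⁆⁆ = 0 := by
  obtain ⟨M, hM⟩ := exists_bound.{u, v}
  refine ⟨M, ?_⟩
  intro G _ F x hx he A _ ω hω a b c d ha hb hc hd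
  refine ext_four hx (hω.smul' ((30:ℤ) ^ M)) ?_ ha hb hc hd
  intro a b c d
  by_contra hne
  exact hM.false ⟨G, inferInstance, F, x, hx, he, A, inferInstance, ω, hω, a, b, c, d, hne⟩

end Run7.h607
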