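import Mathlib
import Pool.Agent.Run7.h607.Exp6

/-! The sixth term of the lower central series modulo the seventh. -/

namespace Run7.h607

universe u v

open scoped commutatorElement

/-- the bound property -/
def BdM (M : ℕ) : Prop :=
  ∀ (G : Type u) [Group G] (F : Filt G) (x : G), Gen F x → Eng x →
    ∀ (A : Type v) [AddCommGroup A] (ω : G → A), F.Sym 3 ω → ∀ a b c d : G, a ∈ F.N 0 →
    b ∈ F.N 0 → c ∈ F.N 0 → d ∈ F.N 0 → ((30:ℤ) ^ M) • ω ⁅a, ⁅b, ⁅c, d⁆⁆⁆ = 0

lemma lcs_Gn1 {G : Type u} [Group G] (N : Subgroup G) [N.Normal] : Gn1 (lcsF N) := by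
  intro r hr
  have hr' : r ∈ N.lowerCentralSeries (0 + 1) := hr
  rw [N.mem_lowerCentralSeries_succ_iff 0 r] at hr'
  refine Subgroup.closure_mono ?_ hr'
  rintro y ⟨p, hp, q, hq, rfl⟩
  exact ⟨p, hp, q, hq, rfl⟩

lemma lcs_gen6 {G : Type u} [Group G] {N : Subgroup G} [N.Normal] {A : Type v} [AddCommGroup A]
    {ω : G → A} (hω : (lcsF N).Sym 5 ω)
    (main : ∀ q ∈ N, ∀ a ∈ N, ∀ b ∈ N, ∀ c ∈ N, ∀ d ∈ N, ∀ e ∈ N,
      ω ⁅q, ⁅a, ⁅b, ⁅c, ⁅d, e⁆⁆⁆⁆⁆ = 0) :
    ∀ y ∈ N.lowerCentralSeries 5, ω y = 0 := by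
  refine lcs_ind (k := 4) hω ?_
  intro p hp q hq
  have hq0 : q ∈ (lcsF N).N 0 := hq
  refine lcs_gen5 (ω := fun p => ω ⁅p, q⁆) (hω.right (i := 4) (j := 0) rfl hq0) ?_ p hp
  intro a ha b hb c hc d hd e he
  have h1 := (lcsF N).com1 (k := 0) (a := d) (b := e) hd he
  have h2 := (lcsF N).com1 (a := c) hc h1
  have h3 := (lcsF N).com1 (a := b) hb h2
  have h4 := (lcsF N).com1 (a := a) ha h3
  show ω ⁅⁅a, ⁅b, ⁅c, ⁅d, e⁆⁆⁆⁆, q⁆ = 0
  rw [hω.antisymm (i := 4) (j := 0) rfl h4 hq0, main q hq a ha b hb c hc d hd e he, neg_zero]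

/-- the case of class at most six -/
theorem aux6 {M : ℕ} (hM : BdM.{u, u} M) {G : Type u} [Group G] {x : G} (he : Eng x)
    (h6 : (Subgroup.normalClosure {x}).lowerCentralSeries 6 = ⊥) :
    ∀ y ∈ (Subgroup.normalClosure {x}).lowerCentralSeries 5, y ^ (10 ^ M) = 1 := by
  classical
  set N := Subgroup.normalClosure {x} with hN
  set F := lcsF N with hF
  have hcomm : ∀ a b : N.lowerCentralSeries 5, a * b = b * a := by
    intro a b
    have h1 : ⁅(a:G), (b:G)⁆ ∈ F.N (5+5+1) := F.com 5 5 _ _ a.2 b.2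
    have h2 : ⁅(a:G), (b:G)⁆ ∈ F.N 6 := F.anti' (by norm_num) h1
    have h3 : ⁅(a:G), (b:G)⁆ = 1 := by
      have : ⁅(a:G), (b:G)⁆ ∈ N.lowerCentralSeries 6 := h2
      rw [h6] at this
      exact Subgroup.mem_bot.mp this
    apply Subtype.ext
    exact commutatorElement_eq_one_iff_mul_comm.mp h3
  let _ : CommGroup (N.lowerCentralSeries 5) :=
    { (inferInstance : Group (N.lowerCentralSeries 5)) with mul_comm := hcomm }
  let ω : G → Additive (N.lowerCentralSeries 5) := fun g =>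
    if h : g ∈ N.lowerCentralSeries 5 then Additive.ofMul ⟨g, h⟩ else 0
  have hω : F.Sym 5 ω := by
    constructor
    · intro a b ha hb
      have ha' : a ∈ N.lowerCentralSeries 5 := ha
      have hb' : b ∈ N.lowerCentralSeries 5 := hb
      simp only [ω, dif_pos ha', dif_pos hb', dif_pos (mul_mem ha' hb')]
      rfl
    · intro a ha
      have ha' : a ∈ N.lowerCentralSeries 6 := ha
      rw [h6] at ha'
      have : a = 1 := Subgroup.mem_bot.mp ha'
      subst this
      simp only [ω, dif_pos (one_mem (N.lowerCentralSeries 5))]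
      rfl
  have hωy : ∀ y (hy : y ∈ N.lowerCentralSeries 5), ω y = Additive.ofMul ⟨y, hy⟩ := by
    intro y hy
    simp only [ω, dif_pos hy]
  have hgen : Gen F x := gen_normalClosure x
  have hg1 : Gn1 F := lcs_Gn1 N
  -- divisibility by three
  have hdiv : ∀ a : Additive (N.lowerCentralSeries 5), ∃ b, a = (3 : ℤ) • b := by
    intro a
    let S : AddSubgroup (Additive (N.lowerCentralSeries 5)) :=
      (zsmulAddGroupHom (3 : ℤ)).range
    let f : Additive (N.lowerCentralSeries 5) →+ Additive (N.lowerCentralSeries 5) ⧸ S :=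
      QuotientAddGroup.mk' S
    have h3 : ∀ q : Additive (N.lowerCentralSeries 5) ⧸ S, (3 : ℤ) • q = 0 := by
      intro q
      obtain ⟨b, rfl⟩ := QuotientAddGroup.mk'_surjective S q
      rw [← map_zsmul]
      exact (QuotientAddGroup.eq_zero_iff _).mpr ⟨b, rfl⟩
    have hω3 : F.Sym 5 (fun y => f (ω y)) :=
      ⟨fun a b ha hb => by show f _ = f _ + f _; rw [hω.mul a b ha hb, map_add],
       fun a ha => by show f _ = 0; rw [hω.ker a ha, map_zero]⟩
    have h0 := lcs_gen6 hω3 (fun q hq a ha b hb c hc d hd e he' =>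
      weight_six hgen he hg1 h3 hω3 hq ha hb hc hd he')
      ((Additive.toMul a : N.lowerCentralSeries 5) : G) (Additive.toMul a).2
    rw [hωy _ (Additive.toMul a).2] at h0
    obtain ⟨b, hb⟩ := (QuotientAddGroup.eq_zero_iff _).mp h0
    exact ⟨b, hb.symm⟩
  have hdivM : ∀ (M : ℕ) (a : Additive (N.lowerCentralSeries 5)),
      ∃ b, a = ((3 : ℤ) ^ M) • b := by
    intro M
    induction M with
    | zero => intro a; exact ⟨a, by rw [pow_zero]; exact (one_zsmul a).symm⟩
    | succ M ih =>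
      intro a
      obtain ⟨b, rfl⟩ := ih a
      obtain ⟨c, rfl⟩ := hdiv b
      exact ⟨c, by rw [smul_smul, pow_succ]⟩
  -- the exponent
  have hexp : ∀ a : Additive (N.lowerCentralSeries 5), ((30 : ℤ) ^ M) • a = 0 := by
    intro a
    have h0 := lcs_gen6 (hω.smul' ((30:ℤ) ^ M)) (fun q hq a ha b hb c hc d hd e he' =>
      hM G F x hgen he _ (fun y => ω ⁅q, ⁅a, y⁆⁆)
        ((hω.left (i := 0) (j := 4) rfl hq).left (i := 0) (j := 3) rfl ha) b c d e hb hc hd he')
      ((Additive.toMul a : N.lowerCentralSeries 5) : G) (Additive.toMul a).2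
    rw [hωy _ (Additive.toMul a).2] at h0
    exact h0
  intro y hy
  obtain ⟨b, hb⟩ := hdivM M (Additive.ofMul ⟨y, hy⟩)
  have h1 : ((10 : ℤ) ^ M) • (Additive.ofMul (⟨y, hy⟩ : N.lowerCentralSeries 5)) = 0 := by
    rw [hb, smul_smul, ← mul_pow]
    exact hexp b
  have h2 : ((10 ^ M : ℕ)) • (Additive.ofMul (⟨y, hy⟩ : N.lowerCentralSeries 5)) = 0 := by
    rw [← natCast_zsmul]
    push_cast
    exact h1
  have h4 : (⟨y, hy⟩ : N.lowerCentralSeries 5) ^ (10 ^ M) = 1 := h2
  exact congrArg Subtype.val h4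

/-- elements of `γ` whose `m`-th power lies in the next term -/
def isoM {G : Type u} [Group G] (N : Subgroup G) [N.Normal] (m k : ℕ) : Subgroup G where
  carrier := {y | y ∈ N.lowerCentralSeries k ∧ y ^ m ∈ N.lowerCentralSeries (k+1)}
  one_mem' := ⟨one_mem _, by simp [one_mem]⟩
  mul_mem' := by
    rintro a b ⟨ha, hi⟩ ⟨hb, hj⟩
    refine ⟨mul_mem ha hb, ?_⟩
    refine mul_pow_mem ?_ hi hj
    have h1 : ⁅a, b⁆ ∈ (lcsF N).N (k+k+1) := (lcsF N).com k k _ _ ha hb
    have h2 : ⁅a, b⁆ ∈ (lcsF N).N (k+1) := (lcsF N).anti' (by omega) h1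
    exact h2
  inv_mem' := by
    rintro a ⟨ha, hi⟩
    refine ⟨inv_mem ha, ?_⟩
    rw [inv_pow]; exact inv_mem hi

lemma isoM_step {G : Type u} [Group G] (N : Subgroup G) [N.Normal] {m k : ℕ}
    (h : N.lowerCentralSeries k ≤ isoM N m k) :
    N.lowerCentralSeries (k+1) ≤ isoM N m (k+1) := by
  rw [Subgroup.lowerCentralSeries_succ]
  rw [Subgroup.commutator_le]
  intro a ha n hn
  obtain ⟨_, hj⟩ := h ha
  refine ⟨Subgroup.commutator_mem_commutator ha hn, ?_⟩
  set K := N.lowerCentralSeries (k+1+1) with hK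
  have hc : Commute (QuotientGroup.mk' K a) ⁅QuotientGroup.mk' K a, QuotientGroup.mk' K n⁆ := by
    rw [← commutatorElement_eq_one_iff_commute, ← map_commutatorElement, ← map_commutatorElement]
    refine (QuotientGroup.eq_one_iff _).mpr ?_
    have h1 : ⁅a, n⁆ ∈ (lcsF N).N (k+1) := Subgroup.commutator_mem_commutator ha hn
    have h2 : a ∈ (lcsF N).N 0 := (lcsF N).anti' (Nat.zero_le _) (show a ∈ (lcsF N).N k from ha)
    exact (lcsF N).com1 h2 h1
  have h1 := comm_pow_of_commute hc m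
  rw [← map_pow, ← map_commutatorElement, ← map_commutatorElement, ← map_pow] at h1
  have h2 : (QuotientGroup.mk' K) ⁅a ^ m, n⁆ = 1 :=
    (QuotientGroup.eq_one_iff _).mpr (Subgroup.commutator_mem_commutator hj hn)
  rw [h2] at h1
  exact (QuotientGroup.eq_one_iff _).mp h1.symm

/-- In an arbitrary group `γ_6(N)/γ_7(N)` has exponent dividing `10 ^ M`. -/
theorem six_seven {M : ℕ} (hM : BdM.{u, u} M) {G : Type u} [Group G] {x : G} (he : Eng x) :
    (Subgroup.normalClosure {x}).lowerCentralSeries 5 ≤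
      isoM (Subgroup.normalClosure {x}) (10 ^ M) 5 := by
  set N := Subgroup.normalClosure {x} with hN
  set K := N.lowerCentralSeries 6 with hK
  let π := QuotientGroup.mk' K
  have hπ : Function.Surjective π := QuotientGroup.mk'_surjective K
  have hmap : N.map π = Subgroup.normalClosure {π x} := by
    have h0 := Subgroup.map_normalClosure ({x} : Set G) π hπ
    rw [Set.image_singleton] at h0
    exact h0
  have hE : Eng (π x) := by
    intro h'
    obtain ⟨h, rfl⟩ := hπ h'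
    rw [← map_commutatorElement, ← map_commutatorElement, ← map_commutatorElement,
      ← map_commutatorElement, he h, map_one]
  have h6 : (Subgroup.normalClosure {π x}).lowerCentralSeries 6 = ⊥ := by
    rw [← hmap, ← Subgroup.map_lowerCentralSeries, Subgroup.map_eq_bot_iff,
      QuotientGroup.ker_mk']
  intro y hy
  refine ⟨hy, ?_⟩
  have h1 := aux6 hM hE h6 (π y) (by
    rw [← hmap, ← Subgroup.map_lowerCentralSeries]
    exact ⟨y, hy, rfl⟩)
  rw [← map_pow] at h1
  exact (QuotientGroup.eq_one_iff _).mp h1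

/-- the main theorem on the exponent of the lower central factors and of `γ_6` -/
theorem main6 : ∃ M : ℕ, ∀ (G : Type u) [Group G] (x : G), Eng x →
    (∀ k, ∀ y ∈ (Subgroup.normalClosure {x}).lowerCentralSeries (5 + k),
      y ^ (10 ^ M) ∈ (Subgroup.normalClosure {x}).lowerCentralSeries (5 + k + 1)) ∧
    (Group.IsNilpotent (Subgroup.normalClosure {x} : Subgroup G) →
      ∀ y ∈ (Subgroup.normalClosure {x}).lowerCentralSeries 5, ∃ j, y ^ (10 ^ j) = 1) := by
  obtain ⟨M, hM⟩ := bound_four.{u, u}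
  refine ⟨M, ?_⟩
  intro G _ x he
  have h1 := six_seven (M := M) hM he
  have h2 : ∀ k, (Subgroup.normalClosure {x}).lowerCentralSeries (5 + k) ≤
      isoM (Subgroup.normalClosure {x}) (10 ^ M) (5 + k) := by
    intro k
    induction k with
    | zero => exact h1
    | succ k ih => exact isoM_step _ ih
  refine ⟨fun k y hy => (h2 k hy).2, ?_⟩
  intro hn y hy
  have h3 : ∀ k, y ^ ((10 ^ M) ^ k) ∈ (Subgroup.normalClosure {x}).lowerCentralSeries (5 + k) := by
    intro k
    induction k with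
    | zero => simpa using hy
    | succ k ih =>
      rw [pow_succ, pow_mul]
      exact (h2 k ih).2
  obtain ⟨c, hc⟩ := (Subgroup.isNilpotent_iff_lowerCentralSeries _).mp hn
  refine ⟨M * c, ?_⟩
  have h4 : y ^ ((10 ^ M) ^ c) ∈ (Subgroup.normalClosure {x}).lowerCentralSeries c :=
    (Subgroup.normalClosure {x}).lowerCentralSeries_antitone (Nat.le_add_left c 5) (h3 c)
  rw [hc] at h4
  rw [pow_mul]
  exact Subgroup.mem_bot.mp h4

end Run7.h607
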