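import Mathlib
import Pool.Agent.Run7.h607.Core

/-! Expansion of quadrilinear maps modulo degree three. -/

namespace Run7.h607.Core

universe u v

variable {V : Type u} {Q : Type v} [AddCommGroup Q]

lemma tri1 {h d : V → V} (dh : ∀ a, d (h a) = h (d a)) (f : V → V → V → Q)
    (f1 : ∀ y z x, f (h x) y z = f x y z + f (d x) y z)
    (f2 : ∀ x z y, f x (h y) z = f x y z + f x (d y) z)
    (f3 : ∀ x y z, f x y (h z) = f x y z + f x y (d z)) (x y z : V)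
    (H : ∀ e1 e2 e3, 1 ≤ e1 + e2 + e3 → f (d^[e1] x) (d^[e2] y) (d^[e3] z) = 0) (p q r : ℕ) :
    f (h^[p] x) (h^[q] y) (h^[r] z) = f x y z := by
  have b0 : ∀ e1, ∀ e2, 1 ≤ e1 + e2 → f (d^[e1] x) (d^[e2] y) (h^[r] z) = 0 := by
    intro e1 e2 he
    exact tr0 (f := fun w => f (d^[e1] x) (d^[e2] y) w) dh (f3 _ _) r z
      (fun e => H e1 e2 e (by omega))
  rw [tr1 (f := fun w => f w (h^[q] y) (h^[r] z)) dh (f1 _ _) p x
    (fun e he => tr0 (f := fun w => f (d^[e] x) w (h^[r] z)) dh (f2 _ _) q y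
      (fun e' => b0 e e' (by omega)))]
  have a0 := tr1 (f := fun w => f x w (h^[r] z)) dh (f2 _ _) q y (fun e he => b0 0 e (by omega))
  have c00 := tr1 (f := fun w => f x y w) dh (f3 _ _) r z (fun e he => H 0 0 e (by omega))
  rw [a0, c00]

lemma tri2 {h d : V → V} (dh : ∀ a, d (h a) = h (d a)) (f : V → V → V → Q)
    (f1 : ∀ y z x, f (h x) y z = f x y z + f (d x) y z)
    (f2 : ∀ x z y, f x (h y) z = f x y z + f x (d y) z)
    (f3 : ∀ x y z, f x y (h z) = f x y z + f x y (d z)) (x y z : V)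
    (H : ∀ e1 e2 e3, 2 ≤ e1 + e2 + e3 → f (d^[e1] x) (d^[e2] y) (d^[e3] z) = 0) (p q r : ℕ) :
    f (h^[p] x) (h^[q] y) (h^[r] z) =
      f x y z + (p:ℤ) • f (d x) y z + (q:ℤ) • f x (d y) z + (r:ℤ) • f x y (d z) := by
  have b0 : ∀ e1, ∀ e2, 2 ≤ e1 + e2 → f (d^[e1] x) (d^[e2] y) (h^[r] z) = 0 := by
    intro e1 e2 he
    exact tr0 (f := fun w => f (d^[e1] x) (d^[e2] y) w) dh (f3 _ _) r z
      (fun e => H e1 e2 e (by omega))
  rw [tr2 (f := fun w => f w (h^[q] y) (h^[r] z)) dh (f1 _ _) p x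
    (fun e he => tr0 (f := fun w => f (d^[e] x) w (h^[r] z)) dh (f2 _ _) q y
      (fun e' => b0 e e' (by omega)))]
  have a0 := tr2 (f := fun w => f x w (h^[r] z)) dh (f2 _ _) q y (fun e he => b0 0 e (by omega))
  have a1 := tr1 (f := fun w => f (d x) w (h^[r] z)) dh (f2 _ _) q y
    (fun e he => b0 1 e (by omega))
  have c00 := tr2 (f := fun w => f x y w) dh (f3 _ _) r z (fun e he => H 0 0 e (by omega))
  have c01 := tr1 (f := fun w => f x (d y) w) dh (f3 _ _) r z (fun e he => H 0 1 e (by omega))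
  have c10 := tr1 (f := fun w => f (d x) y w) dh (f3 _ _) r z (fun e he => H 1 0 e (by omega))
  rw [a0, a1, c00, c01, c10]
  module

/-- expansion of a quadrilinear map modulo degree `3` -/
lemma quad3 {h d : V → V} (dh : ∀ a, d (h a) = h (d a)) (f : V → V → V → V → Q)
    (f1 : ∀ y z w x, f (h x) y z w = f x y z w + f (d x) y z w)
    (f2 : ∀ x z w y, f x (h y) z w = f x y z w + f x (d y) z w)
    (f3 : ∀ x y w z, f x y (h z) w = f x y z w + f x y (d z) w)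
    (f4 : ∀ x y z w, f x y z (h w) = f x y z w + f x y z (d w)) (x y z w : V)
    (H : ∀ e1 e2 e3 e4, 3 ≤ e1 + e2 + e3 + e4 →
      f (d^[e1] x) (d^[e2] y) (d^[e3] z) (d^[e4] w) = 0) (p q r s : ℕ) :
    f (h^[p] x) (h^[q] y) (h^[r] z) (h^[s] w) =
      f x y z w + (p:ℤ) • f (d x) y z w + (q:ℤ) • f x (d y) z w + (r:ℤ) • f x y (d z) w +
      (s:ℤ) • f x y z (d w) +
      (p.choose 2:ℤ) • f (d (d x)) y z w + (q.choose 2:ℤ) • f x (d (d y)) z w +
      (r.choose 2:ℤ) • f x y (d (d z)) w + (s.choose 2:ℤ) • f x y z (d (d w)) +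
      ((p:ℤ)*q) • f (d x) (d y) z w + ((p:ℤ)*r) • f (d x) y (d z) w +
      ((p:ℤ)*s) • f (d x) y z (d w) + ((q:ℤ)*r) • f x (d y) (d z) w +
      ((q:ℤ)*s) • f x (d y) z (d w) + ((r:ℤ)*s) • f x y (d z) (d w) := by
  have b4 : ∀ e1 e2 e3, 3 ≤ e1 + e2 + e3 →
      f (d^[e1] x) (d^[e2] y) (d^[e3] z) (h^[s] w) = 0 := by
    intro e1 e2 e3 he
    exact tr0 (f := fun u => f (d^[e1] x) (d^[e2] y) (d^[e3] z) u) dh (f4 _ _ _) s w
      (fun e => H e1 e2 e3 e (by omega))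
  have b3 : ∀ e1 e2, 3 ≤ e1 + e2 →
      f (d^[e1] x) (d^[e2] y) (h^[r] z) (h^[s] w) = 0 := by
    intro e1 e2 he
    exact tr0 (f := fun u => f (d^[e1] x) (d^[e2] y) u (h^[s] w)) dh (f3 _ _ _) r z
      (fun e => b4 e1 e2 e (by omega))
  have b2 : ∀ e1, 3 ≤ e1 → f (d^[e1] x) (h^[q] y) (h^[r] z) (h^[s] w) = 0 := by
    intro e1 he
    exact tr0 (f := fun u => f (d^[e1] x) u (h^[r] z) (h^[s] w)) dh (f2 _ _ _) q y
      (fun e => b3 e1 e (by omega))
  rw [tr3 (f := fun u => f u (h^[q] y) (h^[r] z) (h^[s] w)) dh (f1 _ _ _) p x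
    (fun e he => b2 e he)]
  have g0 := tri dh (f x) (fun z w y => f2 x z w y) (fun y w z => f3 x y w z)
    (fun y z w => f4 x y z w) y z w (fun e1 e2 e3 he => H 0 e1 e2 e3 (by omega)) q r s
  have g1 := tri2 dh (f (d x)) (fun z w y => f2 (d x) z w y) (fun y w z => f3 (d x) y w z)
    (fun y z w => f4 (d x) y z w) y z w (fun e1 e2 e3 he => H 1 e1 e2 e3 (by omega)) q r s
  have g2 := tri1 dh (f (d (d x))) (fun z w y => f2 (d (d x)) z w y)
    (fun y w z => f3 (d (d x)) y w z) (fun y z w => f4 (d (d x)) y z w) y z w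
    (fun e1 e2 e3 he => H 2 e1 e2 e3 (by omega)) q r s
  rw [g0, g1, g2]
  module

end Run7.h607.Core
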