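import Mathlib
import Pool.Agent.Run7.h607.Refl

/-! Symbols and relation rows. -/

namespace Run7.h607

universe u v

/-- exponents of the four letters -/
abbrev Ex := ℕ × ℕ × ℕ × ℕ

/-- exponent of a letter -/
def gt (e : Ex) : ℕ → ℕ
  | 0 => e.1
  | 1 => e.2.1
  | 2 => e.2.2.1
  | _ => e.2.2.2

/-- increase the exponent of a letter -/
def inc (e : Ex) (l n : ℕ) : Ex :=
  match l with
  | 0 => (e.1 + n, e.2.1, e.2.2.1, e.2.2.2)
  | 1 => (e.1, e.2.1 + n, e.2.2.1, e.2.2.2)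
  | 2 => (e.1, e.2.1, e.2.2.1 + n, e.2.2.2)
  | _ => (e.1, e.2.1, e.2.2.1, e.2.2.2 + n)

/-- total degree -/
def tot (e : Ex) : ℕ := e.1 + e.2.1 + e.2.2.1 + e.2.2.2

lemma gt_inc {l m : ℕ} (hl : l < 4) (hm : m < 4) (e : Ex) (n : ℕ) :
    gt (inc e l n) m = if l = m then n + gt e m else gt e m := by
  interval_cases l <;> interval_cases m <;> simp [gt, inc, add_comm]

lemma tot_inc (e : Ex) (l n : ℕ) : tot (inc e l n) = tot e + n := by
  rcases l with _ | _ | _ | l <;> simp [tot, inc] <;> ring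

/-- the word is a permutation of the letters `0,1,2,3` -/
def Perm4 (w0 w1 w2 w3 : ℕ) : Prop :=
  (w0 < 4 ∧ w1 < 4 ∧ w2 < 4 ∧ w3 < 4) ∧ w0 ≠ w1 ∧ w0 ≠ w2 ∧ w0 ≠ w3 ∧ w1 ≠ w2 ∧ w1 ≠ w3 ∧ w2 ≠ w3

instance (w0 w1 w2 w3 : ℕ) : Decidable (Perm4 w0 w1 w2 w3) := by unfold Perm4; infer_instance

/-- key of a basis symbol -/
def key (w0 w1 : ℕ) (e : Ex) : ℕ :=
  w0 + 3 * w1 + 9 * (e.1 + 4 * e.2.1 + 16 * e.2.2.1)

/-- some exponent is at least `4` -/
def big (e : Ex) : Bool := Nat.ble 4 e.1 || Nat.ble 4 e.2.1 || Nat.ble 4 e.2.2.1 || Nat.ble 4 e.2.2.2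

/-- expansion in the basis -/
def expd (w0 w1 w2 w3 : ℕ) (e : Ex) : List (ℤ × ℕ) :=
  if big e then [] else
  if w3 = 3 then [(1, key w0 w1 e)] else
  if w2 = 3 then [(-1, key w0 w1 e)] else
  if w1 = 3 then [(-1, key w0 w2 e), (1, key w0 w3 e)] else
  [(-1, key w1 w2 e), (1, key w1 w3 e), (1, key w2 w3 e), (-1, key w3 w2 e)]

section
variable {V : Type u} {Q : Type v} [AddCommGroup Q] (C : Core V Q) (v : ℕ → V)

/-- value of a symbol -/
def val (w0 w1 w2 w3 : ℕ) (e : Ex) : Q :=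
  C.P (C.d^[gt e w0] (v w0)) (C.d^[gt e w1] (v w1)) (C.d^[gt e w2] (v w2)) (C.d^[gt e w3] (v w3))

/-- value of a basis key in total degree `r` -/
def Bk (r k : ℕ) : Q :=
  val C v (k % 3) (k / 3 % 3) (3 - k % 3 - k / 3 % 3) 3
    (k / 9 % 4, k / 36 % 4, k / 144, r - k / 9 % 4 - k / 36 % 4 - k / 144)

lemma Bk_key {w0 w1 w2 : ℕ} (hw : Perm4 w0 w1 w2 3) {e : Ex}
    (he : big e = false) : Bk C v (tot e) (key w0 w1 e) = val C v w0 w1 w2 3 e := by
  obtain ⟨a, b, c, d⟩ := e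
  simp only [big, Bool.or_eq_false_iff] at he
  have hlt : ∀ x, Nat.ble 4 x = false → x < 4 := by
    intro x hx
    by_contra hc
    have := Nat.ble_eq.mpr (not_lt.mp hc)
    simp_all
  have ha := hlt _ he.1.1.1
  have hb := hlt _ he.1.1.2
  have hc := hlt _ he.1.2
  have hd := hlt _ he.2
  obtain ⟨⟨h0, h1, h2, h3⟩, n01, n02, n03, n12, n13, n23⟩ := hw
  unfold Bk key tot
  simp only at *
  have k0 : (w0 + 3 * w1 + 9 * (a + 4 * b + 16 * c)) % 3 = w0 := by omega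
  have k1 : (w0 + 3 * w1 + 9 * (a + 4 * b + 16 * c)) / 3 % 3 = w1 := by omega
  have k2 : (w0 + 3 * w1 + 9 * (a + 4 * b + 16 * c)) / 9 % 4 = a := by omega
  have k3 : (w0 + 3 * w1 + 9 * (a + 4 * b + 16 * c)) / 36 % 4 = b := by omega
  have k4 : (w0 + 3 * w1 + 9 * (a + 4 * b + 16 * c)) / 144 = c := by omega
  have k5 : 3 - w0 - w1 = w2 := by omega
  have k6 : a + b + c + d - a - b - c = d := by omega
  rw [k0, k1, k2, k3, k4, k5, k6]

lemma iter_big {n : ℕ} (hn : 4 ≤ n) (x : V) :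
    ∃ y, C.d^[n] x = C.d (C.d (C.d (C.d y))) := by
  obtain ⟨m, rfl⟩ := Nat.exists_eq_add_of_le hn
  refine ⟨C.d^[m] x, ?_⟩
  rw [Function.iterate_add_apply]
  rfl

lemma val_big {w0 w1 w2 w3 : ℕ} (hw : Perm4 w0 w1 w2 w3) {e : Ex} (he : big e = true) :
    val C v w0 w1 w2 w3 e = 0 := by
  have h : 4 ≤ gt e w0 ∨ 4 ≤ gt e w1 ∨ 4 ≤ gt e w2 ∨ 4 ≤ gt e w3 := by
    obtain ⟨⟨h0, h1, h2, h3⟩, hne⟩ := hw
    simp only [big, Bool.or_eq_true, Nat.ble_eq] at he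
    interval_cases w0 <;> interval_cases w1 <;> interval_cases w2 <;> interval_cases w3 <;>
      simp_all [gt] <;> omega
  unfold val
  rcases h with h | h | h | h
  · obtain ⟨y, hy⟩ := iter_big C h (v w0)
    rw [hy, C.n1]
  · obtain ⟨y, hy⟩ := iter_big C h (v w1)
    rw [hy, C.n2]
  · obtain ⟨y, hy⟩ := iter_big C h (v w2)
    rw [hy, C.n3]
  · obtain ⟨y, hy⟩ := iter_big C h (v w3)
    rw [hy, C.n4]

lemma ev_expd {w0 w1 w2 w3 : ℕ} (hw : Perm4 w0 w1 w2 w3) (e : Ex) :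
    ev (Bk C v (tot e)) (expd w0 w1 w2 w3 e) = val C v w0 w1 w2 w3 e := by
  unfold expd
  by_cases hb : big e = true
  · rw [if_pos hb, val_big C v hw hb]; rfl
  rw [if_neg hb]
  have hb' : big e = false := by simpa using hb
  have hw' := hw
  obtain ⟨⟨h0, h1, h2, h3⟩, n01, n02, n03, n12, n13, n23⟩ := hw
  by_cases c3 : w3 = 3
  · subst c3
    rw [if_pos rfl]
    simp only [ev, one_smul, add_zero]
    exact Bk_key C v hw' hb'
  rw [if_neg c3]
  by_cases c2 : w2 = 3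
  · subst c2
    rw [if_pos rfl]
    simp only [ev, neg_smul, one_smul, add_zero]
    rw [Bk_key C v (w2 := w3) (by unfold Perm4; omega) hb']
    unfold val
    exact (C.X1 _ _ _ _).symm
  rw [if_neg c2]
  by_cases c1 : w1 = 3
  · subst c1
    rw [if_pos rfl]
    simp only [ev, neg_smul, one_smul, add_zero]
    rw [Bk_key C v (w0 := w0) (w1 := w2) (w2 := w3) (by unfold Perm4; omega) hb',
      Bk_key C v (w0 := w0) (w1 := w3) (w2 := w2) (by unfold Perm4; omega) hb']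
    unfold val
    exact (C.X2 _ _ _ _).symm
  rw [if_neg c1]
  have c0 : w0 = 3 := by omega
  subst c0
  simp only [ev, neg_smul, one_smul, add_zero]
  rw [Bk_key C v (w0 := w1) (w1 := w2) (w2 := w3) (by unfold Perm4; omega) hb',
    Bk_key C v (w0 := w1) (w1 := w3) (w2 := w2) (by unfold Perm4; omega) hb',
    Bk_key C v (w0 := w2) (w1 := w3) (w2 := w1) (by unfold Perm4; omega) hb',
    Bk_key C v (w0 := w3) (w1 := w2) (w2 := w1) (by unfold Perm4; omega) hb']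
  unfold val
  rw [C.X3 (C.d^[gt e w1] (v w1)) (C.d^[gt e w2] (v w2)) (C.d^[gt e w3] (v w3))
    (C.d^[gt e 3] (v 3))]
  abel

/-- a formal term: coefficient, word, exponents -/
abbrev Tm := ℤ × (ℕ × ℕ × ℕ × ℕ) × Ex

/-- scale a list -/
def scl (c : ℤ) : List (ℤ × ℕ) → List (ℤ × ℕ)
  | [] => []
  | p :: L => (c * p.1, p.2) :: scl c L

lemma ev_scl (B : ℕ → Q) (c : ℤ) (L : List (ℤ × ℕ)) : ev B (scl c L) = c • ev B L := by
  induction L with
  | nil => simp [scl, ev]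
  | cons p L ih => simp only [scl, ev, ih, smul_add, smul_smul]

/-- expansion of a list of terms -/
def exL : List Tm → List (ℤ × ℕ)
  | [] => []
  | p :: L => scl p.1 (expd p.2.1.1 p.2.1.2.1 p.2.1.2.2.1 p.2.1.2.2.2 p.2.2) ++ exL L

/-- evaluation of a list of terms -/
def evS : List Tm → Q
  | [] => 0
  | p :: L => p.1 • val C v p.2.1.1 p.2.1.2.1 p.2.1.2.2.1 p.2.1.2.2.2 p.2.2 + evS L

/-- all words are permutations -/
def okS (r : ℕ) : List Tm → Prop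
  | [] => True
  | p :: L => (Perm4 p.2.1.1 p.2.1.2.1 p.2.1.2.2.1 p.2.1.2.2.2 ∧ tot p.2.2 = r) ∧ okS r L

lemma ev_exL (r : ℕ) (L : List Tm) (h : okS r L) : ev (Bk C v r) (exL L) = evS C v L := by
  induction L with
  | nil => rfl
  | cons p L ih =>
    simp only [exL, evS]
    rw [ev_append, ev_scl, ih h.2, ← ev_expd C v h.1.1, h.1.2]

end

end Run7.h607
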