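import Mathlib
import Pool.Agent.Run7.h607.Rows

/-! Relation rows and their soundness. -/

set_option linter.unusedSimpArgs false

namespace Run7.h607

universe u v

/-- row of the first relation -/
def rE1 (w0 w1 w2 w3 : ℕ) (f : Ex) : List Tm :=
  [(1, (w0, w1, w2, w3), inc f w2 3), (4, (w0, w1, w2, w3), inc (inc f w2 2) w3 1),
   (6, (w0, w1, w2, w3), inc (inc f w2 1) w3 2), (4, (w0, w1, w2, w3), inc f w3 3)]

/-- half of the row of the second relation -/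
def hE2 (w0 w1 w2 w3 : ℕ) (f : Ex) : List Tm :=
  [(1, (w0, w1, w2, w3), inc f w1 2), (3, (w0, w1, w2, w3), inc (inc f w1 1) w2 1),
   (4, (w0, w1, w2, w3), inc (inc f w1 1) w3 1), (3, (w0, w1, w2, w3), inc f w2 2),
   (8, (w0, w1, w2, w3), inc (inc f w2 1) w3 1), (6, (w0, w1, w2, w3), inc f w3 2)]

/-- row of the second relation -/
def rE2 (w0 w1 w2 w3 : ℕ) (f : Ex) : List Tm := hE2 w0 w1 w2 w3 f ++ hE2 w0 w2 w1 w3 f

/-- part of the row of the third relation -/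
def hE3 (w0 w1 w2 w3 : ℕ) (f : Ex) : List Tm :=
  [(1, (w0, w1, w2, w3), inc f w0 1), (2, (w0, w1, w2, w3), inc f w1 1),
   (3, (w0, w1, w2, w3), inc f w2 1), (4, (w0, w1, w2, w3), inc f w3 1)]

/-- row of the third relation -/
def rE3 (w0 w1 w2 w3 : ℕ) (f : Ex) : List Tm :=
  hE3 w0 w1 w2 w3 f ++ hE3 w0 w2 w1 w3 f ++ hE3 w1 w0 w2 w3 f ++ hE3 w1 w2 w0 w3 f ++
  hE3 w2 w0 w1 w3 f ++ hE3 w2 w1 w0 w3 f

section
variable {V : Type u} {Q : Type v} [AddCommGroup Q] (C : Core V Q) (v : ℕ → V)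

lemma evS_append (L M : List Tm) : evS C v (L ++ M) = evS C v L + evS C v M := by
  induction L with
  | nil => simp [evS]
  | cons p L ih => simp only [List.cons_append, evS, ih]; abel

lemma okS_append (r : ℕ) (L M : List Tm) : okS r (L ++ M) ↔ okS r L ∧ okS r M := by
  induction L with
  | nil => simp [okS]
  | cons p L ih => simp only [List.cons_append, okS, ih, and_assoc]

/-- vanishing in total degree at least `R` -/
def Van (R : ℕ) : Prop := ∀ w0 w1 w2 w3, Perm4 w0 w1 w2 w3 → ∀ e, R ≤ tot e →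
  val C v w0 w1 w2 w3 e = 0

/-- vanishing for the innermost two entries -/
def V2 : Prop := ∀ a b n z e1 e2, 4 ≤ e1 + e2 → C.P a b (C.d^[e1] n) (C.d^[e2] z) = 0

/-- vanishing for the innermost three entries -/
def V3 : Prop := ∀ a n m z e1 e2 e3, 4 ≤ e1 + e2 + e3 →
  C.P a (C.d^[e1] n) (C.d^[e2] m) (C.d^[e3] z) = 0

lemma okS_rE1 {r w0 w1 w2 w3 : ℕ} (hw : Perm4 w0 w1 w2 w3) (f : Ex) (hr : tot f + 3 = r) :
    okS r (rE1 w0 w1 w2 w3 f) := by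
  simp only [rE1, okS, hw, tot_inc, true_and, and_true]; omega

lemma okS_hE2 {r w0 w1 w2 w3 : ℕ} (hw : Perm4 w0 w1 w2 w3) (f : Ex) (hr : tot f + 2 = r) :
    okS r (hE2 w0 w1 w2 w3 f) := by
  simp only [hE2, okS, hw, tot_inc, true_and, and_true]; omega

lemma okS_hE3 {r w0 w1 w2 w3 : ℕ} (hw : Perm4 w0 w1 w2 w3) (f : Ex) (hr : tot f + 1 = r) :
    okS r (hE3 w0 w1 w2 w3 f) := by
  simp only [hE3, okS, hw, tot_inc, true_and, and_true]; omega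

lemma Perm4.s12 {w0 w1 w2 w3 : ℕ} (hw : Perm4 w0 w1 w2 w3) : Perm4 w0 w2 w1 w3 := by
  obtain ⟨⟨h0, h1, h2, h3⟩, n01, n02, n03, n12, n13, n23⟩ := hw
  exact ⟨⟨h0, h2, h1, h3⟩, n02, n01, n03, n12.symm, n23, n13⟩

lemma Perm4.s01 {w0 w1 w2 w3 : ℕ} (hw : Perm4 w0 w1 w2 w3) : Perm4 w1 w0 w2 w3 := by
  obtain ⟨⟨h0, h1, h2, h3⟩, n01, n02, n03, n12, n13, n23⟩ := hw
  exact ⟨⟨h1, h0, h2, h3⟩, n01.symm, n12, n13, n02, n03, n23⟩

lemma okS_rE2 {r w0 w1 w2 w3 : ℕ} (hw : Perm4 w0 w1 w2 w3) (f : Ex) (hr : tot f + 2 = r) :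
    okS r (rE2 w0 w1 w2 w3 f) := by
  unfold rE2
  rw [okS_append]
  exact ⟨okS_hE2 hw f hr, okS_hE2 hw.s12 f hr⟩

lemma okS_rE3 {r w0 w1 w2 w3 : ℕ} (hw : Perm4 w0 w1 w2 w3) (f : Ex) (hr : tot f + 1 = r) :
    okS r (rE3 w0 w1 w2 w3 f) := by
  unfold rE3
  simp only [okS_append]
  exact ⟨⟨⟨⟨⟨okS_hE3 hw f hr, okS_hE3 hw.s12 f hr⟩, okS_hE3 hw.s01 f hr⟩,
    okS_hE3 hw.s01.s12 f hr⟩, okS_hE3 hw.s12.s01 f hr⟩, okS_hE3 hw.s12.s01.s12 f hr⟩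

lemma sound_E1 (hV2 : V2 C) {w0 w1 w2 w3 : ℕ} (hw : Perm4 w0 w1 w2 w3) (f : Ex) :
    evS C v (rE1 w0 w1 w2 w3 f) = 0 := by
  obtain ⟨⟨h0, h1, h2, h3⟩, n01, n02, n03, n12, n13, n23⟩ := hw
  have := C.L1 (C.d^[gt f w0] (v w0)) (C.d^[gt f w1] (v w1)) (C.d^[gt f w2] (v w2))
    (C.d^[gt f w3] (v w3)) (fun e1 e2 he => hV2 _ _ _ _ e1 e2 he)
  rw [← this]
  simp only [rE1, evS, val, gt_inc h2 h0, gt_inc h2 h1, gt_inc h2 h2, gt_inc h2 h3, gt_inc h3 h0,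
    gt_inc h3 h1, gt_inc h3 h2, gt_inc h3 h3, if_pos, n02.symm, n12.symm, n23, n03.symm,
    n13.symm, n23.symm, if_false, Function.iterate_add_apply, Function.iterate_succ_apply',
    Function.iterate_zero_apply]
  module

lemma van_shift {R : ℕ} (hR : Van C v R) {w0 w1 w2 w3 : ℕ} (hw : Perm4 w0 w1 w2 w3) (f : Ex)
    (e0 e1 e2 e3 : ℕ) (h : R ≤ tot f + e0 + e1 + e2 + e3) :
    C.P (C.d^[e0] (C.d^[gt f w0] (v w0))) (C.d^[e1] (C.d^[gt f w1] (v w1)))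
      (C.d^[e2] (C.d^[gt f w2] (v w2))) (C.d^[e3] (C.d^[gt f w3] (v w3))) = 0 := by
  have hw' := hw
  obtain ⟨⟨h0, h1, h2, h3⟩, n01, n02, n03, n12, n13, n23⟩ := hw
  have := hR w0 w1 w2 w3 hw' (inc (inc (inc (inc f w0 e0) w1 e1) w2 e2) w3 e3)
    (by simp only [tot_inc]; exact h)
  simp only [val, gt_inc h0 h0, gt_inc h0 h1, gt_inc h0 h2, gt_inc h0 h3,
    gt_inc h1 h0, gt_inc h1 h1, gt_inc h1 h2, gt_inc h1 h3,
    gt_inc h2 h0, gt_inc h2 h1, gt_inc h2 h2, gt_inc h2 h3,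
    gt_inc h3 h0, gt_inc h3 h1, gt_inc h3 h2, gt_inc h3 h3, if_pos, n01, n02, n03, n12, n13, n23,
    n01.symm, n02.symm, n12.symm, n03.symm, n13.symm, n23.symm, if_false,
    Function.iterate_add_apply] at this
  exact this

lemma sound_E2 {w0 w1 w2 w3 : ℕ} (hw : Perm4 w0 w1 w2 w3) (f : Ex)
    (hA : ∀ e1 e2 e3, 3 ≤ e1 + e2 + e3 → C.P (C.d^[gt f w0] (v w0))
      (C.d^[e1] (C.d^[gt f w1] (v w1))) (C.d^[e2] (C.d^[gt f w2] (v w2)))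
      (C.d^[e3] (C.d^[gt f w3] (v w3))) = 0)
    (hB : ∀ e1 e2 e3, 3 ≤ e1 + e2 + e3 → C.P (C.d^[gt f w0] (v w0))
      (C.d^[e1] (C.d^[gt f w2] (v w2))) (C.d^[e2] (C.d^[gt f w1] (v w1)))
      (C.d^[e3] (C.d^[gt f w3] (v w3))) = 0) : evS C v (rE2 w0 w1 w2 w3 f) = 0 := by
  obtain ⟨⟨h0, h1, h2, h3⟩, n01, n02, n03, n12, n13, n23⟩ := hw
  have := C.L2 (C.d^[gt f w0] (v w0)) (C.d^[gt f w1] (v w1)) (C.d^[gt f w2] (v w2))
    (C.d^[gt f w3] (v w3)) hA hB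
  rw [← this]
  simp only [rE2, hE2, List.cons_append, List.nil_append, evS, val,
    gt_inc h0 h0, gt_inc h0 h1, gt_inc h0 h2, gt_inc h0 h3,
    gt_inc h1 h0, gt_inc h1 h1, gt_inc h1 h2, gt_inc h1 h3,
    gt_inc h2 h0, gt_inc h2 h1, gt_inc h2 h2, gt_inc h2 h3,
    gt_inc h3 h0, gt_inc h3 h1, gt_inc h3 h2, gt_inc h3 h3, if_pos, n01, n02, n03, n12, n13, n23,
    n01.symm, n02.symm, n12.symm, n03.symm, n13.symm, n23.symm, if_false,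
    Function.iterate_add_apply, Function.iterate_succ_apply', Function.iterate_zero_apply]
  module

lemma sound_E2' {R : ℕ} (hR : Van C v R) {w0 w1 w2 w3 : ℕ} (hw : Perm4 w0 w1 w2 w3) (f : Ex)
    (hf : R ≤ tot f + 3) : evS C v (rE2 w0 w1 w2 w3 f) = 0 :=
  sound_E2 C v hw f (fun e1 e2 e3 he => van_shift C v hR hw f 0 e1 e2 e3 (by omega))
    (fun e1 e2 e3 he => van_shift C v hR hw.s12 f 0 e1 e2 e3 (by omega))

lemma sound_E3 {R : ℕ} (hR : Van C v R) {w0 w1 w2 w3 : ℕ} (hw : Perm4 w0 w1 w2 w3) (f : Ex)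
    (hf : R ≤ tot f + 2) : evS C v (rE3 w0 w1 w2 w3 f) = 0 := by
  have hw' := hw
  obtain ⟨⟨h0, h1, h2, h3⟩, n01, n02, n03, n12, n13, n23⟩ := hw
  have := C.L3 (C.d^[gt f w0] (v w0)) (C.d^[gt f w1] (v w1)) (C.d^[gt f w2] (v w2))
    (C.d^[gt f w3] (v w3))
    (fun e0 e1 e2 e3 he => van_shift C v hR hw' f e0 e1 e2 e3 (by omega))
    (fun e0 e1 e2 e3 he => van_shift C v hR hw'.s12 f e0 e1 e2 e3 (by omega))
    (fun e0 e1 e2 e3 he => van_shift C v hR hw'.s01 f e0 e1 e2 e3 (by omega))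
    (fun e0 e1 e2 e3 he => van_shift C v hR hw'.s01.s12 f e0 e1 e2 e3 (by omega))
    (fun e0 e1 e2 e3 he => van_shift C v hR hw'.s12.s01 f e0 e1 e2 e3 (by omega))
    (fun e0 e1 e2 e3 he => van_shift C v hR hw'.s12.s01.s12 f e0 e1 e2 e3 (by omega))
  rw [← this]
  simp only [rE3, hE3, List.cons_append, List.nil_append, evS, val,
    gt_inc h0 h0, gt_inc h0 h1, gt_inc h0 h2, gt_inc h0 h3,
    gt_inc h1 h0, gt_inc h1 h1, gt_inc h1 h2, gt_inc h1 h3,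
    gt_inc h2 h0, gt_inc h2 h1, gt_inc h2 h2, gt_inc h2 h3,
    gt_inc h3 h0, gt_inc h3 h1, gt_inc h3 h2, gt_inc h3 h3, if_pos, n01, n02, n03, n12, n13, n23,
    n01.symm, n02.symm, n12.symm, n03.symm, n13.symm, n23.symm, if_false,
    Function.iterate_add_apply, Function.iterate_succ_apply', Function.iterate_zero_apply]
  module

end

end Run7.h607
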