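import Mathlib
import Pool.Agent.Run7.h607.Rel
import Pool.Agent.Run7.h607.Quad3

/-! Coded relations for the checker. -/

set_option linter.unusedSimpArgs false

namespace Run7.h607

universe u v

/-- swap of the letters `i`, `i+1` -/
def swL (i l : ℕ) : ℕ := if l = i then i + 1 else if l = i + 1 then i else l

/-- swap of the exponents of the letters `i`, `i+1` -/
def swE (i : ℕ) (e : Ex) : Ex :=
  match i with
  | 0 => (e.2.1, e.1, e.2.2.1, e.2.2.2)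
  | 1 => (e.1, e.2.2.1, e.2.1, e.2.2.2)
  | _ => (e.1, e.2.1, e.2.2.2, e.2.2.1)

/-- row of a swap relation -/
def rSW (i w0 w1 w2 w3 : ℕ) (e : Ex) : List Tm :=
  [(1, (w0, w1, w2, w3), e), (-1, (swL i w0, swL i w1, swL i w2, swL i w3), swE i e)]

/-- indicator -/
def ind (q w : ℕ) : ℕ := if w < q then 1 else 0

/-- first order closure relation -/
def rZ1 (q w0 w1 w2 w3 : ℕ) (f : Ex) : List Tm :=
  [(ind q w0, (w0, w1, w2, w3), inc f w0 1), (ind q w1, (w0, w1, w2, w3), inc f w1 1),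
   (ind q w2, (w0, w1, w2, w3), inc f w2 1), (ind q w3, (w0, w1, w2, w3), inc f w3 1)]

/-- second order closure relation -/
def rZ2 (q w0 w1 w2 w3 : ℕ) (f : Ex) : List Tm :=
  [(ind q w0, (w0, w1, w2, w3), inc f w0 2), (ind q w1, (w0, w1, w2, w3), inc f w1 2),
   (ind q w2, (w0, w1, w2, w3), inc f w2 2), (ind q w3, (w0, w1, w2, w3), inc f w3 2),
   (2 * ind q w0 * ind q w1, (w0, w1, w2, w3), inc (inc f w0 1) w1 1),
   (2 * ind q w0 * ind q w2, (w0, w1, w2, w3), inc (inc f w0 1) w2 1),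
   (2 * ind q w0 * ind q w3, (w0, w1, w2, w3), inc (inc f w0 1) w3 1),
   (2 * ind q w1 * ind q w2, (w0, w1, w2, w3), inc (inc f w1 1) w2 1),
   (2 * ind q w1 * ind q w3, (w0, w1, w2, w3), inc (inc f w1 1) w3 1),
   (2 * ind q w2 * ind q w3, (w0, w1, w2, w3), inc (inc f w2 1) w3 1)]

/-- terms of a coded relation -/
def tmT (q ty w0 w1 w2 w3 : ℕ) (f : Ex) : List Tm :=
  match ty with
  | 0 => rE1 w0 w1 w2 w3 f
  | 1 => rE2 w0 w1 w2 w3 f
  | 2 => rE3 w0 w1 w2 w3 f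
  | 3 => [(1, (w0, w1, w2, w3), f)]
  | 4 => rSW 0 w0 w1 w2 w3 f
  | 5 => rSW 1 w0 w1 w2 w3 f
  | 6 => rSW 2 w0 w1 w2 w3 f
  | 7 => rZ1 q w0 w1 w2 w3 f
  | 8 => rZ2 q w0 w1 w2 w3 f
  | _ => []

/-- permutation test -/
def pB (w0 w1 w2 w3 : ℕ) : Bool :=
  Nat.blt w0 4 && Nat.blt w1 4 && Nat.blt w2 4 && Nat.blt w3 4 &&
  !(Nat.beq w0 w1) && !(Nat.beq w0 w2) && !(Nat.beq w0 w3) && !(Nat.beq w1 w2) &&
  !(Nat.beq w1 w3) && !(Nat.beq w2 w3)

lemma pB_iff (w0 w1 w2 w3 : ℕ) : pB w0 w1 w2 w3 = true ↔ Perm4 w0 w1 w2 w3 := by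
  have hb : ∀ a b, (Nat.beq a b = false) ↔ a ≠ b := by
    intro a b
    rw [← Bool.not_eq_true, Nat.beq_eq]
  simp only [pB, Bool.and_eq_true, Nat.blt_eq, Bool.not_eq_true', hb, Perm4, and_assoc, ne_eq]

/-- the exponents of the first `q` letters vanish -/
def zq : ℕ → Ex → Bool
  | 0, _ => true
  | 1, e => Nat.beq e.1 0
  | 2, e => Nat.beq e.1 0 && Nat.beq e.2.1 0
  | 3, e => Nat.beq e.1 0 && Nat.beq e.2.1 0 && Nat.beq e.2.2.1 0
  | _, e => Nat.beq e.1 0 && Nat.beq e.2.1 0 && Nat.beq e.2.2.1 0 && Nat.beq e.2.2.2 0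

lemma zq_iff {q : ℕ} (hq : q ≤ 4) (e : Ex) : zq q e = true ↔ ∀ l < q, gt e l = 0 := by
  have h : ∀ l < 4, l = 0 ∨ l = 1 ∨ l = 2 ∨ l = 3 := by intro l hl; omega
  interval_cases q
  · simp [zq]
  · simp only [zq, Nat.beq_eq]
    constructor
    · intro h1 l hl
      interval_cases l; exact h1
    · intro h1; exact h1 0 (by norm_num)
  · simp only [zq, Nat.beq_eq, Bool.and_eq_true]
    constructor
    · rintro ⟨h1, h2⟩ l hl
      interval_cases l
      · exact h1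
      · exact h2
    · intro h1; exact ⟨h1 0 (by norm_num), h1 1 (by norm_num)⟩
  · simp only [zq, Nat.beq_eq, Bool.and_eq_true]
    constructor
    · rintro ⟨⟨h1, h2⟩, h3⟩ l hl
      interval_cases l
      · exact h1
      · exact h2
      · exact h3
    · intro h1; exact ⟨⟨h1 0 (by norm_num), h1 1 (by norm_num)⟩, h1 2 (by norm_num)⟩
  · simp only [zq, Nat.beq_eq, Bool.and_eq_true]
    constructor
    · rintro ⟨⟨⟨h1, h2⟩, h3⟩, h4⟩ l hl
      interval_cases l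
      · exact h1
      · exact h2
      · exact h3
      · exact h4
    · intro h1
      exact ⟨⟨⟨h1 0 (by norm_num), h1 1 (by norm_num)⟩, h1 2 (by norm_num)⟩, h1 3 (by norm_num)⟩

section
variable {V : Type u} {Q : Type v} [AddCommGroup Q] (C : Core V Q)

/-- letters: the first `q` are `x` -/
def lt (q : ℕ) (x : V) (u : ℕ → V) (l : ℕ) : V := if l < q then x else u l

/-- closure hypothesis -/
def ZQ (q : ℕ) (x : V) : Prop := ∀ (u : ℕ → V) (k w0 w1 w2 w3 : ℕ), Perm4 w0 w1 w2 w3 →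
  C.P (lt q (C.h^[k] x) u w0) (lt q (C.h^[k] x) u w1) (lt q (C.h^[k] x) u w2)
    (lt q (C.h^[k] x) u w3) = 0

lemma gt_sw {i l : ℕ} (hi : i < 3) (hl : l < 4) (e : Ex) : gt (swE i e) (swL i l) = gt e l := by
  interval_cases i <;> interval_cases l <;> rfl

lemma lt_sw {q i l : ℕ} (hi : i + 1 < q) (x : V) (u : ℕ → V) :
    lt q x u (swL i l) = lt q x u l := by
  unfold lt swL
  by_cases h1 : l = i
  · subst h1
    have h2 : l < q := by omega
    simp [hi, h2]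
  · by_cases h2 : l = i + 1
    · subst h2
      have h3 : i < q := by omega
      simp [hi, h3]
    · simp [h1, h2]

lemma swL_inj {i a b : ℕ} (h : a ≠ b) : swL i a ≠ swL i b := by
  unfold swL
  split_ifs <;> omega

lemma swL_lt {i a : ℕ} (hi : i < 3) (h : a < 4) : swL i a < 4 := by
  unfold swL
  split_ifs <;> omega

lemma Perm4.sw {i w0 w1 w2 w3 : ℕ} (hi : i < 3) (hw : Perm4 w0 w1 w2 w3) :
    Perm4 (swL i w0) (swL i w1) (swL i w2) (swL i w3) := by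
  obtain ⟨⟨h0, h1, h2, h3⟩, n01, n02, n03, n12, n13, n23⟩ := hw
  exact ⟨⟨swL_lt hi h0, swL_lt hi h1, swL_lt hi h2, swL_lt hi h3⟩, swL_inj n01, swL_inj n02,
    swL_inj n03, swL_inj n12, swL_inj n13, swL_inj n23⟩

lemma tot_swE (i : ℕ) (e : Ex) : tot (swE i e) = tot e := by
  rcases i with _ | _ | i <;> simp [tot, swE] <;> ring

lemma sound_SW {q i : ℕ} (hi : i + 1 < q) (hq : q ≤ 4) (x : V) (u : ℕ → V)
    {w0 w1 w2 w3 : ℕ} (hw : Perm4 w0 w1 w2 w3) (e : Ex) :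
    evS C (lt q x u) (rSW i w0 w1 w2 w3 e) = 0 := by
  have hi3 : i < 3 := by omega
  obtain ⟨⟨h0, h1, h2, h3⟩, _⟩ := hw
  simp only [rSW, evS, val, gt_sw hi3 h0, gt_sw hi3 h1, gt_sw hi3 h2, gt_sw hi3 h3, lt_sw hi]
  module

/-- value at a word, via the closure hypothesis -/
lemma ZQ.app {q : ℕ} {x : V} (hZ : ZQ C q x) (u : ℕ → V) (f : Ex) (hf : ∀ l < q, gt f l = 0)
    (k : ℕ) {w0 w1 w2 w3 : ℕ} (hw : Perm4 w0 w1 w2 w3) :
    C.P (C.h^[k * ind q w0] (C.d^[gt f w0] (lt q x u w0)))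
      (C.h^[k * ind q w1] (C.d^[gt f w1] (lt q x u w1)))
      (C.h^[k * ind q w2] (C.d^[gt f w2] (lt q x u w2)))
      (C.h^[k * ind q w3] (C.d^[gt f w3] (lt q x u w3))) = 0 := by
  have key : ∀ w, C.h^[k * ind q w] (C.d^[gt f w] (lt q x u w)) =
      lt q (C.h^[k] x) (fun l => C.d^[gt f l] (u l)) w := by
    intro w
    unfold ind lt
    by_cases h : w < q
    · simp [h, hf w h]
    · simp [h]
  rw [key, key, key, key]
  exact hZ _ k _ _ _ _ hw

lemma sound_Z0 {q : ℕ} {x : V} (hZ : ZQ C q x) (u : ℕ → V) (f : Ex) (hf : ∀ l < q, gt f l = 0)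
    {w0 w1 w2 w3 : ℕ} (hw : Perm4 w0 w1 w2 w3) : val C (lt q x u) w0 w1 w2 w3 f = 0 := by
  have := hZ.app C u f hf 0 hw
  simpa [val] using this

lemma sound_Z1 {q R : ℕ} {x : V} (hZ : ZQ C q x) (u : ℕ → V) (hR : Van C (lt q x u) R) (f : Ex)
    (hf : ∀ l < q, gt f l = 0) {w0 w1 w2 w3 : ℕ} (hw : Perm4 w0 w1 w2 w3)
    (hr : R ≤ tot f + 2) : evS C (lt q x u) (rZ1 q w0 w1 w2 w3 f) = 0 := by
  have h0 := sound_Z0 C hZ u f hf hw
  have h1 := hZ.app C u f hf 1 hw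
  rw [Core.quad C.dh (fun x y z w => C.P x y z w) (fun y z w x => C.s1 y z w x)
    (fun x z w y => C.s2 x z w y) (fun x y w z => C.s3 x y w z) (fun x y z w => C.s4 x y z w)
    _ _ _ _ (fun e0 e1 e2 e3 he => van_shift C _ hR hw f e0 e1 e2 e3 (by omega))] at h1
  obtain ⟨⟨l0, l1, l2, l3⟩, n01, n02, n03, n12, n13, n23⟩ := hw
  simp only [val] at h0
  rw [h0, zero_add] at h1
  rw [← h1]
  simp only [rZ1, evS, val,
    gt_inc l0 l0, gt_inc l0 l1, gt_inc l0 l2, gt_inc l0 l3,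
    gt_inc l1 l0, gt_inc l1 l1, gt_inc l1 l2, gt_inc l1 l3,
    gt_inc l2 l0, gt_inc l2 l1, gt_inc l2 l2, gt_inc l2 l3,
    gt_inc l3 l0, gt_inc l3 l1, gt_inc l3 l2, gt_inc l3 l3, if_pos, n01, n02, n03, n12, n13, n23,
    n01.symm, n02.symm, n12.symm, n03.symm, n13.symm, n23.symm, if_false,
    Function.iterate_add_apply, Function.iterate_succ_apply', Function.iterate_zero_apply, one_mul]
  module

lemma sound_Z2 {q R : ℕ} {x : V} (hZ : ZQ C q x) (u : ℕ → V) (hR : Van C (lt q x u) R) (f : Ex)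
    (hf : ∀ l < q, gt f l = 0) {w0 w1 w2 w3 : ℕ} (hw : Perm4 w0 w1 w2 w3)
    (hr : R ≤ tot f + 3) : evS C (lt q x u) (rZ2 q w0 w1 w2 w3 f) = 0 := by
  have h0 := sound_Z0 C hZ u f hf hw
  have h1 := hZ.app C u f hf 1 hw
  have h2 := hZ.app C u f hf 2 hw
  rw [Core.quad3 C.dh (fun x y z w => C.P x y z w) (fun y z w x => C.s1 y z w x)
    (fun x z w y => C.s2 x z w y) (fun x y w z => C.s3 x y w z) (fun x y z w => C.s4 x y z w)
    _ _ _ _ (fun e0 e1 e2 e3 he => van_shift C _ hR hw f e0 e1 e2 e3 (by omega))] at h1 h2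
  obtain ⟨⟨l0, l1, l2, l3⟩, n01, n02, n03, n12, n13, n23⟩ := hw
  simp only [val] at h0
  have hc1 : ∀ w, ((1 * ind q w).choose 2 : ℤ) = 0 := by
    intro w; unfold ind; split_ifs <;> simp
  have hc2 : ∀ w, ((2 * ind q w).choose 2 : ℤ) = (ind q w : ℤ) := by
    intro w; unfold ind; split_ifs <;> simp
  rw [h0, zero_add] at h1 h2
  simp only [hc1] at h1
  simp only [hc2] at h2
  push_cast at h1 h2
  have h3 : evS C (lt q x u) (rZ2 q w0 w1 w2 w3 f) = (0:Q) - (2:ℤ) • (0:Q) := by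
    rw [← h1]
    rw [h1]
    nth_rewrite 1 [← h2]
    rw [← h1]
    simp only [rZ2, evS, val,
      gt_inc l0 l0, gt_inc l0 l1, gt_inc l0 l2, gt_inc l0 l3,
      gt_inc l1 l0, gt_inc l1 l1, gt_inc l1 l2, gt_inc l1 l3,
      gt_inc l2 l0, gt_inc l2 l1, gt_inc l2 l2, gt_inc l2 l3,
      gt_inc l3 l0, gt_inc l3 l1, gt_inc l3 l2, gt_inc l3 l3, if_pos, n01, n02, n03, n12, n13,
      n23, n01.symm, n02.symm, n12.symm, n03.symm, n13.symm, n23.symm, if_false,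
      Function.iterate_add_apply, Function.iterate_succ_apply', Function.iterate_zero_apply,
      one_mul]
    module
  rw [h3]; simp

end

end Run7.h607
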