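import Mathlib
import Pool.Agent.Run7.h607.Code

/-! Contexts for the checker. -/

set_option linter.unusedSimpArgs false

namespace Run7.h607

universe u v

/-- row of a coded relation -/
def rowN (q n : ℕ) : List (ℤ × ℕ) :=
  exL (tmT q (n % 16) (n / 16 % 4) (n / 64 % 4) (n / 256 % 4) (n / 1024 % 4)
    (n / 4096 % 8, n / 32768 % 8, n / 262144 % 8, n / 2097152))

/-- validity in the generic context -/
def okG' (ty w0 w1 w2 w3 : ℕ) (f : Ex) : Bool :=
  pB w0 w1 w2 w3 &&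
  match ty with
  | 0 => Nat.beq (tot f + 3) 4
  | 1 => Nat.beq (tot f + 2) 4
  | 2 => Nat.beq (tot f + 1) 4
  | 3 => Nat.beq (tot f) 4 && Nat.ble 4 (gt f w1 + gt f w2 + gt f w3)
  | _ => false

/-- validity in the inner context -/
def okI' (ty w0 w1 w2 w3 : ℕ) (f : Ex) : Bool :=
  pB w0 w1 w2 w3 && Nat.beq w0 0 && Nat.beq f.1 0 &&
  match ty with
  | 0 => Nat.beq (tot f + 3) 4
  | 1 => Nat.beq (tot f + 2) 4
  | 3 => Nat.beq (tot f) 4 && Nat.ble 4 (gt f w2 + gt f w3)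
  | _ => false

/-- validity in the chain context -/
def okK' (q r ty w0 w1 w2 w3 : ℕ) (f : Ex) : Bool :=
  pB w0 w1 w2 w3 &&
  match ty with
  | 0 => Nat.beq (tot f + 3) r
  | 1 => Nat.beq (tot f + 2) r
  | 2 => Nat.beq (tot f + 1) r
  | 3 => Nat.beq (tot f) r && zq q f
  | 4 => Nat.beq (tot f) r && Nat.ble 2 q
  | 5 => Nat.beq (tot f) r && Nat.ble 3 q
  | 6 => Nat.beq (tot f) r && Nat.ble 4 q
  | 7 => Nat.beq (tot f + 1) r && zq q f
  | 8 => Nat.beq (tot f + 2) r && zq q f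
  | _ => false

/-- validity of a coded relation, generic context -/
def okG (n : ℕ) : Bool :=
  okG' (n % 16) (n / 16 % 4) (n / 64 % 4) (n / 256 % 4) (n / 1024 % 4)
    (n / 4096 % 8, n / 32768 % 8, n / 262144 % 8, n / 2097152)

/-- validity of a coded relation, inner context -/
def okI (n : ℕ) : Bool :=
  okI' (n % 16) (n / 16 % 4) (n / 64 % 4) (n / 256 % 4) (n / 1024 % 4)
    (n / 4096 % 8, n / 32768 % 8, n / 262144 % 8, n / 2097152)

/-- validity of a coded relation, chain context -/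
def okK (q r n : ℕ) : Bool :=
  okK' q r (n % 16) (n / 16 % 4) (n / 64 % 4) (n / 256 % 4) (n / 1024 % 4)
    (n / 4096 % 8, n / 32768 % 8, n / 262144 % 8, n / 2097152)

section
variable {V : Type u} {Q : Type v} [AddCommGroup Q] (C : Core V Q)

lemma tot_eq {w0 w1 w2 w3 : ℕ} (hw : Perm4 w0 w1 w2 w3) (f : Ex) :
    tot f = gt f w0 + gt f w1 + gt f w2 + gt f w3 := by
  obtain ⟨⟨h0, h1, h2, h3⟩, n01, n02, n03, n12, n13, n23⟩ := hw
  interval_cases w0 <;> interval_cases w1 <;> first | omega | skip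
  all_goals interval_cases w2 <;> first | omega | skip
  all_goals interval_cases w3 <;> first | omega | (simp only [gt, tot] <;> omega)

lemma okS_single {r w0 w1 w2 w3 : ℕ} (hw : Perm4 w0 w1 w2 w3) (f : Ex) (hr : tot f = r) :
    okS r [((1:ℤ), (w0, w1, w2, w3), f)] := ⟨⟨hw, hr⟩, trivial⟩

lemma soundG (hV2 : V2 C) (hV3 : V3 C) (v : ℕ → V) (hR : Van C v 5) (ty w0 w1 w2 w3 : ℕ) (f : Ex)
    (h : okG' ty w0 w1 w2 w3 f = true) : ev (Bk C v 4) (exL (tmT 0 ty w0 w1 w2 w3 f)) = 0 := by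
  simp only [okG', Bool.and_eq_true] at h
  obtain ⟨hp, h⟩ := h
  have hw := (pB_iff _ _ _ _).mp hp
  split at h
  · rw [Nat.beq_eq] at h
    simp only [tmT]
    rw [ev_exL C v 4 _ (okS_rE1 hw f h)]
    exact sound_E1 C v hV2 hw f
  · rw [Nat.beq_eq] at h
    simp only [tmT]
    rw [ev_exL C v 4 _ (okS_rE2 hw f h)]
    exact sound_E2' C v hR hw f (by omega)
  · rw [Nat.beq_eq] at h
    simp only [tmT]
    rw [ev_exL C v 4 _ (okS_rE3 hw f h)]
    exact sound_E3 C v hR hw f (by omega)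
  · rw [Bool.and_eq_true, Nat.beq_eq, Nat.ble_eq] at h
    simp only [tmT]
    rw [ev_exL C v 4 _ (okS_single hw f h.1)]
    simp only [evS, one_smul, add_zero]
    exact hV3 _ _ _ _ _ _ _ h.2
  · exact absurd h (by simp)

lemma soundI (hV2 : V2 C) (v : ℕ → V)
    (hR : ∀ w1 w2 w3, Perm4 0 w1 w2 w3 → ∀ e1 e2 e3, 5 ≤ e1 + e2 + e3 →
      C.P (v 0) (C.d^[e1] (v w1)) (C.d^[e2] (v w2)) (C.d^[e3] (v w3)) = 0)
    (ty w0 w1 w2 w3 : ℕ) (f : Ex)
    (h : okI' ty w0 w1 w2 w3 f = true) : ev (Bk C v 4) (exL (tmT 0 ty w0 w1 w2 w3 f)) = 0 := by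
  simp only [okI', Bool.and_eq_true, Nat.beq_eq] at h
  obtain ⟨⟨⟨hp, h0⟩, hf0⟩, h⟩ := h
  have hw := (pB_iff _ _ _ _).mp hp
  subst h0
  have ht := tot_eq hw f
  have g0 : gt f 0 = 0 := hf0
  split at h
  · rw [Nat.beq_eq] at h
    simp only [tmT]
    rw [ev_exL C v 4 _ (okS_rE1 hw f h)]
    exact sound_E1 C v hV2 hw f
  · rw [Nat.beq_eq] at h
    simp only [tmT]
    rw [ev_exL C v 4 _ (okS_rE2 hw f h)]
    refine sound_E2 C v hw f ?_ ?_
    · intro e1 e2 e3 he
      rw [g0, ← Function.iterate_add_apply, ← Function.iterate_add_apply,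
        ← Function.iterate_add_apply]
      exact hR _ _ _ hw _ _ _ (by omega)
    · intro e1 e2 e3 he
      rw [g0, ← Function.iterate_add_apply, ← Function.iterate_add_apply,
        ← Function.iterate_add_apply]
      exact hR _ _ _ hw.s12 _ _ _ (by omega)
  · rw [Bool.and_eq_true, Nat.beq_eq, Nat.ble_eq] at h
    simp only [tmT]
    rw [ev_exL C v 4 _ (okS_single hw f h.1)]
    simp only [evS, one_smul, add_zero]
    exact hV2 _ _ _ _ _ _ h.2
  · exact absurd h (by simp)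

lemma okS_rSW {r i w0 w1 w2 w3 : ℕ} (hi : i < 3) (hw : Perm4 w0 w1 w2 w3) (f : Ex)
    (hr : tot f = r) : okS r (rSW i w0 w1 w2 w3 f) :=
  ⟨⟨hw, hr⟩, ⟨hw.sw hi, by rw [tot_swE]; exact hr⟩, trivial⟩

lemma okS_rZ1 {q r w0 w1 w2 w3 : ℕ} (hw : Perm4 w0 w1 w2 w3) (f : Ex)
    (hr : tot f + 1 = r) : okS r (rZ1 q w0 w1 w2 w3 f) := by
  simp only [rZ1, okS, hw, tot_inc, true_and, and_true]; omega

lemma okS_rZ2 {q r w0 w1 w2 w3 : ℕ} (hw : Perm4 w0 w1 w2 w3) (f : Ex)
    (hr : tot f + 2 = r) : okS r (rZ2 q w0 w1 w2 w3 f) := by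
  simp only [rZ2, okS, hw, tot_inc, true_and, and_true]; omega

lemma soundK {q r : ℕ} (hq : q ≤ 4) (hV2 : V2 C) {x : V} (hZ : ZQ C q x) (u : ℕ → V)
    (hR : Van C (lt q x u) (r+1)) (ty w0 w1 w2 w3 : ℕ) (f : Ex)
    (h : okK' q r ty w0 w1 w2 w3 f = true) :
    ev (Bk C (lt q x u) r) (exL (tmT q ty w0 w1 w2 w3 f)) = 0 := by
  simp only [okK', Bool.and_eq_true] at h
  obtain ⟨hp, h⟩ := h
  have hw := (pB_iff _ _ _ _).mp hp
  split at h
  · rw [Nat.beq_eq] at h
    simp only [tmT]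
    rw [ev_exL C _ r _ (okS_rE1 hw f h)]
    exact sound_E1 C _ hV2 hw f
  · rw [Nat.beq_eq] at h
    simp only [tmT]
    rw [ev_exL C _ r _ (okS_rE2 hw f h)]
    exact sound_E2' C _ hR hw f (by omega)
  · rw [Nat.beq_eq] at h
    simp only [tmT]
    rw [ev_exL C _ r _ (okS_rE3 hw f h)]
    exact sound_E3 C _ hR hw f (by omega)
  · rw [Bool.and_eq_true, Nat.beq_eq, zq_iff hq] at h
    simp only [tmT]
    rw [ev_exL C _ r _ (okS_single hw f h.1)]
    simp only [evS, one_smul, add_zero]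
    exact sound_Z0 C hZ u f h.2 hw
  · rw [Bool.and_eq_true, Nat.beq_eq, Nat.ble_eq] at h
    simp only [tmT]
    rw [ev_exL C _ r _ (okS_rSW (by norm_num) hw f h.1)]
    exact sound_SW C (by omega) hq x u hw f
  · rw [Bool.and_eq_true, Nat.beq_eq, Nat.ble_eq] at h
    simp only [tmT]
    rw [ev_exL C _ r _ (okS_rSW (by norm_num) hw f h.1)]
    exact sound_SW C (by omega) hq x u hw f
  · rw [Bool.and_eq_true, Nat.beq_eq, Nat.ble_eq] at h
    simp only [tmT]
    rw [ev_exL C _ r _ (okS_rSW (by norm_num) hw f h.1)]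
    exact sound_SW C (by omega) hq x u hw f
  · rw [Bool.and_eq_true, Nat.beq_eq, zq_iff hq] at h
    simp only [tmT]
    rw [ev_exL C _ r _ (okS_rZ1 hw f h.1)]
    exact sound_Z1 C hZ u hR f h.2 hw (by omega)
  · rw [Bool.and_eq_true, Nat.beq_eq, zq_iff hq] at h
    simp only [tmT]
    rw [ev_exL C _ r _ (okS_rZ2 hw f h.1)]
    exact sound_Z2 C hZ u hR f h.2 hw (by omega)
  · exact absurd h (by simp)

/-- all exponents in total degree `r` -/
def exs (r : ℕ) : List Ex :=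
  (List.range 4).flatMap fun a => (List.range 4).flatMap fun b => (List.range 4).flatMap fun c =>
    if a + b + c ≤ r ∧ r - a - b - c < 4 then [(a, b, c, r - a - b - c)] else []

lemma mem_exs {r : ℕ} {e : Ex} (hb : big e = false) (hr : tot e = r) : e ∈ exs r := by
  obtain ⟨a, b, c, d⟩ := e
  simp only [big, Bool.or_eq_false_iff] at hb
  have hlt : ∀ x, Nat.ble 4 x = false → x < 4 := by
    intro x hx
    by_contra hc
    have := Nat.ble_eq.mpr (not_lt.mp hc)
    simp_all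
  have ha := hlt _ hb.1.1.1
  have hb' := hlt _ hb.1.1.2
  have hc := hlt _ hb.1.2
  have hd := hlt _ hb.2
  simp only [tot] at ha hb' hc hd hr
  simp only [exs, List.mem_flatMap, List.mem_range]
  refine ⟨a, ha, b, hb', c, hc, ?_⟩
  rw [if_pos (by omega)]
  simp only [List.mem_singleton, Prod.mk.injEq, true_and]
  omega

end

/-- target keys, generic context -/
def tgG : List ℕ := (exs 4).map (fun e => key 0 1 e)

/-- target keys, inner context -/
def tgI : List ℕ := ((exs 4).filter (fun e => Nat.beq e.1 0)).map (fun e => key 0 1 e)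

/-- target keys, chain context -/
def tgK (r : ℕ) : List ℕ :=
  [(0, 1), (0, 2), (1, 0), (1, 2), (2, 0), (2, 1)].flatMap fun (w : ℕ × ℕ) =>
    (exs r).map fun e => key w.1 w.2 e

end Run7.h607
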