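import Mathlib
import Pool.Agent.Run7.h607.Row6

/-! Hashed keys; certificates in several parts. -/

namespace Run7.h607

universe u v

open scoped commutatorElement

/-- table of the keys -/
def tbA (TAB i : ℕ) : ℕ := Nat.land (Nat.shiftRight TAB (Nat.mul 18 i)) 262143

/-- hashed row -/
def hsL (P : ℕ) (L : List (ℤ × ℕ)) : List (ℤ × ℕ) := L.map fun p => (p.1, Nat.mod p.2 P)

/-- the keys of the row are in the table -/
def hsO (TAB P : ℕ) (L : List (ℤ × ℕ)) : Bool := L.all fun p => Nat.beq (tbA TAB (Nat.mod p.2 P)) p.2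

lemma ev_hsL {Q : Type v} [AddCommGroup Q] (B : ℕ → Q) {TAB P : ℕ} (L : List (ℤ × ℕ))
    (h : hsO TAB P L = true) : ev (fun i => B (tbA TAB i)) (hsL P L) = ev B L := by
  induction L with
  | nil => rfl
  | cons p L ih =>
    unfold hsO at h
    rw [List.all_cons, Bool.and_eq_true, Nat.beq_eq] at h
    have h1 := ih h.2
    unfold hsL at h1 ⊢
    simp only [List.map_cons, ev, h1, h.1]

/-- the hashed check -/
def checkH (p s n mu t b P TAB : ℕ) (row : ℕ → List (ℤ × ℕ)) (ok : ℕ → Bool)
    (ntok nsteps data : ℕ) (targets : List ℕ) : Bool :=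
  checkP p s n mu t b (fun i => hsL P (row i)) (fun i => ok i && hsO TAB P (row i)) ntok nsteps data
    (targets.map fun k => Nat.mod k P) &&
  targets.all fun k => Nat.beq (tbA TAB (Nat.mod k P)) k

theorem checkH_sound {Q : Type v} [AddCommGroup Q] {p s n mu t b P TAB : ℕ} (B : ℕ → Q)
    (hp : ∀ k, (p:ℤ) • B k = 0)
    {row : ℕ → List (ℤ × ℕ)} {ok : ℕ → Bool} (hrow : ∀ i, ok i = true → ev B (row i) = 0)
    {ntok nsteps data : ℕ} {targets : List ℕ}
    (h : checkH p s n mu t b P TAB row ok ntok nsteps data targets = true) :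
    ∀ k ∈ targets, B k = 0 := by
  unfold checkH at h
  rw [Bool.and_eq_true] at h
  have h1 := checkP_sound (fun i => B (tbA TAB i)) (fun k => hp _) (fun i hi => by
    rw [Bool.and_eq_true] at hi
    rw [ev_hsL B _ hi.2]
    exact hrow i hi.1) h.1
  intro k hk
  have h2 := h1 (Nat.mod k P) (List.mem_map_of_mem (f := fun k => Nat.mod k P) hk)
  have h3 := List.all_eq_true.mp h.2 k hk
  rw [Nat.beq_eq] at h3
  simp only [h3] at h2
  exact h2

/-- keys with given exponents -/
def kyE (es : List ℕ) : List ℕ := es.flatMap fun e => p4.map fun u => cKE u e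

/-- check with initial zeros -/
def check7 (f : ℕ) (p : ℤ) (row : ℕ → List (ℤ × ℕ)) (ok : ℕ → Bool) (grp : ℕ → List ℕ)
    (ntok nsteps data : ℕ) (init targets : List ℕ) : Bool :=
  match run6 f p row ok grp (parseSteps2 nsteps (tokens ntok data)) (flL f init .n) with
  | none => false
  | some Z => targets.all (fun k => T.get f k Z)

theorem check7_sound {Q : Type v} [AddCommGroup Q] {f : ℕ} {p : ℤ} (B : ℕ → Q)
    (hp : ∀ k, p • B k = 0) {row : ℕ → List (ℤ × ℕ)} {ok : ℕ → Bool} {grp : ℕ → List ℕ}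
    (hrow : ∀ i, ok i = true → ev B (row i) = 0)
    (hgrp : ∀ k, B k = 0 → ∀ k' ∈ grp k, B k' = 0) {ntok nsteps data : ℕ}
    {init targets : List ℕ} (hinit : ∀ k ∈ init, B k = 0)
    (h : check7 f p row ok grp ntok nsteps data init targets = true) :
    ∀ k ∈ targets, B k = 0 := by
  unfold check7 at h
  split at h
  · exact absurd h (by simp)
  · rename_i Z hZ
    intro k hk
    have h1 := List.all_eq_true.mp h k hk
    exact T.get_sound f B k Z
      (run6_sound B hp hrow hgrp _ _ _ (FO_flL f B init _ hinit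
        (show FO B T.n from trivial)) hZ) h1

lemma kyE_append (a b : List ℕ) : kyE (a ++ b) = kyE a ++ kyE b := by
  unfold kyE; rw [List.flatMap_append]

/-- the targets in degree four from the patterns -/
lemma tgJ_sub {es : List ℕ} (h : ((xs5 4).all fun e => es.contains e) = true) :
    ∀ k ∈ tgJ 0 4, k ∈ kyE es := by
  intro k hk
  unfold tgJ at hk
  rw [List.mem_flatMap] at hk
  obtain ⟨u, hu, hk⟩ := hk
  rw [List.mem_map] at hk
  obtain ⟨e, he, rfl⟩ := hk
  have h1 := List.all_eq_true.mp h e he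
  rw [List.contains_iff_mem] at h1
  unfold kyE
  rw [List.mem_flatMap]
  refine ⟨e, h1, ?_⟩
  rw [List.mem_map]
  refine ⟨u, hu, ?_⟩
  congr 1
  conv_lhs => rw [← List.map_id u]
  apply List.map_congr_left
  intro l _
  simp

end Run7.h607
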