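import Mathlib
import Pool.Agent.Run7.h607.Hsh6

/-! Compact hashed keys. -/

namespace Run7.h607

universe u v

open scoped commutatorElement

/-- a hash function with displacements -/
def hfD (A w Bk T n k : ℕ) : ℕ :=
  Nat.mod (Nat.add (Nat.mod k A)
    (Nat.land (Nat.shiftRight T (Nat.mul w (Nat.mod k Bk))) (Nat.sub (Nat.pow 2 w) 1))) n

/-- hashed row -/
def hsF (hf : ℕ → ℕ) (L : List (ℤ × ℕ)) : List (ℤ × ℕ) := L.map fun p => (p.1, hf p.2)

/-- the keys of the row are in the table -/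
def hsK (TAB : ℕ) (hf : ℕ → ℕ) (L : List (ℤ × ℕ)) : Bool :=
  L.all fun p => Nat.beq (tbA TAB (hf p.2)) p.2

lemma ev_hsF {Q : Type v} [AddCommGroup Q] (B : ℕ → Q) {TAB : ℕ} {hf : ℕ → ℕ} (L : List (ℤ × ℕ))
    (h : hsK TAB hf L = true) : ev (fun i => B (tbA TAB i)) (hsF hf L) = ev B L := by
  induction L with
  | nil => rfl
  | cons p L ih =>
    unfold hsK at h
    rw [List.all_cons, Bool.and_eq_true, Nat.beq_eq] at h
    have h1 := ih h.2
    unfold hsF at h1 ⊢
    simp only [List.map_cons, ev, h1, h.1]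

/-- the hashed check -/
def checkD (p s n mu t b TAB : ℕ) (hf : ℕ → ℕ) (row : ℕ → List (ℤ × ℕ)) (ok : ℕ → Bool)
    (ntok nsteps data : ℕ) (targets : List ℕ) : Bool :=
  checkP p s n mu t b (fun i => hsF hf (row i)) (fun i => ok i && hsK TAB hf (row i)) ntok nsteps data
    (targets.map hf) &&
  targets.all fun k => Nat.beq (tbA TAB (hf k)) k

theorem checkD_sound {Q : Type v} [AddCommGroup Q] {p s n mu t b TAB : ℕ} {hf : ℕ → ℕ} (B : ℕ → Q)
    (hp : ∀ k, (p:ℤ) • B k = 0)
    {row : ℕ → List (ℤ × ℕ)} {ok : ℕ → Bool} (hrow : ∀ i, ok i = true → ev B (row i) = 0)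
    {ntok nsteps data : ℕ} {targets : List ℕ}
    (h : checkD p s n mu t b TAB hf row ok ntok nsteps data targets = true) :
    ∀ k ∈ targets, B k = 0 := by
  unfold checkD at h
  rw [Bool.and_eq_true] at h
  have h1 := checkP_sound (fun i => B (tbA TAB i)) (fun k => hp _) (fun i hi => by
    rw [Bool.and_eq_true] at hi
    rw [ev_hsF B _ hi.2]
    exact hrow i hi.1) h.1
  intro k hk
  have h2 := h1 (hf k) (List.mem_map_of_mem (f := hf) hk)
  have h3 := List.all_eq_true.mp h.2 k hk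
  rw [Nat.beq_eq] at h3
  simp only [h3] at h2
  exact h2

/-- remove keys from the mask -/
def unmL (s n : ℕ) (hf : ℕ → ℕ) : List ℕ → ℕ → ℕ
  | [], NM => NM
  | k :: L, NM => unmL s n hf L (unm s n (hf k) NM)

/-- the keys are in the table -/
def keyOk (n TAB : ℕ) (hf : ℕ → ℕ) (L : List ℕ) : Bool :=
  L.all fun k => Nat.blt (hf k) n && Nat.beq (tbA TAB (hf k)) k

/-- run the steps, each proving that one key vanishes -/
def run7 (p s n mu t b TAB : ℕ) (hf : ℕ → ℕ) (row : ℕ → List (ℤ × ℕ)) (ok : ℕ → Bool)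
    (grp : ℕ → List ℕ) : List Step2 → ℕ → Option ℕ
  | [], NM => some NM
  | st :: L, NM =>
    match st.F with
    | [q] => if q.1 = 1 then
        (if btOk p s n mu t b (fun i => hsF hf (row i)) (fun i => ok i && hsK TAB hf (row i)) [] NM
            ⟨st.rels, [], [(1, hf q.2)]⟩ && keyOk n TAB hf (q.2 :: grp q.2) then
          run7 p s n mu t b TAB hf row ok grp L (unmL s n hf (q.2 :: grp q.2) NM) else none)
      else none
    | _ => none

lemma UM_unmL {Q : Type v} [AddCommGroup Q] (B : ℕ → Q) {s n TAB : ℕ} {hf : ℕ → ℕ} (hs : 1 ≤ s)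
    (L : List ℕ) : ∀ NM, keyOk n TAB hf L = true → (∀ k ∈ L, B k = 0) →
    UM (fun i => B (tbA TAB i)) s n NM → UM (fun i => B (tbA TAB i)) s n (unmL s n hf L NM) := by
  induction L with
  | nil => intro NM _ _ h; exact h
  | cons k L ih =>
    intro NM hk hB h
    unfold keyOk at hk
    rw [List.all_cons, Bool.and_eq_true, Bool.and_eq_true, Nat.blt_eq, Nat.beq_eq] at hk
    apply ih _ hk.2 (fun k' hk' => hB k' (List.mem_cons_of_mem _ hk'))
    apply UM_unm _ hs hk.1.1 h
    simp only [hk.1.2]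
    exact hB k List.mem_cons_self

theorem run7_sound {Q : Type v} [AddCommGroup Q] (B : ℕ → Q) {p s n mu t b TAB : ℕ} {hf : ℕ → ℕ}
    (hp0 : 0 < p) (hs : 3 ≤ s) (hb : p * (2 ^ b - 1) + 7 < 2 ^ s) (hb2 : 2 ^ b ≤ 2 ^ s)
    (hp : ∀ k, (p:ℤ) • B k = 0) {row : ℕ → List (ℤ × ℕ)} {ok : ℕ → Bool} {grp : ℕ → List ℕ}
    (hrow : ∀ i, ok i = true → ev B (row i) = 0)
    (hgrp : ∀ k, B k = 0 → ∀ k' ∈ grp k, B k' = 0) (L : List Step2) :
    ∀ NM NM', UM (fun i => B (tbA TAB i)) s n NM →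
      run7 p s n mu t b TAB hf row ok grp L NM = some NM' →
      UM (fun i => B (tbA TAB i)) s n NM' := by
  induction L with
  | nil =>
    intro NM NM' hZ h
    simp only [run7, Option.some.injEq] at h
    rw [← h]; exact hZ
  | cons st L ih =>
    intro NM NM' hZ h
    simp only [run7] at h
    split at h
    · rename_i q hq
      split_ifs at h with h1 h2
      refine ih _ _ ?_ h
      rw [Bool.and_eq_true] at h2
      obtain ⟨h2, h3⟩ := h2
      simp only [btOk, Bool.and_eq_true] at h2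
      obtain ⟨⟨c1, c2⟩, c4⟩ := h2
      have hrow' : ∀ i, (ok i && hsK TAB hf (row i)) = true →
          ev (fun i => B (tbA TAB i)) (hsF hf (row i)) = 0 := by
        intro i hi
        rw [Bool.and_eq_true] at hi
        rw [ev_hsF B _ hi.2]
        exact hrow i hi.1
      have r0 := Rp_nmL (fun i => B (tbA TAB i)) (p := p) (by omega) (fun k => hp _) s n (-1)
        [(1, hf q.2)] 0 0 c2 (Rp_zero _ s n)
      have r2 := Rp_bcR (fun i => B (tbA TAB i)) hp0 (fun k => hp _) hrow' st.rels _ _ c1 r0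
      have e := tst_sound (fun i => B (tbA TAB i)) hs hb hb2 (fun k => hp _) r2 hZ c4
      rw [add_zero, neg_one_smul, neg_eq_zero] at e
      simp only [ev, add_zero, one_smul] at e
      have h3' := h3
      unfold keyOk at h3'
      rw [List.all_cons, Bool.and_eq_true, Bool.and_eq_true, Nat.blt_eq, Nat.beq_eq] at h3'
      rw [h3'.1.2] at e
      apply UM_unmL B (by omega) _ _ h3 _ hZ
      intro k hk
      rcases List.mem_cons.mp hk with rfl | hk
      · exact e
      · exact hgrp _ e k hk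
    · exact absurd h (by simp)

/-- check with initial zeros -/
def check8 (p s n mu t b TAB : ℕ) (hf : ℕ → ℕ) (row : ℕ → List (ℤ × ℕ)) (ok : ℕ → Bool)
    (grp : ℕ → List ℕ) (ntok nsteps data : ℕ) (init targets : List ℕ) : Bool :=
  Nat.blt 0 p && Nat.ble 3 s && Nat.blt (p * (2 ^ b - 1) + 7) (2 ^ s) && Nat.ble (2 ^ b) (2 ^ s) &&
  keyOk n TAB hf init && keyOk n TAB hf targets &&
  match run7 p s n mu t b TAB hf row ok grp (parseSteps2 nsteps (tokens ntok data))
    (unmL s n hf init (2 ^ (s * n) - 1)) with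
  | none => false
  | some NM => targets.all (fun k => Nat.beq (dg s NM (hf k)) 0)

lemma UM_full {Q : Type v} [AddCommGroup Q] (B : ℕ → Q) {s n : ℕ} (hs : 1 ≤ s) :
    UM B s n (2 ^ (s * n) - 1) := by
  intro k hk
  left
  have e : 2 ^ (s * n) - 1 = rep s n (2 ^ s - 1) := by
    rw [rep_eq (by omega)]
    have hlt : ∀ m, ∑ j ∈ Finset.range m, (2 ^ s - 1) * 2 ^ (s * j) = 2 ^ (s * m) - 1 := by
      intro m
      induction m with
      | zero => simp
      | succ m ih =>
        rw [Finset.sum_range_succ, ih, mul_add, mul_one, pow_add]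
        have a1 : 1 ≤ 2 ^ (s * m) := Nat.one_le_two_pow
        have a2 : 1 ≤ 2 ^ s := Nat.one_le_two_pow
        have a3 : 2 ^ (s * m) ≤ 2 ^ (s * m) * 2 ^ s := Nat.le_mul_of_pos_right _ (by omega)
        have a4 : (2 ^ s - 1) * 2 ^ (s * m) = 2 ^ (s * m) * 2 ^ s - 2 ^ (s * m) := by
          rw [Nat.sub_mul, one_mul, mul_comm]
        omega
    rw [hlt]
  have a2 : 1 ≤ 2 ^ s := Nat.one_le_two_pow
  rw [e, dg_rep (by omega) (by omega) hk]

theorem check8_sound {Q : Type v} [AddCommGroup Q] (B : ℕ → Q) {p s n mu t b TAB : ℕ} {hf : ℕ → ℕ}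
    (hp : ∀ k, (p:ℤ) • B k = 0) {row : ℕ → List (ℤ × ℕ)} {ok : ℕ → Bool} {grp : ℕ → List ℕ}
    (hrow : ∀ i, ok i = true → ev B (row i) = 0)
    (hgrp : ∀ k, B k = 0 → ∀ k' ∈ grp k, B k' = 0) {ntok nsteps data : ℕ}
    {init targets : List ℕ} (hinit : ∀ k ∈ init, B k = 0)
    (h : check8 p s n mu t b TAB hf row ok grp ntok nsteps data init targets = true) :
    ∀ k ∈ targets, B k = 0 := by
  simp only [check8, Bool.and_eq_true, Nat.blt_eq, Nat.ble_eq] at h
  obtain ⟨⟨⟨⟨⟨⟨h0, h1⟩, h2⟩, h3⟩, h4⟩, h5⟩, h⟩ := h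
  split at h
  · exact absurd h (by simp)
  · rename_i NM hNM
    intro k hk
    have h6 := List.all_eq_true.mp h k hk
    rw [Nat.beq_eq] at h6
    have h7 := List.all_eq_true.mp h5 k hk
    rw [Bool.and_eq_true, Nat.blt_eq, Nat.beq_eq] at h7
    have hU0 : UM (fun i => B (tbA TAB i)) s n (unmL s n hf init (2 ^ (s * n) - 1)) :=
      UM_unmL B (by omega) _ _ h4 hinit (UM_full _ (by omega))
    have hU := run7_sound B h0 h1 h2 h3 hp hrow hgrp _ _ _ hU0 hNM
    rcases hU (hf k) h7.1 with h8 | h8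
    · rw [h6] at h8
      have : 8 ≤ 2 ^ s := by
        calc 8 = 2 ^ 3 := by norm_num
          _ ≤ 2 ^ s := Nat.pow_le_pow_right (by norm_num) h1
      omega
    · simp only [h7.2] at h8
      exact h8

end Run7.h607
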