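import Mathlib
import Pool.Agent.Run7.h607.Refl3

/-! Certificates in several pieces, keys without hashing. -/

namespace Run7.h607.S5

universe u v

open scoped commutatorElement

/-- the facts hold -/
def GF {Q : Type v} [AddCommGroup Q] (B : ℕ → Q) (n : ℕ) (fs : List (List (ℤ × ℕ))) : Prop :=
  ∀ F ∈ fs, ev B F = 0 ∧ smB n F = true

/-- the steps of a number -/
def stD (nsteps ntok data : ℕ) : List Step2 := parseSteps2 nsteps (tokens ntok data)

/-- the facts of the steps, last one first -/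
def fcs (L : List Step2) : List (List (ℤ × ℕ)) := (L.map fun st => st.F).reverse

/-- the mask of a list of facts -/
def nmk (s n : ℕ) : List (List (ℤ × ℕ)) → ℕ → ℕ
  | [], NM => NM
  | F :: L, NM => nmk s n L (blg s n F NM)

section
variable {Q : Type v} [AddCommGroup Q] {row : ℕ → List (ℤ × ℕ)} {ok : ℕ → Bool}

lemma btOk_sound (B : ℕ → Q) {p s n mu t b : ℕ} (hp0 : 0 < p) (hs : 3 ≤ s)
    (hb : p * (2 ^ b - 1) + 7 < 2 ^ s) (hb2 : 2 ^ b ≤ 2 ^ s) (hp : ∀ k, (p:ℤ) • B k = 0)
    (hrow : ∀ i, ok i = true → ev B (row i) = 0) {facts : List (List (ℤ × ℕ))} {NM : ℕ}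
    {st : Step2} (hf : GF B n facts) (hZ : UM B s n NM)
    (hst : btOk p s n mu t b row ok facts NM st = true) : ev B st.F = 0 ∧ smB n st.F = true := by
  simp only [btOk, Bool.and_eq_true] at hst
  obtain ⟨⟨h1, h2⟩, h4⟩ := hst
  have r0 := Rp_nmL B (p := p) (by omega) hp s n (-1) st.F 0 0 h2 (Rp_zero B s n)
  have r1 := Rp_bcF B hp0 hp facts hf st.fs _ _ r0
  have r2 := Rp_bcR B hp0 hp hrow st.rels _ _ h1 r1
  have e := tst_sound B hs hb hb2 hp r2 hZ h4
  rw [add_zero, neg_one_smul, neg_eq_zero] at e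
  exact ⟨e, h2⟩

lemma UM_blg (B : ℕ → Q) {s n : ℕ} (hs : 1 ≤ s) {F : List (ℤ × ℕ)} {NM : ℕ}
    (hF : ev B F = 0 ∧ smB n F = true) (hZ : UM B s n NM) : UM B s n (blg s n F NM) := by
  unfold blg
  split
  · rename_i q
    by_cases hc : q.1 = 1
    · rw [if_pos hc]
      obtain ⟨e, h2⟩ := hF
      simp only [smB, Bool.and_true, Nat.blt_eq] at h2
      apply UM_unm B hs h2 hZ
      simp only [ev, add_zero, hc, one_smul] at e
      exact e
    · rw [if_neg hc]; exact hZ
  · exact hZ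

lemma UM_nmk (B : ℕ → Q) {s n : ℕ} (hs : 1 ≤ s) (fs : List (List (ℤ × ℕ))) :
    ∀ NM, GF B n fs → UM B s n NM → UM B s n (nmk s n fs NM) := by
  induction fs with
  | nil => intro NM _ h; exact h
  | cons F fs ih =>
    intro NM hf h
    exact ih _ (fun F' hF' => hf F' (List.mem_cons_of_mem _ hF'))
      (UM_blg B hs (hf F List.mem_cons_self) h)

lemma run3_good (B : ℕ → Q) {p s n mu t b : ℕ} (hp0 : 0 < p) (hs : 3 ≤ s)
    (hb : p * (2 ^ b - 1) + 7 < 2 ^ s) (hb2 : 2 ^ b ≤ 2 ^ s) (hp : ∀ k, (p:ℤ) • B k = 0)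
    (hrow : ∀ i, ok i = true → ev B (row i) = 0) (L : List Step2) :
    ∀ (facts : List (List (ℤ × ℕ))) (NM : ℕ), GF B n facts → UM B s n NM →
    (run3 p s n mu t b row ok L facts NM).isSome = true → GF B n (fcs L ++ facts) := by
  induction L with
  | nil => intro facts NM hf _ _; exact hf
  | cons st L ih =>
    intro facts NM hf hZ h
    simp only [run3] at h
    by_cases hst : btOk p s n mu t b row ok facts NM st = true
    · rw [if_pos hst] at h
      have e := btOk_sound B hp0 hs hb hb2 hp hrow hf hZ hst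
      have h1 := ih (st.F :: facts) (blg s n st.F NM) (by
        intro F hF
        rcases List.mem_cons.mp hF with rfl | hF
        · exact e
        · exact hf F hF) (UM_blg B (by omega) e hZ) h
      have e2 : fcs (st :: L) ++ facts = fcs L ++ st.F :: facts := by
        unfold fcs
        rw [List.map_cons, List.reverse_cons, List.append_assoc]
        rfl
      rw [e2]
      exact h1
    · rw [if_neg hst] at h
      exact absurd h (by simp)

end


lemma UM_full {Q : Type v} [AddCommGroup Q] (B : ℕ → Q) {s n : ℕ} (hs : 1 ≤ s) :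
    UM B s n (2 ^ (s * n) - 1) := by
  intro k hk
  left
  have e : 2 ^ (s * n) - 1 = rep s n (2 ^ s - 1) := by
    rw [rep_eq (by omega)]
    have hlt : ∀ m, ∑ j ∈ Finset.range m, (2 ^ s - 1) * 2 ^ (s * j) = 2 ^ (s * m) - 1 := by
      intro m
      induction m with
      | zero => simp
      | succ m ih =>
        rw [Finset.sum_range_succ, ih, mul_add, mul_one, pow_add]
        have a1 : 1 ≤ 2 ^ (s * m) := Nat.one_le_two_pow
        have a2 : 1 ≤ 2 ^ s := Nat.one_le_two_pow
        have a3 : 2 ^ (s * m) ≤ 2 ^ (s * m) * 2 ^ s := Nat.le_mul_of_pos_right _ (by omega)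
        have a4 : (2 ^ s - 1) * 2 ^ (s * m) = 2 ^ (s * m) * 2 ^ s - 2 ^ (s * m) := by
          rw [Nat.sub_mul, one_mul, mul_comm]
        omega
    rw [hlt]
  have a2 : 1 ≤ 2 ^ s := Nat.one_le_two_pow
  rw [e, dg_rep (by omega) (by omega) hk]


/-- check of a piece -/
def checkE (p s n mu t b : ℕ) (row : ℕ → List (ℤ × ℕ)) (ok : ℕ → Bool) (NM : ℕ)
    (pre cur : List Step2) : Bool :=
  (run3 p s n mu t b row ok cur (fcs pre) (nmk s n (fcs pre) NM)).isSome

theorem checkE_sound {Q : Type v} [AddCommGroup Q] (B : ℕ → Q) {p s n mu t b : ℕ}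
    (hp0 : 0 < p) (hs : 3 ≤ s) (hb : p * (2 ^ b - 1) + 7 < 2 ^ s) (hb2 : 2 ^ b ≤ 2 ^ s)
    (hp : ∀ k, (p:ℤ) • B k = 0) {row : ℕ → List (ℤ × ℕ)} {ok : ℕ → Bool}
    (hrow : ∀ i, ok i = true → ev B (row i) = 0) {NM : ℕ}
    (hZ : UM B s n NM) {pre cur : List Step2} (hpre : GF B n (fcs pre))
    (h : checkE p s n mu t b row ok NM pre cur = true) : GF B n (fcs (pre ++ cur)) := by
  unfold checkE at h
  have h1 := run3_good B hp0 hs hb hb2 hp hrow cur _ _ hpre (UM_nmk _ (by omega) _ _ hpre hZ) h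
  have e : fcs (pre ++ cur) = fcs cur ++ fcs pre := by
    unfold fcs
    rw [List.map_append, List.reverse_append]
  rw [e]
  exact h1

/-- the targets are flagged -/
def checkT (s n : ℕ) (NM : ℕ) (L : List Step2) (targets : List ℕ) : Bool :=
  Nat.ble 3 s &&
    (fun NM' => targets.all fun k => Nat.blt k n && Nat.beq (dg s NM' k) 0) (nmk s n (fcs L) NM)

theorem checkT_sound {Q : Type v} [AddCommGroup Q] (B : ℕ → Q) {s n : ℕ} {NM : ℕ}
    (hZ : UM B s n NM) {L : List Step2} (hL : GF B n (fcs L)) {targets : List ℕ}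
    (h : checkT s n NM L targets = true) : ∀ k ∈ targets, B k = 0 := by
  simp only [checkT, Bool.and_eq_true, Nat.ble_eq] at h
  obtain ⟨hs, h⟩ := h
  intro k hk
  have h6 := List.all_eq_true.mp h k hk
  rw [Bool.and_eq_true, Nat.blt_eq, Nat.beq_eq] at h6
  rcases UM_nmk _ (by omega) _ _ hL hZ k h6.1 with h8 | h8
  · rw [h6.2] at h8
    have : 8 ≤ 2 ^ s := by
      calc 8 = 2 ^ 3 := by norm_num
        _ ≤ 2 ^ s := Nat.pow_le_pow_right (by norm_num) hs
    omega
  · exact h8

end Run7.h607.S5
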